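import Pool.Agent.Helper10.Tannaka.FPhi

/-!
# The algebra `O` as a colimit, and its functional
-/

open CategoryTheory Opposite Limits MonoidalCategory TensorProduct Polynomial

namespace TannakaNil

open Base

lemma inclQ_toO {i j : ℕ} (h : i ≤ j) : inclQ h ≫ toO j = toO i := by
  apply sec_ext
  intro a m
  obtain ⟨p, rfl⟩ := (sQ _ a).surjective m
  rw [sec_comp_apply, sec_inclQ, sec_toO, sec_toO]

/-- The sequence of the sheaves `Q i`. -/
noncomputable def QS : ℕ ⥤ QCoh X0 where
  obj i := Q i
  map f := inclQ (leOfHom f)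
  map_id _ := inclQ_refl _
  map_comp _ _ := (inclQ_inclQ _ _).symm

/-- The cocone with point `O`. -/
noncomputable def coconeO : Cocone QS where
  pt := O
  ι :=
    { app := fun i => toO i
      naturality := fun i j f => by
        change inclQ (leOfHom f) ≫ toO j = toO i ≫ 𝟙 _
        rw [inclQ_toO, Category.comp_id] }

lemma mem_natDegree {A : Type} [CommRing A] (p : A[X]) : p ∈ degreeLT A (p.natDegree + 1) :=
  mem_degreeLT_succ.2 degree_le_natDegree

lemma natDegree_le_of_mem {A : Type} [CommRing A] {p : A[X]} {i : ℕ}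
    (h : p ∈ degreeLT A (i + 1)) : p.natDegree ≤ i :=
  natDegree_le_of_degree_le (mem_degreeLT_succ.1 h)

section desc

variable {N : QCoh X0} (g : ∀ i, Q i ⟶ N) (hg : ∀ {i j : ℕ} (h : i ≤ j), inclQ h ≫ g j = g i)

include hg in
lemma coconeQ_w {i j : ℕ} (h : i ≤ j) (a : X0.Tot) (p : a.ring[X])
    (hi : p ∈ degreeLT a.ring (i + 1)) (hj : p ∈ degreeLT a.ring (j + 1)) :
    sec (g i) a (sQ i a ⟨p, hi⟩) = sec (g j) a (sQ j a ⟨p, hj⟩) := by
  rw [← hg h, sec_comp_apply, sec_inclQ]

include hg in
lemma coconeQ_w' {i : ℕ} (a : X0.Tot) (p : a.ring[X])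
    (hi : p ∈ degreeLT a.ring (i + 1)) :
    sec (g p.natDegree) a (sQ p.natDegree a ⟨p, mem_natDegree p⟩) =
      sec (g i) a (sQ i a ⟨p, hi⟩) :=
  coconeQ_w g hg (natDegree_le_of_mem hi) a p _ _

/-- The induced map on sections. -/
noncomputable def descO (a : X0.Tot) : a.ring[X] →ₗ[a.ring] Sec N a where
  toFun p := sec (g p.natDegree) a (sQ p.natDegree a ⟨p, mem_natDegree p⟩)
  map_add' p q := by
    have hp : p ∈ degreeLT a.ring (max p.natDegree q.natDegree + 1) :=
      degreeLT_mono (Nat.succ_le_succ (le_max_left _ _)) (mem_natDegree p)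
    have hq : q ∈ degreeLT a.ring (max p.natDegree q.natDegree + 1) :=
      degreeLT_mono (Nat.succ_le_succ (le_max_right _ _)) (mem_natDegree q)
    rw [coconeQ_w' g hg a p hp, coconeQ_w' g hg a q hq, coconeQ_w' g hg a (p + q)
      (Submodule.add_mem _ hp hq), ← map_add, ← map_add]
    rfl
  map_smul' r p := by
    rw [coconeQ_w' g hg a (r • p) (Submodule.smul_mem _ r (mem_natDegree p)), RingHom.id_apply,
      ← map_smul, ← map_smul]
    rfl

lemma descO_eq {i : ℕ} (a : X0.Tot) (p : a.ring[X]) (hi : p ∈ degreeLT a.ring (i + 1)) :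
    descO g hg a p = sec (g i) a (sQ i a ⟨p, hi⟩) :=
  coconeQ_w' g hg a p hi

lemma descO_natural {a c : X0.Tot} (φ : a ⟶ c) (p : c.ring[X]) :
    descO g hg a (polyMap φ p) = res N φ (descO g hg c p) := by
  rw [descO_eq g hg c p (mem_natDegree p), descO_eq g hg a (polyMap φ p)
    (polyMap_mem φ _ (mem_natDegree p)), ← sec_res, res_sQ]
  rfl

/-- The induced morphism. -/
noncomputable def descOHom : O ⟶ N :=
  homMk (fun a => (descO g hg a).comp (sO a).symm.toLinearMap)
    (fun φ m => descO_natural g hg φ m)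

lemma toO_descOHom (i : ℕ) : toO i ≫ descOHom g hg = g i := by
  apply sec_ext
  intro a m
  obtain ⟨p, rfl⟩ := (sQ i a).surjective m
  exact descO_eq g hg a p p.2

lemma hom_ext_O {f f' : O ⟶ N} (h : ∀ i, toO i ≫ f = toO i ≫ f') : f = f' := by
  apply sec_ext
  intro a m
  obtain ⟨p, rfl⟩ := (sO a).surjective m
  exact congrArg (fun g => sec g a (sQ p.natDegree a ⟨p, mem_natDegree p⟩)) (h p.natDegree)

end desc

/-- The sheaf `O` is the colimit of the sheaves `Q i`. -/
noncomputable def isColimitO : IsColimit coconeO where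
  desc s := descOHom (N := s.pt) (fun i => s.ι.app i) (fun h => s.w (homOfLE h))
  fac s i := toO_descOHom (N := s.pt) (fun i => s.ι.app i) (fun h => s.w (homOfLE h)) i
  uniq s f hf := hom_ext_O (N := s.pt) (fun i => (hf i).trans
    (toO_descOHom (N := s.pt) (fun i => s.ι.app i) (fun h => s.w (homOfLE h)) i).symm)

lemma toO_mulO (i j : ℕ) : (toO i ⊗ₘ toO j) ≫ mulO = mulQ i j ≫ toO (i + j) := by
  apply sec_ext
  intro a m
  induction m using sec_induction with
  | zero => rw [map_zero, map_zero]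
  | tmul p q =>
    obtain ⟨p, rfl⟩ := (sQ i a).surjective p
    obtain ⟨q, rfl⟩ := (sQ j a).surjective q
    rw [sec_comp_apply, sec_comp_apply, sec_tensorHom, sec_toO, sec_toO, sec_mulQ, sec_toO,
      mulLT_val]
    rfl
  | add x y hx hy => rw [map_add, map_add, hx, hy]

/-- The unit of `O`. -/
noncomputable def unitO : 𝟙_ (QCoh X0) ⟶ O := unitQ 0 ≫ toO 0

lemma sec_unitO_one (a : X0.Tot) : sec unitO a (secUnit a 1) = sO a 1 := by
  rw [unitO, sec_comp_apply, sec_unitQ, sec_toO]
  congr 1

section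

variable {B : CommRingCat.{0}} (F : QCoh X0 ⥤ ModuleCat.{0} B) [F.Braided] [F.Additive]
  [PreservesColimitsOfSize.{0, 0} F] (Y : F.obj (Q 1)) (hY : fm F (lead 1) Y = f1 F)

lemma O_ext {N : Type} [AddCommGroup N] [Module B N] {f g : F.obj O →ₗ[B] N}
    (h : ∀ i (x : F.obj (Q i)), f (fm F (toO i) x) = g (fm F (toO i) x)) : f = g := by
  have h1 : ModuleCat.ofHom f = ModuleCat.ofHom g := by
    apply (isColimitOfPreserves F isColimitO).hom_ext
    intro i
    ext x
    exact h i x
  exact congrArg ModuleCat.Hom.hom h1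

/-- The cocone of functionals. -/
noncomputable def coconeφ : Cocone (QS ⋙ F) where
  pt := ModuleCat.of B B
  ι :=
    { app := fun i => ModuleCat.ofHom (φQ F Y hY i)
      naturality := fun i j f => by
        ext x
        exact φQ_incl F Y hY (leOfHom f) x }

/-- The functional on `F O`. -/
noncomputable def φO : F.obj O →ₗ[B] B :=
  ((isColimitOfPreserves F isColimitO).desc (coconeφ F Y hY)).hom

lemma φO_toO (i : ℕ) (x : F.obj (Q i)) : φO F Y hY (fm F (toO i) x) = φQ F Y hY i x := by
  have h := (isColimitOfPreserves F isColimitO).fac (coconeφ F Y hY) i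
  exact congrArg (fun l => l.hom x) h

lemma φO_mul (x y : F.obj O) :
    φO F Y hY (fm F mulO (ft F x y)) = φO F Y hY x * φO F Y hY y := by
  let f : F.obj O →ₗ[B] (F.obj O →ₗ[B] B) :=
    LinearMap.mk₂ B (fun x y => φO F Y hY (fm F mulO (ft F x y)))
      (fun x x' y => by rw [ft_add_left, map_add, map_add])
      (fun c x y => by rw [ft_smul_left, map_smul, map_smul])
      (fun x y y' => by rw [ft_add_right, map_add, map_add])
      (fun c x y => by rw [ft_smul_right, map_smul, map_smul])
  let g : F.obj O →ₗ[B] (F.obj O →ₗ[B] B) :=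
    LinearMap.mk₂ B (fun x y => φO F Y hY x * φO F Y hY y)
      (fun x x' y => by rw [map_add, add_mul])
      (fun c x y => by rw [map_smul, smul_mul_assoc])
      (fun x y y' => by rw [map_add, mul_add])
      (fun c x y => by rw [map_smul, mul_smul_comm])
  have : f = g := by
    apply O_ext F
    intro i x
    apply O_ext F
    intro j y
    change φO F Y hY (fm F mulO (ft F (fm F (toO i) x) (fm F (toO j) y))) =
      φO F Y hY (fm F (toO i) x) * φO F Y hY (fm F (toO j) y)
    rw [← fm_tensorHom, ← fm_comp, toO_mulO, fm_comp, φO_toO, φO_toO, φO_toO, φQ_mul]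
  exact congrArg (fun l => l x y) this

lemma φO_one : φO F Y hY (fm F unitO (f1 F)) = 1 := by
  rw [unitO, fm_comp, φO_toO, φQ_one]

end

end TannakaNil
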