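import Pool.Agent.Helper10.Tannaka.LP
import Pool.Agent.Helper10.Tannaka.OCol

/-!
# Generators of the category of quasi-coherent sheaves
-/

open CategoryTheory Opposite Limits MonoidalCategory TensorProduct Polynomial

namespace TannakaNil

open Base

/-- Truncation of polynomials. -/
noncomputable def truncLT (A : Type) [CommRing A] (n : ℕ) : A[X] →ₗ[A] degreeLT A n :=
  (degreeLTEquiv A n).symm.toLinearMap.comp (LinearMap.pi fun k => lcoeff A k)

lemma truncLT_coe {A : Type} [CommRing A] {n : ℕ} (p : degreeLT A n) :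
    truncLT A n (p : A[X]) = p := by
  change (degreeLTEquiv A n).symm _ = p
  rw [LinearEquiv.symm_apply_eq]
  rfl

/-- The retraction of `M ⊗ O` onto `M ⊗ Q i`, on sections. -/
noncomputable def retrQ (M : QCoh X0) (i : ℕ) (a : X0.Tot) :
    Sec (M ⊗ O) a →ₗ[a.ring] Sec (M ⊗ Q i) a :=
  (secTensor M (Q i) a).toLinearMap.comp ((LinearMap.lTensor (Sec M a)
    ((sQ i a).toLinearMap.comp ((truncLT a.ring (i + 1)).comp (sO a).symm.toLinearMap))).comp
      (secTensor M O a).symm.toLinearMap)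

lemma retrQ_tm (M : QCoh X0) (i : ℕ) (a : X0.Tot) (m : Sec M a) (p : a.ring[X]) :
    retrQ M i a (tm m (sO a p)) = tm m (sQ i a (truncLT a.ring (i + 1) p)) := rfl

lemma retrQ_toO (M : QCoh X0) (i : ℕ) (a : X0.Tot) (w : Sec (M ⊗ Q i) a) :
    retrQ M i a (sec (M ◁ toO i) a w) = w := by
  induction w using sec_induction with
  | zero => rw [map_zero, map_zero]
  | tmul m p =>
    obtain ⟨p, rfl⟩ := (sQ i a).surjective p
    rw [sec_whiskerLeft, sec_toO, retrQ_tm, truncLT_coe]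
  | add x y hx hy => rw [map_add, map_add, hx, hy]

lemma toO_injective (M : QCoh X0) (i : ℕ) (a : X0.Tot) :
    Function.Injective (sec (M ◁ toO i) a) :=
  Function.LeftInverse.injective (retrQ_toO M i a)

lemma exists_toO_mono {M : QCoh X0} {a : X0.Tot} {i j : ℕ} (h : i ≤ j) {w : Sec (M ⊗ O) a}
    (hw : ∃ v, sec (M ◁ toO i) a v = w) : ∃ v, sec (M ◁ toO j) a v = w := by
  obtain ⟨v, rfl⟩ := hw
  refine ⟨sec (M ◁ inclQ h) a v, ?_⟩
  rw [← sec_comp_apply, ← MonoidalCategory.whiskerLeft_comp, inclQ_toO]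

lemma exists_toO {M : QCoh X0} {a : X0.Tot} (w : Sec (M ⊗ O) a) :
    ∃ i, ∃ v, sec (M ◁ toO i) a v = w := by
  induction w using sec_induction with
  | zero => exact ⟨0, 0, map_zero _⟩
  | tmul m p =>
    obtain ⟨p, rfl⟩ := (sO a).surjective p
    exact ⟨p.natDegree, tm m (sQ _ a ⟨p, mem_natDegree p⟩), by rw [sec_whiskerLeft, sec_toO]⟩
  | add x y hx hy =>
    obtain ⟨i, hi⟩ := hx
    obtain ⟨j, hj⟩ := hy
    obtain ⟨v, hv⟩ := exists_toO_mono (le_max_left i j) hi
    obtain ⟨v', hv'⟩ := exists_toO_mono (le_max_right i j) hj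
    exact ⟨max i j, v + v', by rw [map_add, hv, hv']⟩

lemma IsL.of_injective {N N' : QCoh X0} (f : N ⟶ N') (hf : ∀ a, Function.Injective (sec f a))
    {n : ℕ} {p q : Sec N oo} (h : IsL N' n (sec f oo p) (sec f oo q)) : IsL N n p q where
  hq := by
    apply hf oo
    have h1 : sec f oo (base₀.t ^ n • q) = base₀.t ^ n • sec f oo q := map_smul _ _ _
    rw [h1, h.hq, map_zero]
  inv_q a g := by
    apply hf a
    rw [sec_res, sec_res, h.inv_q]
  inv_p a g s hs := by
    apply hf a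
    rw [map_add, map_smul, sec_res, sec_res, sec_res, h.inv_p a g s hs]

/-- The pair `(n, r)` is admissible for the section `m`. -/
def Adm (M : QCoh X0) (m : Sec M oo) (n r : ℕ) : Prop :=
  base₀.t ^ n • Qc M oo m = 0 ∧ (∃ w, sec (M ◁ toO (2 ^ r - 1)) oo w = Pc M oo m) ∧
    ∃ w, sec (M ◁ toO (2 ^ r - 1)) oo w = Qc M oo m

lemma exists_adm {M : QCoh X0} (m : Sec M oo) : ∃ n r, Adm M m n r := by
  obtain ⟨n, hn⟩ := exists_pow_smul_Qc M m
  obtain ⟨i, hi⟩ := exists_toO (Pc M oo m)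
  obtain ⟨j, hj⟩ := exists_toO (Qc M oo m)
  have h : max i j ≤ 2 ^ (max i j) - 1 := by
    have := Nat.lt_two_pow_self (n := max i j)
    omega
  exact ⟨n, max i j, hn, exists_toO_mono ((le_max_left i j).trans h) hi,
    exists_toO_mono ((le_max_right i j).trans h) hj⟩

lemma whisker_toO {M N : QCoh X0} (f : M ⟶ N) (i : ℕ) :
    (f ▷ Q i) ≫ (N ◁ toO i) = (M ◁ toO i) ≫ (f ▷ O) :=
  (whisker_exchange f (toO i)).symm

lemma Adm.map {M N : QCoh X0} (f : M ⟶ N) {m : Sec M oo} {n r : ℕ} (h : Adm M m n r) :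
    Adm N (sec f oo m) n r := by
  obtain ⟨h1, ⟨w, hw⟩, ⟨w', hw'⟩⟩ := h
  refine ⟨Qc_map f h1, ⟨sec (f ▷ Q _) oo w, ?_⟩, ⟨sec (f ▷ Q _) oo w', ?_⟩⟩
  · rw [← sec_comp_apply, whisker_toO, sec_comp_apply, hw, (PQ_map f oo m).1]
  · rw [← sec_comp_apply, whisker_toO, sec_comp_apply, hw', (PQ_map f oo m).2]

lemma Adm.zero {M : QCoh X0} {m : Sec M oo} {n r : ℕ} (h : Adm M m n r) :
    Adm M 0 n r := by
  have h1 := h.map (0 : M ⟶ M)
  rwa [sec_zero_apply] at h1

section ell

variable {M : QCoh X0} {m : Sec M oo} {n r : ℕ} (h : Adm M m n r)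

lemma Adm.isL : IsL (M ⊗ Q (2 ^ r - 1)) n h.2.1.choose h.2.2.choose := by
  apply IsL.of_injective (M ◁ toO (2 ^ r - 1)) (toO_injective M _)
  rw [h.2.1.choose_spec, h.2.2.choose_spec]
  exact isL_PQ M m n h.1

/-- The factorisation of `lP` through `M ⊗ Q i`. -/
noncomputable def Adm.ell : L n ⟶ M ⊗ Q (2 ^ r - 1) := lHom h.isL

lemma Adm.ell_toO : h.ell ≫ (M ◁ toO (2 ^ r - 1)) = lP M m n h.1 := by
  apply eq_lP
  · rw [sec_comp_apply, Adm.ell, sec_lHom_x, h.2.1.choose_spec]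
  · rw [sec_comp_apply, Adm.ell, sec_lHom_i, h.2.2.choose_spec]

end ell

lemma toO_mono {P M : QCoh X0} {i : ℕ} {f g : P ⟶ M ⊗ Q i}
    (h : f ≫ (M ◁ toO i) = g ≫ (M ◁ toO i)) : f = g := by
  apply sec_ext
  intro a p
  apply toO_injective M i a
  rw [← sec_comp_apply, ← sec_comp_apply, h]

lemma Adm.ell_map {M N : QCoh X0} (f : M ⟶ N) {m : Sec M oo} {n r : ℕ} (h : Adm M m n r) :
    h.ell ≫ (f ▷ Q _) = (h.map f).ell := by
  apply toO_mono
  rw [(h.map f).ell_toO, Category.assoc, whisker_toO, ← Category.assoc, h.ell_toO]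
  exact (lP_map h.1 f _).symm

/-- The generators. -/
noncomputable abbrev Gn (n r : ℕ) : QCoh X0 := L n ⊗ Q (2 ^ r - 1)

/-- The contraction. -/
noncomputable def midM (M : QCoh X0) (r : ℕ) :
    (M ⊗ Q (2 ^ r - 1)) ⊗ Q (2 ^ r - 1) ⟶ M :=
  (α_ M (Q (2 ^ r - 1)) (Q (2 ^ r - 1))).hom ≫
    (M ◁ (mulQ (2 ^ r - 1) (2 ^ r - 1) ≫ midc r)) ≫ (ρ_ M).hom

lemma midM_map {M N : QCoh X0} (f : M ⟶ N) (r : ℕ) :
    midM M r ≫ f = ((f ▷ Q (2 ^ r - 1)) ▷ Q (2 ^ r - 1)) ≫ midM N r := by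
  rw [midM, midM]
  simp only [Category.assoc]
  rw [← rightUnitor_naturality, whisker_exchange_assoc, associator_naturality_left_assoc]

/-- The morphism from a generator attached to a section. -/
noncomputable def Adm.fG {M : QCoh X0} {m : Sec M oo} {n r : ℕ} (h : Adm M m n r) :
    Gn n r ⟶ M := (h.ell ▷ Q (2 ^ r - 1)) ≫ midM M r

lemma Adm.fG_map {M N : QCoh X0} (f : M ⟶ N) {m : Sec M oo} {n r : ℕ} (h : Adm M m n r) :
    h.fG ≫ f = (h.map f).fG := by
  rw [Adm.fG, Adm.fG, Category.assoc, midM_map, ← h.ell_map f, comp_whiskerRight,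
    Category.assoc]

/-- The distinguished section of a generator. -/
noncomputable def wG (n r : ℕ) : Sec (Gn n r) oo :=
  tm (xL n oo) (sQ _ oo (monLT base₀.R (le_refl (2 ^ r - 1)) 1))

/-- The constant coefficient. -/
noncomputable def ccO (M : QCoh X0) (a : X0.Tot) : Sec (M ⊗ O) a →ₗ[a.ring] Sec M a :=
  (TensorProduct.rid a.ring (Sec M a)).toLinearMap.comp ((LinearMap.lTensor (Sec M a)
    ((lcoeff a.ring 0).comp (sO a).symm.toLinearMap)).comp
      (secTensor M O a).symm.toLinearMap)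

lemma ccO_tm (M : QCoh X0) (a : X0.Tot) (m : Sec M a) (p : a.ring[X]) :
    ccO M a (tm m (sO a p)) = p.coeff 0 • m := rfl

lemma midM_ccO (M : QCoh X0) (r : ℕ) (a : X0.Tot) (w : Sec (M ⊗ Q (2 ^ r - 1)) a) :
    sec (midM M r) a (tm w (sQ _ a (monLT a.ring (le_refl (2 ^ r - 1)) 1))) =
      ccO M a (sec (M ◁ toO (2 ^ r - 1)) a w) := by
  induction w using sec_induction with
  | zero => rw [tm_zero_left, map_zero, map_zero, map_zero]
  | tmul m p =>
    obtain ⟨p, rfl⟩ := (sQ _ a).surjective p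
    rw [midM, sec_comp_apply, sec_comp_apply, sec_associator_hom, sec_whiskerLeft,
      sec_comp_apply, sec_mulQ, sec_midc, sec_whiskerLeft, sec_toO, ccO_tm, mulLT_val]
    refine (sec_rightUnitor_hom _ _).trans ?_
    congr 1
    change ((p : a.ring[X]) * monomial (2 ^ r - 1) 1).coeff (2 ^ r - 1) = _
    rw [monomial_one_right_eq_X_pow]
    have h := coeff_mul_X_pow (p : a.ring[X]) (2 ^ r - 1) 0
    rw [zero_add] at h
    exact h
  | add x y hx hy => rw [tm_add_left, map_add, map_add, map_add, hx, hy]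

/-- The specialisation `x = y = 0`. -/
noncomputable def spE (A : Type) [CommRing A] : EAlg A →+* A where
  toFun z := z.re.coeff 0
  map_one' := by
    change (1 : A[X]).coeff 0 = 1
    rw [coeff_one_zero]
  map_zero' := coeff_zero 0
  map_add' z w := coeff_add _ _ _
  map_mul' z w := by
    rw [QuadraticAlgebra.re_mul, coeff_add, mul_assoc, mul_coeff_zero, mul_coeff_zero,
      coeff_X_zero, zero_mul, add_zero]

lemma spE_inE (A : Type) [CommRing A] (r : A) : spE A (inE A r) = r := coeff_C_zero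

lemma spE_jE (A : Type) [CommRing A] (p : A[X]) : spE A (jE A p) = p.coeff 0 := rfl

lemma spE_ωE (A : Type) [CommRing A] : spE A (ωE A) = 0 := coeff_zero 0

/-- The arrow given by the specialisation. -/
noncomputable def spArr (a : X0.Tot) : a ⟶ aE a :=
  ⟨CommRingCat.ofHom (spE a.ring), ⟨0, by
    apply CommRingCat.hom_ext
    apply RingHom.ext
    intro r
    exact spE_inE _ _⟩⟩

lemma spArr_ξE (a : X0.Tot) : spArr a ≫ ξE a = 𝟙 a := by
  apply tot_ext
  · apply CommRingCat.hom_ext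
    apply RingHom.ext
    intro r
    exact spE_inE _ _
  · change (0 : Gp (b := base₀) a.pt) + Gp.mk _ (spE a.ring (ωE a.ring), spE a.ring 0) = 0
    rw [spE_ωE, map_zero, zero_add]
    exact map_zero (Gp.mk _)

lemma spArr_can (a : X0.Tot) : spArr a ≫ can (aE a) 0 = can a 0 := by
  rw [can_comp, map_zero, add_zero]
  rfl

lemma res_spArr_θE (M : QCoh X0) (a : X0.Tot) (w : Sec (M ⊗ O) a) :
    res M (spArr a) (θE M a w) = ccO M a w := by
  induction w using sec_induction with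
  | zero => rw [map_zero, map_zero, map_zero]
  | tmul m p =>
    obtain ⟨p, rfl⟩ := (sO a).surjective p
    rw [θE_tm, ccO_tm]
    have h1 : res M (spArr a) (res M (ξE a) m) = m := by
      rw [← res_comp, spArr_ξE, res_id]
    have h2 : res M (spArr a) ((jE a.ring p : (aE a).ring) • res M (ξE a) m) =
        spE a.ring (jE a.ring p) • res M (spArr a) (res M (ξE a) m) := map_smulₛₗ _ _ _
    rw [h1, spE_jE] at h2
    exact h2
  | add x y hx hy => rw [map_add, map_add, map_add, hx, hy]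

lemma ccO_Pc (M : QCoh X0) (a : X0.Tot) (m : Sec M oo) : ccO M a (Pc M a m) = rz M a m := by
  have h := congrArg (res M (spArr a)) (PQ_spec M a m)
  have h1 : res M (spArr a) (ωE a.ring • θE M a (Qc M a m)) = 0 := by
    have h2 : res M (spArr a) ((ωE a.ring : (aE a).ring) • θE M a (Qc M a m)) =
        spE a.ring (ωE a.ring) • res M (spArr a) (θE M a (Qc M a m)) := map_smulₛₗ _ _ _
    rw [spE_ωE, zero_smul] at h2
    exact h2
  rw [map_add, h1, add_zero, res_spArr_θE, ← res_comp, spArr_can] at h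
  exact h

lemma Adm.fG_w {M : QCoh X0} {m : Sec M oo} {n r : ℕ} (h : Adm M m n r) :
    sec h.fG oo (wG n r) = m := by
  rw [Adm.fG, sec_comp_apply, wG, sec_whiskerRight, Adm.ell, sec_lHom_x]
  refine (midM_ccO M r oo _).trans ?_
  rw [h.2.1.choose_spec, ccO_Pc, rz_oo]

end TannakaNil
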