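import Mathlib

/-!
# The etale topology on affine schemes
-/

open CategoryTheory Opposite Limits AlgebraicGeometry

namespace TannakaNil

/-- A family of ring maps `A ⟶ B i` is an etale covering of `Spec A` if all its members are etale
and the maps `Spec (B i) → Spec A` are jointly surjective. -/
structure IsEtaleCovering {A : CommRingCat.{0}} {ι : Type} (B : ι → CommRingCat.{0})
    (f : ∀ i, A ⟶ B i) : Prop where
  etale : ∀ i, (f i).hom.Etale
  surj : ∀ p : PrimeSpectrum A, ∃ (i : ι) (q : PrimeSpectrum (B i)),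
    PrimeSpectrum.comap (f i).hom q = p

lemma exists_prime_pushout {A B A' : CommRingCat.{0}} (f : A ⟶ B) (g : A ⟶ A')
    (p' : PrimeSpectrum A') (q : PrimeSpectrum B)
    (h : PrimeSpectrum.comap f.hom q = PrimeSpectrum.comap g.hom p') :
    ∃ r : PrimeSpectrum (pushout f g : CommRingCat.{0}),
      PrimeSpectrum.comap (pushout.inr f g).hom r = p' := by
  have hp := isPullback_SpecMap_pushout f g
  obtain ⟨z, hz1, hz2⟩ := Scheme.Pullback.exists_preimage_pullback (f := Spec.map f)
    (g := Spec.map g) q p' h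
  refine ⟨hp.isoPullback.inv z, ?_⟩
  change (Spec.map (pushout.inr f g)) (hp.isoPullback.inv z) = p'
  rw [← hz2, ← Scheme.Hom.comp_apply, hp.isoPullback_inv_snd]

lemma IsEtaleCovering.pushout {A A' : CommRingCat.{0}} {ι : Type} {B : ι → CommRingCat.{0}}
    {f : ∀ i, A ⟶ B i} (hf : IsEtaleCovering B f) (g : A ⟶ A') :
    IsEtaleCovering (fun i => pushout (f i) g) (fun i => pushout.inr (f i) g) where
  etale i := by
    have h := RingHom.Etale.isStableUnderBaseChange.pushout_inl RingHom.Etale.respectsIso
      g (f i) (hf.etale i)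
    rw [← inl_comp_pushoutSymmetry_hom g (f i)]
    exact RingHom.Etale.stableUnderComposition _ _ h (RingHom.Etale.of_bijective
      (ConcreteCategory.bijective_of_isIso (pushoutSymmetry g (f i)).hom))
  surj p' := by
    obtain ⟨i, q, hq⟩ := hf.surj (PrimeSpectrum.comap g.hom p')
    obtain ⟨r, hr⟩ := exists_prime_pushout (f i) g p' q hq
    exact ⟨i, r, hr⟩

/-- A sieve on `Spec S`: a set of morphisms `Spec B ⟶ Spec S`, given by ring maps `S ⟶ B`, which
is closed under precomposition. -/
structure SpecSieve (S : CommRingCat.{0}) where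
  /-- the morphism `Spec B ⟶ Spec S` belongs to the sieve -/
  mem : ∀ {B : CommRingCat.{0}}, (S ⟶ B) → Prop
  comp_mem : ∀ {B C : CommRingCat.{0}} (f : S ⟶ B) (g : B ⟶ C), mem f → mem (f ≫ g)

/-- The covering sieves of the etale topology on affine schemes: the sieves which contain a finite
etale covering. -/
def SpecSieve.IsCovering {S : CommRingCat.{0}} (R : SpecSieve S) : Prop :=
  ∃ (ι : Type) (_ : Finite ι) (B : ι → CommRingCat.{0}) (f : ∀ i, S ⟶ B i),
    IsEtaleCovering B f ∧ ∀ i, R.mem (f i)

/-- The pullback of a sieve. -/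
def SpecSieve.pullback {S S' : CommRingCat.{0}} (R : SpecSieve S) (g : S ⟶ S') : SpecSieve S' where
  mem h := R.mem (g ≫ h)
  comp_mem f h hf := by
    rw [← Category.assoc]
    exact R.comp_mem _ _ hf

lemma SpecSieve.IsCovering.pullback {S S' : CommRingCat.{0}} {R : SpecSieve S}
    (hR : R.IsCovering) (g : S ⟶ S') : (R.pullback g).IsCovering := by
  obtain ⟨ι, hι, B, f, hf, hR⟩ := hR
  refine ⟨ι, hι, _, _, hf.pushout g, fun i => ?_⟩
  change R.mem (g ≫ pushout.inr (f i) g)
  rw [← pushout.condition]
  exact R.comp_mem _ _ (hR i)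

end TannakaNil
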