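import Pool.Agent.Helper10.Tannaka.Omega
import Pool.Agent.Helper10.Tannaka.Etale

/-!
# Algebraic stacks
-/

open CategoryTheory Opposite Limits AlgebraicGeometry

universe u v u' v'

namespace TannakaNil

/-- A descent datum in `X` relative to a sieve `R` on `Spec S`: a functor from the sieve
(regarded as a category over affine schemes) to `X`. -/
structure DescentDatum (X : AffCat.{u, v}) {S : CommRingCat.{0}} (R : SpecSieve S) where
  obj : ∀ {B : CommRingCat.{0}} (f : S ⟶ B), R.mem f → X.Obj B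
  map : ∀ {B C : CommRingCat.{0}} {f : S ⟶ B} {g : B ⟶ C} {k : S ⟶ C} (_ : f ≫ g = k)
    (hf : R.mem f) (hk : R.mem k), X.Hom g (obj k hk) (obj f hf)
  map_id : ∀ {B : CommRingCat.{0}} {f : S ⟶ B} (h : f ≫ 𝟙 B = f) (hf : R.mem f),
    map h hf hf = X.id (obj f hf)
  map_comp : ∀ {B C D : CommRingCat.{0}} {f : S ⟶ B} {g : B ⟶ C} {h : C ⟶ D} {gh : B ⟶ D}
    {k : S ⟶ C} {l : S ⟶ D} (e₁ : f ≫ g = k) (e₂ : k ≫ h = l) (e₃ : g ≫ h = gh)
    (e₄ : f ≫ gh = l) (hf : R.mem f) (hk : R.mem k) (hl : R.mem l),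
    map e₄ hf hl = X.comp e₃ (map e₂ hk hl) (map e₁ hf hk)

/-- `X` is a stack in groupoids on the etale site of affine schemes. -/
structure AffCat.IsStack (X : AffCat.{u, v}) : Prop where
  groupoids : X.IsFibredInGroupoids
  /-- Arrows can be glued: let `x` and `y` be objects over `Spec B` and `Spec A`, let
  `Spec B ⟶ Spec A` be a morphism and let `R` be a covering sieve of `Spec B`.  A compatible
  family of arrows `w ⟶ y` indexed by the arrows `w ⟶ x` lying over an arrow of `R` comes from a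
  unique arrow `x ⟶ y` over `Spec B ⟶ Spec A`. -/
  hom_glue : ∀ {A B : CommRingCat.{0}} (f : A ⟶ B) (x : X.Obj B) (y : X.Obj A)
    (R : SpecSieve B) (_ : R.IsCovering)
    (ψ : ∀ {C : CommRingCat.{0}} (g : B ⟶ C) (_ : R.mem g) (w : X.Obj C),
      X.Hom g w x → X.Hom (f ≫ g) w y)
    (_ : ∀ {C D : CommRingCat.{0}} (g : B ⟶ C) (h : C ⟶ D) (hg : R.mem g)
      (hgh : R.mem (g ≫ h)) (w : X.Obj C) (w' : X.Obj D) (φ : X.Hom g w x)
      (χ : X.Hom h w' w),
      ψ (g ≫ h) hgh w' (X.comp rfl χ φ) = X.comp (Category.assoc f g h) χ (ψ g hg w φ)),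
    ∃! ψ₀ : X.Hom f x y, ∀ {C : CommRingCat.{0}} (g : B ⟶ C) (hg : R.mem g) (w : X.Obj C)
      (φ : X.Hom g w x), X.comp rfl φ ψ₀ = ψ g hg w φ
  /-- Descent data relative to covering sieves are effective. -/
  effective : ∀ {S : CommRingCat.{0}} (R : SpecSieve S) (_ : R.IsCovering)
    (D : DescentDatum X R), ∃ (x : X.Obj S)
      (c : ∀ {B : CommRingCat.{0}} (f : S ⟶ B) (hf : R.mem f), X.Hom f (D.obj f hf) x),
      ∀ {B C : CommRingCat.{0}} {f : S ⟶ B} {g : B ⟶ C} {k : S ⟶ C} (h : f ≫ g = k)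
        (hf : R.mem f) (hk : R.mem k), X.comp h (D.map h hf hk) (c f hf) = c k hk

/-- A `Spec A`-valued point of the 2-fibre product `Spec S ×_X Spec S'`, where `Spec S ⟶ X` and
`Spec S' ⟶ X` are given by objects `x` and `y` of `X` over `Spec S` and `Spec S'`: an object `w`
over `Spec A` with arrows `w ⟶ x` and `w ⟶ y`. -/
structure Span (X : AffCat.{u, v}) {S S' : CommRingCat.{0}} (x : X.Obj S) (y : X.Obj S')
    (A : CommRingCat.{0}) where
  f : S ⟶ A
  g : S' ⟶ A
  w : X.Obj A
  α : X.Hom f w x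
  β : X.Hom g w y

/-- The point `s'` of the fibre product is (isomorphic to) the restriction of the point `s` along
`Spec B ⟶ Spec A`.  For `h = 𝟙 A` this says that the points `s` and `s'` are isomorphic. -/
def Span.IsRestr {X : AffCat.{u, v}} {S S' : CommRingCat.{0}} {x : X.Obj S} {y : X.Obj S'}
    {A B : CommRingCat.{0}} (h : A ⟶ B) (s : Span X x y A) (s' : Span X x y B) : Prop :=
  ∃ (m : X.Hom h s'.w s.w) (e₁ : s.f ≫ h = s'.f) (e₂ : s.g ≫ h = s'.g),
    X.comp e₁ m s.α = s'.α ∧ X.comp e₂ m s.β = s'.β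

/-- A presentation of the 2-fibre product `F = Spec S ×_X Spec S'` as the quotient of a scheme `U`
by an etale equivalence relation `W ⇉ U`: a morphism `U ⟶ F` (`pt`) which is an epimorphism of
etale sheaves (`surj`), together with an identification of the fibre product `U ×_F U` with
a scheme `W` whose two projections to `U` are etale (`mono`, `rel`).  If `X` is a stack, then `F`
is a sheaf, and the existence of such a presentation means that `F` is an algebraic space. -/
structure EtalePresentation (X : AffCat.{u, v}) {S S' : CommRingCat.{0}} (x : X.Obj S)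
    (y : X.Obj S') where
  U : Scheme.{0}
  W : Scheme.{0}
  p : W ⟶ U
  q : W ⟶ U
  etale_p : Etale p
  etale_q : Etale q
  pt : ∀ {A : CommRingCat.{0}}, (Spec A ⟶ U) → Span X x y A
  pt_restr : ∀ {A B : CommRingCat.{0}} (h : A ⟶ B) (a : Spec A ⟶ U),
    (pt a).IsRestr h (pt (Spec.map h ≫ a))
  surj : ∀ {A : CommRingCat.{0}} (s : Span X x y A), ∃ R : SpecSieve A, R.IsCovering ∧
    ∀ {B : CommRingCat.{0}} (h : A ⟶ B), R.mem h → ∃ b : Spec B ⟶ U, s.IsRestr h (pt b)
  mono : ∀ {A : CommRingCat.{0}} (r r' : Spec A ⟶ W), r ≫ p = r' ≫ p → r ≫ q = r' ≫ q → r = r'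
  rel : ∀ {A : CommRingCat.{0}} (a b : Spec A ⟶ U),
    (pt a).IsRestr (𝟙 A) (pt b) ↔ ∃ r : Spec A ⟶ W, r ≫ p = a ∧ r ≫ q = b

/-- An algebraic stack: a stack in groupoids on the etale site of affine schemes, such that all
fibre products `Spec S ×_X Spec S'` of affine schemes over `X` are algebraic spaces (equivalently,
the diagonal of `X` is representable by algebraic spaces), and such that there is a smooth
surjective morphism from a disjoint union of affine schemes to `X`.  No separation or finiteness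
conditions are imposed. -/
structure AlgStack extends AffCat.{u, v} where
  isStack : toAffCat.IsStack
  diagonal : ∀ {S S' : CommRingCat.{0}} (x : Obj S) (y : Obj S'),
    Nonempty (EtalePresentation toAffCat x y)
  atlas : ∃ (I : Type) (S : I → CommRingCat.{0}) (u : ∀ i, Obj (S i)),
    ∀ {A : CommRingCat.{0}} (y : Obj A), ∃ (E : ∀ i, EtalePresentation toAffCat (u i) y)
      (π : ∀ i, (E i).U ⟶ Spec A),
      (∀ i, Smooth (π i)) ∧
      (∀ (i : I) {B : CommRingCat.{0}} (b : Spec B ⟶ (E i).U),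
        b ≫ π i = Spec.map ((E i).pt b).g) ∧
      ∀ a : Spec A, ∃ (i : I) (u : (E i).U), π i u = a

/-- An algebraic stack `X` is quasi-compact and quasi-separated: all fibre products
`Spec S ×_X Spec S'` are quasi-compact and quasi-separated algebraic spaces (they have an etale
presentation `W ⇉ U` with `U` affine and `W` quasi-compact), and there is a smooth surjective
morphism from an affine scheme to `X`. -/
def AlgStack.IsQcqs (X : AlgStack.{u, v}) : Prop :=
  (∀ {S S' : CommRingCat.{0}} (x : X.Obj S) (y : X.Obj S'),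
    ∃ E : EtalePresentation X.toAffCat x y, IsAffine E.U ∧ CompactSpace E.W) ∧
  ∃ (S : CommRingCat.{0}) (u : X.Obj S), ∀ {A : CommRingCat.{0}} (y : X.Obj A),
    ∃ (E : EtalePresentation X.toAffCat u y) (π : E.U ⟶ Spec A), Smooth π ∧
      (∀ {B : CommRingCat.{0}} (b : Spec B ⟶ E.U), b ≫ π = Spec.map (E.pt b).g) ∧
      ∀ a : Spec A, ∃ u : E.U, π u = a

/-- A nilpotent closed immersion of stacks: `i` is a monomorphism (fully faithful), and there is an
`n` such that for every affine scheme `Spec S` with a morphism to `X`, given by an object `x`, the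
base change of `i` to `Spec S` is the closed immersion defined by an ideal `I` with `I ^ n = 0`:
a morphism `f : Spec B ⟶ Spec S` factors through `Spec (S / I)` if and only if the pullback of
`x` along `f` is isomorphic to an object of `X₀`. -/
def IsNilpotentClosedImmersion {X₀ : AffCat.{u, v}} {X : AffCat.{u', v'}} (i : Mor X₀ X) : Prop :=
  (∀ {A B : CommRingCat.{0}} (f : A ⟶ B) (x : X₀.Obj B) (y : X₀.Obj A),
    Function.Bijective (fun φ : X₀.Hom f x y => i.map φ)) ∧
  ∃ n : ℕ, ∀ {S : CommRingCat.{0}} (x : X.Obj S), ∃ I : Ideal S, I ^ n = ⊥ ∧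
    ∀ {B : CommRingCat.{0}} (f : S ⟶ B),
      (∃ z : X₀.Obj B, Nonempty (X.Hom f (i.obj z) x)) ↔ I ≤ RingHom.ker f.hom

end TannakaNil
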