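import Mathlib

/-!
# Exactness of the Amitsur complex in low degrees
-/

open TensorProduct

namespace TannakaNil

namespace Amitsur

variable (A C : Type) [CommRing A] [CommRing C] [Algebra A C]

variable {X : Type} [AddCommGroup X] [Module A X]

/-- The map `a ⊗ x ↦ 1 ⊗ (a ⊗ x) - a ⊗ d x`. -/
noncomputable def D (d : X →ₗ[A] C ⊗[A] X) : C ⊗[A] X →ₗ[A] C ⊗[A] (C ⊗[A] X) :=
  TensorProduct.mk A C (C ⊗[A] X) 1 - d.lTensor C

@[simp] lemma D_tmul (d : X →ₗ[A] C ⊗[A] X) (a : C) (x : X) :
    D A C d (a ⊗ₜ x) = (1 : C) ⊗ₜ[A] (a ⊗ₜ[A] x) - a ⊗ₜ d x := rfl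

lemma D_comp (d : X →ₗ[A] C ⊗[A] X) (h : D A C d ∘ₗ d = 0) : D A C (D A C d) ∘ₗ D A C d = 0 := by
  apply TensorProduct.ext'
  intro a x
  have h1 : D A C d (d x) = 0 := LinearMap.congr_fun h x
  simp only [LinearMap.comp_apply, D_tmul, map_sub, tmul_sub, h1, tmul_zero, LinearMap.zero_apply]
  abel

/-- The contraction. -/
noncomputable def contr (X : Type) [AddCommGroup X] [Module A X] :
    C ⊗[A] (C ⊗[A] X) →ₗ[A] C ⊗[A] X :=
  TensorProduct.lift (LinearMap.flip (TensorProduct.lift
    { toFun := fun v =>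
        { toFun := fun x =>
            { toFun := fun u => (u * v) ⊗ₜ x
              map_add' := fun u u' => by rw [add_mul, add_tmul]
              map_smul' := fun r u => by rw [smul_mul_assoc, smul_tmul']; rfl }
          map_add' := fun x y => by ext u; simp [tmul_add]
          map_smul' := fun r x => by ext u; simp }
      map_add' := fun v w => by ext x u; simp [mul_add, add_tmul]
      map_smul' := fun r v => by ext x u; simp [smul_tmul'] }))

@[simp] lemma contr_tmul (u v : C) (x : X) :
    contr A C X (u ⊗ₜ (v ⊗ₜ x)) = (u * v) ⊗ₜ x := rfl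

variable [Module.FaithfullyFlat A C]

lemma exact_D (d : X →ₗ[A] C ⊗[A] X) (h : D A C d ∘ₗ d = 0) :
    Function.Exact d (D A C d) := by
  rw [← Module.FaithfullyFlat.lTensor_exact_iff_exact (R := A) (M := C)]
  have key : ∀ w, contr A C (C ⊗[A] X) ((D A C d).lTensor C w) =
      w - d.lTensor C (contr A C X w) := by
    intro w
    have : contr A C (C ⊗[A] X) ∘ₗ (D A C d).lTensor C =
        LinearMap.id - d.lTensor C ∘ₗ contr A C X := by
      apply TensorProduct.ext'
      intro u w
      induction w with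
      | zero => simp
      | tmul a x =>
        simp only [LinearMap.comp_apply, LinearMap.lTensor_tmul, D_tmul, tmul_sub, map_sub,
          contr_tmul, mul_one, LinearMap.sub_apply, LinearMap.id_apply]
      | add x y hx hy => rw [tmul_add, map_add, map_add, hx, hy]
    exact LinearMap.congr_fun this w
  intro w
  constructor
  · intro hw
    have := key w
    rw [hw, map_zero] at this
    exact ⟨_, (sub_eq_zero.1 this.symm).symm⟩
  · rintro ⟨v, rfl⟩
    rw [← LinearMap.comp_apply, ← LinearMap.lTensor_comp, h]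
    simp

/-- The map `c ↦ 1 ⊗ c - c ⊗ 1`. -/
noncomputable def d1 : C →ₗ[A] C ⊗[A] C :=
  TensorProduct.mk A C C 1 - (TensorProduct.mk A C C).flip 1

omit [Module.FaithfullyFlat A C] in
@[simp] lemma d1_apply (c : C) : d1 A C c = 1 ⊗ₜ c - c ⊗ₜ 1 := rfl

omit [Module.FaithfullyFlat A C] in
lemma D_d1 : D A C (d1 A C) ∘ₗ d1 A C = 0 := by
  ext c
  simp [tmul_sub]

/-- The map `a ⊗ b ↦ 1 ⊗ a ⊗ b - a ⊗ 1 ⊗ b + a ⊗ b ⊗ 1`. -/
noncomputable abbrev d2 := D A C (d1 A C)

/-- The next map of the Amitsur complex. -/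
noncomputable abbrev d3 := D A C (d2 A C)

lemma exact1 : Function.Exact (d1 A C) (d2 A C) := exact_D A C _ (D_d1 A C)

lemma exact2 : Function.Exact (d2 A C) (d3 A C) := exact_D A C _ (D_comp A C _ (D_d1 A C))

lemma exact0 : Function.Exact (algebraMap A C) (d1 A C) := by
  change Function.Exact (Algebra.linearMap A C) (d1 A C)
  rw [← Module.FaithfullyFlat.lTensor_exact_iff_exact (R := A) (M := C)]
  have key : ∀ w, contr A C C ((d1 A C).lTensor C w) =
      w - (Algebra.linearMap A C).lTensor C
        ((TensorProduct.mk A C A).flip 1 (LinearMap.mul' A C w)) := by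
    intro w
    induction w with
    | zero => simp
    | tmul a x => simp [tmul_sub]
    | add x y hx hy =>
      simp only [map_add, hx, hy]
      abel
  intro w
  constructor
  · intro hw
    have := key w
    rw [hw, map_zero] at this
    exact ⟨_, (sub_eq_zero.1 this.symm).symm⟩
  · rintro ⟨v, rfl⟩
    rw [← LinearMap.comp_apply, ← LinearMap.lTensor_comp]
    have : d1 A C ∘ₗ Algebra.linearMap A C = 0 := by
      ext
      simp
    rw [this]
    simp

end Amitsur

end TannakaNil
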