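import Pool.Agent.Helper10.Tannaka.Cart

/-!
# Consequences of universality of semilinear maps
-/

open TensorProduct Polynomial

namespace TannakaNil

section

variable {A B M M' : Type} [CommRing A] [CommRing B] [AddCommGroup M] [Module A M]
  [AddCommGroup M'] [Module B M'] {f : A →+* B}

/-- A universal semilinear map is a base change. -/
lemma Univ.exists_equiv [Algebra A B] (hf : algebraMap A B = f) {u : M →ₛₗ[f] M'} (hu : Univ u) :
    ∃ e : (B ⊗[A] M) ≃ₗ[B] M', ∀ m, e (1 ⊗ₜ m) = u m := by
  subst hf
  let : Module A M' := Module.compHom M' (algebraMap A B)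
  have : IsScalarTower A B M' := ⟨fun a b m => by
    rw [Algebra.smul_def, mul_smul]; rfl⟩
  let u' : M →ₗ[A] M' :=
    { toFun := u
      map_add' := u.map_add
      map_smul' := fun r m => u.map_smulₛₗ r m }
  have h : IsBaseChange B u' := by
    apply IsBaseChange.of_lift_unique
    intro Q _ _ _ _ g
    let iQ : AddCommGroup Q := Module.addCommMonoidToAddCommGroup A
    obtain ⟨g', hg', huniq⟩ := hu Q
      { toFun := g
        map_add' := g.map_add
        map_smul' := fun r m => by
          rw [map_smul, algebraMap_smul] }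
    refine ⟨g', ?_, ?_⟩
    · ext m
      exact hg' m
    · intro g'' hg''
      apply huniq
      intro m
      exact congrArg (fun l => l m) hg''
  refine ⟨h.equiv, fun m => ?_⟩
  rw [IsBaseChange.equiv_tmul, one_smul]
  rfl

lemma Univ.injective_of_faithfullyFlat [Algebra A B] [Module.FaithfullyFlat A B]
    (hf : algebraMap A B = f) {u : M →ₛₗ[f] M'} (hu : Univ u) : Function.Injective u := by
  obtain ⟨e, he⟩ := hu.exists_equiv hf
  intro m m' h
  rw [← he, ← he] at h
  exact Module.FaithfullyFlat.tensorProduct_mk_injective (A := A) (B := B) M (e.injective h)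

lemma Univ.exists_pow_smul_eq_zero (t : A) [Algebra A B] [IsLocalization.Away t B]
    (hf : algebraMap A B = f) {u : M →ₛₗ[f] M'} (hu : Univ u) (m : M) (h : u m = 0) :
    ∃ n : ℕ, t ^ n • m = 0 := by
  obtain ⟨e, he⟩ := hu.exists_equiv hf
  rw [← he] at h
  have h1 : TensorProduct.mk A B M 1 m = 0 := e.injective (h.trans (map_zero e).symm)
  have h2 : IsLocalizedModule (Submonoid.powers t) (TensorProduct.mk A B M 1) := by
    rw [isLocalizedModule_iff_isBaseChange (Submonoid.powers t) B]
    exact TensorProduct.isBaseChange A M B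
  obtain ⟨⟨_, n, rfl⟩, hc⟩ := (IsLocalizedModule.eq_zero_iff (Submonoid.powers t)
    (TensorProduct.mk A B M 1)).1 h1
  exact ⟨n, hc⟩

end

section quad

/-- The ring `A[y][x] / (x² + x + y)` (in characteristic two). -/
abbrev EAlg (A : Type) [CommRing A] : Type := QuadraticAlgebra A[X] X 1

variable {A V V' : Type} [CommRing A] [AddCommGroup V] [Module A V]
  [AddCommGroup V'] [Module (EAlg A) V']

/-- The inclusion of `A`. -/
noncomputable def inE (A : Type) [CommRing A] : A →+* EAlg A :=
  (algebraMap A[X] (EAlg A)).comp C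

/-- The inclusion of `A[y]`. -/
noncomputable def jE (A : Type) [CommRing A] : A[X] →+* EAlg A := algebraMap A[X] (EAlg A)

/-- The element `x`. -/
noncomputable def ωE (A : Type) [CommRing A] : EAlg A := ⟨0, 1⟩

/-- The map `v ⊗ f ↦ f • u v`. -/
noncomputable def thetaE (u : V →ₛₗ[inE A] V') : V ⊗[A] A[X] →ₛₗ[inE A] V' :=
  TensorProduct.lift
    { toFun := fun v =>
        { toFun := fun p => jE A p • u v
          map_add' := fun p q => by rw [map_add, add_smul]
          map_smul' := fun r p => by
            rw [smul_eq_C_mul, map_mul, mul_smul]; rfl }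
      map_add' := fun v w => by ext p; simp
      map_smul' := fun r v => by
        refine LinearMap.ext fun p => ?_
        change jE A p • u (r • v) = inE A r • (jE A p • u v)
        rw [map_smulₛₗ, smul_comm] }

@[simp] lemma thetaE_tmul (u : V →ₛₗ[inE A] V') (v : V) (p : A[X]) :
    thetaE u (v ⊗ₜ p) = jE A p • u v := rfl

/-- The decomposition of the base change to `A[y][x] / (x² + x + y)`. -/
lemma thetaE_bijective {u : V →ₛₗ[inE A] V'} (hu : Univ u) :
    Function.Bijective (fun w : (V ⊗[A] A[X]) × (V ⊗[A] A[X]) =>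
      thetaE u w.1 + ωE A • thetaE u w.2) := by
  let : Module A V' := Module.compHom V' (inE A)
  have halg : algebraMap A (EAlg A) = inE A := rfl
  have : IsScalarTower A (EAlg A) V' := ⟨fun a b m => by
    rw [Algebra.smul_def, mul_smul, halg]; rfl⟩
  obtain ⟨e, he⟩ := hu.exists_equiv halg
  let e₁ : (A[X] × A[X]) ≃ₗ[A] EAlg A :=
    { toFun := fun p => ⟨p.1, p.2⟩
      invFun := fun z => (z.re, z.im)
      map_add' := fun p q => rfl
      map_smul' := fun r p => rfl
      left_inv := fun p => rfl
      right_inv := fun z => rfl }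
  let e₂ : ((V ⊗[A] A[X]) × (V ⊗[A] A[X])) ≃ₗ[A] V' :=
    (TensorProduct.prodRight A A V A[X] A[X]).symm ≪≫ₗ
      (TensorProduct.congr (LinearEquiv.refl A V) e₁) ≪≫ₗ
      (TensorProduct.comm A V (EAlg A)) ≪≫ₗ (e.restrictScalars A)
  have he' : ∀ (v : V) (z : EAlg A), e (z ⊗ₜ v) = z • u v := by
    intro v z
    rw [← he, ← map_smul, smul_tmul', smul_eq_mul, mul_one]
  have h1 : ∀ w, e₂ (w, 0) = thetaE u w := by
    intro w
    induction w with
    | zero => rw [map_zero]; exact map_zero e₂
    | tmul v p =>
      rw [thetaE_tmul]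
      have : (TensorProduct.prodRight A A V A[X] A[X]).symm (v ⊗ₜ p, 0) = v ⊗ₜ (p, 0) := by
        rw [LinearEquiv.symm_apply_eq]; simp
      change e ((TensorProduct.comm A V (EAlg A)) ((TensorProduct.congr
        (LinearEquiv.refl A V) e₁) ((TensorProduct.prodRight A A V A[X] A[X]).symm
        (v ⊗ₜ p, 0)))) = _
      rw [this, TensorProduct.congr_tmul, TensorProduct.comm_tmul, he']
      rfl
    | add x y hx hy =>
      rw [map_add, ← hx, ← hy, ← map_add]
      simp
  have h2 : ∀ w, e₂ (0, w) = ωE A • thetaE u w := by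
    intro w
    induction w with
    | zero => rw [map_zero, smul_zero]; exact map_zero e₂
    | tmul v p =>
      rw [thetaE_tmul]
      have : (TensorProduct.prodRight A A V A[X] A[X]).symm (0, v ⊗ₜ p) = v ⊗ₜ (0, p) := by
        rw [LinearEquiv.symm_apply_eq]; simp
      change e ((TensorProduct.comm A V (EAlg A)) ((TensorProduct.congr
        (LinearEquiv.refl A V) e₁) ((TensorProduct.prodRight A A V A[X] A[X]).symm
        (0, v ⊗ₜ p)))) = _
      rw [this, TensorProduct.congr_tmul, TensorProduct.comm_tmul, he', smul_smul]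
      congr 1
      change (⟨0, p⟩ : EAlg A) = ⟨0, 1⟩ * ⟨p, 0⟩
      rw [QuadraticAlgebra.mk_mul_mk]
      simp
    | add x y hx hy =>
      rw [map_add, smul_add, ← hx, ← hy, ← map_add]
      simp
  have h3 : (fun w : (V ⊗[A] A[X]) × (V ⊗[A] A[X]) =>
      thetaE u w.1 + ωE A • thetaE u w.2) = e₂ := by
    funext w
    rw [← h1, ← h2, ← map_add]
    simp
  rw [h3]
  exact e₂.bijective

end quad

end TannakaNil
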