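import Mathlib

/-!
# Cartesian presheaves of modules
-/

open CategoryTheory Opposite Limits MonoidalCategory

namespace TannakaNil

/-- A presheaf of modules `M` over a presheaf of rings `R` is cartesian if for every arrow `φ` the
map `M.map φ` exhibits its target as the extension of scalars of its source along `R.map φ`, i.e.
it is the universal linear map from its source to the restriction of scalars of a module over the
ring attached to the target. -/
def IsCartesian {C : Type*} [Category* C] (R : Cᵒᵖ ⥤ RingCat.{0}) :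
    ObjectProperty (PresheafOfModules.{0} R) := fun M =>
  ∀ ⦃a b : Cᵒᵖ⦄ (φ : a ⟶ b) (Q : ModuleCat.{0} (R.obj b))
    (g : M.obj a ⟶ (ModuleCat.restrictScalars (R.map φ).hom).obj Q),
    ∃! g' : M.obj b ⟶ Q,
      M.map φ ≫ (ModuleCat.restrictScalars (R.map φ).hom).map g' = g

section Colim

variable {C : Type*} [Category* C] (R : Cᵒᵖ ⥤ RingCat.{0})

instance (J : Type) [Category.{0} J] : (IsCartesian R).IsClosedUnderColimitsOfShape J where
  colimitsOfShape_le := by
    rintro M ⟨⟨⟨diag, ι, hc⟩, hprop⟩⟩ a b φ Q g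
    let i (j : J) : diag.obj j ⟶ M := ι.app j
    have hi {j k : J} (f : j ⟶ k) : diag.map f ≫ i k = i j := by
      exact (ι.naturality f).trans (Category.comp_id (i j))
    have hprop' : ∀ j, IsCartesian R (diag.obj j) := hprop
    have key : ∀ j : J, ∃! g' : (diag.obj j).obj b ⟶ Q,
        (diag.obj j).map φ ≫ (ModuleCat.restrictScalars (R.map φ).hom).map g' =
          (i j).app a ≫ g :=
      fun j => hprop' j φ Q ((i j).app a ≫ g)
    choose g' hg' hu using key
    have hcb := isColimitOfPreserves (PresheafOfModules.evaluation R b) hc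
    have hca := isColimitOfPreserves (PresheafOfModules.evaluation R a) hc
    have exb : ∃ d : M.obj b ⟶ Q, ∀ j, (i j).app b ≫ d = g' j := by
      let s : Cocone (diag ⋙ PresheafOfModules.evaluation R b) :=
        { pt := Q
          ι :=
            { app := g'
              naturality := by
                intro j k f
                change (diag.map f).app b ≫ g' k = g' j ≫ 𝟙 Q
                rw [Category.comp_id]
                apply hu
                rw [Functor.map_comp, PresheafOfModules.Hom.naturality_assoc]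
                have h1 := hg' k
                dsimp only at h1
                rw [h1, ← hi f, PresheafOfModules.comp_app, Category.assoc] } }
      exact ⟨hcb.desc s, fun j => hcb.fac s j⟩
    have unb : ∀ d d' : M.obj b ⟶ Q, (∀ j, (i j).app b ≫ d = (i j).app b ≫ d') → d = d' :=
      fun d d' h => hcb.hom_ext h
    have una : ∀ d d' : M.obj a ⟶ (ModuleCat.restrictScalars (R.map φ).hom).obj Q,
        (∀ j, (i j).app a ≫ d = (i j).app a ≫ d') → d = d' :=
      fun d d' h => hca.hom_ext h
    obtain ⟨d, hd⟩ := exb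
    refine ⟨d, ?_, ?_⟩
    · apply una
      intro j
      rw [← PresheafOfModules.Hom.naturality_assoc, ← Functor.map_comp, hd]
      exact hg' j
    · intro g'' hg''
      apply unb
      intro j
      rw [hd j]
      apply hu
      rw [Functor.map_comp, PresheafOfModules.Hom.naturality_assoc]
      rw [hg'']

end Colim

section Lift

variable {C : Type*} [Category* C] {R : Cᵒᵖ ⥤ RingCat.{0}} {M : PresheafOfModules.{0} R}

/-- The cartesian property in terms of semilinear maps. -/
lemma isCartesian_iff : IsCartesian R M ↔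
    ∀ ⦃a b : Cᵒᵖ⦄ (φ : a ⟶ b) (Q : Type) [AddCommGroup Q] [Module (R.obj b) Q]
      (g : M.obj a →ₛₗ[(R.map φ).hom] Q),
      ∃! g' : M.obj b →ₗ[R.obj b] Q, ∀ m, g' (M.map φ m) = g m := by
  constructor
  · intro h a b φ Q _ _ g
    obtain ⟨g', hg', hu⟩ := h φ (ModuleCat.of _ Q) (ModuleCat.ofHom
      (Y := (ModuleCat.restrictScalars (R.map φ).hom).obj (ModuleCat.of (R.obj b) Q))
      { toFun := g, map_add' := g.map_add, map_smul' := g.map_smulₛₗ })
    refine ⟨g'.hom, ?_, ?_⟩
    · intro m
      exact congrArg (fun t => t.hom m) hg'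
    · intro g'' hg''
      have := hu (ModuleCat.ofHom g'') (by
        ext m
        exact hg'' m)
      rw [← this]
      rfl
  · intro h a b φ Q g
    obtain ⟨g', hg', hu⟩ := h φ Q
      { toFun := g.hom, map_add' := g.hom.map_add, map_smul' := g.hom.map_smul }
    refine ⟨ModuleCat.ofHom g', ?_, ?_⟩
    · ext m
      exact hg' m
    · intro g'' hg''
      have := hu g''.hom (by
        intro m
        exact congrArg (fun t => t.hom m) hg'')
      rw [← this]
      rfl

end Lift

section Univ

open TensorProduct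

variable {A B M N M' N' : Type} [CommRing A] [CommRing B] [AddCommGroup M] [AddCommGroup N]
  [Module A M] [Module A N] [AddCommGroup M'] [AddCommGroup N'] [Module B M'] [Module B N']
  {f : A →+* B}

/-- A semilinear map is a universal semilinear map. -/
def Univ (u : M →ₛₗ[f] M') : Prop :=
  ∀ (Q : Type) [AddCommGroup Q] [Module B Q] (g : M →ₛₗ[f] Q),
      ∃! g' : M' →ₗ[B] Q, ∀ m, g' (u m) = g m

lemma Univ.eq {u : M →ₛₗ[f] M'} (hu : Univ u) {Q : Type} [AddCommGroup Q] [Module B Q]
    {g h : M' →ₗ[B] Q} (e : ∀ m, g (u m) = h (u m)) : g = h := by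
  obtain ⟨k, _, hk⟩ := hu Q (h.comp u)
  rw [hk g e, hk h (fun _ => rfl)]

lemma Univ.tensor {u : M →ₛₗ[f] M'} {v : N →ₛₗ[f] N'} (hu : Univ u) (hv : Univ v)
    (w : M ⊗[A] N →ₛₗ[f] M' ⊗[B] N') (hw : ∀ m n, w (m ⊗ₜ n) = u m ⊗ₜ v n) : Univ w := by
  intro Q _ _ g
  have h1 : ∀ n : N, ∃ h : M' →ₗ[B] Q, ∀ m, h (u m) = g (m ⊗ₜ n) := by
    intro n
    obtain ⟨h, hh, _⟩ := hu Q
      { toFun := fun m => g (m ⊗ₜ n)
        map_add' := fun x y => by rw [add_tmul, map_add]
        map_smul' := fun r x => by rw [← smul_tmul', map_smulₛₗ] }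
    exact ⟨h, hh⟩
  choose h hh using h1
  let hl : N →ₛₗ[f] (M' →ₗ[B] Q) :=
    { toFun := h
      map_add' := fun x y => hu.eq fun m => by
        rw [hh, LinearMap.add_apply, hh, hh, tmul_add, map_add]
      map_smul' := fun r x => hu.eq fun m => by
        rw [hh, LinearMap.smul_apply, hh, tmul_smul, map_smulₛₗ] }
  obtain ⟨h', hh', _⟩ := hv (M' →ₗ[B] Q) hl
  refine ⟨TensorProduct.lift h'.flip, ?_, ?_⟩
  · intro t
    induction t with
    | zero => simp
    | tmul m n =>
      rw [hw, TensorProduct.lift.tmul, LinearMap.flip_apply, hh']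
      exact hh n m
    | add x y hx hy => rw [map_add, map_add, hx, hy, map_add]
  · intro g'' hg''
    have e : (TensorProduct.mk B M' N').compr₂ g'' = h'.flip := by
      have e' : ((TensorProduct.mk B M' N').compr₂ g'').flip = h' := by
        apply hv.eq
        intro n
        apply hu.eq
        intro m
        rw [LinearMap.flip_apply, LinearMap.compr₂_apply, TensorProduct.mk_apply, ← hw, hg'', hh']
        exact (hh n m).symm
      rw [← e', LinearMap.flip_flip]
    refine TensorProduct.ext' fun m' n' => ?_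
    have := congrArg (fun t => t m' n') e
    simpa using this

end Univ

section Tensor

variable {C : Type*} [Category* C] (O : Cᵒᵖ ⥤ CommRingCat.{0})

instance : (IsCartesian (O ⋙ forget₂ CommRingCat.{0} RingCat.{0})).ContainsUnit where
  prop_unit := by
    rw [isCartesian_iff]
    intro a b φ Q _ _ g
    let _ : Module (O.obj b) Q := inferInstanceAs (Module ((O ⋙ forget₂ _ RingCat.{0}).obj b) Q)
    refine ⟨LinearMap.toSpanSingleton (O.obj b) Q (g (1 : O.obj a)), ?_, ?_⟩
    · intro m
      change (O.map φ).hom (m : O.obj a) • g (1 : O.obj a) = g m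
      have h := g.map_smulₛₗ (m : O.obj a) (1 : O.obj a)
      refine Eq.trans ?_ (h.symm.trans ?_)
      · rfl
      · congr 1
        exact @mul_one (O.obj a) _ m
    · intro g'' hg''
      have h1 := hg'' (1 : O.obj a)
      refine LinearMap.ext fun x => ?_
      have h2 := g''.map_smul (show O.obj b from x) (1 : O.obj b)
      have h3 : (show O.obj b from x) • (1 : O.obj b) = x := mul_one _
      have h4 : g'' (1 : O.obj b) = g (1 : O.obj a) := by
        refine Eq.trans ?_ h1
        congr 1
        exact ((O.map φ).hom.map_one).symm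
      refine (congrArg g'' h3.symm).trans (h2.trans ?_)
      rw [h4]
      rfl


lemma univ_of_isCartesian {R : Cᵒᵖ ⥤ CommRingCat.{0}}
    {M : PresheafOfModules.{0} (R ⋙ forget₂ CommRingCat.{0} RingCat.{0})}
    (hM : IsCartesian _ M) {a b : Cᵒᵖ} (φ : a ⟶ b) :
    Univ (A := R.obj a) (B := R.obj b) (M := M.obj a) (M' := M.obj b) (M.restrictₛₗ φ) := by
  intro Q _ iQ g
  let _ : Module ((R ⋙ forget₂ CommRingCat.{0} RingCat.{0}).obj b) Q := iQ
  exact isCartesian_iff.1 hM φ Q g

instance : (IsCartesian (O ⋙ forget₂ CommRingCat.{0} RingCat.{0})).TensorLE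
    (IsCartesian (O ⋙ forget₂ CommRingCat.{0} RingCat.{0}))
    (IsCartesian (O ⋙ forget₂ CommRingCat.{0} RingCat.{0})) where
  prop_tensor M N hM hN := by
    rw [isCartesian_iff]
    intro a b φ Q _ iQ g
    let _ : Module (O.obj b) Q := iQ
    exact (univ_of_isCartesian hM φ).tensor (univ_of_isCartesian hN φ)
      ((M ⊗ N).restrictₛₗ φ) (fun m n => rfl) Q g

instance : (IsCartesian (O ⋙ forget₂ CommRingCat.{0} RingCat.{0})).IsMonoidal where

end Tensor

end TannakaNil
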