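import Pool.Agent.Helper10.Tannaka.Omega

/-!
# Quasi-coherent sheaves and the Tannaka comparison functor
-/

open CategoryTheory Opposite Limits MonoidalCategory

universe u v u' v'

namespace TannakaNil

/-- The natural transformation between the functors on total categories given by a
2-morphism. -/
def Mor.Hom.tot {T : AffCat.{u, v}} {X : AffCat.{u', v'}} {F G : Mor T X} (θ : G ⟶ F) :
    G.tot ⟶ F.tot where
  app := Mor.arrow θ
  naturality _ _ φ := Mor.arrow_naturality θ φ

/-- Linearity of a map between the underlying presheaves of abelian groups. -/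
def IsLinear {C : Type u} [Category.{v} C] {R : Cᵒᵖ ⥤ RingCat.{0}} {M N : PresheafOfModules.{0} R}
    (φ : M.presheaf ⟶ N.presheaf) : Prop :=
  ∀ (x : Cᵒᵖ) (r : R.obj x) (m : M.obj x), φ.app x (r • m) = r • φ.app x m

/-- Presheaves of modules over the structure sheaf, on the total category of `X`. -/
def PSh (X : AffCat.{u, v}) : Type (max 1 u v) :=
  PresheafOfModules.{0} (X.𝒪 ⋙ forget₂ CommRingCat.{0} RingCat.{0})

namespace PSh

section

variable (X : AffCat.{u, v})

noncomputable instance : Category (PSh X) :=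
  (inferInstance : Category (PresheafOfModules.{0} (X.𝒪 ⋙ forget₂ CommRingCat.{0} RingCat.{0})))

noncomputable instance : Preadditive (PSh X) :=
  (inferInstance : Preadditive
    (PresheafOfModules.{0} (X.𝒪 ⋙ forget₂ CommRingCat.{0} RingCat.{0})))

noncomputable instance : MonoidalCategory (PSh X) :=
  (inferInstance : MonoidalCategory
    (PresheafOfModules.{0} (X.𝒪 ⋙ forget₂ CommRingCat.{0} RingCat.{0})))

noncomputable instance : SymmetricCategory (PSh X) :=
  (inferInstance : SymmetricCategory
    (PresheafOfModules.{0} (X.𝒪 ⋙ forget₂ CommRingCat.{0} RingCat.{0})))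

end

variable {X : AffCat.{u, v}}

/-- Pullback of presheaves of modules along a 1-morphism `F : T ⟶ X`: the sections of the
pullback of `M` over `t` are the sections of `M` over `F t`. -/
noncomputable def pull {T : AffCat.{u', v'}} (F : Mor T X) : PSh X ⥤ PSh T :=
  PresheafOfModules.pushforward₀OfCommRingCat F.tot X.𝒪

noncomputable instance {T : AffCat.{u', v'}} (F : Mor T X) : (pull F).Monoidal :=
  (inferInstance : (PresheafOfModules.pushforward₀OfCommRingCat F.tot X.𝒪).Monoidal)

theorem pull_braided {T : AffCat.{u', v'}} (F : Mor T X) (M N : PSh X) :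
    Functor.LaxMonoidal.μ (pull F) M N ≫ (pull F).map (β_ M N).hom =
      (β_ ((pull F).obj M) ((pull F).obj N)).hom ≫ Functor.LaxMonoidal.μ (pull F) N M := by
  apply PresheafOfModules.hom_ext
  intro a
  exact ModuleCat.MonoidalCategory.tensor_ext (fun _ _ ↦ rfl)

/-- The map of presheaves of abelian groups underlying `PSh.pullMapApp`. -/
noncomputable def pullMapAb {T : AffCat.{u', v'}} {F G : Mor T X} (θ : G ⟶ F) (M : PSh X) :
    F.tot.op ⋙ PresheafOfModules.presheaf M ⟶ G.tot.op ⋙ PresheafOfModules.presheaf M :=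
  Functor.whiskerRight (NatTrans.op θ.tot) (PresheafOfModules.presheaf M)

theorem pullMapAb_isLinear {T : AffCat.{u', v'}} {F G : Mor T X} (θ : G ⟶ F) (M : PSh X) :
    IsLinear (M := (pull F).obj M) (N := (pull G).obj M) (pullMapAb θ M) :=
  fun t r m => PresheafOfModules.map_smul M (Mor.arrow θ t.unop).op r m

/-- The morphism `F^* M ⟶ G^* M` induced by a 2-morphism `θ : G ⟶ F`: on the sections over `t`
it is the map `M (F t) → M (G t)` given by the component `G t ⟶ F t` of `θ`. -/
noncomputable def pullMapApp {T : AffCat.{u', v'}} {F G : Mor T X} (θ : G ⟶ F) (M : PSh X) :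
    (pull F).obj M ⟶ (pull G).obj M :=
  PresheafOfModules.homMk (pullMapAb θ M) (pullMapAb_isLinear θ M)

end PSh

/-- The property of being a quasi-coherent sheaf: for every arrow `φ : a ⟶ b` of the total
category, lying over `Spec B ⟶ Spec A`, the restriction map from the sections over `b` to the
sections over `a` exhibits its target as the extension of scalars of its source to `B`. -/
def IsQSheaf (X : AffCat.{u, v}) : ObjectProperty (PSh X) :=
  fun M => IsCartesian (X.𝒪 ⋙ forget₂ CommRingCat.{0} RingCat.{0}) M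

theorem isQSheaf_tensor (X : AffCat.{u, v}) : (IsQSheaf X).IsMonoidal :=
  (inferInstance : (IsCartesian (X.𝒪 ⋙ forget₂ CommRingCat.{0} RingCat.{0})).IsMonoidal)

instance (X : AffCat.{u, v}) : (IsQSheaf X).IsMonoidal := isQSheaf_tensor X

/-- The category of quasi-coherent sheaves on `X`. -/
def QSheaf (X : AffCat.{u, v}) : Type (max 1 u v) := (IsQSheaf X).FullSubcategory

namespace QSheaf

section

variable (X : AffCat.{u, v})

noncomputable instance : Category (QSheaf X) :=
  (inferInstance : Category (IsQSheaf X).FullSubcategory)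

noncomputable instance : Preadditive (QSheaf X) :=
  (inferInstance : Preadditive (IsQSheaf X).FullSubcategory)

noncomputable instance : MonoidalCategory (QSheaf X) :=
  (inferInstance : MonoidalCategory (IsQSheaf X).FullSubcategory)

noncomputable instance : SymmetricCategory (QSheaf X) :=
  (inferInstance : SymmetricCategory (IsQSheaf X).FullSubcategory)

end

variable {T : AffCat.{u, v}} {X : AffCat.{u', v'}}

theorem pull_isQSheaf (F : Mor T X) (M : QSheaf X) :
    IsQSheaf T (((IsQSheaf X).ι ⋙ PSh.pull F).obj M) := by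
  intro a b φ Q g
  exact M.property (F.tot.op.map φ) Q g

/-- Pullback of quasi-coherent sheaves along a 1-morphism `F : T ⟶ X`: the sections of the
pullback of `M` over `t` are the sections of `M` over `F t`. -/
noncomputable def pull (F : Mor T X) : QSheaf X ⥤ QSheaf T :=
  (IsQSheaf T).lift ((IsQSheaf X).ι ⋙ PSh.pull F) (pull_isQSheaf F)

noncomputable instance (F : Mor T X) : (pull F).Monoidal :=
  liftMonoidal (IsQSheaf T) ((IsQSheaf X).ι ⋙ PSh.pull F) (pull_isQSheaf F)

theorem pull_braided (F : Mor T X) (M N : QSheaf X) :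
    Functor.LaxMonoidal.μ (pull F) M N ≫ (pull F).map (β_ M N).hom =
      (β_ ((pull F).obj M) ((pull F).obj N)).hom ≫ Functor.LaxMonoidal.μ (pull F) N M := by
  apply ObjectProperty.hom_ext
  exact PSh.pull_braided F M.obj N.obj

noncomputable instance (F : Mor T X) : (pull F).Braided where
  braided := pull_braided F

theorem pull_additive (F : Mor T X) : (pull F).Additive where
  map_add := rfl

theorem pull_cocontinuous (F : Mor T X) : PreservesColimitsOfSize.{0, 0} (pull F) :=
  (inferInstance : PreservesColimitsOfSize.{0, 0} (TannakaNil.pull F))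

/-- The morphism `F^* M ⟶ G^* M` induced by a 2-morphism `θ : G ⟶ F`: on the sections over `t`
it is the map `M (F t) → M (G t)` given by the component `G t ⟶ F t` of `θ`. -/
noncomputable def pullMapApp {F G : Mor T X} (θ : G ⟶ F) (M : QSheaf X) :
    (pull F).obj M ⟶ (pull G).obj M :=
  ObjectProperty.homMk (PSh.pullMapApp θ M.obj)

theorem pullMap_natural {F G : Mor T X} (θ : G ⟶ F) {M N : QSheaf X} (f : M ⟶ N) :
    (pull F).map f ≫ pullMapApp θ N = pullMapApp θ M ≫ (pull G).map f :=
  (TannakaNil.pullMap θ).naturality (X := M) (Y := N) f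

/-- The natural transformation `F^* ⟶ G^*` induced by a 2-morphism. -/
noncomputable def pullMap {F G : Mor T X} (θ : G ⟶ F) : pull F ⟶ pull G where
  app := pullMapApp θ
  naturality _ _ := pullMap_natural θ

theorem pullMap_isMonoidal {F G : Mor T X} (θ : G ⟶ F) : NatTrans.IsMonoidal (pullMap θ) :=
  (inferInstance : NatTrans.IsMonoidal (TannakaNil.pullMap θ))

theorem pullMap_id (F : Mor T X) : pullMap (𝟙 F) = 𝟙 (pull F) := TannakaNil.pullMap_id F

theorem pullMap_comp {F G H : Mor T X} (θ : G ⟶ F) (θ' : H ⟶ G) :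
    pullMap (θ' ≫ θ) = pullMap θ ≫ pullMap θ' := TannakaNil.pullMap_comp θ θ'

/-- The cocontinuous tensor functor `F^*`. -/
noncomputable def pullT (F : Mor T X) : TensorFunctor (QSheaf X) (QSheaf T) where
  functor := pull F
  additive := pull_additive F
  cocontinuous := pull_cocontinuous F

/-- The morphism of tensor functors `F^* ⟶ G^*` induced by a 2-morphism. -/
noncomputable def pullMapT {F G : Mor T X} (θ : G ⟶ F) : pullT F ⟶ pullT G :=
  { hom := pullMap θ
    isMonoidal := pullMap_isMonoidal θ }

theorem pullMapT_id (F : Mor T X) : pullMapT (𝟙 F) = 𝟙 (pullT F) :=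
  TensorFunctor.hom_ext (pullMap_id F)

theorem pullMapT_comp {F G H : Mor T X} (θ : G ⟶ F) (θ' : H ⟶ G) :
    pullMapT (θ' ≫ θ) = pullMapT θ ≫ pullMapT θ' :=
  TensorFunctor.hom_ext (pullMap_comp θ θ')

end QSheaf

/-- The inverse of a 2-morphism. -/
noncomputable def Mor.invHom {T : AffCat.{u, v}} {X : AffCat.{u', v'}}
    (hX : X.IsFibredInGroupoids) {F G : Mor T X} (η : F ⟶ G) : G ⟶ F :=
  @inv _ _ _ _ η (hX.isIso η)

theorem Mor.invHom_id {T : AffCat.{u, v}} {X : AffCat.{u', v'}}
    (hX : X.IsFibredInGroupoids) (F : Mor T X) : Mor.invHom hX (𝟙 F) = 𝟙 F :=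
  @IsIso.inv_id _ _ F

theorem Mor.invHom_comp {T : AffCat.{u, v}} {X : AffCat.{u', v'}}
    (hX : X.IsFibredInGroupoids) {F G H : Mor T X} (η : F ⟶ G) (η' : G ⟶ H) :
    Mor.invHom hX (η ≫ η') = Mor.invHom hX η' ≫ Mor.invHom hX η := by
  have := hX.isIso η
  have := hX.isIso η'
  exact IsIso.inv_comp

/-- **The Tannaka comparison functor** `ω_X(T) : Hom(T, X) ⥤ Hom_{c⊗}(QCoh X, QCoh T)`,
`F ↦ F^*`.  A 2-morphism `η : F ⟶ G` is sent to the natural transformation `F^* ⟶ G^*` whose
value on the sheaf `M` and the object `t` of `T` is the map `M (F t) → M (G t)` induced by the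
arrow `η⁻¹ : G t ⟶ F t`. -/
noncomputable def omega (T : AffCat.{u, v}) (X : AffCat.{u', v'}) (hX : X.IsFibredInGroupoids) :
    Mor T X ⥤ TensorFunctor (QSheaf X) (QSheaf T) where
  obj := QSheaf.pullT
  map η := QSheaf.pullMapT (Mor.invHom hX η)
  map_id F := by rw [Mor.invHom_id, QSheaf.pullMapT_id]
  map_comp η η' := by rw [Mor.invHom_comp, QSheaf.pullMapT_comp]

theorem omega_isEquivalence {T : AffCat.{u, v}} {X : AffCat.{u', v'}}
    {hX : X.IsFibredInGroupoids} (h : (tannaka T X hX).IsEquivalence) :
    (omega T X hX).IsEquivalence := h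

theorem omega_faithful {T : AffCat.{u, v}} {X : AffCat.{u', v'}}
    {hX : X.IsFibredInGroupoids} (h : (omega T X hX).Faithful) :
    (tannaka T X hX).Faithful := h

end TannakaNil
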