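import Pool.Agent.Helper10.Tannaka.Nil

/-!
# Coordinates on the group `G₀`
-/

open CategoryTheory Opposite Limits

namespace TannakaNil

open Base

section char2

variable {A : Type} [CommRing A] (h2 : ∀ a : A, a + a = 0)

include h2 in
lemma add_sq_char2 (a c : A) : (a + c) ^ 2 = a ^ 2 + c ^ 2 := by
  have h := h2 (a * c)
  linear_combination h

include h2 in
lemma add_pow_char2 (a c : A) (i : ℕ) : (a + c) ^ 2 ^ i = a ^ 2 ^ i + c ^ 2 ^ i := by
  induction i with
  | zero => simp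
  | succ i ih => rw [pow_succ, pow_mul, ih, add_sq_char2 h2, ← pow_mul, ← pow_mul]

/-- The sum `Σ_{i < n} a^(2^i)`. -/
def artin (n : ℕ) (a : A) : A := ∑ i ∈ Finset.range n, a ^ 2 ^ i

lemma artin_succ (n : ℕ) (a : A) : artin (n + 1) a = artin n a + a ^ 2 ^ n := by
  rw [artin, Finset.sum_range_succ]; rfl

lemma artin_zero (a : A) : artin 0 a = 0 := by rw [artin, Finset.sum_range_zero]

include h2 in
lemma artin_add (n : ℕ) (a c : A) : artin n (a + c) = artin n a + artin n c := by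
  unfold artin
  rw [← Finset.sum_add_distrib]
  exact Finset.sum_congr rfl fun i _ => add_pow_char2 h2 a c i

include h2 in
lemma artin_sq_add (n : ℕ) (a : A) : artin n (a ^ 2) = artin n a + a + a ^ 2 ^ n := by
  induction n with
  | zero => simp [artin_zero, h2]
  | succ n ih =>
    rw [artin_succ, ih, artin_succ, ← pow_mul, ← pow_succ']
    linear_combination -h2 (a ^ 2 ^ n) + h2 (a ^ 2 ^ n)

include h2 in
lemma sq_artin (n : ℕ) (a : A) : (artin n a) ^ 2 = artin n (a ^ 2) := by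
  induction n with
  | zero => simp [artin_zero]
  | succ n ih =>
    rw [artin_succ, add_sq_char2 h2, ih, artin_succ]
    congr 1
    rw [← pow_mul, ← pow_mul, mul_comm]

lemma map_artin {A' : Type} [CommRing A'] (f : A →+* A') (n : ℕ) (a : A) :
    f (artin n a) = artin n (f a) := by
  unfold artin
  rw [map_sum]
  exact Finset.sum_congr rfl fun i _ => map_pow f _ _

end char2

variable {A B : CommRingCat.{0}}

lemma base₀_e (z : base₀.R ⟶ A) : z.hom base₀.e = 0 := map_zero z.hom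

/-- The element `t` of a ring over `F₂[t]`. -/
noncomputable abbrev tz (z : base₀.R ⟶ A) : A := z.hom base₀.t

lemma rel_fst (z : base₀.R ⟶ A) (c : A) : (rel z c).1 = tz z * c := by
  rw [rel_apply, base₀_e, add_zero]

lemma rel_snd (z : base₀.R ⟶ A) (c : A) : (rel z c).2 = tz z * c ^ 2 + c := rfl

/-- The homomorphism `(x, s) ↦ x² + x + t s` on pairs. -/
noncomputable def yP (z : base₀.R ⟶ A) : A × A →+ A where
  toFun v := v.1 ^ 2 + v.1 + tz z * v.2
  map_zero' := by simp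
  map_add' v w := by
    change (v.1 + w.1) ^ 2 + (v.1 + w.1) + tz z * (v.2 + w.2) = _
    rw [add_sq_char2 (add_self_of z)]
    ring

/-- The homomorphism `y : G(A) → A`. -/
noncomputable def yG (z : base₀.R ⟶ A) : Gp z →+ A :=
  QuotientAddGroup.lift (rel z).range (yP z) (by
    rintro _ ⟨c, rfl⟩
    change (rel z c).1 ^ 2 + (rel z c).1 + tz z * (rel z c).2 = 0
    rw [rel_fst, rel_snd]
    linear_combination add_self_of z (tz z ^ 2 * c ^ 2) + add_self_of z (tz z * c))

@[simp] lemma yG_mk (z : base₀.R ⟶ A) (v : A × A) :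
    yG z (Gp.mk z v) = v.1 ^ 2 + v.1 + tz z * v.2 := rfl

/-- The ideal generated by `t ^ n`. -/
noncomputable abbrev tI (z : base₀.R ⟶ A) (n : ℕ) : Ideal A := Ideal.span {tz z ^ n}

lemma mem_tI {z : base₀.R ⟶ A} {n : ℕ} {a : A} : a ∈ tI z n ↔ ∃ c, a = tz z ^ n * c := by
  rw [Ideal.mem_span_singleton']
  constructor
  · rintro ⟨c, rfl⟩; exact ⟨c, mul_comm _ _⟩
  · rintro ⟨c, rfl⟩; exact ⟨c, mul_comm _ _⟩

lemma pow_mem_tI (z : base₀.R ⟶ A) (n m : ℕ) (h : n ≤ m) (c : A) : (tz z * c) ^ m ∈ tI z n := by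
  rw [mem_tI]
  obtain ⟨k, rfl⟩ := Nat.exists_eq_add_of_le h
  exact ⟨(tz z) ^ k * c ^ (n + k), by rw [mul_pow]; ring⟩

lemma lt_two_pow' (n : ℕ) : n ≤ 2 ^ n := Nat.le_of_lt Nat.lt_two_pow_self

/-- The homomorphism `(x, s) ↦ x + Σ_{i < n} (t s)^(2^i)` on pairs. -/
noncomputable def xP (z : base₀.R ⟶ A) (n : ℕ) : A × A →+ A where
  toFun v := v.1 + artin n (tz z * v.2)
  map_zero' := by
    simp only [Prod.fst_zero, Prod.snd_zero, mul_zero, zero_add]
    rw [artin]
    exact Finset.sum_eq_zero fun i _ => zero_pow (by positivity)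
  map_add' v w := by
    change (v.1 + w.1) + artin n (tz z * (v.2 + w.2)) = _
    rw [mul_add, artin_add (add_self_of z)]
    abel

/-- The homomorphism `x_n : G(A) → A / t^n`. -/
noncomputable def xG (z : base₀.R ⟶ A) (n : ℕ) : Gp z →+ A ⧸ tI z n :=
  QuotientAddGroup.lift (rel z).range
    ((Ideal.Quotient.mk (tI z n)).toAddMonoidHom.comp (xP z n)) (by
    rintro _ ⟨c, rfl⟩
    change (Ideal.Quotient.mk (tI z n)) ((rel z c).1 + artin n (tz z * (rel z c).2)) = 0
    rw [Ideal.Quotient.eq_zero_iff_mem, rel_fst, rel_snd]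
    have h1 : tz z * (tz z * c ^ 2 + c) = (tz z * c) ^ 2 + tz z * c := by ring
    have h2 := add_self_of z
    rw [h1, artin_add h2, artin_sq_add h2]
    have h3 : tz z * c + (artin n (tz z * c) + tz z * c + (tz z * c) ^ 2 ^ n +
        artin n (tz z * c)) = (tz z * c) ^ 2 ^ n := by
      linear_combination h2 (tz z * c) + h2 (artin n (tz z * c))
    rw [h3]
    exact pow_mem_tI z n _ (lt_two_pow' n) c)

@[simp] lemma xG_mk (z : base₀.R ⟶ A) (n : ℕ) (v : A × A) :
    xG z n (Gp.mk z v) = Ideal.Quotient.mk (tI z n) (v.1 + artin n (tz z * v.2)) := rfl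

lemma yG_map {z : base₀.R ⟶ A} {z' : base₀.R ⟶ B} (f : A ⟶ B) (h : z ≫ f = z') (g : Gp z) :
    yG z' (Gp.map f h g) = f.hom (yG z g) := by
  subst h
  induction g using Gp.ind with
  | h v => simp [yG_mk]

lemma tI_le_comap {z : base₀.R ⟶ A} {z' : base₀.R ⟶ B} (f : A ⟶ B) (h : z ≫ f = z') (n : ℕ) :
    tI z n ≤ (tI z' n).comap f.hom := by
  subst h
  rw [Ideal.span_singleton_le_iff_mem, Ideal.mem_comap, map_pow]
  exact Ideal.mem_span_singleton_self _

/-- The map `A / t^n → B / t^n`. -/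
noncomputable def qmap {z : base₀.R ⟶ A} {z' : base₀.R ⟶ B} (f : A ⟶ B) (h : z ≫ f = z')
    (n : ℕ) : A ⧸ tI z n →+* B ⧸ tI z' n :=
  Ideal.quotientMap (tI z' n) f.hom (tI_le_comap f h n)

@[simp] lemma qmap_mk {z : base₀.R ⟶ A} {z' : base₀.R ⟶ B} (f : A ⟶ B) (h : z ≫ f = z')
    (n : ℕ) (a : A) : qmap f h n (Ideal.Quotient.mk _ a) = Ideal.Quotient.mk _ (f.hom a) := rfl

lemma xG_map {z : base₀.R ⟶ A} {z' : base₀.R ⟶ B} (f : A ⟶ B) (h : z ≫ f = z') (n : ℕ)
    (g : Gp z) : xG z' n (Gp.map f h g) = qmap f h n (xG z n g) := by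
  subst h
  induction g using Gp.ind with
  | h v =>
    rw [Gp.map_mk, xG_mk, xG_mk, qmap_mk]
    congr 1
    rw [map_add, map_artin, map_mul]
    rfl

lemma quot_mk_eq {z : base₀.R ⟶ A} {n : ℕ} {a c : A} :
    Ideal.Quotient.mk (tI z n) a = Ideal.Quotient.mk (tI z n) c ↔ ∃ d, a - c = tz z ^ n * d := by
  rw [Ideal.Quotient.mk_eq_mk_iff_sub_mem, mem_tI]

/-- The transition map `A / t^(n+1) → A / t^n`. -/
noncomputable def qtr (z : base₀.R ⟶ A) (n : ℕ) : A ⧸ tI z (n + 1) →+* A ⧸ tI z n :=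
  Ideal.Quotient.factor (by
    rw [Ideal.span_singleton_le_iff_mem, mem_tI]
    exact ⟨tz z, pow_succ _ _⟩)

@[simp] lemma qtr_mk (z : base₀.R ⟶ A) (n : ℕ) (a : A) :
    qtr z n (Ideal.Quotient.mk _ a) = Ideal.Quotient.mk _ a := rfl

lemma xG_tr (z : base₀.R ⟶ A) (n : ℕ) (g : Gp z) : qtr z n (xG z (n + 1) g) = xG z n g := by
  induction g using Gp.ind with
  | h v =>
    rw [xG_mk, xG_mk, qtr_mk, artin_succ, ← add_assoc, map_add]
    have : Ideal.Quotient.mk (tI z n) ((tz z * v.2) ^ 2 ^ n) = 0 := by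
      rw [Ideal.Quotient.eq_zero_iff_mem]
      exact pow_mem_tI z n _ (lt_two_pow' n) v.2
    rw [this, add_zero]

/-- The relation between the coordinates. -/
lemma xG_sq_add (z : base₀.R ⟶ A) (n : ℕ) (g : Gp z) :
    xG z n g ^ 2 + xG z n g = Ideal.Quotient.mk _ (yG z g) := by
  induction g using Gp.ind with
  | h v =>
    rw [xG_mk, yG_mk, ← map_pow, ← map_add]
    have h2 := add_self_of z
    rw [add_sq_char2 h2, sq_artin h2]
    have e : (tz z * v.2) ^ 2 = (tz z * v.2) ^ 2 := rfl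
    rw [artin_sq_add h2]
    have h3 : v.1 ^ 2 + (artin n (tz z * v.2) + tz z * v.2 + (tz z * v.2) ^ 2 ^ n) +
        (v.1 + artin n (tz z * v.2)) = (v.1 ^ 2 + v.1 + tz z * v.2) + (tz z * v.2) ^ 2 ^ n := by
      linear_combination h2 (artin n (tz z * v.2))
    rw [h3, map_add]
    have : Ideal.Quotient.mk (tI z n) ((tz z * v.2) ^ 2 ^ n) = 0 := by
      rw [Ideal.Quotient.eq_zero_iff_mem]
      exact pow_mem_tI z n _ (lt_two_pow' n) v.2
    rw [this, add_zero]

/-- The coordinates separate the elements of `G₀`. -/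
lemma coord_injective (z : base₀.R ⟶ A) (g : Gp z) (hy : yG z g = 0) (hx : xG z 1 g = 0) :
    g = 0 := by
  have h2 := add_self_of z
  induction g using Gp.ind with
  | h v =>
    rw [xG_mk, Ideal.Quotient.eq_zero_iff_mem, mem_tI] at hx
    obtain ⟨c, hc⟩ := hx
    rw [yG_mk] at hy
    have e1 : artin 1 (tz z * v.2) = tz z * v.2 := by simp [artin]
    rw [e1, pow_one] at hc
    rw [Gp.mk_eq_zero]
    obtain ⟨x, s⟩ := v
    simp only at hc hy ⊢
    set τ := tz z
    -- x = τ (c - s)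
    have hx' : x = τ * (c + s) := by linear_combination hc - h2 (τ * s)
    refine ⟨c + s + (τ * (c + s) ^ 2 + c), ?_⟩
    have hy' : τ * (τ * (c + s) ^ 2 + (c + s) + s) = 0 := by
      rw [hx'] at hy
      linear_combination hy
    have hcc : τ * (τ * (c + s) ^ 2 + c) = 0 := by
      linear_combination hy' - h2 (τ * s)
    ext
    · rw [rel_fst]
      change τ * _ = x
      rw [hx']
      linear_combination hcc
    · rw [rel_snd]
      change τ * _ + _ = s
      set d := τ * (c + s) ^ 2 + c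
      have h5 : (c + s + d) ^ 2 = (c + s) ^ 2 + d ^ 2 := add_sq_char2 h2 _ _
      rw [h5]
      have h6 : τ * d ^ 2 = 0 := by
        rw [pow_two, ← mul_assoc, hcc, zero_mul]
      linear_combination h6 + h2 d

/-- All pairs of coordinates satisfying the relation occur. -/
lemma coord_surjective (z : base₀.R ⟶ A) (y : A) (x : A ⧸ tI z 1)
    (h : x ^ 2 + x = Ideal.Quotient.mk _ y) : ∃ g : Gp z, yG z g = y ∧ xG z 1 g = x := by
  have h2 := add_self_of z
  obtain ⟨x, rfl⟩ := Ideal.Quotient.mk_surjective x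
  rw [← map_pow, ← map_add, quot_mk_eq] at h
  obtain ⟨d, hd⟩ := h
  rw [pow_one] at hd
  refine ⟨Gp.mk z (x, d), ?_, ?_⟩
  · rw [yG_mk]
    change x ^ 2 + x + tz z * d = y
    linear_combination hd + h2 (tz z * d)
  · rw [xG_mk, quot_mk_eq]
    refine ⟨d, ?_⟩
    have e1 : artin 1 (tz z * d) = tz z * d := by simp [artin]
    change x + artin 1 (tz z * d) - x = _
    rw [e1]
    ring

end TannakaNil
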