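import Pool.Agent.Helper10.Tannaka.Alg

/-!
# Effectivity of descent data can be checked on covering families
-/

open CategoryTheory Opposite Limits

universe u v

namespace TannakaNil

/-- Arrows can be glued (this is the second condition in the definition of a stack). -/
def AffCat.HomGlue (X : AffCat.{u, v}) : Prop :=
  ∀ {A B : CommRingCat.{0}} (f : A ⟶ B) (x : X.Obj B) (y : X.Obj A)
    (R : SpecSieve B) (_ : R.IsCovering)
    (ψ : ∀ {C : CommRingCat.{0}} (g : B ⟶ C) (_ : R.mem g) (w : X.Obj C),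
      X.Hom g w x → X.Hom (f ≫ g) w y)
    (_ : ∀ {C D : CommRingCat.{0}} (g : B ⟶ C) (h : C ⟶ D) (hg : R.mem g)
      (hgh : R.mem (g ≫ h)) (w : X.Obj C) (w' : X.Obj D) (φ : X.Hom g w x)
      (χ : X.Hom h w' w),
      ψ (g ≫ h) hgh w' (X.comp rfl χ φ) = X.comp (Category.assoc f g h) χ (ψ g hg w φ)),
    ∃! ψ₀ : X.Hom f x y, ∀ {C : CommRingCat.{0}} (g : B ⟶ C) (hg : R.mem g) (w : X.Obj C)
      (φ : X.Hom g w x), X.comp rfl φ ψ₀ = ψ g hg w φ

variable {X : AffCat.{u, v}} (hX : X.IsFibredInGroupoids) (hglue : X.HomGlue)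
  {S : CommRingCat.{0}}

include hX in
lemma exists_lift {R : SpecSieve S} (D : DescentDatum X R) {B C : CommRingCat.{0}} {f : S ⟶ B}
    {g : B ⟶ C} {k : S ⟶ C} (e : f ≫ g = k) (hf : R.mem f) (hk : R.mem k)
    (w : X.Obj C) (φ : X.Hom g w (D.obj f hf)) :
    ∃ χ : X.Hom (𝟙 C) w (D.obj k hk), X.comp (Category.comp_id g) χ (D.map e hf hk) = φ :=
  (hX.existsUnique_lift (Category.comp_id g) (D.map e hf hk) φ).exists

include hX hglue in
/-- A solution of the descent problem on a smaller covering sieve extends. -/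
lemma extend_solution {R R₀ : SpecSieve S}
    (hle : ∀ {B : CommRingCat.{0}} (f : S ⟶ B), R₀.mem f → R.mem f) (hR₀ : R₀.IsCovering) (D : DescentDatum X R) (x : X.Obj S)
    (c₀ : ∀ {B : CommRingCat.{0}} (f : S ⟶ B) (hf : R₀.mem f), X.Hom f (D.obj f (hle _ hf)) x)
    (hc₀ : ∀ {B C : CommRingCat.{0}} {f : S ⟶ B} {g : B ⟶ C} {k : S ⟶ C} (h : f ≫ g = k)
        (hf : R₀.mem f) (hk : R₀.mem k),
        X.comp h (D.map h (hle _ hf) (hle _ hk)) (c₀ f hf) = c₀ k hk) :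
    ∃ (c : ∀ {B : CommRingCat.{0}} (f : S ⟶ B) (hf : R.mem f), X.Hom f (D.obj f hf) x),
      ∀ {B C : CommRingCat.{0}} {f : S ⟶ B} {g : B ⟶ C} {k : S ⟶ C} (h : f ≫ g = k)
        (hf : R.mem f) (hk : R.mem k), X.comp h (D.map h hf hk) (c f hf) = c k hk := by
  -- the lifts
  have lift : ∀ {B C : CommRingCat.{0}} (f : S ⟶ B) (hf : R.mem f) (g : B ⟶ C)
      (hfg : R.mem (f ≫ g)) (w : X.Obj C) (φ : X.Hom g w (D.obj f hf)),
      ∃ χ : X.Hom (𝟙 C) w (D.obj (f ≫ g) hfg),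
        X.comp (Category.comp_id g) χ (D.map rfl hf hfg) = φ :=
    fun f hf g hfg w φ => exists_lift hX D rfl hf hfg w φ
  choose χ hχ using @lift
  have key : ∀ {B : CommRingCat.{0}} (f : S ⟶ B) (hf : R.mem f),
      ∃! ψ₀ : X.Hom f (D.obj f hf) x, ∀ {C : CommRingCat.{0}} (g : B ⟶ C)
        (hg : (R₀.pullback f).mem g) (w : X.Obj C) (φ : X.Hom g w (D.obj f hf)),
        X.comp rfl φ ψ₀ = X.comp (Category.comp_id (f ≫ g)) (χ f hf g (hle _ hg) w φ)
          (c₀ (f ≫ g) hg) := by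
    intro B f hf
    refine hglue f (D.obj f hf) x (R₀.pullback f) (hR₀.pullback f)
      (fun {C} g hg w φ => X.comp (Category.comp_id (f ≫ g)) (χ f hf g (hle _ hg) w φ)
          (c₀ (f ≫ g) hg)) ?_
    intro C C' g h hg hgh w w' φ χ'
    have hg' : R₀.mem (f ≫ g) := hg
    have hgh' : R₀.mem (f ≫ g ≫ h) := hgh
    -- both sides in terms of `c₀ (f ≫ g)`
    have e1 : c₀ (f ≫ g ≫ h) hgh' = X.comp (Category.assoc f g h)
        (D.map (Category.assoc f g h) (hle _ hg') (hle _ hgh')) (c₀ (f ≫ g) hg') :=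
      (hc₀ (Category.assoc f g h) hg' hgh').symm
    have e2 : X.comp (Category.comp_id h) (χ f hf (g ≫ h) (hle _ hgh') w' (X.comp rfl χ' φ))
        (D.map (Category.assoc f g h) (hle _ hg') (hle _ hgh')) =
        X.comp (Category.id_comp h) χ' (χ f hf g (hle _ hg') w φ) := by
      apply hX.cancel (f := g) (g := h) rfl (D.map rfl hf (hle _ hg'))
      rw [X.assoc (h₂ := Category.comp_id h) (h₁ := (rfl : g ≫ h = g ≫ h))
        (h₃ := Category.comp_id (g ≫ h)),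
        ← D.map_comp rfl (Category.assoc f g h) rfl rfl, hχ,
        X.assoc (h₂ := Category.id_comp h) (h₁ := Category.comp_id g) (h₃ := rfl), hχ]
    change X.comp _ (χ f hf (g ≫ h) (hle _ hgh') w' (X.comp rfl χ' φ)) (c₀ (f ≫ g ≫ h) hgh') =
      X.comp _ χ' (X.comp _ (χ f hf g (hle _ hg') w φ) (c₀ (f ≫ g) hg'))
    rw [e1, ← X.assoc (h₂ := Category.comp_id h) (h₄ := Category.assoc f g h), e2,
      X.assoc (h₃ := Category.assoc f g h)]
  choose c hc huniq using @key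
  dsimp only at hc huniq
  have hχ_id : ∀ {B C : CommRingCat.{0}} (f : S ⟶ B) (hf : R.mem f) (g : B ⟶ C)
      (hfg : R.mem (f ≫ g)), χ f hf g hfg _ (D.map rfl hf hfg) = X.id _ := by
    intro B C f hf g hfg
    apply hX.cancel (f := g) (g := 𝟙 C) (Category.comp_id g) (D.map rfl hf hfg)
    rw [hχ, X.id_comp]
  refine ⟨fun {B} f hf => c f hf, ?_⟩
  intro B C f g k h hf hk
  subst h
  apply huniq (f ≫ g) hk
  intro C' m hm w φ
  have hm' : R₀.mem ((f ≫ g) ≫ m) := hm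
  have hm'' : R₀.mem (f ≫ (g ≫ m)) := by
    rw [← Category.assoc]; exact hm'
  rw [← X.assoc (h₂ := (rfl : g ≫ m = g ≫ m)) (h₄ := (Category.assoc f g m).symm)]
  have e3 := hc f hf (g ≫ m) hm'' w (X.comp rfl φ (D.map rfl hf hk))
  have e4 : ∀ (k : S ⟶ C') (hk' : f ≫ (g ≫ m) = k) (hk : R₀.mem k)
      (χ' : X.Hom (𝟙 C') w (D.obj k (hle _ hk)))
      (_ : X.comp (Category.comp_id (g ≫ m)) χ' (D.map hk' hf (hle _ hk)) =
        X.comp rfl φ (D.map rfl hf ‹R.mem (f ≫ g)›)),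
      X.comp hk' (X.comp rfl φ (D.map rfl hf ‹R.mem (f ≫ g)›)) (c f hf) =
        X.comp (Category.comp_id k) χ' (c₀ k hk) := by
    intro k hk' hk'' χ' hχ'
    subst hk'
    have : χ' = χ f hf (g ≫ m) (hle _ hk'') w (X.comp rfl φ (D.map rfl hf ‹_›)) := by
      apply hX.cancel (f := g ≫ m) (g := 𝟙 C') (Category.comp_id _) (D.map rfl hf (hle _ hk''))
      rw [hχ', hχ]
    rw [this]
    exact e3
  apply e4
  rw [D.map_comp (f := f) (g := g) (h := m) (k := f ≫ g) rfl rfl rfl (Category.assoc f g m).symm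
    hf hk, ← X.assoc (h₂ := Category.comp_id m) (h₃ := rfl), hχ]

end TannakaNil
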