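import Pool.Agent.Helper10.Tannaka.CovGlue
import Pool.Agent.Helper10.Tannaka.Effective

/-!
# Gluing for etale coverings, in categorical form
-/

open CategoryTheory Opposite Limits TensorProduct

namespace TannakaNil

open Base Amitsur

variable {b : Base} {A : CommRingCat.{0}} {ι : Type} {B : ι → CommRingCat.{0}}
  {f : ∀ i, A ⟶ B i}

/-- An algebra homomorphism as a morphism of rings. -/
abbrev mor {A : Type} [CommRing A] {D D' : Type} [CommRing D] [Algebra A D] [CommRing D']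
    [Algebra A D'] (φ : D →ₐ[A] D') : CommRingCat.of D ⟶ CommRingCat.of D' :=
  CommRingCat.ofHom (φ : D →+* D')

lemma alg_mor {A : CommRingCat.{0}} {D D' : Type} [CommRing D] [Algebra A D] [CommRing D']
    [Algebra A D'] (φ : D →ₐ[A] D') :
    CommRingCat.ofHom (algebraMap A D) ≫ mor φ = CommRingCat.ofHom (algebraMap A D') := by
  ext x
  exact φ.commutes x

lemma IsEtaleCovering.etCov (h : IsEtaleCovering B f)
    [hA : ∀ i, Algebra A (B i)] (e : ∀ i, f i = CommRingCat.ofHom (algebraMap A (B i))) :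
    EtCov A (fun i => (B i : Type)) := by
  constructor
  · intro i
    have := h.etale i
    rw [e] at this
    exact RingHom.etale_algebraMap.1 this
  · intro p
    obtain ⟨i, q, hq⟩ := h.surj p
    rw [e] at hq
    exact ⟨i, q, hq⟩

variable [Finite ι]

lemma IsEtaleCovering.gp_ext (h : IsEtaleCovering B f) {z : b.R ⟶ A} {g g' : Gp z}
    (hg : ∀ i, Gp.map (f i) rfl g = Gp.map (f i) rfl g') : g = g' := by
  let (i : ι) : Algebra A (B i) := (f i).hom.toAlgebra
  have h' : EtCov A (fun i => (B i : Type)) := h.etCov (fun _ => rfl)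
  rw [← sub_eq_zero]
  apply h'.injective
  intro i
  rw [map_sub, sub_eq_zero]
  exact hg i

lemma IsEtaleCovering.gp_glue (h : IsEtaleCovering B f) {z : b.R ⟶ A}
    (g : ∀ i, Gp (z ≫ f i))
    (hg : ∀ i j {C : CommRingCat.{0}} (p : B i ⟶ C) (q : B j ⟶ C) (_ : f i ≫ p = f j ≫ q)
      (z' : b.R ⟶ C) (h₁ : (z ≫ f i) ≫ p = z') (h₂ : (z ≫ f j) ≫ q = z'),
      Gp.map p h₁ (g i) = Gp.map q h₂ (g j)) :
    ∃ g₀ : Gp z, ∀ i, Gp.map (f i) rfl g₀ = g i := by
  let (i : ι) : Algebra A (B i) := (f i).hom.toAlgebra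
  have h' : EtCov A (fun i => (B i : Type)) := h.etCov (fun _ => rfl)
  apply h'.glue
  intro i j
  apply hg i j
  exact (alg_mor (Algebra.TensorProduct.includeLeft : B i →ₐ[A] B i ⊗[A] B j)).trans
    (alg_mor (Algebra.TensorProduct.includeRight : B j →ₐ[A] B i ⊗[A] B j)).symm

lemma IsEtaleCovering.gp_coboundary (h : IsEtaleCovering B f) {z : b.R ⟶ A}
    (γ : ∀ i j {C : CommRingCat.{0}} (p : B i ⟶ C) (q : B j ⟶ C) (k : A ⟶ C)
      (_ : f i ≫ p = k) (_ : f j ≫ q = k), Gp (z ≫ k))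
    (nat : ∀ i j {C D : CommRingCat.{0}} (p : B i ⟶ C) (q : B j ⟶ C) (k : A ⟶ C)
      (e₁ : f i ≫ p = k) (e₂ : f j ≫ q = k) (r : C ⟶ D) (k' : A ⟶ D)
      (p' : B i ⟶ D) (q' : B j ⟶ D) (_ : p ≫ r = p') (_ : q ≫ r = q')
      (e₁' : f i ≫ p' = k') (e₂' : f j ≫ q' = k') (e : (z ≫ k) ≫ r = z ≫ k'),
      Gp.map r e (γ i j p q k e₁ e₂) = γ i j p' q' k' e₁' e₂')
    (coc : ∀ i j l {C : CommRingCat.{0}} (p : B i ⟶ C) (q : B j ⟶ C) (r : B l ⟶ C) (k : A ⟶ C)
      (e₁ : f i ≫ p = k) (e₂ : f j ≫ q = k) (e₃ : f l ≫ r = k),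
      γ j l q r k e₂ e₃ - γ i l p r k e₁ e₃ + γ i j p q k e₁ e₂ = 0) :
    ∃ g₀ : ∀ i, Gp (z ≫ f i), ∀ i j {C : CommRingCat.{0}} (p : B i ⟶ C) (q : B j ⟶ C) (k : A ⟶ C)
      (e₁ : f i ≫ p = k) (e₂ : f j ≫ q = k) (e₁' : (z ≫ f i) ≫ p = z ≫ k)
      (e₂' : (z ≫ f j) ≫ q = z ≫ k),
      Gp.map q e₂' (g₀ j) - Gp.map p e₁' (g₀ i) = γ i j p q k e₁ e₂ := by
  let (i : ι) : Algebra A (B i) := (f i).hom.toAlgebra
  have h' : EtCov A (fun i => (B i : Type)) := h.etCov (fun _ => rfl)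
  have hal : ∀ i {D : Type} [CommRing D] [Algebra A D] (φ : B i →ₐ[A] D), f i ≫ mor φ =
      CommRingCat.ofHom (algebraMap A D) := fun i {D} _ _ φ => alg_mor φ
  let iL (i j : ι) : B i →ₐ[A] B i ⊗[A] B j := Algebra.TensorProduct.includeLeft
  let iR (i j : ι) : B j →ₐ[A] B i ⊗[A] B j := Algebra.TensorProduct.includeRight
  let kL (i j l : ι) : B i →ₐ[A] B i ⊗[A] (B j ⊗[A] B l) := Algebra.TensorProduct.includeLeft
  let kR (i j l : ι) : B j ⊗[A] B l →ₐ[A] B i ⊗[A] (B j ⊗[A] B l) :=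
    Algebra.TensorProduct.includeRight
  obtain ⟨g₀, hg₀⟩ := h'.coboundary (z := z)
    (fun i j => γ i j (mor (iL i j)) (mor (iR i j)) _ (hal i _) (hal j _)) (by
    intro i j k
    have c1 := coc i j k (mor (kL i j k)) (mor ((kR i j k).comp (iL j k)))
      (mor ((kR i j k).comp (iR j k))) _ (hal i _) (hal j _) (hal k _)
    refine Eq.trans ?_ c1
    congr 1
    · congr 1
      · exact nat j k _ _ _ (hal j _) (hal k _) (mor (kR i j k)) _ _ _ rfl rfl _ _ _
      · refine nat i k _ _ _ (hal i _) (hal k _) (mor _) _ _ _ ?_ ?_ _ _ _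
        · ext x
          change (Algebra.TensorProduct.map (AlgHom.id A (B i)) _) (x ⊗ₜ[A] (1 : B k)) =
            x ⊗ₜ[A] (1 : B j ⊗[A] B k)
          simp
          rfl
        · ext x
          change (Algebra.TensorProduct.map (AlgHom.id A (B i))
            (Algebra.TensorProduct.includeRight : B k →ₐ[A] B j ⊗[A] B k))
              ((1 : B i) ⊗ₜ[A] x) = (1 : B i) ⊗ₜ[A] ((1 : B j) ⊗ₜ[A] x)
          simp
    · refine nat i j _ _ _ (hal i _) (hal j _) (mor _) _ _ _ ?_ ?_ _ _ _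
      · ext x
        change (Algebra.TensorProduct.map (AlgHom.id A (B i)) _) (x ⊗ₜ[A] (1 : B j)) =
            x ⊗ₜ[A] (1 : B j ⊗[A] B k)
        simp
        rfl
      · ext x
        change (Algebra.TensorProduct.map (AlgHom.id A (B i))
            (Algebra.TensorProduct.includeLeft : B j →ₐ[A] B j ⊗[A] B k))
              ((1 : B i) ⊗ₜ[A] x) = (1 : B i) ⊗ₜ[A] (x ⊗ₜ[A] (1 : B k))
        simp)
  refine ⟨g₀, ?_⟩
  intro i j C p q k e₁ e₂ e₁' e₂'
  let : Algebra A C := k.hom.toAlgebra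
  let pa : B i →ₐ[A] C :=
    { (p.hom : B i →+* C) with
      commutes' := fun r => congrArg (fun s => s.hom r) e₁ }
  let qa : B j →ₐ[A] C :=
    { (q.hom : B j →+* C) with
      commutes' := fun r => congrArg (fun s => s.hom r) e₂ }
  let u : B i ⊗[A] B j →ₐ[A] C := Algebra.TensorProduct.productMap pa qa
  have hu := alg_mor u
  have hzu : zAlg z (B i ⊗[A] B j) ≫ mor u = z ≫ k := by
    rw [Category.assoc, hu]
    rfl
  have ep : mor (iL i j) ≫ mor u = p := by
    ext x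
    exact Algebra.TensorProduct.productMap_left_apply pa qa x
  have eq : mor (iR i j) ≫ mor u = q := by
    ext x
    exact Algebra.TensorProduct.productMap_right_apply pa qa x
  have h1 := congrArg (Gp.map (mor u) hzu) (hg₀ i j)
  rw [map_sub] at h1
  have h2 := nat i j (mor (iL i j)) (mor (iR i j)) _ (hal i _) (hal j _) (mor u) k p q ep eq
    e₁ e₂ hzu
  refine Eq.trans ?_ (h1.trans h2)
  congr 1
  · exact (Gp.map_map _ _ (mor u) hzu q e₂' eq (g₀ j)).symm
  · exact (Gp.map_map _ _ (mor u) hzu p e₁' ep (g₀ i)).symm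

lemma IsEtaleCovering.ring_ext (h : IsEtaleCovering B f) {a a' : A}
    (ha : ∀ i, (f i).hom a = (f i).hom a') : a = a' := by
  let (i : ι) : Algebra A (B i) := (f i).hom.toAlgebra
  have h' : EtCov A (fun i => (B i : Type)) := h.etCov (fun _ => rfl)
  have hff := h'.faithfullyFlat
  apply algebraMap_injective (A := A) (C := CommRingCat.of (∀ i, B i))
  funext i
  exact ha i

lemma IsEtaleCovering.hom_ext (h : IsEtaleCovering B f) {R : CommRingCat.{0}} {x y : R ⟶ A}
    (hxy : ∀ i, x ≫ f i = y ≫ f i) : x = y := by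
  ext r
  exact h.ring_ext fun i => congrArg (fun s => s.hom r) (hxy i)

lemma IsEtaleCovering.hom_glue (h : IsEtaleCovering B f) {R : CommRingCat.{0}}
    (x : ∀ i, R ⟶ B i)
    (hx : ∀ i j {C : CommRingCat.{0}} (p : B i ⟶ C) (q : B j ⟶ C) (_ : f i ≫ p = f j ≫ q),
      x i ≫ p = x j ≫ q) : ∃ y : R ⟶ A, ∀ i, y ≫ f i = x i := by
  let (i : ι) : Algebra A (B i) := (f i).hom.toAlgebra
  have h' : EtCov A (fun i => (B i : Type)) := h.etCov (fun _ => rfl)
  have hff := h'.faithfullyFlat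
  have key : ∀ r : R, ∃ a : A, ∀ i, (f i).hom a = (x i).hom r := by
    intro r
    have h1 : d1 A (∀ i, B i) (fun i => (x i).hom r) = 0 := by
      apply (decomp_pr2 (A := A) (B := fun i => (B i : Type))).1
      rintro ⟨i, j⟩
      change pr2 (A := A) (B := fun i => (B i : Type)) (i, j)
        (d1 A (∀ i, B i) (fun i => (x i).hom r)) = 0
      rw [d1_apply, map_sub, sub_eq_zero]
      have h2 := hx i j
        (mor (Algebra.TensorProduct.includeLeft : B i →ₐ[A] B i ⊗[A] B j))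
        (mor (Algebra.TensorProduct.includeRight : B j →ₐ[A] B i ⊗[A] B j))
        ((alg_mor (Algebra.TensorProduct.includeLeft : B i →ₐ[A] B i ⊗[A] B j)).trans
          (alg_mor (Algebra.TensorProduct.includeRight : B j →ₐ[A] B i ⊗[A] B j)).symm)
      have h3 := congrArg (fun s => s.hom r) h2
      have h4 : ((x i).hom r) ⊗ₜ[A] (1 : B j) = (1 : B i) ⊗ₜ[A] ((x j).hom r) := h3
      simp only [pr2, Algebra.TensorProduct.map_tmul, map_one]
      exact h4.symm
    obtain ⟨a, ha⟩ := (exact0 A (∀ i, B i) _).1 h1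
    exact ⟨a, fun i => congrFun ha i⟩
  choose s hs using key
  refine ⟨CommRingCat.ofHom
    { toFun := s
      map_one' := h.ring_ext fun i => by rw [hs, map_one, map_one]
      map_mul' := fun r r' => h.ring_ext fun i => by rw [hs, map_mul, map_mul, hs, hs]
      map_zero' := h.ring_ext fun i => by rw [hs, map_zero, map_zero]
      map_add' := fun r r' => h.ring_ext fun i => by rw [hs, map_add, map_add, hs, hs] }, ?_⟩
  intro i
  ext r
  exact hs r i

end TannakaNil
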