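import Pool.Agent.Helper10.Tannaka.Descent

/-!
# Gluing for etale coverings
-/

open CategoryTheory TensorProduct

namespace TannakaNil

open Amitsur Base

variable {b : Base}

section Decomp

variable {A : CommRingCat.{0}} {z : b.R ⟶ A} {D : Type} [CommRing D] [Algebra A D] {K : Type}
  {Y : K → Type} [∀ k, CommRing (Y k)] [∀ k, Algebra A (Y k)] {p : ∀ k, D →ₐ[A] Y k}

lemma Gp.ext_of_decomp (hp : Decomp (fun k => (p k).toLinearMap)) {g g' : Gp (zAlg z D)}
    (h : ∀ k, Gp.algMap (p k) g = Gp.algMap (p k) g') : g = g' := by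
  rw [← sub_eq_zero]
  have h' : ∀ k, Gp.algMap (p k) (g - g') = 0 := fun k => by rw [map_sub, h, sub_self]
  generalize g - g' = x at h' ⊢
  induction x using Gp.ind with
  | h v =>
    have h2 : ∀ k, ∃ c, rel (zAlg z (Y k)) c = (p k v.1, p k v.2) := fun k => by
      have := h' k
      rwa [Gp.algMap_mk, Gp.mk_eq_zero] at this
    choose c hc using h2
    obtain ⟨c', hc'⟩ := hp.2 c
    rw [Gp.mk_eq_zero]
    refine ⟨c', ?_⟩
    have h3 : ∀ k, (p k (rel (zAlg z D) c').1, p k (rel (zAlg z D) c').2) =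
        (p k v.1, p k v.2) := fun k => by
      rw [← hc k, ← rel_algHom]
      exact congrArg _ (hc' k)
    ext
    · rw [← sub_eq_zero]
      apply hp.1
      intro k
      change p k _ = 0
      rw [map_sub, sub_eq_zero]
      exact congrArg Prod.fst (h3 k)
    · rw [← sub_eq_zero]
      apply hp.1
      intro k
      change p k _ = 0
      rw [map_sub, sub_eq_zero]
      exact congrArg Prod.snd (h3 k)

lemma Gp.exists_of_decomp (hp : Decomp (fun k => (p k).toLinearMap))
    (g : ∀ k, Gp (zAlg z (Y k))) : ∃ g' : Gp (zAlg z D), ∀ k, Gp.algMap (p k) g' = g k := by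
  have h : ∀ k, ∃ v, Gp.mk (zAlg z (Y k)) v = g k := fun k => Gp.mk_surjective _ _
  choose v hv using h
  obtain ⟨x, hx⟩ := hp.2 (fun k => (v k).1)
  obtain ⟨y, hy⟩ := hp.2 (fun k => (v k).2)
  refine ⟨Gp.mk _ (x, y), fun k => ?_⟩
  rw [Gp.algMap_mk, ← hv k]
  congr 1
  ext
  · exact hx k
  · exact hy k

end Decomp

section Cov

variable {A : CommRingCat.{0}} {ι : Type} [Finite ι] {B : ι → Type} [∀ i, CommRing (B i)]
  [∀ i, Algebra A (B i)]

/-- A family of etale algebras which is jointly surjective on spectra. -/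
structure EtCov (A : Type) [CommRing A] {ι : Type} (B : ι → Type) [∀ i, CommRing (B i)]
    [∀ i, Algebra A (B i)] : Prop where
  etale : ∀ i, Algebra.Etale A (B i)
  surj : ∀ p : PrimeSpectrum A, ∃ (i : ι) (q : PrimeSpectrum (B i)),
    PrimeSpectrum.comap (algebraMap A (B i)) q = p

lemma EtCov.faithfullyFlat (h : EtCov A B) : Module.FaithfullyFlat A (∀ i, B i) := by
  have := h.etale
  have : Algebra.Etale A (∀ i, B i) := inferInstance
  have : Module.Flat A (∀ i, B i) := Algebra.Smooth.flat A (∀ i, B i)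
  apply Module.FaithfullyFlat.of_comap_surjective
  intro p
  obtain ⟨i, q, hq⟩ := h.surj p
  refine ⟨PrimeSpectrum.comap (Pi.evalRingHom B i) q, ?_⟩
  rw [← hq, ← PrimeSpectrum.comap_comp_apply]
  rfl

/-- The projections of the tensor square of the product. -/
noncomputable def pr2 (k : ι × ι) : ((∀ i, B i) ⊗[A] (∀ i, B i)) →ₐ[A] B k.1 ⊗[A] B k.2 :=
  Algebra.TensorProduct.map (Pi.evalAlgHom A B k.1) (Pi.evalAlgHom A B k.2)

/-- The projections of the tensor cube of the product. -/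
noncomputable def pr3 (k : ι × (ι × ι)) :
    ((∀ i, B i) ⊗[A] ((∀ i, B i) ⊗[A] (∀ i, B i))) →ₐ[A] B k.1 ⊗[A] (B k.2.1 ⊗[A] B k.2.2) :=
  Algebra.TensorProduct.map (Pi.evalAlgHom A B k.1) (pr2 k.2)

lemma decomp_pr1 : Decomp (fun i => (Pi.evalAlgHom A B i).toLinearMap) := by
  have := Fintype.ofFinite ι
  exact DecompData.decomp (DecompData.pi (A := A) (B := B))

lemma decomp_pr2 : Decomp (fun k : ι × ι => (pr2 (A := A) (B := B) k).toLinearMap) := by
  have := Fintype.ofFinite ι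
  exact ((DecompData.pi (A := A) (B := B)).tensor (DecompData.pi (A := A) (B := B))).decomp

lemma decomp_pr3 : Decomp (fun k : ι × (ι × ι) => (pr3 (A := A) (B := B) k).toLinearMap) := by
  have := Fintype.ofFinite ι
  exact ((DecompData.pi (A := A) (B := B)).tensor
    ((DecompData.pi (A := A) (B := B)).tensor (DecompData.pi (A := A) (B := B)))).decomp

variable {z : b.R ⟶ A}

lemma Gp.algMap_algMap {D D' D'' : Type} [CommRing D] [Algebra A D] [CommRing D'] [Algebra A D']
    [CommRing D''] [Algebra A D''] (f : D →ₐ[A] D') (g : D' →ₐ[A] D'') (h : D →ₐ[A] D'')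
    (e : g.comp f = h) (x : Gp (zAlg z D)) : Gp.algMap g (Gp.algMap f x) = Gp.algMap h x := by
  subst e
  induction x using Gp.ind with
  | h v => rfl

lemma Gp.algMap_comp {D D' D'' : Type} [CommRing D] [Algebra A D] [CommRing D'] [Algebra A D']
    [CommRing D''] [Algebra A D''] (f : D →ₐ[A] D') (g : D' →ₐ[A] D'')
    (x : Gp (zAlg z D)) : Gp.algMap (g.comp f) x = Gp.algMap g (Gp.algMap f x) :=
  (Gp.algMap_algMap f g _ rfl x).symm

lemma EtCov.injective (h : EtCov A B) {g : Gp z}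
    (hg : ∀ i, Gp.map (z' := zAlg z (B i)) (CommRingCat.ofHom (algebraMap A (B i))) rfl g = 0) :
    g = 0 := by
  have hff := h.faithfullyFlat
  apply Gp.injective_of_faithfullyFlat (C := CommRingCat.of (∀ i, B i))
  rw [map_zero]
  apply Gp.ext_of_decomp (A := A) (z := z) (D := ∀ i, B i) decomp_pr1
  intro i
  rw [map_zero, ← hg i]
  induction g using Gp.ind with
  | h v => rfl

lemma EtCov.glue (h : EtCov A B) (g : ∀ i, Gp (zAlg z (B i)))
    (hg : ∀ i j, Gp.algMap (z := z) (Algebra.TensorProduct.includeLeft : B i →ₐ[A] B i ⊗[A] B j)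
      (g i) = Gp.algMap (z := z) (Algebra.TensorProduct.includeRight : B j →ₐ[A] B i ⊗[A] B j)
      (g j)) :
    ∃ g₀ : Gp z, ∀ i,
      Gp.map (z' := zAlg z (B i)) (CommRingCat.ofHom (algebraMap A (B i))) rfl g₀ = g i := by
  have hff := h.faithfullyFlat
  obtain ⟨g', hg'⟩ := Gp.exists_of_decomp (A := A) (z := z) (D := ∀ i, B i) decomp_pr1 g
  obtain ⟨g₀, hg₀⟩ := Gp.exists_descent (C := CommRingCat.of (∀ i, B i)) g' (by
    apply Gp.ext_of_decomp (A := A) (z := z) (D := (∀ i, B i) ⊗[A] (∀ i, B i)) decomp_pr2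
    rintro ⟨i, j⟩
    have e1 := Gp.algMap_algMap (z := z)
      (Algebra.TensorProduct.includeLeft : (∀ i, B i) →ₐ[A] (∀ i, B i) ⊗[A] (∀ i, B i))
      (pr2 (i, j)) (Algebra.TensorProduct.includeLeft.comp (Pi.evalAlgHom A B i))
      (by
        apply AlgHom.ext
        intro x
        change pr2 (A := A) (B := B) (i, j) (x ⊗ₜ 1) = x i ⊗ₜ 1
        simp [pr2]) g'
    have e2 := Gp.algMap_algMap (z := z)
      (Algebra.TensorProduct.includeRight : (∀ i, B i) →ₐ[A] (∀ i, B i) ⊗[A] (∀ i, B i))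
      (pr2 (i, j)) (Algebra.TensorProduct.includeRight.comp (Pi.evalAlgHom A B j))
      (by
        apply AlgHom.ext
        intro x
        change pr2 (A := A) (B := B) (i, j) (1 ⊗ₜ x) = 1 ⊗ₜ x j
        simp [pr2]) g'
    refine e1.trans (Eq.trans ?_ e2.symm)
    have e3 := Gp.algMap_comp (z := z) (Pi.evalAlgHom A B i)
      (Algebra.TensorProduct.includeLeft : B i →ₐ[A] B i ⊗[A] B j) g'
    have e4 := Gp.algMap_comp (z := z) (Pi.evalAlgHom A B j)
      (Algebra.TensorProduct.includeRight : B j →ₐ[A] B i ⊗[A] B j) g'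
    rw [hg'] at e3 e4
    exact e3.trans ((hg i j).trans e4.symm))
  refine ⟨g₀, fun i => ?_⟩
  rw [← hg' i, ← hg₀]
  induction g₀ using Gp.ind with
  | h v => rfl

lemma EtCov.coboundary (h : EtCov A B) (g : ∀ i j, Gp (zAlg z (B i ⊗[A] B j)))
    (hg : ∀ i j k,
      Gp.algMap (z := z) (Algebra.TensorProduct.includeRight :
        B j ⊗[A] B k →ₐ[A] B i ⊗[A] (B j ⊗[A] B k)) (g j k) -
      Gp.algMap (z := z) (Algebra.TensorProduct.map (AlgHom.id A (B i))
        Algebra.TensorProduct.includeRight : B i ⊗[A] B k →ₐ[A] B i ⊗[A] (B j ⊗[A] B k)) (g i k) +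
      Gp.algMap (z := z) (Algebra.TensorProduct.map (AlgHom.id A (B i))
        Algebra.TensorProduct.includeLeft : B i ⊗[A] B j →ₐ[A] B i ⊗[A] (B j ⊗[A] B k)) (g i j)
        = 0) :
    ∃ g₀ : ∀ i, Gp (zAlg z (B i)), ∀ i j,
      Gp.algMap (z := z) (Algebra.TensorProduct.includeRight : B j →ₐ[A] B i ⊗[A] B j) (g₀ j) -
      Gp.algMap (z := z) (Algebra.TensorProduct.includeLeft : B i →ₐ[A] B i ⊗[A] B j) (g₀ i) =
        g i j := by
  have hff := h.faithfullyFlat
  obtain ⟨g', hg'⟩ := Gp.exists_of_decomp (A := A) (z := z) (D := (∀ i, B i) ⊗[A] (∀ i, B i))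
    decomp_pr2 (fun k => g k.1 k.2)
  obtain ⟨g₀, hg₀⟩ := Gp.exists_coboundary (C := CommRingCat.of (∀ i, B i)) g' (by
    apply Gp.ext_of_decomp (A := A) (z := z)
      (D := (∀ i, B i) ⊗[A] ((∀ i, B i) ⊗[A] (∀ i, B i))) decomp_pr3
    rintro ⟨i, j, k⟩
    have e0 := Gp.algMap_algMap (z := z) (f20 A (∀ i, B i)) (pr3 (i, (j, k)))
      (Algebra.TensorProduct.includeRight.comp (pr2 (j, k)))
      (by
        apply AlgHom.ext
        intro x
        change pr3 (A := A) (B := B) (i, (j, k)) (1 ⊗ₜ x) = 1 ⊗ₜ pr2 (j, k) x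
        simp [pr3]) g'
    have e1 := Gp.algMap_algMap (z := z) (f21 A (∀ i, B i)) (pr3 (i, (j, k)))
      ((Algebra.TensorProduct.map (AlgHom.id A (B i)) Algebra.TensorProduct.includeRight).comp
        (pr2 (i, k)))
      (by
        apply Algebra.TensorProduct.ext'
        intro x y
        change pr3 (A := A) (B := B) (i, (j, k)) (x ⊗ₜ (1 ⊗ₜ y)) = x i ⊗ₜ (1 ⊗ₜ y k)
        simp [pr3, pr2]) g'
    have e2 := Gp.algMap_algMap (z := z) (f22 A (∀ i, B i)) (pr3 (i, (j, k)))
      ((Algebra.TensorProduct.map (AlgHom.id A (B i)) Algebra.TensorProduct.includeLeft).comp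
        (pr2 (i, j)))
      (by
        apply Algebra.TensorProduct.ext'
        intro x y
        change pr3 (A := A) (B := B) (i, (j, k)) (x ⊗ₜ (y ⊗ₜ 1)) = x i ⊗ₜ (y j ⊗ₜ 1)
        simp [pr3, pr2]) g'
    have e3 := hg i j k
    rw [map_zero, map_add, map_sub]
    rw [← hg' (j, k), ← hg' (i, k), ← hg' (i, j)] at e3
    rw [← e3]
    congr 1
    · congr 1
      · exact e0.trans (Gp.algMap_comp _ _ _)
      · exact e1.trans (Gp.algMap_comp _ _ _)
    · exact e2.trans (Gp.algMap_comp _ _ _))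
  refine ⟨fun i => Gp.algMap (z := z) (Pi.evalAlgHom A B i) g₀, fun i j => ?_⟩
  rw [← hg' (i, j), ← hg₀, map_sub]
  congr 1
  · refine (Gp.algMap_comp (z := z) (Pi.evalAlgHom A B j)
      (Algebra.TensorProduct.includeRight : B j →ₐ[A] B i ⊗[A] B j) g₀).symm.trans ?_
    refine (Gp.algMap_algMap (z := z)
      (Algebra.TensorProduct.includeRight : (∀ i, B i) →ₐ[A] (∀ i, B i) ⊗[A] (∀ i, B i))
      (pr2 (i, j)) (Algebra.TensorProduct.includeRight.comp (Pi.evalAlgHom A B j))
      (by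
        apply AlgHom.ext
        intro x
        change pr2 (A := A) (B := B) (i, j) (1 ⊗ₜ x) = 1 ⊗ₜ x j
        simp [pr2]) g₀).symm
  · refine (Gp.algMap_comp (z := z) (Pi.evalAlgHom A B i)
      (Algebra.TensorProduct.includeLeft : B i →ₐ[A] B i ⊗[A] B j) g₀).symm.trans ?_
    refine (Gp.algMap_algMap (z := z)
      (Algebra.TensorProduct.includeLeft : (∀ i, B i) →ₐ[A] (∀ i, B i) ⊗[A] (∀ i, B i))
      (pr2 (i, j)) (Algebra.TensorProduct.includeLeft.comp (Pi.evalAlgHom A B i))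
      (by
        apply AlgHom.ext
        intro x
        change pr2 (A := A) (B := B) (i, j) (x ⊗ₜ 1) = x i ⊗ₜ 1
        simp [pr2]) g₀).symm

end Cov

end TannakaNil
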