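import Pool.Agent.Helper10.Tannaka.Amitsur

/-!
# Finite product decompositions and tensor products
-/

open TensorProduct

namespace TannakaNil

variable {A : Type} [CommRing A]

/-- The linear maps `p k` identify `X` with the product of the finitely many modules `Y k`. -/
def Decomp {X : Type} [AddCommGroup X] [Module A X] {K : Type} {Y : K → Type}
    [∀ k, AddCommGroup (Y k)] [∀ k, Module A (Y k)] (p : ∀ k, X →ₗ[A] Y k) : Prop :=
  (∀ x, (∀ k, p k x = 0) → x = 0) ∧ ∀ y : ∀ k, Y k, ∃ x, ∀ k, p k x = y k

lemma decomp_of_section {X : Type} [AddCommGroup X] [Module A X] {K : Type} [Fintype K]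
    {Y : K → Type}
    [∀ k, AddCommGroup (Y k)] [∀ k, Module A (Y k)] (p : ∀ k, X →ₗ[A] Y k)
    (q : ∀ k, Y k →ₗ[A] X) (h1 : ∀ k y, p k (q k y) = y) (h2 : ∀ k l, k ≠ l → ∀ y, p k (q l y) = 0)
    (h3 : ∀ x, ∑ k, q k (p k x) = x) : Decomp p := by
  classical
  constructor
  · intro x hx
    rw [← h3 x]
    simp [hx]
  · intro y
    refine ⟨∑ k, q k (y k), fun k => ?_⟩
    rw [map_sum, Finset.sum_eq_single k]
    · exact h1 k _
    · intro l _ hl
      exact h2 k l (Ne.symm hl) _
    · simp

variable {ι κ : Type} [Fintype ι] [Fintype κ] {B : ι → Type} {B' : κ → Type}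
  [∀ i, AddCommGroup (B i)] [∀ i, Module A (B i)] [∀ i, AddCommGroup (B' i)] [∀ i, Module A (B' i)]

/-- A product decomposition with chosen sections. -/
structure DecompData {X : Type} [AddCommGroup X] [Module A X] {K : Type} [Fintype K]
    {Y : K → Type} [∀ k, AddCommGroup (Y k)] [∀ k, Module A (Y k)] (p : ∀ k, X →ₗ[A] Y k) where
  q : ∀ k, Y k →ₗ[A] X
  h1 : ∀ k y, p k (q k y) = y
  h2 : ∀ k l, k ≠ l → ∀ y, p k (q l y) = 0
  h3 : ∀ x, ∑ k, q k (p k x) = x

lemma DecompData.decomp {X : Type} [AddCommGroup X] [Module A X] {K : Type} [Fintype K]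
    {Y : K → Type} [∀ k, AddCommGroup (Y k)] [∀ k, Module A (Y k)] {p : ∀ k, X →ₗ[A] Y k}
    (D : DecompData p) : Decomp p :=
  decomp_of_section p D.q D.h1 D.h2 D.h3

open Classical in
/-- The product itself. -/
noncomputable def DecompData.pi : DecompData (fun i => LinearMap.proj (R := A) (φ := B) i) where
  q k := LinearMap.single A B k
  h1 k y := by simp
  h2 k l h y := by simp [h]
  h3 x := by
    ext i
    simp

/-- Tensor products of decompositions. -/
noncomputable def DecompData.tensor {X X' : Type} [AddCommGroup X] [Module A X] [AddCommGroup X']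
    [Module A X'] {p : ∀ k, X →ₗ[A] B k} {p' : ∀ k, X' →ₗ[A] B' k}
    (D : DecompData p) (D' : DecompData p') :
    DecompData (fun k : ι × κ => TensorProduct.map (p k.1) (p' k.2)) where
  q k := TensorProduct.map (D.q k.1) (D'.q k.2)
  h1 k y := by
    induction y with
    | zero => simp
    | tmul a b => simp [D.h1, D'.h1]
    | add x y hx hy => rw [map_add, map_add, hx, hy]
  h2 k l h y := by
    induction y with
    | zero => simp
    | tmul a b =>
      rw [map_tmul, map_tmul]
      by_cases h' : k.1 = l.1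
      · have h'' : k.2 ≠ l.2 := fun h'' => h (Prod.ext h' h'')
        rw [D'.h2 _ _ h'', tmul_zero]
      · rw [D.h2 _ _ h', zero_tmul]
    | add x y hx hy => rw [map_add, map_add, hx, hy, add_zero]
  h3 x := by
    induction x with
    | zero => simp
    | tmul a b =>
      simp only [map_tmul]
      rw [Fintype.sum_prod_type]
      have e1 : ∀ i, ∑ j, (D.q i (p i a)) ⊗ₜ[A] (D'.q j (p' j b)) = D.q i (p i a) ⊗ₜ[A] b := by
        intro i
        have := tmul_sum (R := A) (D.q i (p i a)) Finset.univ (fun j => D'.q j (p' j b))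
        rw [← this, D'.h3]
      have e2 := sum_tmul (R := A) Finset.univ (fun i => D.q i (p i a)) b
      rw [D.h3] at e2
      rw [e2]
      exact Finset.sum_congr rfl fun i _ => e1 i
    | add x y hx hy =>
      simp only [map_add, Finset.sum_add_distrib, hx, hy]

end TannakaNil
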