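import Pool.Agent.Helper10.Tannaka.Grp
import Pool.Agent.Helper10.Tannaka.Decomp

/-!
# Descent for the group `G` along faithfully flat maps
-/

open CategoryTheory TensorProduct

namespace TannakaNil

open Amitsur

section Faces

variable (A C : Type) [CommRing A] [CommRing C] [Algebra A C]

/-- `a ⊗ b ↦ 1 ⊗ a ⊗ b` -/
noncomputable def f20 : C ⊗[A] C →ₐ[A] C ⊗[A] (C ⊗[A] C) := Algebra.TensorProduct.includeRight

/-- `a ⊗ b ↦ a ⊗ 1 ⊗ b` -/
noncomputable def f21 : C ⊗[A] C →ₐ[A] C ⊗[A] (C ⊗[A] C) :=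
  Algebra.TensorProduct.map (AlgHom.id A C) Algebra.TensorProduct.includeRight

/-- `a ⊗ b ↦ a ⊗ b ⊗ 1` -/
noncomputable def f22 : C ⊗[A] C →ₐ[A] C ⊗[A] (C ⊗[A] C) :=
  Algebra.TensorProduct.map (AlgHom.id A C) Algebra.TensorProduct.includeLeft

lemma d2_eq (x : C ⊗[A] C) : d2 A C x = f20 A C x - f21 A C x + f22 A C x := by
  induction x with
  | zero => simp
  | tmul a b =>
    simp only [D_tmul, d1_apply, tmul_sub, f20, f21, f22, Algebra.TensorProduct.map_tmul,
      Algebra.TensorProduct.includeRight_apply, Algebra.TensorProduct.includeLeft_apply,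
      AlgHom.id_apply]
    abel
  | add x y hx hy =>
    rw [map_add, hx, hy, map_add, map_add, map_add]
    abel

lemma d3_eq (x : C ⊗[A] (C ⊗[A] C)) : d3 A C x =
    (Algebra.TensorProduct.includeRight : _ →ₐ[A] C ⊗[A] (C ⊗[A] (C ⊗[A] C))) x -
      Algebra.TensorProduct.map (AlgHom.id A C) (f20 A C) x +
      Algebra.TensorProduct.map (AlgHom.id A C) (f21 A C) x -
      Algebra.TensorProduct.map (AlgHom.id A C) (f22 A C) x := by
  induction x with
  | zero => simp
  | tmul a b =>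
    simp only [D_tmul, d2_eq, tmul_sub, tmul_add, Algebra.TensorProduct.map_tmul,
      Algebra.TensorProduct.includeRight_apply, AlgHom.id_apply]
    abel
  | add x y hx hy =>
    rw [map_add, hx, hy, map_add, map_add, map_add, map_add]
    abel

end Faces

variable {b : Base}

open Base

/-- `rel` commutes with ring homomorphisms. -/
lemma rel_map {A B : CommRingCat.{0}} {z : b.R ⟶ A} {z' : b.R ⟶ B} (f : A ⟶ B)
    (h : z ≫ f = z') (c : A) : rel z' (f.hom c) = (f.hom (rel z c).1, f.hom (rel z c).2) := by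
  subst h
  simp [rel_apply]

section

variable {A C : CommRingCat.{0}} [Algebra A C] (z : b.R ⟶ A)

/-- The structure map of an `A`-algebra. -/
noncomputable abbrev zAlg (z : b.R ⟶ A) (D : Type) [CommRing D] [Algebra A D] :
    b.R ⟶ CommRingCat.of D :=
  z ≫ CommRingCat.ofHom (algebraMap A D)

lemma rel_algHom {D D' : Type} [CommRing D] [Algebra A D] [CommRing D'] [Algebra A D']
    (f : D →ₐ[A] D') (c : D) :
    rel (zAlg z D') (f c) = (f (rel (zAlg z D) c).1, f (rel (zAlg z D) c).2) := by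
  have h : zAlg z D ≫ CommRingCat.ofHom (f : D →+* D') = zAlg z D' := by
    ext x
    exact f.commutes _
  exact rel_map (CommRingCat.ofHom (f : D →+* D')) h c

variable {z}

/-- `G` is functorial for algebra homomorphisms. -/
noncomputable def Gp.algMap {D D' : Type} [CommRing D] [Algebra A D] [CommRing D'] [Algebra A D']
    (f : D →ₐ[A] D') : Gp (zAlg z D) →+ Gp (zAlg z D') :=
  Gp.map (CommRingCat.ofHom (f : D →+* D')) (by
    ext x
    exact f.commutes _)

@[simp] lemma Gp.algMap_mk {D D' : Type} [CommRing D] [Algebra A D] [CommRing D'] [Algebra A D']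
    (f : D →ₐ[A] D') (v : D × D) :
    Gp.algMap f (Gp.mk (zAlg z D) v) = Gp.mk (zAlg z D') (f v.1, f v.2) := rfl

lemma rel_d1 (c : C) : rel (zAlg z (C ⊗[A] C)) (d1 A C c) =
    (d1 A C (rel (zAlg z C) c).1, d1 A C (rel (zAlg z C) c).2) := by
  have h1 := rel_algHom z (Algebra.TensorProduct.includeRight : C →ₐ[A] C ⊗[A] C) c
  have h2 := rel_algHom z (Algebra.TensorProduct.includeLeft : C →ₐ[A] C ⊗[A] C) c
  rw [Algebra.TensorProduct.includeRight_apply] at h1
  rw [Algebra.TensorProduct.includeLeft_apply] at h2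
  rw [d1_apply, map_sub, h1, h2]
  rfl

lemma rel_d2 (c : C ⊗[A] C) : rel (zAlg z (C ⊗[A] (C ⊗[A] C))) (d2 A C c) =
    (d2 A C (rel (zAlg z (C ⊗[A] C)) c).1, d2 A C (rel (zAlg z (C ⊗[A] C)) c).2) := by
  have h0 := rel_algHom z (f20 A C) c
  have h1 := rel_algHom z (f21 A C) c
  have h2 := rel_algHom z (f22 A C) c
  rw [d2_eq, d2_eq, d2_eq, map_add, map_sub, h0, h1, h2]
  rfl

lemma rel_d3 (c : C ⊗[A] (C ⊗[A] C)) :
    rel (zAlg z (C ⊗[A] (C ⊗[A] (C ⊗[A] C)))) (d3 A C c) =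
    (d3 A C (rel (zAlg z (C ⊗[A] (C ⊗[A] C))) c).1,
      d3 A C (rel (zAlg z (C ⊗[A] (C ⊗[A] C))) c).2) := by
  have h0 := rel_algHom z (D := C ⊗[A] (C ⊗[A] C)) (D' := C ⊗[A] (C ⊗[A] (C ⊗[A] C)))
    Algebra.TensorProduct.includeRight c
  have h1 := rel_algHom z (D := C ⊗[A] (C ⊗[A] C)) (D' := C ⊗[A] (C ⊗[A] (C ⊗[A] C)))
    (Algebra.TensorProduct.map (AlgHom.id A C) (f20 A C)) c
  have h2 := rel_algHom z (D := C ⊗[A] (C ⊗[A] C)) (D' := C ⊗[A] (C ⊗[A] (C ⊗[A] C)))
    (Algebra.TensorProduct.map (AlgHom.id A C) (f21 A C)) c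
  have h3 := rel_algHom z (D := C ⊗[A] (C ⊗[A] C)) (D' := C ⊗[A] (C ⊗[A] (C ⊗[A] C)))
    (Algebra.TensorProduct.map (AlgHom.id A C) (f22 A C)) c
  rw [d3_eq, d3_eq, d3_eq, map_sub, map_add, map_sub, h0, h1, h2, h3]
  rfl

variable [Module.FaithfullyFlat A C]

lemma algebraMap_injective : Function.Injective (algebraMap A C) :=
  FaithfulSMul.algebraMap_injective A C

lemma Gp.injective_of_faithfullyFlat :
    Function.Injective (Gp.map (z := z) (z' := zAlg z C) (CommRingCat.ofHom (algebraMap A C))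
      rfl) := by
  rw [injective_iff_map_eq_zero]
  intro g hg
  induction g using Gp.ind with
  | h v =>
    rw [Gp.map_mk, Gp.mk_eq_zero] at hg
    obtain ⟨c, hc⟩ := hg
    have h1 : d1 A C c = 0 := by
      apply rel_injective (zAlg z (C ⊗[A] C))
      rw [rel_d1, hc, map_zero]
      ext
      · exact (exact0 A C _).2 ⟨_, rfl⟩
      · exact (exact0 A C _).2 ⟨_, rfl⟩
    obtain ⟨a, rfl⟩ := (exact0 A C _).1 h1
    rw [Gp.mk_eq_zero]
    refine ⟨a, ?_⟩
    have h2 := rel_map (z := z) (z' := zAlg z C) (CommRingCat.ofHom (algebraMap A C)) rfl a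
    have h3 := h2.symm.trans hc
    ext
    · exact algebraMap_injective (congrArg Prod.fst h3)
    · exact algebraMap_injective (congrArg Prod.snd h3)

/-- Elements of `G` descend along faithfully flat maps. -/
lemma Gp.exists_descent (g : Gp (zAlg z C))
    (h : Gp.algMap (z := z) (Algebra.TensorProduct.includeLeft : C →ₐ[A] C ⊗[A] C) g =
      Gp.algMap (z := z) (Algebra.TensorProduct.includeRight : C →ₐ[A] C ⊗[A] C) g) :
    ∃ g₀ : Gp z, Gp.map (z' := zAlg z C) (CommRingCat.ofHom (algebraMap A C)) rfl g₀ = g := by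
  induction g using Gp.ind with
  | h v =>
    rw [Gp.algMap_mk, Gp.algMap_mk, eq_comm, Gp.mk_eq_mk] at h
    obtain ⟨c, hc⟩ := h
    have hc' : rel (zAlg z (C ⊗[A] C)) c = (d1 A C v.1, d1 A C v.2) := hc
    have h1 : d2 A C c = 0 := by
      apply rel_injective (zAlg z (C ⊗[A] (C ⊗[A] C)))
      rw [rel_d2, hc', map_zero]
      ext
      · exact (exact1 A C _).2 ⟨_, rfl⟩
      · exact (exact1 A C _).2 ⟨_, rfl⟩
    obtain ⟨c', rfl⟩ := (exact1 A C _).1 h1
    rw [rel_d1] at hc'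
    have e1 : d1 A C (v.1 - (rel (zAlg z C) c').1) = 0 := by
      rw [map_sub, sub_eq_zero]
      exact (congrArg Prod.fst hc').symm
    have e2 : d1 A C (v.2 - (rel (zAlg z C) c').2) = 0 := by
      rw [map_sub, sub_eq_zero]
      exact (congrArg Prod.snd hc').symm
    obtain ⟨a1, ha1⟩ := (exact0 A C _).1 e1
    obtain ⟨a2, ha2⟩ := (exact0 A C _).1 e2
    refine ⟨Gp.mk z (a1, a2), ?_⟩
    rw [Gp.map_mk, eq_comm, Gp.mk_eq_mk]
    refine ⟨c', ?_⟩
    ext
    · change _ = v.1 - algebraMap A C a1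
      rw [ha1, sub_sub_cancel]
    · change _ = v.2 - algebraMap A C a2
      rw [ha2, sub_sub_cancel]

/-- Cocycles with values in `G` are coboundaries. -/
lemma Gp.exists_coboundary (g : Gp (zAlg z (C ⊗[A] C)))
    (h : Gp.algMap (z := z) (f20 A C) g - Gp.algMap (z := z) (f21 A C) g +
      Gp.algMap (z := z) (f22 A C) g = 0) :
    ∃ g₀ : Gp (zAlg z C),
      Gp.algMap (z := z) (Algebra.TensorProduct.includeRight : C →ₐ[A] C ⊗[A] C) g₀ -
      Gp.algMap (z := z) (Algebra.TensorProduct.includeLeft : C →ₐ[A] C ⊗[A] C) g₀ = g := by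
  induction g using Gp.ind with
  | h v =>
    rw [Gp.algMap_mk, Gp.algMap_mk, Gp.algMap_mk, ← map_sub, ← map_add, Gp.mk_eq_zero] at h
    obtain ⟨c, hc⟩ := h
    have hc' : rel (zAlg z (C ⊗[A] (C ⊗[A] C))) c = (d2 A C v.1, d2 A C v.2) := by
      rw [hc, d2_eq, d2_eq]
      rfl
    have h1 : d3 A C c = 0 := by
      apply rel_injective (zAlg z (C ⊗[A] (C ⊗[A] (C ⊗[A] C))))
      rw [rel_d3, hc', map_zero]
      ext
      · exact (exact2 A C _).2 ⟨_, rfl⟩
      · exact (exact2 A C _).2 ⟨_, rfl⟩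
    obtain ⟨c', rfl⟩ := (exact2 A C _).1 h1
    rw [rel_d2] at hc'
    have e1 : d2 A C (v.1 - (rel (zAlg z (C ⊗[A] C)) c').1) = 0 := by
      rw [map_sub, sub_eq_zero]
      exact (congrArg Prod.fst hc').symm
    have e2 : d2 A C (v.2 - (rel (zAlg z (C ⊗[A] C)) c').2) = 0 := by
      rw [map_sub, sub_eq_zero]
      exact (congrArg Prod.snd hc').symm
    obtain ⟨a1, ha1⟩ := (exact1 A C _).1 e1
    obtain ⟨a2, ha2⟩ := (exact1 A C _).1 e2
    refine ⟨Gp.mk _ (a1, a2), ?_⟩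
    rw [Gp.algMap_mk, Gp.algMap_mk, ← map_sub, eq_comm, Gp.mk_eq_mk]
    refine ⟨c', ?_⟩
    ext
    · change _ = v.1 - d1 A C a1
      rw [ha1, sub_sub_cancel]
    · change _ = v.2 - d1 A C a2
      rw [ha2, sub_sub_cancel]

end

end TannakaNil
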