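import Mathlib

/-!
# Categories fibred over affine schemes, in displayed form

The base category is the category of affine schemes, i.e. the opposite of `CommRingCat.{0}`.
A category over affine schemes is given by its fibres and by its sets of arrows lying over a
given morphism of affine schemes.  For ring maps `f : A ⟶ B` (that is `Spec B ⟶ Spec A`),
`X.Hom f x y` is the type of arrows `x ⟶ y` of the total category which lie over
`Spec B ⟶ Spec A`, where `x` lies over `Spec B` and `y` lies over `Spec A`.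
-/

open CategoryTheory Opposite

universe u v u' v'

namespace TannakaNil

/-- A category over the category of affine schemes (in displayed form). -/
structure AffCat : Type (max 1 (u + 1) (v + 1)) where
  /-- objects over `Spec A` -/
  Obj : CommRingCat.{0} → Type u
  /-- arrows `x ⟶ y` over `Spec B ⟶ Spec A` -/
  Hom : ∀ {A B : CommRingCat.{0}} (_ : A ⟶ B), Obj B → Obj A → Type v
  id : ∀ {A : CommRingCat.{0}} (x : Obj A), Hom (𝟙 A) x x
  /-- composition; the ring map under the composite may be any map equal to the composite. -/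
  comp : ∀ {A B C : CommRingCat.{0}} {f : A ⟶ B} {g : B ⟶ C} {k : A ⟶ C} (_ : f ≫ g = k)
    {x : Obj C} {y : Obj B} {z : Obj A}, Hom g x y → Hom f y z → Hom k x z
  id_comp : ∀ {A B : CommRingCat.{0}} {f : A ⟶ B} (h : f ≫ 𝟙 B = f) {x : Obj B} {y : Obj A}
    (φ : Hom f x y), comp h (id x) φ = φ
  comp_id : ∀ {A B : CommRingCat.{0}} {f : A ⟶ B} (h : 𝟙 A ≫ f = f) {x : Obj B} {y : Obj A}
    (φ : Hom f x y), comp h φ (id y) = φ
  assoc : ∀ {A B C D : CommRingCat.{0}} {f : A ⟶ B} {g : B ⟶ C} {h : C ⟶ D} {fg : A ⟶ C}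
    {gh : B ⟶ D} {fgh : A ⟶ D} (h₁ : f ≫ g = fg) (h₂ : g ≫ h = gh) (h₃ : fg ≫ h = fgh)
    (h₄ : f ≫ gh = fgh) {w : Obj D} {x : Obj C} {y : Obj B} {z : Obj A}
    (χ : Hom h w x) (ψ : Hom g x y) (φ : Hom f y z),
    comp h₄ (comp h₂ χ ψ) φ = comp h₃ χ (comp h₁ ψ φ)

namespace AffCat

/-- The objects of the total category of `X`. -/
structure Tot (X : AffCat.{u, v}) : Type (max 1 u) where
  ring : CommRingCat.{0}
  pt : X.Obj ring

variable (X : AffCat.{u, v})

variable {X} in
/-- The arrows of the total category of `X`. -/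
abbrev Tot.Arrow (a b : X.Tot) : Type v := Σ f : b.ring ⟶ a.ring, X.Hom f a.pt b.pt

variable {X} in
/-- The identity arrows of the total category of `X`. -/
abbrev Tot.one (a : X.Tot) : a.Arrow a := ⟨𝟙 a.ring, X.id a.pt⟩

variable {X} in
/-- The composition of the total category of `X`. -/
abbrev Tot.mul {a b c : X.Tot} (φ : a.Arrow b) (ψ : b.Arrow c) : a.Arrow c :=
  ⟨ψ.1 ≫ φ.1, X.comp rfl φ.2 ψ.2⟩

variable {X} in
theorem Tot.one_mul {a b : X.Tot} (φ : a.Arrow b) : Tot.mul a.one φ = φ := by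
  obtain ⟨f, φ⟩ := φ
  have key : ∀ (k : b.ring ⟶ a.ring) (h : f ≫ 𝟙 a.ring = k),
      (⟨k, X.comp h (X.id a.pt) φ⟩ : Σ f : b.ring ⟶ a.ring, X.Hom f a.pt b.pt) = ⟨f, φ⟩ := by
    intro k h
    obtain rfl : k = f := by rw [← h, Category.comp_id]
    rw [X.id_comp]
  exact key _ rfl

variable {X} in
theorem Tot.mul_one {a b : X.Tot} (φ : a.Arrow b) : Tot.mul φ b.one = φ := by
  obtain ⟨f, φ⟩ := φ
  have key : ∀ (k : b.ring ⟶ a.ring) (h : 𝟙 b.ring ≫ f = k),
      (⟨k, X.comp h φ (X.id b.pt)⟩ : Σ f : b.ring ⟶ a.ring, X.Hom f a.pt b.pt) = ⟨f, φ⟩ := by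
    intro k h
    obtain rfl : k = f := by rw [← h, Category.id_comp]
    rw [X.comp_id]
  exact key _ rfl

variable {X} in
theorem Tot.mul_assoc {a b c d : X.Tot} (χ : a.Arrow b) (ψ : b.Arrow c) (φ : c.Arrow d) :
    Tot.mul (Tot.mul χ ψ) φ = Tot.mul χ (Tot.mul ψ φ) := by
  obtain ⟨h, χ⟩ := χ
  obtain ⟨g, ψ⟩ := ψ
  obtain ⟨f, φ⟩ := φ
  have key : ∀ (k : d.ring ⟶ a.ring) (h₃ : (f ≫ g) ≫ h = k) (k' : d.ring ⟶ a.ring)
      (h₄ : f ≫ (g ≫ h) = k') (e : k = k'),
      (⟨k', X.comp h₄ (X.comp rfl χ ψ) φ⟩ : Σ f : d.ring ⟶ a.ring, X.Hom f a.pt d.pt) =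
        ⟨k, X.comp h₃ χ (X.comp rfl ψ φ)⟩ := by
    intro k h₃ k' h₄ e
    subst e
    rw [X.assoc (h₁ := rfl) (h₃ := h₃)]
  exact key _ rfl _ rfl (Category.assoc _ _ _)

/-- The total category of `X`. -/
instance : Category.{v} X.Tot where
  Hom := Tot.Arrow
  id := Tot.one
  comp := Tot.mul
  id_comp := Tot.one_mul
  comp_id := Tot.mul_one
  assoc := Tot.mul_assoc

/-- The structure sheaf: the presheaf of rings on the total category given by the coordinate
rings of the affine schemes over which the objects lie. -/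
def 𝒪 : X.Totᵒᵖ ⥤ CommRingCat.{0} where
  obj a := a.unop.ring
  map φ := φ.unop.1

end AffCat

/-- A 1-morphism `T ⟶ X`: a functor between the total categories strictly compatible with the
projections to affine schemes. -/
structure Mor (T : AffCat.{u, v}) (X : AffCat.{u', v'}) where
  obj : ∀ {A : CommRingCat.{0}}, T.Obj A → X.Obj A
  map : ∀ {A B : CommRingCat.{0}} {f : A ⟶ B} {x : T.Obj B} {y : T.Obj A},
    T.Hom f x y → X.Hom f (obj x) (obj y)
  map_id : ∀ {A : CommRingCat.{0}} (x : T.Obj A), map (T.id x) = X.id (obj x)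
  map_comp : ∀ {A B C : CommRingCat.{0}} {f : A ⟶ B} {g : B ⟶ C} {k : A ⟶ C} (h : f ≫ g = k)
    {x : T.Obj C} {y : T.Obj B} {z : T.Obj A} (φ : T.Hom g x y) (ψ : T.Hom f y z),
    map (T.comp h φ ψ) = X.comp h (map φ) (map ψ)

namespace Mor

variable {T : AffCat.{u, v}} {X : AffCat.{u', v'}}

/-- The action of a 1-morphism on the objects of the total categories. -/
abbrev totObj (F : Mor T X) (a : T.Tot) : X.Tot := ⟨a.ring, F.obj a.pt⟩

/-- The action of a 1-morphism on the arrows of the total categories. -/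
abbrev totMap (F : Mor T X) {a b : T.Tot} (φ : a.Arrow b) : (F.totObj a).Arrow (F.totObj b) :=
  ⟨φ.1, F.map φ.2⟩

theorem totMap_one (F : Mor T X) (a : T.Tot) : F.totMap a.one = (F.totObj a).one := by
  change (⟨_, F.map (T.id a.pt)⟩ : Σ f : a.ring ⟶ a.ring, X.Hom f (F.obj a.pt) (F.obj a.pt)) = _
  rw [F.map_id]

theorem totMap_mul (F : Mor T X) {a b c : T.Tot} (φ : a.Arrow b) (ψ : b.Arrow c) :
    F.totMap (AffCat.Tot.mul φ ψ) = AffCat.Tot.mul (F.totMap φ) (F.totMap ψ) := by
  change (⟨_, F.map (T.comp rfl φ.2 ψ.2)⟩ :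
    Σ f : c.ring ⟶ a.ring, X.Hom f (F.obj a.pt) (F.obj c.pt)) = _
  rw [F.map_comp]

/-- The functor on total categories induced by a 1-morphism. -/
def tot (F : Mor T X) : T.Tot ⥤ X.Tot where
  obj := F.totObj
  map := F.totMap
  map_id := F.totMap_one
  map_comp := F.totMap_mul

/-- A 2-morphism between 1-morphisms `T ⟶ X`: a natural transformation whose components lie over
identities. -/
@[ext]
structure Hom (F G : Mor T X) where
  app : ∀ {A : CommRingCat.{0}} (t : T.Obj A), X.Hom (𝟙 A) (F.obj t) (G.obj t)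
  naturality : ∀ {A B : CommRingCat.{0}} {f : A ⟶ B} {s : T.Obj B} {t : T.Obj A}
    (φ : T.Hom f s t),
    X.comp (Category.comp_id f) (app s) (G.map φ) = X.comp (Category.id_comp f) (F.map φ) (app t)

/-- The identity 2-morphisms. -/
abbrev Hom.one (F : Mor T X) : Hom F F where
  app t := X.id (F.obj t)
  naturality φ := by rw [X.id_comp, X.comp_id]

/-- The composition of 2-morphisms. -/
abbrev Hom.mul {F G H : Mor T X} (α : Hom F G) (β : Hom G H) : Hom F H where
  app {A} t := X.comp (Category.comp_id (𝟙 A)) (α.app t) (β.app t)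
  naturality {A B f s t} φ := by
    rw [X.assoc (Category.comp_id f) (Category.comp_id _) (Category.comp_id f)
      (Category.comp_id f), β.naturality,
      ← X.assoc (Category.id_comp f) (Category.comp_id f) (Category.comp_id f)
        (Category.id_comp f), α.naturality,
      X.assoc (Category.id_comp (𝟙 A)) (Category.id_comp f) (Category.id_comp f)
        (Category.id_comp f)]

theorem Hom.one_mul {F G : Mor T X} (α : Hom F G) : Hom.mul (Hom.one F) α = α := by
  apply Hom.ext; funext A t; exact X.id_comp _ _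

theorem Hom.mul_one {F G : Mor T X} (α : Hom F G) : Hom.mul α (Hom.one G) = α := by
  apply Hom.ext; funext A t; exact X.comp_id _ _

theorem Hom.mul_assoc {F G H K : Mor T X} (α : Hom F G) (β : Hom G H) (γ : Hom H K) :
    Hom.mul (Hom.mul α β) γ = Hom.mul α (Hom.mul β γ) := by
  apply Hom.ext; funext A t
  exact X.assoc _ _ _ _ _ _ _

instance : Category (Mor T X) where
  Hom := Hom
  id := Hom.one
  comp := Hom.mul
  id_comp := Hom.one_mul
  comp_id := Hom.mul_one
  assoc := Hom.mul_assoc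

@[simp] lemma id_app (F : Mor T X) {A : CommRingCat.{0}} (t : T.Obj A) :
    Hom.app (𝟙 F) t = X.id (F.obj t) := rfl

@[simp] lemma comp_app {F G H : Mor T X} (α : F ⟶ G) (β : G ⟶ H) {A : CommRingCat.{0}}
    (t : T.Obj A) :
    Hom.app (α ≫ β) t = X.comp (Category.comp_id (𝟙 A)) (Hom.app α t) (Hom.app β t) := rfl

@[ext] lemma hom_ext {F G : Mor T X} {α β : F ⟶ G}
    (h : ∀ {A : CommRingCat.{0}} (t : T.Obj A), Hom.app α t = Hom.app β t) : α = β := by
  apply Hom.ext; funext A t; exact h t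

end Mor

lemma AffCat.Tot.comp_mk {X : AffCat.{u, v}} {a b c : X.Tot} (f : b.ring ⟶ a.ring)
    (φ : X.Hom f a.pt b.pt) (g : c.ring ⟶ b.ring) (ψ : X.Hom g b.pt c.pt) (k : c.ring ⟶ a.ring)
    (h : g ≫ f = k) :
    (show a ⟶ b from ⟨f, φ⟩) ≫ (show b ⟶ c from ⟨g, ψ⟩) = (show a ⟶ c from ⟨k, X.comp h φ ψ⟩) := by
  subst h; rfl

variable {T : AffCat.{u, v}} {X : AffCat.{u', v'}}

/-- The arrow of the total category given by a component of a 2-morphism. -/
def Mor.arrow {F G : Mor T X} (θ : G ⟶ F) (t : T.Tot) : G.tot.obj t ⟶ F.tot.obj t :=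
  ⟨𝟙 t.ring, Mor.Hom.app θ t.pt⟩

lemma Mor.arrow_naturality {F G : Mor T X} (θ : G ⟶ F) {s t : T.Tot} (φ : s ⟶ t) :
    G.tot.map φ ≫ Mor.arrow θ t = Mor.arrow θ s ≫ F.tot.map φ := by
  obtain ⟨f, φ⟩ := φ
  refine (AffCat.Tot.comp_mk (X := X) (a := G.tot.obj s) (b := G.tot.obj t) (c := F.tot.obj t)
    f (G.map φ) (𝟙 _) (Mor.Hom.app θ t.pt) f (Category.id_comp f)).trans ?_
  refine Eq.trans ?_ (AffCat.Tot.comp_mk (X := X) (a := G.tot.obj s) (b := F.tot.obj s)
    (c := F.tot.obj t) (𝟙 _) (Mor.Hom.app θ s.pt) f (F.map φ) f (Category.comp_id f)).symm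
  exact congrArg (fun x => (⟨f, x⟩ : Σ f : t.ring ⟶ s.ring,
    X.Hom f (G.tot.obj s).pt (F.tot.obj t).pt)) (Mor.Hom.naturality θ φ).symm

/-- `X` is fibred in groupoids over affine schemes: pullbacks exist and every arrow is strongly
cartesian. -/
structure AffCat.IsFibredInGroupoids (X : AffCat.{u, v}) : Prop where
  exists_pullback : ∀ {A B : CommRingCat.{0}} (f : A ⟶ B) (y : X.Obj A),
    ∃ x : X.Obj B, Nonempty (X.Hom f x y)
  existsUnique_lift : ∀ {A B C : CommRingCat.{0}} {f : A ⟶ B} {g : B ⟶ C} {k : A ⟶ C}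
    (h : f ≫ g = k) {x : X.Obj C} {y : X.Obj B} {z : X.Obj A} (φ : X.Hom f y z)
    (ψ : X.Hom k x z), ∃! χ : X.Hom g x y, X.comp h χ φ = ψ

namespace AffCat.IsFibredInGroupoids

variable (hX : X.IsFibredInGroupoids)

include hX in
lemma cancel {A B C : CommRingCat.{0}} {f : A ⟶ B} {g : B ⟶ C} {k : A ⟶ C}
    (h : f ≫ g = k) {x : X.Obj C} {y : X.Obj B} {z : X.Obj A} (φ : X.Hom f y z)
    {χ χ' : X.Hom g x y} (e : X.comp h χ φ = X.comp h χ' φ) : χ = χ' :=
  (hX.existsUnique_lift h φ (X.comp h χ' φ)).unique e rfl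

include hX in
/-- If the target is fibred in groupoids, all 2-morphisms are invertible. -/
lemma isIso {F G : Mor T X} (η : F ⟶ G) : IsIso η := by
  have key : ∀ {A : CommRingCat.{0}} (t : T.Obj A), ∃ θ : X.Hom (𝟙 A) (G.obj t) (F.obj t),
      X.comp (Category.comp_id (𝟙 A)) θ (Mor.Hom.app η t) = X.id (G.obj t) := fun {A} t =>
    (hX.existsUnique_lift (Category.comp_id (𝟙 A)) (Mor.Hom.app η t) (X.id (G.obj t))).exists
  choose θ hθ using @key
  have hθ' : ∀ {A : CommRingCat.{0}} (t : T.Obj A),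
      X.comp (Category.comp_id (𝟙 A)) (Mor.Hom.app η t) (θ t) = X.id (F.obj t) := by
    intro A t
    apply hX.cancel (Category.comp_id (𝟙 A)) (Mor.Hom.app η t)
    rw [X.assoc (Category.comp_id _) (Category.comp_id _) (Category.comp_id _)
      (Category.comp_id _), hθ, X.id_comp, X.comp_id]
  let inv : G ⟶ F :=
    { app := θ
      naturality := by
        intro A B f s t φ
        apply hX.cancel (Category.id_comp f) (Mor.Hom.app η t)
        rw [X.assoc (Category.id_comp f) (Category.comp_id f) (Category.comp_id f)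
          (Category.id_comp f), ← Mor.Hom.naturality,
          ← X.assoc (Category.comp_id f) (Category.comp_id _) (Category.comp_id f)
          (Category.comp_id f), hθ, X.id_comp,
          X.assoc (Category.comp_id _) (Category.id_comp f) (Category.id_comp f)
          (Category.id_comp f), hθ, X.comp_id] }
  exact ⟨inv, by
    apply Mor.hom_ext
    intro A t
    exact hθ' t, by
    apply Mor.hom_ext
    intro A t
    exact hθ t⟩

end AffCat.IsFibredInGroupoids

end TannakaNil
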