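import Mathlib

/-!
# Elementwise formulas for braided functors to module categories
-/

open CategoryTheory Opposite Limits MonoidalCategory TensorProduct Functor.LaxMonoidal

universe w

namespace TannakaNil

variable {C : Type*} [Category* C] [MonoidalCategory C] [BraidedCategory C]
  {B : CommRingCat.{0}} (F : C ⥤ ModuleCat.{0} B) [F.Braided]

/-- The action of a functor on elements. -/
noncomputable abbrev fm {M N : C} (f : M ⟶ N) : F.obj M →ₗ[B] F.obj N := (F.map f).hom

/-- The external product. -/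
noncomputable def ft {M N : C} (m : F.obj M) (n : F.obj N) : (F.obj (M ⊗ N) : Type) :=
  (μ F M N).hom (m ⊗ₜ n)

/-- The unit element. -/
noncomputable def f1 : (F.obj (𝟙_ C) : Type) := (ε F).hom (1 : B)

variable {M N P Q : C}

lemma fm_comp (f : M ⟶ N) (g : N ⟶ P) (m : F.obj M) : fm F (f ≫ g) m = fm F g (fm F f m) := by
  simp [fm]

lemma fm_id (m : F.obj M) : fm F (𝟙 M) m = m := by simp [fm]

lemma ft_add_left (m m' : F.obj M) (n : F.obj N) :
    ft F (m + m') n = ft F m n + ft F m' n := by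
  unfold ft
  rw [add_tmul]; exact map_add _ _ _

lemma ft_add_right (m : F.obj M) (n n' : F.obj N) :
    ft F m (n + n') = ft F m n + ft F m n' := by
  unfold ft
  rw [tmul_add]; exact map_add _ _ _

lemma ft_smul_left (r : B) (m : F.obj M) (n : F.obj N) :
    ft F (r • m) n = r • ft F m n := by
  unfold ft
  rw [← smul_tmul']; exact map_smul _ _ _

lemma ft_smul_right (r : B) (m : F.obj M) (n : F.obj N) :
    ft F m (r • n) = r • ft F m n := by
  unfold ft
  rw [tmul_smul]; exact map_smul _ _ _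

lemma ft_zero_left (n : F.obj N) : ft F (0 : F.obj M) n = 0 := by
  unfold ft
  rw [zero_tmul]; exact map_zero _

lemma ft_zero_right (m : F.obj M) : ft F m (0 : F.obj N) = 0 := by
  unfold ft
  rw [tmul_zero]; exact map_zero _

lemma fm_tensorHom (f : M ⟶ P) (g : N ⟶ Q) (m : F.obj M) (n : F.obj N) :
    fm F (f ⊗ₘ g) (ft F m n) = ft F (fm F f m) (fm F g n) := by
  have h := μ_natural F f g
  have h1 := ConcreteCategory.congr_hom h (m ⊗ₜ[B] n)
  exact h1.symm

lemma fm_whiskerRight (f : M ⟶ P) (m : F.obj M) (n : F.obj N) :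
    fm F (f ▷ N) (ft F m n) = ft F (fm F f m) n := by
  rw [← tensorHom_id, fm_tensorHom, fm_id]

lemma fm_whiskerLeft (g : N ⟶ Q) (m : F.obj M) (n : F.obj N) :
    fm F (M ◁ g) (ft F m n) = ft F m (fm F g n) := by
  rw [← id_tensorHom, fm_tensorHom, fm_id]

lemma fm_associator_hom (m : F.obj M) (n : F.obj N) (p : F.obj P) :
    fm F (α_ M N P).hom (ft F (ft F m n) p) = ft F m (ft F n p) := by
  have h := associativity F M N P
  exact ConcreteCategory.congr_hom h ((m ⊗ₜ[B] n) ⊗ₜ[B] p)

lemma fm_associator_inv (m : F.obj M) (n : F.obj N) (p : F.obj P) :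
    fm F (α_ M N P).inv (ft F m (ft F n p)) = ft F (ft F m n) p := by
  rw [← fm_associator_hom, ← fm_comp, Iso.hom_inv_id, fm_id]

lemma fm_braiding (m : F.obj M) (n : F.obj N) :
    fm F (β_ M N).hom (ft F m n) = ft F n m := by
  have h := Functor.LaxBraided.braided (F := F) M N
  exact ConcreteCategory.congr_hom h (m ⊗ₜ[B] n)

lemma fm_leftUnitor_hom (n : F.obj N) :
    fm F (λ_ N).hom (ft F (f1 F) n) = n := by
  have h := left_unitality F N
  have h1 := ConcreteCategory.congr_hom h ((1 : B) ⊗ₜ[B] n)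
  refine h1.symm.trans ?_
  exact one_smul B n

lemma fm_rightUnitor_hom (n : F.obj N) :
    fm F (ρ_ N).hom (ft F n (f1 F)) = n := by
  have h := right_unitality F N
  have h1 := ConcreteCategory.congr_hom h (n ⊗ₜ[B] (1 : B))
  refine h1.symm.trans ?_
  exact one_smul B n

lemma fm_leftUnitor_inv (n : F.obj N) :
    fm F (λ_ N).inv n = ft F (f1 F) n := by
  conv_lhs => rw [← fm_leftUnitor_hom F n]
  rw [← fm_comp, Iso.hom_inv_id, fm_id]

lemma fm_rightUnitor_inv (n : F.obj N) :
    fm F (ρ_ N).inv n = ft F n (f1 F) := by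
  conv_lhs => rw [← fm_rightUnitor_hom F n]
  rw [← fm_comp, Iso.hom_inv_id, fm_id]

/-- The external product is an isomorphism. -/
noncomputable def ftEquiv (M N : C) : F.obj M ⊗[B] F.obj N ≃ₗ[B] F.obj (M ⊗ N) :=
  (Functor.Monoidal.μIso F M N).toLinearEquiv

lemma ftEquiv_tmul (m : F.obj M) (n : F.obj N) : ftEquiv F M N (m ⊗ₜ n) = ft F m n := rfl

/-- The unit is an isomorphism. -/
noncomputable def f1Equiv : B ≃ₗ[B] F.obj (𝟙_ C) :=
  (Functor.Monoidal.εIso F).toLinearEquiv

lemma f1Equiv_apply (r : B) : f1Equiv F r = r • f1 F := by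
  have h : (r : B) = r • (1 : B) := (mul_one r).symm
  rw [h, map_smul, ← h]
  rfl

lemma f1_ext {r s : B} (h : r • f1 F = s • f1 F) : r = s := by
  rw [← f1Equiv_apply, ← f1Equiv_apply] at h
  exact (f1Equiv F).injective h

lemma exists_smul_f1 (x : F.obj (𝟙_ C)) : ∃ r : B, x = r • f1 F := by
  obtain ⟨r, rfl⟩ := (f1Equiv F).surjective x
  exact ⟨r, f1Equiv_apply F r⟩

@[elab_as_elim]
lemma ft_induction {p : F.obj (M ⊗ N) → Prop} (zero : p 0)
    (tmul : ∀ (m : F.obj M) (n : F.obj N), p (ft F m n)) (add : ∀ x y, p x → p y → p (x + y))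
    (x : F.obj (M ⊗ N)) : p x := by
  obtain ⟨x, rfl⟩ := (ftEquiv F M N).surjective x
  induction x with
  | zero => rw [map_zero]; exact zero
  | tmul m n => exact tmul m n
  | add x y hx hy => rw [map_add]; exact add _ _ hx hy

end TannakaNil
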