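import Pool.Agent.Helper10.Tannaka.Gen
import Pool.Agent.Helper10.Tannaka.Fun

/-!
# Exactness
-/

open CategoryTheory Opposite Limits MonoidalCategory TensorProduct

namespace TannakaNil

open Base

lemma moduleCat_exact_of_isColimit {B : CommRingCat.{0}} {M N P : ModuleCat.{0} B} {f : M ⟶ N}
    {g : N ⟶ P} {w : f ≫ g = 0} (h : IsColimit (CokernelCofork.ofπ g w)) :
    Function.Exact f.hom g.hom ∧ Function.Surjective g.hom := by
  let S := ShortComplex.mk f g w
  have h1 : S.Exact := S.exact_of_g_is_cokernel h
  have h2 : Epi g := epi_of_isColimit_cofork h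
  constructor
  · intro x
    constructor
    · intro hx
      exact (ShortComplex.moduleCat_exact_iff S).1 h1 x hx
    · rintro ⟨y, rfl⟩
      exact congrArg (fun l => l.hom y) w
  · exact (ModuleCat.epi_iff_surjective g).1 h2

lemma exact_of_isColimit {C : Type*} [Category* C] [HasZeroMorphisms C] {B : CommRingCat.{0}}
    (F : C ⥤ ModuleCat.{0} B) [F.PreservesZeroMorphisms] [PreservesColimitsOfSize.{0, 0} F]
    {M N P : C} {f : M ⟶ N} {g : N ⟶ P} {w : f ≫ g = 0}
    (h : IsColimit (CokernelCofork.ofπ g w)) :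
    Function.Exact (fm F f) (fm F g) ∧ Function.Surjective (fm F g) :=
  moduleCat_exact_of_isColimit (isColimitCoforkMapOfIsColimit' F w h)

lemma isIso_of_oo {M N : QCoh X0} (f : M ⟶ N) (h : Function.Bijective (sec f oo)) :
    IsIso f := by
  let e := LinearEquiv.ofBijective (sec f oo) h
  have he : ∀ n, sec f oo (e.symm n) = n := fun n => e.apply_symm_apply n
  have key : ∀ a : X0.Tot, ∃ g : Sec N a →ₗ[a.ring] Sec M a, ∀ n : Sec N oo,
      g (rz N a n) = rz M a (e.symm n) := by
    intro a
    obtain ⟨g, hg, _⟩ := rz_univ N a (Sec M a)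
      { toFun := fun n => rz M a (e.symm n)
        map_add' := fun x y => by rw [map_add, map_add]
        map_smul' := fun r x => by rw [map_smul, map_smulₛₗ] }
    exact ⟨g, hg⟩
  choose g hg using key
  have h1 : ∀ a, (sec f a).comp (g a) = LinearMap.id := by
    intro a
    apply rz_ext N a
    intro n
    rw [LinearMap.comp_apply, hg, sec_res, he]
    rfl
  have h2 : ∀ a, (g a).comp (sec f a) = LinearMap.id := by
    intro a
    apply rz_ext M a
    intro m
    rw [LinearMap.comp_apply, sec_res, hg]
    have : e.symm (sec f oo m) = m := e.symm_apply_apply m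
    rw [this]
    rfl
  have h1' : ∀ a n, sec f a (g a n) = n := fun a n => congrArg (fun l => l n) (h1 a)
  have h2' : ∀ a m, g a (sec f a m) = m := fun a m => congrArg (fun l => l m) (h2 a)
  let G : N ⟶ M := homMk g (by
    intro a c φ n
    have h3 : sec f a (g a (res N φ n)) = sec f a (res M φ (g c n)) := by
      rw [h1', sec_res, h1']
    have h4 := congrArg (g a) h3
    rwa [h2', h2'] at h4)
  refine ⟨G, ?_, ?_⟩
  · apply sec_ext
    intro a m
    exact h2' a m
  · apply sec_ext
    intro a n
    exact h1' a n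

lemma isColimit_of_exact {M N P : QCoh X0} (f : M ⟶ N) (g : N ⟶ P)
    (he : Function.Exact (sec f oo) (sec g oo)) (hs : Function.Surjective (sec g oo)) :
    ∃ w : f ≫ g = 0, Nonempty (IsColimit (CokernelCofork.ofπ g w)) := by
  have w : f ≫ g = 0 := by
    apply hom_ext_oo
    intro m
    rw [sec_comp]
    exact (he _).2 ⟨m, rfl⟩
  refine ⟨w, ?_⟩
  obtain ⟨h1, h2⟩ := exact_of_isColimit (evx (X := X0) (A := base₀.R) (𝟙 base₀.R))
    (w := cokernel.condition f) (cokernelIsCokernel f)
  let d : cokernel f ⟶ P := cokernel.desc f g w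
  have hd : ∀ n, sec d oo (sec (cokernel.π f) oo n) = sec g oo n := by
    intro n
    have := congrArg (fun l => sec l oo n) (cokernel.π_desc f g w)
    exact this
  have : IsIso d := by
    apply isIso_of_oo
    constructor
    · rw [injective_iff_map_eq_zero]
      intro x hx
      obtain ⟨n, rfl⟩ := h2 x
      have h3 : sec g oo n = 0 := (hd n).symm.trans hx
      obtain ⟨m, rfl⟩ := (he n).1 h3
      exact (h1 _).2 ⟨m, rfl⟩
    · intro p
      obtain ⟨n, rfl⟩ := hs p
      exact ⟨_, hd n⟩
  exact ⟨(cokernelIsCokernel f).ofIsoColimit (Cofork.ext (asIso d) (by simp [d]))⟩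

/-- Right exactness of cocontinuous additive functors, for sequences exact at the universal
object. -/
lemma exact_of_oo {B : CommRingCat.{0}} (F : QCoh X0 ⥤ ModuleCat.{0} B) [F.Additive]
    [PreservesColimitsOfSize.{0, 0} F] {M N P : QCoh X0} (f : M ⟶ N) (g : N ⟶ P)
    (he : Function.Exact (sec f oo) (sec g oo)) (hs : Function.Surjective (sec g oo)) :
    Function.Exact (fm F f) (fm F g) ∧ Function.Surjective (fm F g) := by
  obtain ⟨w, ⟨h⟩⟩ := isColimit_of_exact f g he hs
  exact exact_of_isColimit F h

/-- The locus where a natural transformation of cocontinuous functors is an isomorphism is closed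
under colimits. -/
lemma isIso_app_of_isColimit {C D : Type*} [Category* C] [Category* D] {J : Type}
    [Category.{0} J] (F G : C ⥤ D) (τ : F ⟶ G) {K : J ⥤ C} {c : Cocone K} (hc : IsColimit c)
    [PreservesColimit K F] [PreservesColimit K G] (h : ∀ j, IsIso (τ.app (K.obj j))) :
    IsIso (τ.app c.pt) := by
  have hF := isColimitOfPreserves F hc
  have hG := isColimitOfPreserves G hc
  let s : Cocone (K ⋙ G) :=
    { pt := F.obj c.pt
      ι :=
        { app := fun j => inv (τ.app (K.obj j)) ≫ F.map (c.ι.app j)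
          naturality := fun i j f => by
            have h1 := c.ι.naturality f
            have h2 : K.map f ≫ c.ι.app j = c.ι.app i := c.w f
            change G.map (K.map f) ≫ inv (τ.app (K.obj j)) ≫ F.map (c.ι.app j) =
              (inv (τ.app (K.obj i)) ≫ F.map (c.ι.app i)) ≫ 𝟙 _
            rw [Category.comp_id, ← h2, F.map_comp]
            have h3 := τ.naturality (K.map f)
            rw [IsIso.eq_inv_comp, ← Category.assoc, ← Category.assoc, ← h3]
            simp } }
  refine ⟨hG.desc s, ?_, ?_⟩
  · apply hF.hom_ext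
    intro j
    change F.map (c.ι.app j) ≫ τ.app c.pt ≫ hG.desc s = F.map (c.ι.app j) ≫ 𝟙 _
    have h5 : F.map (c.ι.app j) ≫ τ.app c.pt = τ.app (K.obj j) ≫ G.map (c.ι.app j) :=
      τ.naturality (c.ι.app j)
    rw [Category.comp_id, ← Category.assoc, h5, Category.assoc]
    have h4 : G.map (c.ι.app j) ≫ hG.desc s = s.ι.app j := hG.fac s j
    rw [h4]
    simp [s]
  · apply hG.hom_ext
    intro j
    change G.map (c.ι.app j) ≫ hG.desc s ≫ τ.app c.pt = G.map (c.ι.app j) ≫ 𝟙 _
    have h4 : G.map (c.ι.app j) ≫ hG.desc s = s.ι.app j := hG.fac s j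
    rw [← Category.assoc, h4, Category.comp_id]
    simp [s]

end TannakaNil
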