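import Pool.Agent.Helper10.Tannaka.FQ

/-!
# The values of a cocontinuous tensor functor on the sheaves `Q i`, II
-/

open CategoryTheory Opposite Limits MonoidalCategory TensorProduct Polynomial

namespace TannakaNil

open Base

variable {B : CommRingCat.{0}} (F : QCoh X0 ⥤ ModuleCat.{0} B) [F.Braided] [F.Additive]
  (Y : F.obj (Q 1))

/-- The powers of `Y`. -/
noncomputable def eF : (j : ℕ) → F.obj (Q j)
  | 0 => fm F (unitQ 0) (f1 F)
  | j + 1 => fm F (mulQ j 1) (ft F (eF j) Y)

lemma eF_zero : eF F Y 0 = fm F (unitQ 0) (f1 F) := rfl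

lemma eF_succ (j : ℕ) : eF F Y (j + 1) = fm F (mulQ j 1) (ft F (eF F Y j) Y) := rfl

variable (hY : fm F (lead 1) Y = f1 F)

include hY in
lemma lead_eF (j : ℕ) : fm F (lead j) (eF F Y j) = f1 F := by
  induction j with
  | zero => rw [eF_zero, ← fm_comp, lead_unitQ_zero, fm_id]
  | succ j ih =>
    rw [eF_succ, ← fm_comp, mulQ_lead, fm_comp, fm_tensorHom, ih, hY, fm_leftUnitor_hom]

lemma mul_eF (i j : ℕ) : fm F (mulQ i j) (ft F (eF F Y i) (eF F Y j)) = eF F Y (i + j) := by
  induction j with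
  | zero =>
    rw [eF_zero, ← fm_whiskerLeft, ← fm_comp, mulQ_unit]
    exact fm_rightUnitor_hom F (eF F Y i)
  | succ j ih =>
    have h1 : eF F Y (i + (j + 1)) = fm F (mulQ (i + j) 1) (ft F (eF F Y (i + j)) Y) := rfl
    rw [h1, ← ih, ← fm_whiskerRight, ← fm_comp, mulQ_assoc, fm_comp, fm_comp,
      fm_associator_hom, fm_whiskerLeft]
    rfl

/-- The elements `e_k` of `F (Q i)`, for `k ≤ i`. -/
noncomputable def eI {k i : ℕ} (h : k ≤ i) : F.obj (Q i) := fm F (inclQ h) (eF F Y k)

lemma eI_incl {k i j : ℕ} (h : k ≤ i) (h' : i ≤ j) :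
    fm F (inclQ h') (eI F Y h) = eI F Y (h.trans h') := by
  rw [eI, ← fm_comp, inclQ_inclQ]; rfl

lemma eI_self (i : ℕ) : eI F Y (le_refl i) = eF F Y i := by
  rw [eI, inclQ_refl, fm_id]

lemma mul_eI {i j i' j' : ℕ} (h : i ≤ i') (h' : j ≤ j') :
    fm F (mulQ i' j') (ft F (eI F Y h) (eI F Y h')) = eI F Y (Nat.add_le_add h h') := by
  rw [eI, eI, ← fm_tensorHom, ← fm_comp, mulQ_incl, fm_comp, mul_eF]
  rfl

/-- The linear map sending the coefficients to the element. -/
noncomputable def EP (i : ℕ) : (Fin (i + 1) → B) →ₗ[B] F.obj (Q i) where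
  toFun b := ∑ k : Fin (i + 1), b k • eI F Y (Nat.le_of_lt_succ k.2)
  map_add' b c := by
    rw [← Finset.sum_add_distrib]
    exact Finset.sum_congr rfl fun k _ => add_smul _ _ _
  map_smul' r b := by
    rw [RingHom.id_apply, Finset.smul_sum]
    exact Finset.sum_congr rfl fun k _ => mul_smul _ _ _

lemma EP_apply (i : ℕ) (b : Fin (i + 1) → B) :
    EP F Y i b = ∑ k : Fin (i + 1), b k • eI F Y (Nat.le_of_lt_succ k.2) := rfl

lemma EP_incl {i : ℕ} (b : Fin (i + 1) → B) :
    fm F (inclQ (Nat.le_succ i)) (EP F Y i b) = EP F Y (i + 1) (Fin.snoc b 0) := by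
  rw [EP_apply, map_sum, EP_apply, Fin.sum_univ_castSucc (n := i + 1), Fin.snoc_last, zero_smul,
    add_zero]
  apply Finset.sum_congr rfl
  intro k _
  rw [map_smul, Fin.snoc_castSucc, eI_incl]

include hY in
lemma EP_surjective [PreservesColimitsOfSize.{0, 0} F] (i : ℕ) :
    Function.Surjective (EP F Y i) := by
  induction i with
  | zero =>
    intro x
    obtain ⟨r, hr⟩ := exists_smul_f1 F (fm F (lead 0) x)
    refine ⟨fun _ => r, ?_⟩
    have h1 : fm F (unitQ 0) (fm F (lead 0) x) = x := by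
      rw [← fm_comp, unitQ_lead_zero, fm_id]
    rw [EP_apply]
    rw [hr, map_smul] at h1
    simp only [Fin.sum_univ_castSucc, Fin.sum_univ_zero, zero_add]
    rw [← h1]
    congr 1
    exact eI_self F Y 0
  | succ i ih =>
    intro x
    obtain ⟨r, hr⟩ := exists_smul_f1 F (fm F (lead (i + 1)) x)
    have h1 : fm F (lead (i + 1)) (x - r • eF F Y (i + 1)) = 0 := by
      rw [map_sub, map_smul, lead_eF F Y hY, hr, sub_self]
    obtain ⟨y, hy⟩ := ((exact_lead F i).1 _).1 h1
    obtain ⟨b, rfl⟩ := ih y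
    refine ⟨Fin.snoc b r, ?_⟩
    have h2 : Fin.snoc b r = Fin.snoc b 0 + (fun k => if k = Fin.last (i + 1) then r else 0 :
        Fin (i + 1 + 1) → B) := by
      funext k
      refine Fin.lastCases ?_ (fun k => ?_) k
      · simp
      · simp [Fin.castSucc_ne_last]
    rw [h2, map_add, ← EP_incl, hy, EP_apply, Finset.sum_eq_single (Fin.last (i + 1))]
    · rw [if_pos rfl]
      have h3 : eI F Y (Nat.le_of_lt_succ (Fin.last (i + 1)).2) = eF F Y (i + 1) :=
        eI_self F Y (i + 1)
      rw [h3, sub_add_cancel]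
    · intro k _ hk
      rw [if_neg hk, zero_smul]
    · intro h
      exact absurd (Finset.mem_univ _) h

/-- The pairing of two elements of `F (Q N)`, where `N = 2^r - 1`. -/
noncomputable def pairF (r : ℕ) (x y : F.obj (Q (2 ^ r - 1))) : F.obj (𝟙_ (QCoh X0)) :=
  fm F (midc r) (fm F (mulQ _ _) (ft F x y))

lemma pair_lt (r : ℕ) {j k : ℕ} (hj : j ≤ 2 ^ r - 1) (hk : k ≤ 2 ^ r - 1)
    (h : j + k < 2 ^ r - 1) : pairF F r (eI F Y hj) (eI F Y hk) = 0 := by
  rw [pairF, mul_eI, eI, ← fm_comp, inclQ_midc_lt h, fm_zero]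

include hY in
lemma pair_eq (r : ℕ) {j k : ℕ} (hj : j ≤ 2 ^ r - 1) (hk : k ≤ 2 ^ r - 1)
    (h : j + k = 2 ^ r - 1) : pairF F r (eI F Y hj) (eI F Y hk) = f1 F := by
  have h1 : ∀ (m : ℕ) (hm : m = 2 ^ r - 1) (hm' : m ≤ (2 ^ r - 1) + (2 ^ r - 1)),
      fm F (midc r) (eI F Y hm') = f1 F := by
    intro m hm hm'
    subst hm
    rw [eI, ← fm_comp, inclQ_midc_eq, lead_eF F Y hY]
  rw [pairF, mul_eI]
  exact h1 _ h _

include hY in
lemma EP_injective_aux (r : ℕ) : Function.Injective (EP F Y (2 ^ r - 1)) := by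
  rw [injective_iff_map_eq_zero]
  intro b hb
  have key : ∀ d : ℕ, ∀ k : Fin (2 ^ r - 1 + 1), 2 ^ r - 1 - k.1 = d → b k = 0 := by
    intro d
    induction d using Nat.strong_induction_on with
    | _ d ih =>
      intro k hk
      have hk2 := k.2
      have h1 : pairF F r (EP F Y (2 ^ r - 1) b)
          (eI F Y (show 2 ^ r - 1 - k.1 ≤ 2 ^ r - 1 by omega)) = b k • f1 F := by
        have hlin : ∀ y, pairF F r (EP F Y (2 ^ r - 1) b) y =
            ∑ l : Fin (2 ^ r - 1 + 1), b l • pairF F r (eI F Y (Nat.le_of_lt_succ l.2)) y := by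
          intro y
          let φ : F.obj (Q (2 ^ r - 1)) →ₗ[B] F.obj (𝟙_ (QCoh X0)) :=
            { toFun := fun x => pairF F r x y
              map_add' := fun x x' => by simp only [pairF, ft_add_left, map_add]
              map_smul' := fun c x => by
                simp only [pairF, ft_smul_left, map_smul, RingHom.id_apply] }
          change φ (EP F Y (2 ^ r - 1) b) = _
          rw [EP_apply, map_sum]
          exact Finset.sum_congr rfl fun l _ => map_smul φ _ _
        rw [hlin, Finset.sum_eq_single k]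
        · rw [pair_eq F Y hY]
          omega
        · intro l _ hl
          rcases lt_trichotomy l.1 k.1 with h | h | h
          · rw [pair_lt, smul_zero]
            omega
          · exact absurd (Fin.ext h) hl
          · rw [ih (2 ^ r - 1 - l.1) (by omega) l rfl, zero_smul]
        · intro h
          exact absurd (Finset.mem_univ _) h
      rw [hb] at h1
      have h2 : pairF F r 0 (eI F Y (show 2 ^ r - 1 - k.1 ≤ 2 ^ r - 1 by omega)) = 0 := by
        rw [pairF, ft_zero_left, map_zero, map_zero]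
      rw [h2] at h1
      exact f1_ext F (h1.symm.trans (zero_smul B _).symm)
  funext k
  exact key _ k rfl

include hY in
lemma EP_injective (i : ℕ) : Function.Injective (EP F Y i) := by
  rw [injective_iff_map_eq_zero]
  intro b hb
  have hi : i ≤ 2 ^ i - 1 := by
    have := Nat.lt_two_pow_self (n := i)
    omega
  let b' : Fin (2 ^ i - 1 + 1) → B := fun k => if h : k.1 < i + 1 then b ⟨k.1, h⟩ else 0
  have h1 : EP F Y (2 ^ i - 1) b' = 0 := by
    have h2 : fm F (inclQ hi) (EP F Y i b) = EP F Y (2 ^ i - 1) b' := by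
      rw [EP_apply, EP_apply, map_sum]
      have hfun : ∀ k : Fin (i + 1), fm F (inclQ hi) (b k • eI F Y (Nat.le_of_lt_succ k.2)) =
          b' ⟨k.1, by omega⟩ • eI F Y (Nat.le_of_lt_succ (show k.1 < 2 ^ i - 1 + 1 by omega)) := by
        intro k
        rw [map_smul, eI_incl]
        have h6 : b' ⟨k.1, by omega⟩ = b k := dif_pos k.2
        rw [h6]
      rw [Finset.sum_congr rfl fun k _ => hfun k]
      let g : Fin (2 ^ i - 1 + 1) → F.obj (Q (2 ^ i - 1)) := fun k =>
        b' k • eI F Y (Nat.le_of_lt_succ k.2)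
      have h4 : ∑ k : Fin (i + 1), g ⟨k.1, by omega⟩ = ∑ k, g k := by
        refine Finset.sum_of_injOn (fun k : Fin (i + 1) => (⟨k.1, by omega⟩ :
          Fin (2 ^ i - 1 + 1))) ?_ ?_ ?_ ?_
        · intro k _ l _ hkl
          exact Fin.ext (Fin.mk.inj_iff.1 hkl)
        · intro k _
          exact Finset.mem_univ _
        · intro k _ hk
          have hk' : ¬ k.1 < i + 1 := by
            intro h
            exact hk ⟨⟨k.1, h⟩, Finset.mem_univ _, rfl⟩
          change b' k • _ = 0
          simp only [b', dif_neg hk', zero_smul]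
        · intro k _
          rfl
      exact h4
    rw [← h2, hb, map_zero]
  have h3 := (injective_iff_map_eq_zero _).1 (EP_injective_aux F Y hY i) b' h1
  funext k
  have h5 := congrFun h3 ⟨k.1, by omega⟩
  have h6 : b' ⟨k.1, by omega⟩ = b k := dif_pos k.2
  exact h6.symm.trans h5

end TannakaNil
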