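import Pool.Agent.Helper10.Tannaka.FK

/-!
# Existence of compatible generators
-/

open CategoryTheory Opposite Limits MonoidalCategory TensorProduct Polynomial

namespace TannakaNil

open Base

/-- Multiplication on `𝒪 / t^n`. -/
noncomputable def μK (n : ℕ) : K n ⊗ K n ⟶ K n :=
  homMk (fun a => (sK n a).toLinearMap.comp (LinearMap.mul' a.ring (a.ring ⧸ tI a.pt n))) (by
    intro a c φ m
    induction m using sec_induction with
    | zero => rw [map_zero, map_zero, map_zero, map_zero]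
    | tmul x y =>
      obtain ⟨x, rfl⟩ := (sK n c).surjective x
      obtain ⟨y, rfl⟩ := (sK n c).surjective y
      have h1 : kMap φ n x * kMap φ n y = kMap φ n (x * y) :=
        (map_mul (qmap φ.1 φ.2.2 n) x y).symm
      exact h1
    | add x y hx hy => rw [map_add, map_add, hx, hy, map_add, map_add])

lemma sec_μK (n : ℕ) (a : X0.Tot) (x y : a.ring ⧸ tI a.pt n) :
    sec (μK n) a (tm (sK n a x) (sK n a y)) = sK n a (x * y) := rfl

lemma projK_μK (n : ℕ) : (projK n ⊗ₘ projK n) ≫ μK n = (λ_ _).hom ≫ projK n := by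
  apply sec_ext
  intro a m
  induction m using sec_induction with
  | zero => rw [map_zero, map_zero]
  | tmul x y =>
    obtain ⟨x, rfl⟩ := (secUnit a).surjective x
    obtain ⟨y, rfl⟩ := (secUnit a).surjective y
    rw [sec_comp_apply, sec_comp_apply, sec_tensorHom, sec_projK, sec_projK, sec_μK,
      sec_leftUnitor_hom, ← map_smul, sec_projK, smul_eq_mul,
      ← (Ideal.Quotient.mk (tI a.pt n)).map_mul]
  | add x y hx hy => rw [map_add, map_add, hx, hy]

variable {B : CommRingCat.{0}} (F : QCoh X0 ⥤ ModuleCat.{0} B) [F.Braided] [F.Additive]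
  [PreservesColimitsOfSize.{0, 0} F]

lemma μK_kOne (n : ℕ) : fm F (μK n) (ft F (kOne F n) (kOne F n)) = kOne F n := by
  rw [kOne, ← fm_tensorHom, ← fm_comp, projK_μK, fm_comp, fm_leftUnitor_hom]

lemma smul_ii_eq_zero {n : ℕ} {c : B} (h : c • ft F (iF F n) (iF F n) = 0) :
    ∃ s, c = τF F ^ n * s := by
  rw [← smul_kOne_eq_zero]
  obtain ⟨x, hx⟩ := exists_π F n
  have h1 : c • ft F (iF F n) (kOne F n) = 0 := by
    have := congrArg (fun w => fm F (L n ◁ βL n) (fm F (α_ _ _ _).hom (ft F w x))) h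
    simp only [ft_smul_left, map_smul, fm_associator_hom, fm_whiskerLeft, βL_ix F hx,
      ft_zero_left, map_zero] at this
    exact this
  have h2 : c • ft F (kOne F n) (kOne F n) = 0 := by
    have := congrArg (fun w => fm F (βL n ▷ K n) (fm F (α_ _ _ _).inv (ft F x w))) h1
    simp only [ft_smul_right, map_smul, fm_associator_inv, fm_whiskerRight, βL_xi F hx,
      ft_zero_right, map_zero] at this
    exact this
  have h3 := congrArg (fm F (μK n)) h2
  rwa [map_smul, μK_kOne, map_zero] at h3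

lemma smul_iF_of_mul (n : ℕ) (c d : B) (h : c = τF F ^ n * d) : c • iF F n = 0 :=
  (smul_iF_eq_zero F n c).2 ⟨d, h⟩

lemma fm_trL_iF (n : ℕ) : fm F (trL n) (iF F (n + 1)) = iF F n := by
  rw [iF, ← fm_comp, uL_trL]; rfl

variable {F}

lemma Fun1.u_trL (Φ : Fun1 F) (n : ℕ) (x : F.obj (L (n + 1))) :
    fm F (trL n ⊗ₘ trL n) (Φ.u (n + 1) x) = Φ.u n (fm F (trL n) x) := by
  rw [Φ.u_apply, Φ.u_apply, ← ctr_natural, ← fm_comp, κL_trL, fm_comp]

/-- An element of `F (L n)` behaving like the generator `x`. -/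
structure Fun1.IsGr (Φ : Fun1 F) (n : ℕ) (x : F.obj (L n)) : Prop where
  π : fm F (πL n) x = f1 F
  u : Φ.u n x = ft F x x

lemma Fun1.IsGr.tr {Φ : Fun1 F} {n : ℕ} {x : F.obj (L (n + 1))} (h : Φ.IsGr (n + 1) x) :
    Φ.IsGr n (fm F (trL n) x) where
  π := by rw [← fm_comp, trL_πL, h.π]
  u := by rw [← Φ.u_trL, h.u, fm_tensorHom]

include F in
lemma smul_add_self' {M : QCoh X0} (r : B) (m : F.obj M) : r • m + r • m = 0 := by
  rw [← add_smul, addSelf F, zero_smul]

lemma Fun1.IsGr.exists_lift {Φ : Fun1 F} {n : ℕ} {x : F.obj (L (n + 1))}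
    (h : Φ.IsGr (n + 1) x) :
    ∃ x' : F.obj (L (n + 2)), Φ.IsGr (n + 2) x' ∧ fm F (trL (n + 1)) x' = x := by
  -- a lift
  obtain ⟨y, hy, hyx⟩ : ∃ y : F.obj (L (n + 2)), fm F (πL (n + 2)) y = f1 F ∧
      fm F (trL (n + 1)) y = x := by
    obtain ⟨y₀, hy₀⟩ := exists_π F (n + 2)
    obtain ⟨r, s, hrs⟩ := exists_decomp F h.π (fm F (trL (n + 1)) y₀)
    have hs : s = 1 := by
      have h1 := congrArg (fm F (πL (n + 1))) hrs
      rw [← fm_comp, trL_πL, hy₀, map_add, map_smul, map_smul, fm_πL_iF, h.π, smul_zero,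
        zero_add] at h1
      exact (f1_ext F ((one_smul B _).trans h1)).symm
    refine ⟨y₀ - r • iF F (n + 2), ?_, ?_⟩
    · rw [map_sub, map_smul, fm_πL_iF, smul_zero, sub_zero, hy₀]
    · rw [map_sub, map_smul, fm_trL_iF, hrs, hs, one_smul]
      abel
  obtain ⟨c, hc⟩ := Φ.exists_defect hy
  have hcn : ∃ s, c = τF F ^ (n + 1) * s := by
    have h1 := congrArg (fm F (trL (n + 1) ⊗ₘ trL (n + 1))) hc
    rw [Φ.u_trL, hyx, h.u, map_add, map_smul, fm_tensorHom, fm_tensorHom, hyx, fm_trL_iF] at h1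
    exact smul_ii_eq_zero F (left_eq_add.1 h1)
  obtain ⟨d, hd⟩ := hcn
  have hci : c • iF F (n + 1) = 0 := smul_iF_of_mul F _ _ _ hd
  have hcc : (c * c) • iF F (n + 2) = 0 := by
    apply smul_iF_of_mul F _ _ (τF F ^ n * (d * d))
    rw [hd]
    ring
  refine ⟨y + c • iF F (n + 2), ⟨?_, ?_⟩, ?_⟩
  · rw [map_add, map_smul, fm_πL_iF, smul_zero, add_zero, hy]
  · rw [map_add, map_smul, hc, Φ.u_iF hy]
    simp only [ft_add_left, ft_add_right, ft_smul_left, ft_smul_right, smul_add, smul_smul]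
    have h1 : (c * c) • ft F (iF F (n + 2)) (iF F (n + 2)) = 0 := by
      rw [← ft_smul_left, hcc, ft_zero_left]
    rw [h1, add_zero]
    have h2 := smul_add_self' c (ft F (iF F (n + 2)) (iF F (n + 2)))
    calc _ = ft F y y + (c • ft F y (iF F (n + 2)) + c • ft F (iF F (n + 2)) y) +
          (c • ft F (iF F (n + 2)) (iF F (n + 2)) + c • ft F (iF F (n + 2)) (iF F (n + 2))) := by
            abel
      _ = _ := by rw [h2]; abel
  · rw [map_add, map_smul, fm_trL_iF, hyx, hci, add_zero]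

end TannakaNil
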