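import Pool.Agent.Helper10.Tannaka.FL

/-!
# The values of a cocontinuous tensor functor on the sheaves `L n`, II
-/

open CategoryTheory Opposite Limits MonoidalCategory TensorProduct Polynomial

namespace TannakaNil

open Base

section ctr

variable {C : Type*} [Category* C] [MonoidalCategory C] [BraidedCategory C]
  {B : CommRingCat.{0}} (F : C ⥤ ModuleCat.{0} B) [F.Braided]

/-- Contraction with a linear functional. -/
noncomputable def ctr {P : C} (φ : F.obj P →ₗ[B] B) (N : C) : F.obj (N ⊗ P) →ₗ[B] F.obj N :=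
  (TensorProduct.rid B (F.obj N)).toLinearMap.comp
    ((LinearMap.lTensor (F.obj N) φ).comp (ftEquiv F N P).symm.toLinearMap)

lemma ctr_ft {P : C} (φ : F.obj P →ₗ[B] B) {N : C} (n : F.obj N) (c : F.obj P) :
    ctr F φ N (ft F n c) = φ c • n := by
  have h : (ftEquiv F N P).symm (ft F n c) = n ⊗ₜ c := by
    rw [LinearEquiv.symm_apply_eq, ftEquiv_tmul]
  change (TensorProduct.rid B (F.obj N)) ((LinearMap.lTensor (F.obj N) φ)
    ((ftEquiv F N P).symm (ft F n c))) = _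
  rw [h, LinearMap.lTensor_tmul, TensorProduct.rid_tmul]

lemma ctr_natural {P : C} (φ : F.obj P →ₗ[B] B) {N N' : C} (f : N ⟶ N') (w : F.obj (N ⊗ P)) :
    ctr F φ N' (fm F (f ▷ P) w) = fm F f (ctr F φ N w) := by
  induction w using ft_induction with
  | zero => rw [map_zero, map_zero, map_zero, map_zero]
  | tmul m n => rw [fm_whiskerRight, ctr_ft, ctr_ft, map_smul]
  | add x y hx hy => rw [map_add, map_add, hx, hy, map_add, map_add]

lemma ctr_comp {P P' : C} (φ : F.obj P →ₗ[B] B) (φ' : F.obj P' →ₗ[B] B) (g : P ⟶ P')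
    (h : ∀ c, φ' (fm F g c) = φ c) {N : C} (w : F.obj (N ⊗ P)) :
    ctr F φ' N (fm F (N ◁ g) w) = ctr F φ N w := by
  induction w using ft_induction with
  | zero => rw [map_zero, map_zero, map_zero]
  | tmul m n => rw [fm_whiskerLeft, ctr_ft, ctr_ft, h]
  | add x y hx hy => rw [map_add, map_add, hx, hy, map_add]

end ctr

variable {B : CommRingCat.{0}} (F : QCoh X0 ⥤ ModuleCat.{0} B) [F.Braided] [F.Additive]
  [PreservesColimitsOfSize.{0, 0} F]

/-- The image of `t`. -/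
noncomputable abbrev τF : B := zF F base₀.t

/-- The generator of `F (K n)`. -/
noncomputable def kOne (n : ℕ) : F.obj (K n) := fm F (projK n) (f1 F)

/-- The element `1` of `F (L n)`. -/
noncomputable def iF (n : ℕ) : F.obj (L n) := fm F (uL n) (f1 F)

lemma exact_projK (n : ℕ) : Function.Exact (fm F (tmul (𝟙_ (QCoh X0)) n)) (fm F (projK n)) ∧
    Function.Surjective (fm F (projK n)) := by
  apply exact_of_oo
  · intro r
    obtain ⟨r, rfl⟩ := (secUnit oo).surjective r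
    rw [sec_projK]
    constructor
    · intro h
      have h1 : Ideal.Quotient.mk (tI oo.pt n) r = 0 := (sK n oo).injective
        (h.trans (map_zero _).symm)
      rw [Ideal.Quotient.eq_zero_iff_mem, mem_tI] at h1
      obtain ⟨c, hc⟩ := h1
      refine ⟨secUnit oo c, ?_⟩
      rw [sec_tmul, hc, ← smul_eq_mul]
      exact (map_smul (secUnit oo) _ _).symm
    · rintro ⟨c, hc⟩
      obtain ⟨c, rfl⟩ := (secUnit oo).surjective c
      rw [sec_tmul, ← map_smul] at hc
      have h1 : tz oo.pt ^ n • c = r := (secUnit oo).injective hc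
      have h2 : Ideal.Quotient.mk (tI oo.pt n) r = 0 := by
        rw [Ideal.Quotient.eq_zero_iff_mem, mem_tI]
        exact ⟨c, h1.symm⟩
      rw [h2, map_zero]
  · intro x
    obtain ⟨x, rfl⟩ := (sK n oo).surjective x
    obtain ⟨x, rfl⟩ := Ideal.Quotient.mk_surjective x
    exact ⟨secUnit oo x, sec_projK _ _ _⟩

lemma exact_πL (n : ℕ) : Function.Exact (fm F (ιL n)) (fm F (πL n)) ∧
    Function.Surjective (fm F (πL n)) := by
  apply exact_of_oo
  · intro v
    obtain ⟨⟨x, s⟩, rfl⟩ := (sL n oo).surjective v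
    rw [sec_πL]
    constructor
    · intro h
      have h1 : s = 0 := (secUnit oo).injective (h.trans (map_zero _).symm)
      subst h1
      exact ⟨sK n oo x, sec_ιL _ _ _⟩
    · rintro ⟨c, hc⟩
      obtain ⟨c, rfl⟩ := (sK n oo).surjective c
      rw [sec_ιL] at hc
      have h1 : (c, (0 : oo.ring)) = (x, s) := (sL n oo).injective hc
      have h2 : s = 0 := (congrArg Prod.snd h1).symm
      rw [h2, map_zero]
  · intro r
    obtain ⟨r, rfl⟩ := (secUnit oo).surjective r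
    exact ⟨sL n oo (0, r), sec_πL _ _ _⟩

lemma smul_kOne_eq_zero (n : ℕ) (r : B) : r • kOne F n = 0 ↔ ∃ s, r = τF F ^ n * s := by
  rw [kOne, ← map_smul]
  constructor
  · intro h
    obtain ⟨y, hy⟩ := ((exact_projK F n).1 _).1 h
    obtain ⟨s, rfl⟩ := exists_smul_f1 F y
    rw [fm_tmul, smul_smul] at hy
    exact ⟨s, (f1_ext F hy).symm⟩
  · rintro ⟨s, rfl⟩
    apply ((exact_projK F n).1 _).2
    exact ⟨s • f1 F, by rw [fm_tmul, smul_smul]⟩

lemma exists_smul_kOne (n : ℕ) (x : F.obj (K n)) : ∃ r : B, x = r • kOne F n := by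
  obtain ⟨y, rfl⟩ := (exact_projK F n).2 x
  obtain ⟨r, rfl⟩ := exists_smul_f1 F y
  exact ⟨r, map_smul _ _ _⟩

lemma fm_ιL_kOne (n : ℕ) : fm F (ιL n) (kOne F n) = iF F n := by
  rw [kOne, iF, uL, fm_comp]

lemma fm_πL_iF (n : ℕ) : fm F (πL n) (iF F n) = 0 := by
  rw [← fm_ιL_kOne, ← fm_comp, ιL_πL, fm_zero]

lemma exists_π (n : ℕ) : ∃ x : F.obj (L n), fm F (πL n) x = f1 F := (exact_πL F n).2 _

lemma exists_decomp {n : ℕ} {x : F.obj (L n)} (hx : fm F (πL n) x = f1 F) (v : F.obj (L n)) :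
    ∃ r s : B, v = r • iF F n + s • x := by
  obtain ⟨s, hs⟩ := exists_smul_f1 F (fm F (πL n) v)
  have h1 : fm F (πL n) (v - s • x) = 0 := by
    rw [map_sub, map_smul, hx, hs, sub_self]
  obtain ⟨y, hy⟩ := ((exact_πL F n).1 _).1 h1
  obtain ⟨r, rfl⟩ := exists_smul_kOne F n y
  refine ⟨r, s, ?_⟩
  rw [map_smul, fm_ιL_kOne] at hy
  rw [hy, sub_add_cancel]

lemma βL_ix {n : ℕ} {x : F.obj (L n)} (hx : fm F (πL n) x = f1 F) :
    fm F (βL n) (ft F (iF F n) x) = kOne F n := by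
  rw [← fm_ιL_kOne, ← fm_whiskerRight, ← fm_comp, ιL_βL, fm_comp, fm_whiskerLeft, hx,
    fm_rightUnitor_hom]

lemma βL_xi {n : ℕ} {x : F.obj (L n)} (hx : fm F (πL n) x = f1 F) :
    fm F (βL n) (ft F x (iF F n)) = kOne F n := by
  rw [← fm_ιL_kOne, ← fm_whiskerLeft, ← fm_comp, ιL_βL', fm_comp, fm_whiskerRight, hx,
    fm_leftUnitor_hom]

lemma smul_iF_eq_zero (n : ℕ) (r : B) : r • iF F n = 0 ↔ ∃ s, r = τF F ^ n * s := by
  rw [← smul_kOne_eq_zero]
  constructor
  · intro h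
    obtain ⟨x, hx⟩ := exists_π F n
    rw [← βL_ix F hx, ← map_smul, ← ft_smul_left, h, ft_zero_left, map_zero]
  · intro h
    rw [← fm_ιL_kOne, ← map_smul, h, map_zero]

lemma γL_kOne {n : ℕ} {x : F.obj (L n)} (hx : fm F (πL n) x = f1 F) :
    fm F (γL n) (kOne F n) = ft F x (iF F n) + ft F (iF F n) x := by
  rw [← βL_xi F hx, ← fm_comp, βL_γL, fm_add, fm_id, fm_braiding]

/-- The decomposition of `F (L n ⊗ L n)`. -/
lemma exists_decomp₂ {n : ℕ} {x : F.obj (L n)} (hx : fm F (πL n) x = f1 F)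
    (w : F.obj (L n ⊗ L n)) : ∃ α a a' c : B,
      w = α • ft F x x + a • ft F (iF F n) x + a' • ft F x (iF F n) +
        c • ft F (iF F n) (iF F n) := by
  induction w using ft_induction with
  | zero => exact ⟨0, 0, 0, 0, by simp⟩
  | tmul v w =>
    obtain ⟨r, s, rfl⟩ := exists_decomp F hx v
    obtain ⟨r', s', rfl⟩ := exists_decomp F hx w
    refine ⟨s * s', r * s', s * r', r * r', ?_⟩
    simp only [ft_add_left, ft_add_right, ft_smul_left, ft_smul_right, smul_add, smul_smul]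
    rw [mul_comm r' r, mul_comm s' s, mul_comm s' r, mul_comm r' s]
    abel
  | add x y hx hy =>
    obtain ⟨α, a, a', c, rfl⟩ := hx
    obtain ⟨β, b, b', d, rfl⟩ := hy
    refine ⟨α + β, a + b, a' + b', c + d, ?_⟩
    simp only [add_smul]
    abel

lemma eq_smul_ii {n : ℕ} {x : F.obj (L n)} (hx : fm F (πL n) x = f1 F)
    (w : F.obj (L n ⊗ L n)) (h1 : fm F (πL n ▷ L n) w = 0) (h2 : fm F (L n ◁ πL n) w = 0) :
    ∃ c : B, w = c • ft F (iF F n) (iF F n) := by
  obtain ⟨α, a, a', c, rfl⟩ := exists_decomp₂ F hx w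
  simp only [map_add, map_smul, fm_whiskerRight, fm_whiskerLeft, hx, fm_πL_iF, ft_zero_left,
    ft_zero_right, smul_zero, add_zero] at h1 h2
  have h3 : α • x + a' • iF F n = 0 := by
    have := congrArg (fm F (λ_ (L n)).hom) h1
    rwa [map_add, map_smul, map_smul, fm_leftUnitor_hom, fm_leftUnitor_hom, map_zero] at this
  have h4 : α • x + a • iF F n = 0 := by
    have := congrArg (fm F (ρ_ (L n)).hom) h2
    rwa [map_add, map_smul, map_smul, fm_rightUnitor_hom, fm_rightUnitor_hom, map_zero] at this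
  have h5 : α = 0 := by
    have := congrArg (fm F (πL n)) h3
    rw [map_add, map_smul, map_smul, hx, fm_πL_iF, smul_zero, add_zero, map_zero] at this
    exact f1_ext F (this.trans (zero_smul B _).symm)
  rw [h5, zero_smul, zero_add] at h3 h4
  refine ⟨c, ?_⟩
  rw [h5, zero_smul, zero_add, ← ft_smul_left, h4, ft_zero_left, zero_add, ← ft_smul_right, h3,
    ft_zero_right, zero_add]

/-- A linear functional on `F (Q 1)` which is `1` on `1`. -/
structure Fun1 where
  φ : F.obj (Q 1) →ₗ[B] B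
  one : φ (fm F (unitQ 1) (f1 F)) = 1

variable {F}

/-- The map `F (L n) → F (L n ⊗ L n)` given by the comultiplication and the functional. -/
noncomputable def Fun1.u (Φ : Fun1 F) (n : ℕ) : F.obj (L n) →ₗ[B] F.obj (L n ⊗ L n) :=
  (ctr F Φ.φ (L n ⊗ L n)).comp (fm F (κL n))

lemma Fun1.u_apply (Φ : Fun1 F) (n : ℕ) (x : F.obj (L n)) :
    Φ.u n x = ctr F Φ.φ (L n ⊗ L n) (fm F (κL n) x) := rfl

lemma Fun1.ctr_tOne (Φ : Fun1 F) {N : QCoh X0} (x : F.obj N) :
    ctr F Φ.φ N (fm F (tOne N 1) x) = x := by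
  rw [tOne, fm_comp, fm_rightUnitor_inv, fm_whiskerLeft, ctr_ft, Φ.one, one_smul]

lemma Fun1.π1_u (Φ : Fun1 F) (n : ℕ) (x : F.obj (L n)) :
    fm F (πL n ▷ L n) (Φ.u n x) = ft F (f1 F) x := by
  rw [Φ.u_apply, ← ctr_natural, ← fm_comp, κL_π1, fm_comp, fm_leftUnitor_inv, Φ.ctr_tOne]

lemma Fun1.π2_u (Φ : Fun1 F) (n : ℕ) (x : F.obj (L n)) :
    fm F (L n ◁ πL n) (Φ.u n x) = ft F x (f1 F) := by
  rw [Φ.u_apply, ← ctr_natural, ← fm_comp, κL_π2, fm_comp, fm_rightUnitor_inv, Φ.ctr_tOne]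

lemma Fun1.exists_defect (Φ : Fun1 F) {n : ℕ} {x : F.obj (L n)} (hx : fm F (πL n) x = f1 F) :
    ∃ c : B, Φ.u n x = ft F x x + c • ft F (iF F n) (iF F n) := by
  obtain ⟨c, hc⟩ := eq_smul_ii F hx (Φ.u n x - ft F x x)
    (by rw [map_sub, Φ.π1_u, fm_whiskerRight, hx, sub_self])
    (by rw [map_sub, Φ.π2_u, fm_whiskerLeft, hx, sub_self])
  exact ⟨c, by rw [← hc]; abel⟩

lemma Fun1.u_iF (Φ : Fun1 F) {n : ℕ} {x : F.obj (L n)} (hx : fm F (πL n) x = f1 F) :
    Φ.u n (iF F n) = ft F x (iF F n) + ft F (iF F n) x + ft F (iF F n) (iF F n) := by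
  rw [Φ.u_apply, iF, ← fm_comp, uL_κL, fm_comp, Φ.ctr_tOne, fm_add, fm_comp, fm_comp,
    fm_leftUnitor_inv, fm_tensorHom]
  have h := γL_kOne F hx
  rw [kOne] at h
  rw [h]
  rfl

end TannakaNil
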