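import Pool.Agent.Helper10.Tannaka.FE

/-!
# The values of a cocontinuous tensor functor on the sheaves `L n`
-/

open CategoryTheory Opposite Limits MonoidalCategory TensorProduct Polynomial

namespace TannakaNil

open Base

section morphisms

variable {a : X0.Tot} {n : ℕ}

lemma sL_mk (r s : a.ring) : sL n a (Ideal.Quotient.mk _ r, s) = r • iL n a + s • xL n a := by
  have h : ((Ideal.Quotient.mk (tI a.pt n) r, s) : (a.ring ⧸ tI a.pt n) × a.ring) =
      r • (1, 0) + s • (0, 1) := by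
    refine Prod.ext ?_ ?_
    · change _ = r • (1 : a.ring ⧸ tI a.pt n) + s • (0 : a.ring ⧸ tI a.pt n)
      rw [smul_mk, mul_one, smul_zero, add_zero]
    · change s = r • 0 + s • 1
      rw [smul_zero, zero_add, smul_eq_mul, mul_one]
  rw [h, map_add, map_smul, map_smul]
  rfl

lemma exists_L (v : Sec (L n) a) : ∃ r s : a.ring, v = r • iL n a + s • xL n a := by
  obtain ⟨⟨r, s⟩, rfl⟩ := (sL n a).surjective v
  obtain ⟨r, rfl⟩ := Ideal.Quotient.mk_surjective r
  exact ⟨r, s, sL_mk r s⟩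

/-- Morphisms out of `L n` are determined by the images of the generators. -/
lemma hom_ext_L {N : QCoh X0} {f g : L n ⟶ N} (hx : sec f oo (xL n oo) = sec g oo (xL n oo))
    (hi : sec f oo (iL n oo) = sec g oo (iL n oo)) : f = g := by
  apply hom_ext_oo
  intro m
  obtain ⟨r, s, rfl⟩ := exists_L m
  rw [map_add, map_smul, map_smul, map_add, map_smul, map_smul, hx, hi]

/-- Morphisms out of the unit are determined by the image of `1`. -/
lemma hom_ext_unit {N : QCoh X0} {f g : 𝟙_ (QCoh X0) ⟶ N}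
    (h : sec f oo (secUnit oo 1) = sec g oo (secUnit oo 1)) : f = g := by
  apply hom_ext_oo
  intro m
  obtain ⟨r, rfl⟩ := (secUnit oo).surjective m
  have h1 : secUnit (X := X0) oo r = r • secUnit oo 1 := by
    rw [← map_smul, smul_eq_mul, mul_one]
  rw [h1, map_smul, map_smul, h]

lemma sec_πL_x : sec (πL n) a (xL n a) = secUnit a 1 := rfl
lemma sec_πL_i : sec (πL n) a (iL n a) = 0 := by
  rw [iL, sec_πL, map_zero]
lemma sec_ιL_one : sec (ιL n) a (oneK n a) = iL n a := rfl
lemma sec_projK_one : sec (projK n) a (secUnit a 1) = oneK n a := by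
  rw [sec_projK, map_one]; rfl
lemma sec_trL_x : sec (trL n) a (xL (n + 1) a) = xL n a := by
  rw [xL, sec_trL, map_zero]; rfl
lemma sec_trL_i : sec (trL n) a (iL (n + 1) a) = iL n a := by
  rw [iL, sec_trL, map_one]; rfl
lemma sec_unitQ_one (i : ℕ) : sec (unitQ i) a (secUnit a 1) = oneQ i a := rfl
lemma sec_lead_one : sec (lead 1) a (oneQ 1 a) = 0 := by
  rw [oneQ, sec_lead]
  have : ((constLT a.ring 1 1 : degreeLT a.ring 2) : a.ring[X]).coeff 1 = 0 :=
    coeff_C_succ
  rw [this, map_zero]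
lemma sec_lead_y : sec (lead 1) a (yQ a) = secUnit a 1 := by
  rw [yQ, sec_lead]
  congr 1
  exact coeff_X_one

lemma ιL_πL : ιL n ≫ πL n = 0 := by
  apply sec_ext
  intro a m
  obtain ⟨x, rfl⟩ := (sK n a).surjective m
  rw [sec_comp_apply, sec_ιL, sec_πL, map_zero, sec_zero_apply]

lemma trL_πL : trL n ≫ πL n = πL (n + 1) := by
  apply hom_ext_L
  · rw [sec_comp_apply, sec_trL_x, sec_πL_x, sec_πL_x]
  · rw [sec_comp_apply, sec_trL_i, sec_πL_i, sec_πL_i]

/-- The section `1` of `L n` as a morphism. -/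
noncomputable def uL (n : ℕ) : 𝟙_ (QCoh X0) ⟶ L n := projK n ≫ ιL n

lemma sec_uL : sec (uL n) a (secUnit a 1) = iL n a := by
  rw [uL, sec_comp_apply, sec_projK_one, sec_ιL_one]

lemma uL_trL : uL (n + 1) ≫ trL n = uL n := by
  apply hom_ext_unit
  rw [sec_comp_apply, sec_uL, sec_uL, sec_trL_i]

lemma ιL_βL : (ιL n ▷ L n) ≫ βL n = (K n ◁ πL n) ≫ (ρ_ _).hom := by
  apply sec_ext
  intro a m
  induction m using sec_induction with
  | zero => rw [map_zero, map_zero]
  | tmul x v =>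
    obtain ⟨x, rfl⟩ := (sK n a).surjective x
    obtain ⟨v, rfl⟩ := (sL n a).surjective v
    rw [sec_comp_apply, sec_comp_apply, sec_whiskerRight, sec_whiskerLeft, sec_ιL, sec_πL,
      sec_βL, sec_rightUnitor_hom, ← map_smul]
    congr 1
    change (0 : a.ring) • v.1 + v.2 • x = v.2 • x
    rw [zero_smul, zero_add]
  | add x y hx hy => rw [map_add, map_add, hx, hy]

lemma ιL_βL' : (L n ◁ ιL n) ≫ βL n = (πL n ▷ K n) ≫ (λ_ _).hom := by
  apply sec_ext
  intro a m
  induction m using sec_induction with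
  | zero => rw [map_zero, map_zero]
  | tmul v x =>
    obtain ⟨x, rfl⟩ := (sK n a).surjective x
    obtain ⟨v, rfl⟩ := (sL n a).surjective v
    rw [sec_comp_apply, sec_comp_apply, sec_whiskerRight, sec_whiskerLeft, sec_ιL, sec_πL,
      sec_βL, sec_leftUnitor_hom, ← map_smul]
    congr 1
    change v.2 • x + (0 : a.ring) • v.1 = v.2 • x
    rw [zero_smul, add_zero]
  | add x y hx hy => rw [map_add, map_add, hx, hy]

lemma sec_βL_xx : sec (βL n) a (tm (xL n a) (xL n a)) = 0 := by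
  rw [xL, sec_βL]
  have h : (1 : a.ring) • (0 : a.ring ⧸ tI a.pt n) + (1 : a.ring) • (0 : a.ring ⧸ tI a.pt n) =
    0 := by rw [smul_zero, add_zero]
  exact (congrArg (sK n a) h).trans (map_zero _)

lemma sec_βL_ii : sec (βL n) a (tm (iL n a) (iL n a)) = 0 := by
  rw [iL, sec_βL]
  have h : (0 : a.ring) • (1 : a.ring ⧸ tI a.pt n) + (0 : a.ring) • (1 : a.ring ⧸ tI a.pt n) =
    0 := by rw [zero_smul, add_zero]
  exact (congrArg (sK n a) h).trans (map_zero _)

lemma sec_βL_xi : sec (βL n) a (tm (xL n a) (iL n a)) = oneK n a := by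
  rw [xL, iL, sec_βL]
  have h : (1 : a.ring) • (1 : a.ring ⧸ tI a.pt n) + (0 : a.ring) • (0 : a.ring ⧸ tI a.pt n) =
    1 := by rw [one_smul, zero_smul, add_zero]
  exact congrArg (sK n a) h

lemma sec_βL_ix : sec (βL n) a (tm (iL n a) (xL n a)) = oneK n a := by
  rw [xL, iL, sec_βL]
  have h : (0 : a.ring) • (0 : a.ring ⧸ tI a.pt n) + (1 : a.ring) • (1 : a.ring ⧸ tI a.pt n) =
    1 := by rw [one_smul, zero_smul, zero_add]
  exact congrArg (sK n a) h

lemma βL_γL : βL n ≫ γL n = 𝟙 _ + (β_ (L n) (L n)).hom := by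
  apply sec_ext
  intro a m
  induction m using sec_induction with
  | zero => rw [map_zero, map_zero]
  | tmul v w =>
    obtain ⟨r, s, rfl⟩ := exists_L v
    obtain ⟨r', s', rfl⟩ := exists_L w
    rw [sec_add_apply, sec_comp_apply, sec_id_apply, sec_braiding]
    simp only [tm_add_left, tm_add_right, tm_smul_left, tm_smul_right, map_add, map_smul,
      sec_βL_xx, sec_βL_ii, sec_βL_xi, sec_βL_ix, sec_γL, smul_zero, add_zero, zero_add,
      smul_add, smul_smul, γ₀]
    have h1 := sec_add_self ((r * r') • tm (iL n a) (iL n a))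
    have h2 := sec_add_self ((s * s') • tm (xL n a) (xL n a))
    rw [mul_comm r' r, mul_comm s' s, mul_comm s' r, mul_comm r' s]
    calc _ = ((r * s') • tm (xL n a) (iL n a) + (r * s') • tm (iL n a) (xL n a) +
          ((s * r') • tm (xL n a) (iL n a) + (s * r') • tm (iL n a) (xL n a))) +
          ((r * r') • tm (iL n a) (iL n a) + (r * r') • tm (iL n a) (iL n a)) +
          ((s * s') • tm (xL n a) (xL n a) + (s * s') • tm (xL n a) (xL n a)) := by
            rw [h1, h2]; abel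
      _ = _ := by abel
  | add x y hx hy => rw [map_add, map_add, hx, hy]

/-- Tensoring with the constant polynomial `1`. -/
noncomputable def tOne (M : QCoh X0) (i : ℕ) : M ⟶ M ⊗ Q i := (ρ_ M).inv ≫ (M ◁ unitQ i)

lemma sec_tOne (M : QCoh X0) (i : ℕ) (m : Sec M a) :
    sec (tOne M i) a m = tm m (oneQ i a) := by
  rw [tOne, sec_comp_apply, sec_rightUnitor_inv, sec_whiskerLeft, sec_unitQ_one]

lemma κL_π1 : κL n ≫ ((πL n ▷ L n) ▷ Q 1) = (λ_ (L n)).inv ≫ tOne _ 1 := by
  apply hom_ext_L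
  · rw [sec_comp_apply, sec_κL_x, sec_comp_apply, sec_leftUnitor_inv, sec_tOne, κp, map_add,
      sec_whiskerRight, sec_whiskerRight, sec_whiskerRight, sec_whiskerRight, sec_πL_x,
      sec_πL_i, tm_zero_left, tm_zero_left, add_zero]
  · rw [sec_comp_apply, sec_κL_i, sec_comp_apply, sec_leftUnitor_inv, sec_tOne, κq, γ₀,
      sec_whiskerRight, map_add, map_add,
      sec_whiskerRight, sec_whiskerRight, sec_whiskerRight, sec_πL_x,
      sec_πL_i, tm_zero_left, tm_zero_left, add_zero, add_zero]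

lemma κL_π2 : κL n ≫ ((L n ◁ πL n) ▷ Q 1) = (ρ_ (L n)).inv ≫ tOne _ 1 := by
  apply hom_ext_L
  · rw [sec_comp_apply, sec_κL_x, sec_comp_apply, sec_rightUnitor_inv, sec_tOne, κp, map_add,
      sec_whiskerRight, sec_whiskerRight, sec_whiskerLeft, sec_whiskerLeft, sec_πL_x,
      sec_πL_i, tm_zero_right, tm_zero_left, add_zero]
  · rw [sec_comp_apply, sec_κL_i, sec_comp_apply, sec_rightUnitor_inv, sec_tOne, κq, γ₀,
      sec_whiskerRight, map_add, map_add,
      sec_whiskerLeft, sec_whiskerLeft, sec_whiskerLeft, sec_πL_x,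
      sec_πL_i, tm_zero_right, tm_zero_right, add_zero, zero_add]

lemma uL_κL : uL n ≫ κL n = (projK n ≫ γL n + (λ_ _).inv ≫ (uL n ⊗ₘ uL n)) ≫ tOne _ 1 := by
  apply hom_ext_unit
  rw [sec_comp_apply, sec_uL, sec_κL_i, sec_comp_apply, sec_tOne, sec_add_apply, sec_comp_apply,
    sec_comp_apply, sec_projK_one, sec_γL, sec_leftUnitor_inv, sec_tensorHom, sec_uL]
  rfl

lemma κL_lead : κL n ≫ ((L n ⊗ L n) ◁ lead 1) =
    πL n ≫ (λ_ _).inv ≫ (uL n ⊗ₘ uL n) ≫ (ρ_ _).inv := by
  apply hom_ext_L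
  · rw [sec_comp_apply, sec_κL_x, sec_comp_apply, sec_comp_apply, sec_comp_apply, sec_πL_x,
      sec_leftUnitor_inv, sec_tensorHom, sec_uL, sec_rightUnitor_inv, κp, map_add,
      sec_whiskerLeft, sec_whiskerLeft, sec_lead_one, sec_lead_y, tm_zero_right, zero_add]
  · rw [sec_comp_apply, sec_κL_i, sec_comp_apply, sec_comp_apply, sec_comp_apply, sec_πL_i,
      map_zero, map_zero, map_zero, κq, sec_whiskerLeft, sec_lead_one, tm_zero_right]

lemma κL_trL : κL (n + 1) ≫ ((trL n ⊗ₘ trL n) ▷ Q 1) = trL n ≫ κL n := by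
  apply hom_ext_L
  · rw [sec_comp_apply, sec_κL_x, sec_comp_apply, sec_trL_x, sec_κL_x, κp, map_add,
      sec_whiskerRight, sec_whiskerRight, sec_tensorHom, sec_tensorHom, sec_trL_x, sec_trL_i]
    rfl
  · rw [sec_comp_apply, sec_κL_i, sec_comp_apply, sec_trL_i, sec_κL_i, κq, γ₀,
      sec_whiskerRight, map_add, map_add, sec_tensorHom, sec_tensorHom, sec_tensorHom,
      sec_trL_x, sec_trL_i]
    rfl

end morphisms

end TannakaNil
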