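import Pool.Agent.Helper10.Tannaka.FG

/-!
# The functionals on `F (Q i)` and the existence of all generators
-/

open CategoryTheory Opposite Limits MonoidalCategory TensorProduct Polynomial

namespace TannakaNil

open Base

lemma unitQ_incl {i j : ℕ} (h : i ≤ j) : unitQ i ≫ inclQ h = unitQ j := by
  apply hom_ext_unit
  rw [sec_comp_apply, sec_unitQ, sec_unitQ, sec_inclQ]
  congr 1

lemma unitQ_mulQ : (unitQ 0 ▷ Q 1) ≫ mulQ 0 1 = (λ_ (Q 1)).hom := by
  apply sec_ext
  intro a m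
  induction m using sec_induction with
  | zero => rw [map_zero, map_zero]
  | tmul r p =>
    obtain ⟨r, rfl⟩ := (secUnit a).surjective r
    obtain ⟨p, rfl⟩ := (sQ 1 a).surjective p
    rw [sec_comp_apply, sec_whiskerRight, sec_unitQ, sec_mulQ, sec_leftUnitor_hom, ← map_smul]
    have : mulLT a.ring 0 1 (constLT a.ring 0 r ⊗ₜ p) = r • p := by
      apply Subtype.ext
      change C r * (p : a.ring[X]) = r • (p : a.ring[X])
      rw [smul_eq_C_mul]
    rw [this]
  | add x y hx hy => rw [map_add, map_add, hx, hy]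

variable {B : CommRingCat.{0}} (F : QCoh X0 ⥤ ModuleCat.{0} B) [F.Braided] [F.Additive]
  [PreservesColimitsOfSize.{0, 0} F] (Y : F.obj (Q 1)) (hY : fm F (lead 1) Y = f1 F)

/-- The identification of `F (Q i)` with a free module. -/
noncomputable def EPe (i : ℕ) : (Fin (i + 1) → B) ≃ₗ[B] F.obj (Q i) :=
  LinearEquiv.ofBijective (EP F Y i) ⟨EP_injective F Y hY i, EP_surjective F Y hY i⟩

/-- The functionals. -/
noncomputable def φQ (i : ℕ) : F.obj (Q i) →ₗ[B] B :=
  (LinearMap.proj 0).comp (EPe F Y hY i).symm.toLinearMap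

lemma EP_single {k i : ℕ} (h : k ≤ i) :
    EP F Y i (Pi.single ⟨k, Nat.lt_succ_of_le h⟩ 1) = eI F Y h := by
  rw [EP_apply, Finset.sum_eq_single ⟨k, Nat.lt_succ_of_le h⟩]
  · rw [Pi.single_eq_same, one_smul]
  · intro l _ hl
    rw [Pi.single_eq_of_ne hl, zero_smul]
  · intro h
    exact absurd (Finset.mem_univ _) h

lemma φQ_eI {k i : ℕ} (h : k ≤ i) : φQ F Y hY i (eI F Y h) = if k = 0 then 1 else 0 := by
  rw [← EP_single]
  change ((EPe F Y hY i).symm ((EPe F Y hY i) (Pi.single ⟨k, Nat.lt_succ_of_le h⟩ 1))) 0 = _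
  rw [LinearEquiv.symm_apply_apply, Pi.single_apply]
  congr 1
  rw [eq_iff_iff]
  constructor
  · intro h
    exact (congrArg Fin.val h).symm
  · intro h
    exact Fin.ext h.symm

include hY in
lemma Q_ext {i : ℕ} {N : Type} [AddCommGroup N] [Module B N] {f g : F.obj (Q i) →ₗ[B] N}
    (h : ∀ (k : ℕ) (hk : k ≤ i), f (eI F Y hk) = g (eI F Y hk)) : f = g := by
  ext x
  obtain ⟨b, rfl⟩ := EP_surjective F Y hY i x
  rw [EP_apply, map_sum, map_sum]
  apply Finset.sum_congr rfl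
  intro k _
  rw [map_smul, map_smul, h]

lemma φQ_incl {i j : ℕ} (h : i ≤ j) (x : F.obj (Q i)) :
    φQ F Y hY j (fm F (inclQ h) x) = φQ F Y hY i x := by
  have : (φQ F Y hY j).comp (fm F (inclQ h)) = φQ F Y hY i := by
    apply Q_ext F Y hY
    intro k hk
    rw [LinearMap.comp_apply, eI_incl, φQ_eI, φQ_eI]
  exact congrArg (fun l => l x) this

lemma φQ_mul (i j : ℕ) (x : F.obj (Q i)) (y : F.obj (Q j)) :
    φQ F Y hY (i + j) (fm F (mulQ i j) (ft F x y)) = φQ F Y hY i x * φQ F Y hY j y := by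
  let f : F.obj (Q i) →ₗ[B] (F.obj (Q j) →ₗ[B] B) :=
    LinearMap.mk₂ B (fun x y => φQ F Y hY (i + j) (fm F (mulQ i j) (ft F x y)))
      (fun x x' y => by rw [ft_add_left, map_add, map_add])
      (fun c x y => by rw [ft_smul_left, map_smul, map_smul])
      (fun x y y' => by rw [ft_add_right, map_add, map_add])
      (fun c x y => by rw [ft_smul_right, map_smul, map_smul])
  let g : F.obj (Q i) →ₗ[B] (F.obj (Q j) →ₗ[B] B) :=
    LinearMap.mk₂ B (fun x y => φQ F Y hY i x * φQ F Y hY j y)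
      (fun x x' y => by rw [map_add, add_mul])
      (fun c x y => by rw [map_smul, smul_mul_assoc])
      (fun x y y' => by rw [map_add, mul_add])
      (fun c x y => by rw [map_smul, mul_smul_comm])
  have : f = g := by
    apply Q_ext F Y hY
    intro k hk
    apply Q_ext F Y hY
    intro l hl
    change φQ F Y hY (i + j) (fm F (mulQ i j) (ft F (eI F Y hk) (eI F Y hl))) =
      φQ F Y hY i (eI F Y hk) * φQ F Y hY j (eI F Y hl)
    rw [mul_eI, φQ_eI, φQ_eI, φQ_eI]
    by_cases hk : k = 0 <;> by_cases hl : l = 0 <;> simp [hk, hl]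
  exact congrArg (fun l => l x y) this

lemma fm_unitQ (i : ℕ) : fm F (unitQ i) (f1 F) = eI F Y (Nat.zero_le i) := by
  rw [eI, eF_zero, ← fm_comp, unitQ_incl]

lemma φQ_one (i : ℕ) : φQ F Y hY i (fm F (unitQ i) (f1 F)) = 1 := by
  rw [fm_unitQ F Y, φQ_eI, if_pos rfl]

lemma eI_one : eI F Y (le_refl 1) = Y := by
  rw [eI_self, eF_succ, eF_zero, ← fm_whiskerRight, ← fm_comp, unitQ_mulQ]
  exact fm_leftUnitor_hom F Y

lemma φQ_Y : φQ F Y hY 1 Y = 0 := by
  have h := φQ_eI F Y hY (le_refl 1)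
  rw [eI_one] at h
  simpa using h

/-- The functional on `F (Q 1)` attached to `Y`. -/
noncomputable def ΦY : Fun1 F where
  φ := φQ F Y hY 1
  one := φQ_one F Y hY 1

/-- The leading coefficient as a functional. -/
noncomputable def leadφ : F.obj (Q 1) →ₗ[B] B :=
  (f1Equiv F).symm.toLinearMap.comp (fm F (lead 1))

lemma leadφ_spec (y : F.obj (Q 1)) : fm F (lead 1) y = leadφ F y • f1 F := by
  rw [← f1Equiv_apply]
  exact ((f1Equiv F).apply_symm_apply _).symm

lemma f1Equiv_symm_smul (r : B) : (f1Equiv F).symm (r • f1 F) = r := by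
  rw [LinearEquiv.symm_apply_eq, f1Equiv_apply]

lemma ctr_leadφ {N : QCoh X0} (w : F.obj (N ⊗ Q 1)) :
    ctr F (leadφ F) N w = fm F (ρ_ N).hom (fm F (N ◁ lead 1) w) := by
  induction w using ft_induction with
  | zero => rw [map_zero, map_zero, map_zero]
  | tmul m n =>
    rw [ctr_ft, fm_whiskerLeft, leadφ_spec, ft_smul_right, map_smul, fm_rightUnitor_hom]
  | add x y hx hy => rw [map_add, map_add, map_add, hx, hy]

lemma ctr_leadφ_κ {n : ℕ} {x : F.obj (L n)} (hx : fm F (πL n) x = f1 F) :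
    ctr F (leadφ F) (L n ⊗ L n) (fm F (κL n) x) = ft F (iF F n) (iF F n) := by
  have h1 : fm F ((L n ⊗ L n) ◁ lead 1) (fm F (κL n) x) =
      fm F (ρ_ (L n ⊗ L n)).inv (ft F (iF F n) (iF F n)) := by
    rw [← fm_comp, κL_lead, fm_comp, fm_comp, fm_comp, hx, fm_leftUnitor_inv,
      fm_tensorHom]
    rfl
  rw [ctr_leadφ, h1, ← fm_comp, Iso.inv_hom_id, fm_id]

lemma lead_oneQ : fm F (lead 1) (fm F (unitQ 1) (f1 F)) = 0 := by
  rw [← fm_comp]
  have : unitQ 1 ≫ lead 1 = 0 := by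
    apply hom_ext_unit
    rw [sec_comp_apply, sec_unitQ_one, sec_lead_one, sec_zero_apply]
  rw [this, fm_zero]

/-- The first generator. -/
lemma exists_gen_one : ∃ (Y : F.obj (Q 1)) (hY : fm F (lead 1) Y = f1 F) (x : F.obj (L 1)),
    (ΦY F Y hY).IsGr 1 x := by
  obtain ⟨Y₀, hY₀⟩ : ∃ Y : F.obj (Q 1), fm F (lead 1) Y = f1 F :=
    (exact_lead F 0).2 (f1 F)
  obtain ⟨x, hx⟩ := exists_π F 1
  obtain ⟨c, hc⟩ := (ΦY F Y₀ hY₀).exists_defect hx
  have hY : fm F (lead 1) (Y₀ + c • fm F (unitQ 1) (f1 F)) = f1 F := by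
    rw [map_add, map_smul, lead_oneQ, smul_zero, add_zero]
    exact hY₀
  refine ⟨_, hY, x, hx, ?_⟩
  have h1 : φQ F _ hY 1 = φQ F Y₀ hY₀ 1 + c • leadφ F := by
    apply Q_ext F Y₀ hY₀
    intro k hk
    rcases Nat.le_one_iff_eq_zero_or_eq_one.1 hk with rfl | rfl
    · have h2 : eI F Y₀ hk = fm F (unitQ 1) (f1 F) := (fm_unitQ F Y₀ 1).symm
      rw [h2, φQ_one, LinearMap.add_apply, φQ_one, LinearMap.smul_apply]
      have h3 : leadφ F (fm F (unitQ 1) (f1 F)) = 0 := by
        change (f1Equiv F).symm (fm F (lead 1) (fm F (unitQ 1) (f1 F))) = 0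
        rw [lead_oneQ, map_zero]
      rw [h3, smul_zero, add_zero]
    · have h2 : eI F Y₀ hk = Y₀ := eI_one F Y₀
      rw [h2, LinearMap.add_apply, φQ_Y, zero_add, LinearMap.smul_apply]
      have h3 : leadφ F Y₀ = 1 := by
        change (f1Equiv F).symm (fm F (lead 1) Y₀) = 1
        have h4 := f1Equiv_symm_smul F 1
        rw [one_smul] at h4
        exact (congrArg _ hY₀).trans h4
      rw [h3, smul_eq_mul, mul_one]
      have h5 := φQ_Y F _ hY
      rw [map_add, map_smul, φQ_one, smul_eq_mul, mul_one] at h5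
      have h6 := addSelf F c
      linear_combination h5 - h6
  have h2 : (ΦY F _ hY).u 1 x = (ΦY F Y₀ hY₀).u 1 x + c • ft F (iF F 1) (iF F 1) := by
    rw [← ctr_leadφ_κ F hx, Fun1.u_apply, Fun1.u_apply]
    have h3 : ∀ w, ctr F (φQ F Y₀ hY₀ 1 + c • leadφ F) (L 1 ⊗ L 1) w =
        ctr F (φQ F Y₀ hY₀ 1) (L 1 ⊗ L 1) w + c • ctr F (leadφ F) (L 1 ⊗ L 1) w := by
      intro w
      induction w using ft_induction with
      | zero => simp
      | tmul m n =>
        rw [ctr_ft, ctr_ft, ctr_ft, LinearMap.add_apply, add_smul, LinearMap.smul_apply,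
          smul_eq_mul, mul_smul]
      | add x y hx hy =>
        rw [map_add, map_add, map_add, hx, hy, smul_add]
        abel
    have h4 := h3 (fm F (κL 1) x)
    rw [← h1] at h4
    exact h4
  rw [h2, hc, add_assoc, smul_add_self', add_zero]

/-- All the generators. -/
structure Gens where
  Y : F.obj (Q 1)
  hY : fm F (lead 1) Y = f1 F
  x : ∀ n : ℕ, F.obj (L n)
  gr : ∀ n, (ΦY F Y hY).IsGr n (x n)
  tr : ∀ n, fm F (trL n) (x (n + 1)) = x n

lemma exists_gens : Nonempty (Gens F) := by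
  obtain ⟨Y, hY, x₁, hx₁⟩ := exists_gen_one F
  let S (n : ℕ) : Type := {x : F.obj (L (n + 1)) // (ΦY F Y hY).IsGr (n + 1) x}
  have step : ∀ (n : ℕ) (s : S n), ∃ s' : S (n + 1), fm F (trL (n + 1)) s'.1 = s.1 := by
    intro n s
    obtain ⟨x', hx', h⟩ := s.2.exists_lift
    exact ⟨⟨x', hx'⟩, h⟩
  choose nxt hnxt using step
  let seq : ∀ n, S n := fun n => Nat.rec (⟨x₁, hx₁⟩ : S 0) (fun n s => nxt n s) n
  have hseq : ∀ n, fm F (trL (n + 1)) (seq (n + 1)).1 = (seq n).1 := fun n => hnxt n (seq n)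
  refine ⟨⟨Y, hY, fun n => fm F (trL n) (seq n).1, fun n => (seq n).2.tr, fun n => ?_⟩⟩
  rw [hseq]

end TannakaNil
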