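import Pool.Agent.Helper10.Tannaka.Morph

/-!
# The structure morphisms of the sheaves `L n`
-/

open CategoryTheory Opposite Limits MonoidalCategory TensorProduct Polynomial

namespace TannakaNil

open Base

section bilinear

universe u v

variable {X : AffCat.{u, v}} {M N : QCoh X} {a : X.Tot}

lemma tm_add_left (m m' : Sec M a) (n : Sec N a) : tm (m + m') n = tm m n + tm m' n :=
  add_tmul m m' n

lemma tm_add_right (m : Sec M a) (n n' : Sec N a) : tm m (n + n') = tm m n + tm m n' :=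
  tmul_add m n n'

lemma tm_smul_left (r : a.ring) (m : Sec M a) (n : Sec N a) : tm (r • m) n = r • tm m n :=
  (smul_tmul' r m n).symm

lemma tm_smul_right (r : a.ring) (m : Sec M a) (n : Sec N a) : tm m (r • n) = r • tm m n :=
  tmul_smul r m n

lemma tm_zero_left (n : Sec N a) : tm (0 : Sec M a) n = 0 := zero_tmul _ n

lemma tm_zero_right (m : Sec M a) : tm m (0 : Sec N a) = 0 := tmul_zero _ m

end bilinear

variable {a c : X0.Tot} (φ : a ⟶ c)

lemma sec_add_self {M : QCoh X0} {a : X0.Tot} (m : Sec M a) : m + m = 0 := by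
  have h : (1 + 1 : a.ring) = 0 := add_self_of a.pt 1
  rw [← one_smul a.ring m, ← add_smul, h, zero_smul]

/-- The generator `x` of `L n`. -/
noncomputable def xL (n : ℕ) (a : X0.Tot) : Sec (L n) a := sL n a (0, 1)
/-- The generator `1` of `L n`. -/
noncomputable def iL (n : ℕ) (a : X0.Tot) : Sec (L n) a := sL n a (1, 0)
/-- The generator `y` of `Q 1`. -/
noncomputable def yQ (a : X0.Tot) : Sec (Q 1) a := sQ 1 a ⟨X, by
  rw [mem_degreeLT]; exact degree_X_le.trans_lt (by exact_mod_cast Nat.lt_succ_self 1)⟩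
/-- The constant polynomial `1`. -/
noncomputable def oneQ (i : ℕ) (a : X0.Tot) : Sec (Q i) a := sQ i a (constLT a.ring i 1)
/-- The generator of `K n`. -/
noncomputable def oneK (n : ℕ) (a : X0.Tot) : Sec (K n) a := sK n a 1

lemma res_xL (n : ℕ) (ξ : a.ring) (h : Ideal.Quotient.mk _ ξ = xG a.pt n φ.2.1) :
    res (L n) φ (xL n c) = xL n a + ξ • iL n a := by
  have h1 : lMap φ n (0, 1) = (0, 1) + ξ • (1, 0) := by
    refine Prod.ext ?_ ?_
    · change kMap φ n 0 + φ.1.hom 1 • xG a.pt n φ.2.1 = 0 + ξ • 1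
      rw [map_zero, map_one, one_smul, ← h, smul_mk, mul_one]
    · change φ.1.hom 1 = 1 + ξ • 0
      rw [map_one, smul_zero, add_zero]
  exact congrArg (sL n a) h1

lemma res_iL (n : ℕ) : res (L n) φ (iL n c) = iL n a := by
  have h1 : lMap φ n (1, 0) = (1, 0) := by
    refine Prod.ext ?_ ?_
    · change kMap φ n (Ideal.Quotient.mk _ 1) + φ.1.hom 0 • xG a.pt n φ.2.1 = 1
      rw [map_zero, zero_smul, add_zero]
      change Ideal.Quotient.mk _ (φ.1.hom 1) = 1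
      rw [map_one, map_one]
    · exact map_zero _
  exact congrArg (sL n a) h1

lemma tpow_iL (n : ℕ) (a : X0.Tot) : tz a.pt ^ n • iL n a = 0 := by
  have h1 : tz a.pt ^ n • ((1, 0) : (a.ring ⧸ tI a.pt n) × a.ring) = 0 := by
    refine Prod.ext ?_ (mul_zero _)
    change tz a.pt ^ n • (1 : a.ring ⧸ tI a.pt n) = 0
    rw [smul_mk, mul_one, Ideal.Quotient.eq_zero_iff_mem]
    exact Ideal.mem_span_singleton_self _
  exact h1

lemma res_oneQ (i : ℕ) : res (Q i) φ (oneQ i c) = oneQ i a := by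
  have h1 : polyMapLT φ i (constLT c.ring i 1) = constLT a.ring i 1 := by
    apply Subtype.ext
    change polyMap φ (C 1) = C 1
    rw [polyMap_C, map_one]
  exact congrArg (sQ i a) h1

lemma res_yQ : res (Q 1) φ (yQ c) = yQ a + yG a.pt φ.2.1 • oneQ 1 a := by
  have h1 : polyMapLT φ 1 ⟨X, by
      rw [mem_degreeLT]; exact degree_X_le.trans_lt (by exact_mod_cast Nat.lt_succ_self 1)⟩ =
      ⟨X, by rw [mem_degreeLT]; exact degree_X_le.trans_lt (by
        exact_mod_cast Nat.lt_succ_self 1)⟩ + yG a.pt φ.2.1 • constLT a.ring 1 1 := by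
    apply Subtype.ext
    change polyMap φ X = X + yG a.pt φ.2.1 • C 1
    rw [polyMap_X, smul_eq_C_mul, ← C_mul, mul_one]
  exact congrArg (sQ 1 a) h1

/-- The section `x ⊗ 1 + 1 ⊗ x` of `L n ⊗ L n`. -/
noncomputable def γ₀ (n : ℕ) (a : X0.Tot) : Sec (L n ⊗ L n) a :=
  tm (xL n a) (iL n a) + tm (iL n a) (xL n a)

lemma res_γ₀ (n : ℕ) : res (L n ⊗ L n) φ (γ₀ n c) = γ₀ n a := by
  obtain ⟨ξ, hξ⟩ := Ideal.Quotient.mk_surjective (xG a.pt n φ.2.1)
  rw [γ₀, map_add, res_tm, res_tm, res_xL φ n ξ hξ, res_iL, tm_add_left, tm_add_right,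
    tm_smul_left, tm_smul_right, γ₀]
  have h := sec_add_self (ξ • tm (iL n a) (iL n a))
  calc _ = tm (xL n a) (iL n a) + tm (iL n a) (xL n a) +
      (ξ • tm (iL n a) (iL n a) + ξ • tm (iL n a) (iL n a)) := by abel
    _ = _ := by rw [h, add_zero]

lemma tpow_γ₀ (n : ℕ) (a : X0.Tot) : tz a.pt ^ n • γ₀ n a = 0 := by
  rw [γ₀, smul_add, ← tm_smul_right, ← tm_smul_left, tpow_iL, tm_zero_right, tm_zero_left,
    add_zero]

/-- The morphism `1 ↦ x ⊗ 1 + 1 ⊗ x`. -/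
noncomputable def γL (n : ℕ) : K n ⟶ L n ⊗ L n :=
  kHom (q := γ₀ n oo) (tpow_γ₀ n oo) (fun a g => (res_γ₀ (can a g) n).trans
    (res_γ₀ (can a 0) n).symm)

lemma sec_γL (n : ℕ) (a : X0.Tot) : sec (γL n) a (oneK n a) = γ₀ n a := by
  have h := sec_kHom (q := γ₀ n oo) (tpow_γ₀ n oo) (fun a g => (res_γ₀ (can a g) n).trans
    (res_γ₀ (can a 0) n).symm) a 1
  refine Eq.trans h ?_
  rw [one_smul]
  exact res_γ₀ (can a 0) n

/-- The section `(x ⊗ x) ⊗ 1 + (1 ⊗ 1) ⊗ y`. -/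
noncomputable def κp (n : ℕ) (a : X0.Tot) : Sec ((L n ⊗ L n) ⊗ Q 1) a :=
  tm (tm (xL n a) (xL n a)) (oneQ 1 a) + tm (tm (iL n a) (iL n a)) (yQ a)

/-- The section `(x ⊗ 1 + 1 ⊗ x + 1 ⊗ 1) ⊗ 1`. -/
noncomputable def κq (n : ℕ) (a : X0.Tot) : Sec ((L n ⊗ L n) ⊗ Q 1) a :=
  tm (γ₀ n a + tm (iL n a) (iL n a)) (oneQ 1 a)

lemma res_κq (n : ℕ) : res ((L n ⊗ L n) ⊗ Q 1) φ (κq n c) = κq n a := by
  rw [κq, res_tm, map_add, res_γ₀, res_tm, res_iL, res_oneQ]
  rfl

lemma res_κp (n : ℕ) (ξ : a.ring) (h : Ideal.Quotient.mk _ ξ = xG a.pt n φ.2.1) :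
    res ((L n ⊗ L n) ⊗ Q 1) φ (κp n c) = κp n a + ξ • κq n a := by
  have h1 : ∃ d, yG a.pt φ.2.1 = ξ ^ 2 + ξ + tz a.pt ^ n * d := by
    have h2 := xG_sq_add a.pt n φ.2.1
    rw [← h, ← map_pow, ← map_add, quot_mk_eq] at h2
    obtain ⟨d, hd⟩ := h2
    exact ⟨-d, by linear_combination -hd⟩
  obtain ⟨d, hd⟩ := h1
  rw [κp, map_add, res_tm, res_tm, res_tm, res_tm, res_xL φ n ξ h, res_iL, res_oneQ, res_yQ, hd]
  have h3 : (tz a.pt ^ n * d) • tm (tm (iL n a) (iL n a)) (oneQ 1 a) = 0 := by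
    have h5 : tz a.pt ^ n • tm (tm (iL n a) (iL n a)) (oneQ 1 a) = 0 := by
      rw [← tm_smul_left, ← tm_smul_left, tpow_iL, tm_zero_left, tm_zero_left]
    rw [mul_comm, mul_smul, h5, smul_zero]
  have h4 := sec_add_self (ξ ^ 2 • tm (tm (iL n a) (iL n a)) (oneQ 1 a))
  simp only [tm_add_left, tm_add_right, tm_smul_left, tm_smul_right, κp, κq, γ₀, smul_add,
    add_smul, smul_smul, h3, ← pow_two, add_zero]
  calc _ = (tm (tm (xL n a) (xL n a)) (oneQ 1 a) + ξ • tm (tm (xL n a) (iL n a)) (oneQ 1 a) +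
        ξ • tm (tm (iL n a) (xL n a)) (oneQ 1 a) + tm (tm (iL n a) (iL n a)) (yQ a) +
        ξ • tm (tm (iL n a) (iL n a)) (oneQ 1 a)) +
        (ξ ^ 2 • tm (tm (iL n a) (iL n a)) (oneQ 1 a) +
          ξ ^ 2 • tm (tm (iL n a) (iL n a)) (oneQ 1 a)) := by abel
    _ = _ := by
      rw [h4]
      abel

lemma isL_κ (n : ℕ) : IsL ((L n ⊗ L n) ⊗ Q 1) n (κp n oo) (κq n oo) where
  hq := by
    have h : tz oo.pt ^ n • κq n oo = 0 := by
      rw [κq, ← tm_smul_left, smul_add, tpow_γ₀, ← tm_smul_left, tpow_iL, tm_zero_left,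
        add_zero, tm_zero_left]
    exact h
  inv_q a g := (res_κq (can a g) n).trans (res_κq (can a 0) n).symm
  inv_p a g s hs := by
    rw [res_κp (can a g) n s hs, res_κp (can a 0) n 0 (by
      rw [map_zero]; exact (map_zero _).symm), res_κq, zero_smul, add_zero]

/-- The comultiplication of `L n`. -/
noncomputable def κL (n : ℕ) : L n ⟶ (L n ⊗ L n) ⊗ Q 1 := lHom (isL_κ n)

lemma sec_κL_x (n : ℕ) (a : X0.Tot) : sec (κL n) a (xL n a) = κp n a := by
  have h := sec_lHom (isL_κ n) a 0 1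
  rw [zero_smul, zero_add, one_smul] at h
  refine Eq.trans (Eq.trans ?_ h) ?_
  · rw [map_zero]; rfl
  · rw [res_κp (can a 0) n 0 (by rw [map_zero]; exact (map_zero _).symm), zero_smul, add_zero]

lemma sec_κL_i (n : ℕ) (a : X0.Tot) : sec (κL n) a (iL n a) = κq n a := by
  have h := sec_lHom (isL_κ n) a 1 0
  rw [zero_smul, one_smul, add_zero] at h
  refine Eq.trans (Eq.trans ?_ h) ?_
  · rw [map_one]; rfl
  · exact res_κq _ _

/-- The bilinear form `(a, b), (a', b') ↦ b a' + b' a`. -/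
noncomputable def betaA {A : CommRingCat.{0}} (z : base₀.R ⟶ A) (n : ℕ) :
    ((A ⧸ tI z n) × A) ⊗[A] ((A ⧸ tI z n) × A) →ₗ[A] (A ⧸ tI z n) :=
  TensorProduct.lift (LinearMap.mk₂ A (fun v w => v.2 • w.1 + w.2 • v.1)
    (fun v v' w => by simp only [Prod.fst_add, Prod.snd_add, add_smul, smul_add]; abel)
    (fun r v w => by
      simp only [Prod.smul_fst, Prod.smul_snd, smul_eq_mul, mul_smul, smul_add]
      rw [smul_comm w.2 r])
    (fun v w w' => by simp only [Prod.fst_add, Prod.snd_add, add_smul, smul_add]; abel)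
    (fun r v w => by
      simp only [Prod.smul_fst, Prod.smul_snd, smul_eq_mul, mul_smul, smul_add]
      rw [smul_comm v.2 r]))

lemma betaA_tmul {A : CommRingCat.{0}} (z : base₀.R ⟶ A) (n : ℕ)
    (v w : (A ⧸ tI z n) × A) : betaA z n (v ⊗ₜ w) = v.2 • w.1 + w.2 • v.1 := rfl

/-- The pairing on `L n`. -/
noncomputable def βL (n : ℕ) : L n ⊗ L n ⟶ K n :=
  homMk (fun a => (sK n a).toLinearMap.comp (betaA a.pt n)) (by
    intro a c φ m
    induction m using sec_induction with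
    | zero => rw [map_zero, map_zero, map_zero, map_zero]
    | tmul v w =>
      have h1 : betaA a.pt n (lMap φ n v ⊗ₜ lMap φ n w) = kMap φ n (betaA c.pt n (v ⊗ₜ w)) := by
        rw [betaA_tmul, betaA_tmul, map_add, map_smulₛₗ, map_smulₛₗ]
        change φ.1.hom v.2 • (kMap φ n w.1 + φ.1.hom w.2 • xG a.pt n φ.2.1) +
          φ.1.hom w.2 • (kMap φ n v.1 + φ.1.hom v.2 • xG a.pt n φ.2.1) = _
        rw [smul_add, smul_add, smul_smul, smul_smul, mul_comm (φ.1.hom w.2)]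
        have h2 : (φ.1.hom v.2 * φ.1.hom w.2) • xG a.pt n φ.2.1 +
            (φ.1.hom v.2 * φ.1.hom w.2) • xG a.pt n φ.2.1 = 0 := by
          rw [← add_smul, add_self_of a.pt, zero_smul]
        calc _ = (φ.1.hom v.2 • kMap φ n w.1 + φ.1.hom w.2 • kMap φ n v.1) +
            ((φ.1.hom v.2 * φ.1.hom w.2) • xG a.pt n φ.2.1 +
            (φ.1.hom v.2 * φ.1.hom w.2) • xG a.pt n φ.2.1) := by abel
          _ = _ := by rw [h2, add_zero]
      exact h1
    | add x y hx hy => rw [map_add, map_add, hx, hy, map_add, map_add])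

lemma sec_βL (n : ℕ) (a : X0.Tot) (v w : (a.ring ⧸ tI a.pt n) × a.ring) :
    sec (βL n) a (tm (sL n a v) (sL n a w)) = sK n a (v.2 • w.1 + w.2 • v.1) := rfl

end TannakaNil
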