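import Pool.Agent.Helper10.Tannaka.Exact
import Pool.Agent.Helper10.Tannaka.Kappa

/-!
# The values of a cocontinuous tensor functor on the sheaves `Q i`
-/

open CategoryTheory Opposite Limits MonoidalCategory TensorProduct Polynomial

namespace TannakaNil

open Base

/-- Multiplication by an element of the base ring. -/
noncomputable def sm (M : QCoh X0) (r : base₀.R) : M ⟶ M :=
  homMk (fun a => LinearMap.lsmul a.ring (Sec M a) (a.pt.hom r)) (by
    intro a c φ m
    change a.pt.hom r • res M φ m = res M φ (c.pt.hom r • m)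
    rw [map_smulₛₗ]
    congr 1
    exact (congrArg (fun s => s.hom r) φ.2.2).symm)

lemma sec_sm (M : QCoh X0) (r : base₀.R) (a : X0.Tot) (m : Sec M a) :
    sec (sm M r) a m = a.pt.hom r • m := rfl

lemma sm_eq (M : QCoh X0) (r : base₀.R) :
    sm M r = (λ_ M).inv ≫ (sm (𝟙_ (QCoh X0)) r ▷ M) ≫ (λ_ M).hom := by
  apply sec_ext
  intro a m
  have h1 : sec ((λ_ M).inv ≫ (sm (𝟙_ (QCoh X0)) r ▷ M) ≫ (λ_ M).hom) a m =
      sec (λ_ M).hom a (sec (sm (𝟙_ (QCoh X0)) r ▷ M) a (sec (λ_ M).inv a m)) := rfl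
  have h2 : sec (sm (𝟙_ (QCoh X0)) r) a (secUnit a 1) = secUnit a (a.pt.hom r * 1) := rfl
  rw [h1, sec_leftUnitor_inv, sec_whiskerRight, h2, sec_leftUnitor_hom, mul_one]
  rfl

lemma sm_add (M : QCoh X0) (r s : base₀.R) : sm M (r + s) = sm M r + sm M s := by
  apply sec_ext
  intro a m
  rw [sec_add, sec_sm, map_add, add_smul]
  rfl

lemma sm_mul (M : QCoh X0) (r s : base₀.R) : sm M (r * s) = sm M s ≫ sm M r := by
  apply sec_ext
  intro a m
  rw [sec_comp, sec_sm, map_mul, mul_smul]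
  rfl

lemma sm_one (M : QCoh X0) : sm M 1 = 𝟙 M := by
  apply sec_ext
  intro a m
  rw [sec_sm, map_one, one_smul]
  rfl

lemma tmul_eq_sm (M : QCoh X0) (n : ℕ) : tmul M n = sm M (base₀.t ^ n) := by
  apply sec_ext
  intro a m
  rw [sec_sm, map_pow]
  rfl

variable {B : CommRingCat.{0}} (F : QCoh X0 ⥤ ModuleCat.{0} B) [F.Braided] [F.Additive]

lemma fm_add {M N : QCoh X0} (f g : M ⟶ N) (m : F.obj M) :
    fm F (f + g) m = fm F f m + fm F g m := by
  simp [fm, F.map_add]

lemma fm_zero {M N : QCoh X0} (m : F.obj M) : fm F (0 : M ⟶ N) m = 0 := by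
  simp [fm]

/-- The structure map. -/
noncomputable def zF : base₀.R →+* B where
  toFun r := (f1Equiv F).symm (fm F (sm _ r) (f1 F))
  map_one' := by
    rw [sm_one, fm_id, LinearEquiv.symm_apply_eq, f1Equiv_apply, one_smul]
  map_zero' := by
    have : sm (𝟙_ (QCoh X0)) 0 = 0 := by
      have := sm_add (𝟙_ (QCoh X0)) 0 0
      rw [add_zero] at this
      exact left_eq_add.1 this
    rw [this, fm_zero, map_zero]
  map_add' r s := by
    rw [sm_add, fm_add, map_add]
  map_mul' r s := by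
    rw [LinearEquiv.symm_apply_eq, f1Equiv_apply, sm_mul, fm_comp]
    obtain ⟨b, hb⟩ := exists_smul_f1 F (fm F (sm _ s) (f1 F))
    obtain ⟨c, hc⟩ := exists_smul_f1 F (fm F (sm _ r) (f1 F))
    have h1 : ∀ b : B, (f1Equiv F).symm (b • f1 F) = b := fun b => by
      rw [LinearEquiv.symm_apply_eq, f1Equiv_apply]
    rw [hb, hc, map_smul, hc, h1, h1, smul_smul, mul_comm]

lemma zF_spec (r : base₀.R) : fm F (sm (𝟙_ (QCoh X0)) r) (f1 F) = zF F r • f1 F := by
  rw [← f1Equiv_apply]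
  exact ((f1Equiv F).apply_symm_apply _).symm

lemma fm_sm (M : QCoh X0) (r : base₀.R) (m : F.obj M) : fm F (sm M r) m = zF F r • m := by
  rw [sm_eq, fm_comp, fm_comp, fm_leftUnitor_inv, fm_whiskerRight, zF_spec, ft_smul_left,
    map_smul, fm_leftUnitor_hom]

lemma fm_tmul (M : QCoh X0) (n : ℕ) (m : F.obj M) :
    fm F (tmul M n) m = zF F base₀.t ^ n • m := by
  rw [tmul_eq_sm, fm_sm, map_pow]

/-- The structure map, as a point of the stack. -/
noncomputable def zz : base₀.R ⟶ B := CommRingCat.ofHom (zF F)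

include F in
lemma addSelf (b : B) : b + b = 0 := add_self_of (b := base₀) (zz F) b

lemma smulAddSelf {M : QCoh X0} (m : F.obj M) : m + m = 0 := by
  have h : (1 + 1 : B) = 0 := addSelf F 1
  rw [← one_smul B m, ← add_smul, h, zero_smul]

section Q

lemma mem_degreeLT_succ {A : Type} [CommRing A] {i : ℕ} {p : A[X]} :
    p ∈ degreeLT A (i + 1) ↔ p.degree ≤ i := by
  rw [degreeLT_succ_eq_degreeLE, mem_degreeLE]

lemma lead_unitQ_zero : unitQ 0 ≫ lead 0 = 𝟙 _ := by
  apply sec_ext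
  intro a m
  obtain ⟨r, rfl⟩ := (secUnit a).surjective m
  rw [sec_comp_apply, sec_unitQ, sec_lead]
  have : ((constLT a.ring 0 r : degreeLT a.ring 1) : a.ring[X]).coeff 0 = r := coeff_C_zero
  rw [this, sec_id_apply]

lemma unitQ_lead_zero : lead 0 ≫ unitQ 0 = 𝟙 _ := by
  apply sec_ext
  intro a m
  obtain ⟨p, rfl⟩ := (sQ 0 a).surjective m
  rw [sec_comp_apply, sec_lead, sec_unitQ]
  have : constLT a.ring 0 ((p : a.ring[X]).coeff 0) = p := by
    apply Subtype.ext
    change C ((p : a.ring[X]).coeff 0) = p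
    exact (eq_C_of_degree_le_zero (mem_degreeLT_succ.1 p.2)).symm
  rw [this, sec_id_apply]

lemma inclQ_lead {i j : ℕ} (h : i < j) : inclQ h.le ≫ lead j = 0 := by
  apply sec_ext
  intro a m
  obtain ⟨p, rfl⟩ := (sQ i a).surjective m
  rw [sec_comp_apply, sec_inclQ, sec_lead]
  have : (p : a.ring[X]).coeff j = 0 := by
    apply coeff_eq_zero_of_degree_lt
    have hp := p.2
    rw [mem_degreeLT] at hp
    exact hp.trans_le (by exact_mod_cast h)
  have h2 : (((⟨p, degreeLT_mono (Nat.succ_le_succ h.le) p.2⟩ : degreeLT a.ring (j + 1)) :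
    a.ring[X])).coeff j = (p : a.ring[X]).coeff j := rfl
  rw [h2, this, map_zero, sec_zero_apply]

/-- Monomials. -/
noncomputable def monLT (A : Type) [CommRing A] {k i : ℕ} (h : k ≤ i) (r : A) :
    degreeLT A (i + 1) :=
  ⟨monomial k r, mem_degreeLT_succ.2 ((degree_monomial_le k r).trans (by exact_mod_cast h))⟩

lemma exact_lead [PreservesColimitsOfSize.{0, 0} F] (i : ℕ) :
    Function.Exact (fm F (inclQ (Nat.le_succ i))) (fm F (lead (i + 1)))
    ∧ Function.Surjective (fm F (lead (i + 1))) := by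
  apply exact_of_oo
  · intro m
    obtain ⟨p, rfl⟩ := (sQ (i + 1) oo).surjective m
    constructor
    · intro h
      have h1 : (p : base₀.R[X]).coeff (i + 1) = 0 := by
        rw [sec_lead] at h
        exact h
      have h2 : (p : base₀.R[X]) ∈ degreeLT base₀.R (i + 1) := by
        have h3 := mem_degreeLT_succ.1 p.2
        rw [mem_degreeLT, degree_lt_iff_coeff_zero]
        intro m hm
        rcases Nat.eq_or_lt_of_le hm with rfl | hm
        · exact h1
        · exact coeff_eq_zero_of_degree_lt (h3.trans_lt (by exact_mod_cast hm))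
      exact ⟨sQ i oo ⟨p, h2⟩, sec_inclQ _ _ _⟩
    · rintro ⟨q, hq⟩
      rw [← hq, ← sec_comp_apply, inclQ_lead (Nat.lt_succ_self i), sec_zero_apply]
  · intro r
    refine ⟨sQ (i + 1) oo (monLT base₀.R le_rfl r), ?_⟩
    have h : ((monLT base₀.R (le_refl (i + 1)) r : degreeLT base₀.R (i + 1 + 1)) :
      base₀.R[X]).coeff (i + 1) = r := coeff_monomial_same _ _
    rw [sec_lead, h]
    rfl

lemma mulQ_assoc (i j : ℕ) : (mulQ i j ▷ Q 1) ≫ mulQ (i + j) 1 =
    (α_ _ _ _).hom ≫ (Q i ◁ mulQ j 1) ≫ mulQ i (j + 1) := by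
  apply sec_ext
  intro a m
  induction m using sec_induction with
  | zero => rw [map_zero, map_zero]
  | tmul m r =>
    induction m using sec_induction with
    | zero => rw [tm_zero_left, map_zero, map_zero]
    | tmul p q =>
      obtain ⟨p, rfl⟩ := (sQ i a).surjective p
      obtain ⟨q, rfl⟩ := (sQ j a).surjective q
      obtain ⟨r, rfl⟩ := (sQ 1 a).surjective r
      rw [sec_comp_apply, sec_comp_apply, sec_comp_apply, sec_whiskerRight, sec_associator_hom, sec_whiskerLeft, sec_mulQ,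
        sec_mulQ, sec_mulQ, sec_mulQ]
      have : mulLT a.ring (i + j) 1 (mulLT a.ring i j (p ⊗ₜ q) ⊗ₜ r) =
          mulLT a.ring i (j + 1) (p ⊗ₜ mulLT a.ring j 1 (q ⊗ₜ r)) :=
        Subtype.ext (mul_assoc _ _ _)
      rw [this]
      rfl
    | add x y hx hy => rw [tm_add_left, map_add, map_add, hx, hy]
  | add x y hx hy => rw [map_add, map_add, hx, hy]

lemma mulQ_unit (i : ℕ) : (Q i ◁ unitQ 0) ≫ mulQ i 0 = (ρ_ _).hom := by
  apply sec_ext
  intro a m
  induction m using sec_induction with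
  | zero => rw [map_zero, map_zero]
  | tmul p r =>
    obtain ⟨p, rfl⟩ := (sQ i a).surjective p
    obtain ⟨r, rfl⟩ := (secUnit a).surjective r
    rw [sec_comp_apply, sec_whiskerLeft, sec_unitQ, sec_mulQ]
    refine Eq.trans ?_ (sec_rightUnitor_hom r (sQ i a p)).symm
    have : mulLT a.ring i 0 (p ⊗ₜ constLT a.ring 0 r) = r • p := by
      apply Subtype.ext
      change (p : a.ring[X]) * C r = r • (p : a.ring[X])
      rw [smul_eq_C_mul, mul_comm]
    rw [this]
    exact map_smul (sQ i a) r p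
  | add x y hx hy => rw [map_add, map_add, hx, hy]

lemma mulQ_incl {i j i' j' : ℕ} (h : i ≤ i') (h' : j ≤ j') :
    (inclQ h ⊗ₘ inclQ h') ≫ mulQ i' j' = mulQ i j ≫ inclQ (Nat.add_le_add h h') := by
  apply sec_ext
  intro a m
  induction m using sec_induction with
  | zero => rw [map_zero, map_zero]
  | tmul p q =>
    obtain ⟨p, rfl⟩ := (sQ i a).surjective p
    obtain ⟨q, rfl⟩ := (sQ j a).surjective q
    rw [sec_comp_apply, sec_comp_apply, sec_tensorHom, sec_inclQ, sec_inclQ, sec_mulQ, sec_mulQ,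
      sec_inclQ]
    congr 1
  | add x y hx hy => rw [map_add, map_add, hx, hy]

lemma mulQ_lead (i j : ℕ) : mulQ i j ≫ lead (i + j) = (lead i ⊗ₘ lead j) ≫ (λ_ _).hom := by
  apply sec_ext
  intro a m
  induction m using sec_induction with
  | zero => rw [map_zero, map_zero]
  | tmul p q =>
    obtain ⟨p, rfl⟩ := (sQ i a).surjective p
    obtain ⟨q, rfl⟩ := (sQ j a).surjective q
    rw [sec_comp_apply, sec_comp_apply, sec_mulQ, sec_tensorHom, sec_lead, sec_lead, sec_lead, sec_leftUnitor_hom, mulLT_val]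
    have h1 := natDegree_le_of_degree_le (mem_degreeLT_succ.1 p.2)
    have h2 := natDegree_le_of_degree_le (mem_degreeLT_succ.1 q.2)
    have h3 : ((p : a.ring[X]) * q).coeff (i + j) = (p : a.ring[X]).coeff i *
        (q : a.ring[X]).coeff j := Polynomial.coeff_mul_add_eq_of_natDegree_le h1 h2
    rw [h3]
    exact map_smul (secUnit a) _ _
  | add x y hx hy => rw [map_add, map_add, hx, hy]

lemma inclQ_inclQ {i j k : ℕ} (h : i ≤ j) (h' : j ≤ k) :
    inclQ h ≫ inclQ h' = inclQ (h.trans h') := by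
  apply sec_ext
  intro a m
  obtain ⟨p, rfl⟩ := (sQ _ a).surjective m
  rw [sec_comp_apply, sec_inclQ, sec_inclQ, sec_inclQ]

lemma inclQ_refl {i : ℕ} (h : i ≤ i) : inclQ h = 𝟙 (Q i) := by
  apply sec_ext
  intro a m
  obtain ⟨p, rfl⟩ := (sQ _ a).surjective m
  rw [sec_inclQ, sec_id_apply]

lemma inclQ_midc_lt {r k : ℕ} (h : k < 2 ^ r - 1) :
    inclQ (show k ≤ (2 ^ r - 1) + (2 ^ r - 1) by omega) ≫ midc r = 0 := by
  apply sec_ext
  intro a m
  obtain ⟨p, rfl⟩ := (sQ k a).surjective m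
  rw [sec_comp_apply, sec_inclQ, sec_midc]
  have : (p : a.ring[X]).coeff (2 ^ r - 1) = 0 :=
    coeff_eq_zero_of_degree_lt ((mem_degreeLT_succ.1 p.2).trans_lt (by exact_mod_cast h))
  have h2 : (((⟨p, degreeLT_mono (Nat.succ_le_succ (show k ≤ (2 ^ r - 1) + (2 ^ r - 1) by
    omega)) p.2⟩ : degreeLT a.ring (_ + 1)) : a.ring[X])).coeff (2 ^ r - 1) =
      (p : a.ring[X]).coeff (2 ^ r - 1) := rfl
  rw [h2, this, map_zero, sec_zero_apply]

lemma inclQ_midc_eq (r : ℕ) :
    inclQ (show 2 ^ r - 1 ≤ (2 ^ r - 1) + (2 ^ r - 1) by omega) ≫ midc r = lead (2 ^ r - 1) := by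
  apply sec_ext
  intro a m
  obtain ⟨p, rfl⟩ := (sQ _ a).surjective m
  rw [sec_comp_apply, sec_inclQ, sec_midc, sec_lead]

end Q

end TannakaNil
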