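import Pool.Agent.Helper10.Tannaka.Sec

/-!
# From the local to the global Tannaka theorem
-/

open CategoryTheory Opposite Limits MonoidalCategory TensorProduct

universe u v u' v'

namespace TannakaNil

section formal

variable {T : AffCat.{u, v}} {X : AffCat.{u', v'}}

/-- Sections of the pullback. -/
lemma sec_pullMap {F G : Mor T X} (θ : G ⟶ F) (M : QCoh X) (t : T.Tot)
    (m : Sec ((pull F).obj M) t) :
    sec ((pullMap θ).app M) t m = res M (a := G.tot.obj t) (b := F.tot.obj t) (Mor.arrow θ t) m :=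
  rfl

lemma res_pull (F : Mor T X) (M : QCoh X) {s t : T.Tot} (φ : s ⟶ t)
    (m : Sec ((pull F).obj M) t) :
    res ((pull F).obj M) φ m = res M (a := F.tot.obj s) (b := F.tot.obj t) (F.tot.map φ) m := rfl

section faithful

variable (hX : X.IsFibredInGroupoids)
    (K1 : ∀ {A C : CommRingCat.{0}} (f : A ⟶ C) (x : X.Obj C) (y : X.Obj A) (χ χ' : X.Hom f x y),
      (∀ (M : QCoh X) (m : Sec M ⟨A, y⟩),
        res M (a := ⟨C, x⟩) (b := ⟨A, y⟩) ⟨f, χ⟩ m = res M (a := ⟨C, x⟩) (b := ⟨A, y⟩) ⟨f, χ'⟩ m) →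
      χ = χ')

include K1 in
lemma pullMap_injective {F G : Mor T X} {θ θ' : G ⟶ F} (h : pullMap θ = pullMap θ') : θ = θ' := by
  apply Mor.hom_ext
  intro A t
  apply K1
  intro M m
  have h1 := congrArg (fun τ => sec (τ.app M) ⟨A, t⟩ m) h
  exact h1

include K1 in
lemma tannaka_faithful : (tannaka T X hX).Faithful where
  map_injective {F G η η'} h := by
    have := hX.isIso η
    have := hX.isIso η'
    have h1 : pullMap (inv η) = pullMap (inv η') := congrArg TensorFunctor.Hom.hom h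
    have h2 := pullMap_injective K1 h1
    have h3 : η ≫ inv η' = 𝟙 F := by rw [← h2, IsIso.hom_inv_id]
    rw [← cancel_mono (inv η'), h3, IsIso.hom_inv_id]

end faithful

section full

/-- The value of a natural transformation between pullback functors at an object of `T`. -/
noncomputable def evNat {F G : Mor T X} (η : pull F ⟶ pull G) {A : CommRingCat.{0}}
    (t : T.Obj A) : evx (F.obj t) ⟶ evx (G.obj t) where
  app M := ModuleCat.ofHom (X := Sec M ⟨A, F.obj t⟩) (Y := Sec M ⟨A, G.obj t⟩)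
    (sec (η.app M) ⟨A, t⟩)
  naturality M N f := by
    ext m
    exact congrArg (fun τ => sec τ ⟨A, t⟩ (show Sec ((pull F).obj M) ⟨A, t⟩ from m))
      (η.naturality f)

lemma evNat_app {F G : Mor T X} (η : pull F ⟶ pull G) {A : CommRingCat.{0}} (t : T.Obj A)
    (M : QCoh X) (m : Sec M ⟨A, F.obj t⟩) :
    ((evNat η t).app M).hom m = sec (η.app M) ⟨A, t⟩ m := rfl

instance {F G : Mor T X} (η : pull F ⟶ pull G) [NatTrans.IsMonoidal η] {A : CommRingCat.{0}}
    (t : T.Obj A) : NatTrans.IsMonoidal (evNat η t) where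
  unit := by
    ext
    exact congrArg (fun τ => sec τ ⟨A, t⟩ (secUnit _ (1 : A)))
      (NatTrans.IsMonoidal.unit (τ := η))
  tensor M N := by
    apply ModuleCat.MonoidalCategory.tensor_ext
    intro m n
    exact congrArg (fun τ => sec τ ⟨A, t⟩ (tm (M := (pull F).obj M) (N := (pull F).obj N) m n))
      (NatTrans.IsMonoidal.tensor (τ := η) M N)

variable (hX : X.IsFibredInGroupoids)
    (K1 : ∀ {A C : CommRingCat.{0}} (f : A ⟶ C) (x : X.Obj C) (y : X.Obj A) (χ χ' : X.Hom f x y),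
      (∀ (M : QCoh X) (m : Sec M ⟨A, y⟩),
        res M (a := ⟨C, x⟩) (b := ⟨A, y⟩) ⟨f, χ⟩ m = res M (a := ⟨C, x⟩) (b := ⟨A, y⟩) ⟨f, χ'⟩ m) →
      χ = χ')
    (K2 : ∀ {A : CommRingCat.{0}} (x y : X.Obj A)
      (η : evx y ⟶ evx x)
      [NatTrans.IsMonoidal η], ∃ χ : X.Hom (𝟙 A) x y, ∀ (M : QCoh X) (m : Sec M ⟨A, y⟩),
        (η.app M).hom m = res M (a := ⟨A, x⟩) (b := ⟨A, y⟩) ⟨𝟙 A, χ⟩ m)

/-- Restriction along a composite in displayed form. -/
lemma res_comp_mk (M : QCoh X) {A B C : CommRingCat.{0}} {f : A ⟶ B} {g : B ⟶ C} {k : A ⟶ C}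
    (h : f ≫ g = k) {x : X.Obj C} {y : X.Obj B} {z : X.Obj A} (χ : X.Hom g x y)
    (φ : X.Hom f y z) (m : Sec M ⟨A, z⟩) :
    res M (a := ⟨C, x⟩) (b := ⟨A, z⟩) ⟨k, X.comp h χ φ⟩ m =
      res M (a := ⟨C, x⟩) (b := ⟨B, y⟩) ⟨g, χ⟩ (res M (a := ⟨B, y⟩) (b := ⟨A, z⟩) ⟨f, φ⟩ m) := by
  subst h
  exact res_comp M (a := ⟨C, x⟩) (b := ⟨B, y⟩) (c := ⟨A, z⟩) ⟨g, χ⟩ ⟨f, φ⟩ m

include K1 K2 in
lemma exists_pullMap {F G : Mor T X} (η : pull F ⟶ pull G) [NatTrans.IsMonoidal η] :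
    ∃ θ : G ⟶ F, pullMap θ = η := by
  have key : ∀ {A : CommRingCat.{0}} (t : T.Obj A), ∃ χ : X.Hom (𝟙 A) (G.obj t) (F.obj t),
      ∀ (M : QCoh X) (m : Sec M ⟨A, F.obj t⟩), sec (η.app M) ⟨A, t⟩ m =
        res M (a := ⟨A, G.obj t⟩) (b := ⟨A, F.obj t⟩) ⟨𝟙 A, χ⟩ m := fun {A} t =>
    K2 (G.obj t) (F.obj t) (evNat η t)
  choose χ hχ using @key
  refine ⟨{ app := χ, naturality := ?_ }, ?_⟩
  · intro A B f s t φ
    apply K1
    intro M m
    rw [res_comp_mk, res_comp_mk, ← hχ, ← hχ]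
    exact (sec_res (η.app M) (a := ⟨B, s⟩) (b := ⟨A, t⟩) ⟨f, φ⟩
      (show Sec ((pull F).obj M) ⟨A, t⟩ from m))
  · apply NatTrans.ext
    funext M
    apply sec_ext
    intro a m
    exact (hχ a.pt M m).symm

include K1 K2 in
lemma tannaka_full : (tannaka T X hX).Full where
  map_surjective {F G} η := by
    have i : NatTrans.IsMonoidal (F₁ := pull F) (F₂ := pull G) (TensorFunctor.Hom.hom η) :=
      TensorFunctor.Hom.isMonoidal η
    obtain ⟨θ, hθ⟩ := exists_pullMap (F := F) (G := G) K1 K2 (TensorFunctor.Hom.hom η)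
    have := hX.isIso θ
    refine ⟨inv θ, ?_⟩
    apply TensorFunctor.hom_ext
    refine Eq.trans ?_ hθ
    change pullMap (inv (inv θ)) = pullMap θ
    rw [IsIso.inv_inv]

end full

section essSurj

variable (hX : X.IsFibredInGroupoids)
    (K1 : ∀ {A C : CommRingCat.{0}} (f : A ⟶ C) (x : X.Obj C) (y : X.Obj A) (χ χ' : X.Hom f x y),
      (∀ (M : QCoh X) (m : Sec M ⟨A, y⟩),
        res M (a := ⟨C, x⟩) (b := ⟨A, y⟩) ⟨f, χ⟩ m = res M (a := ⟨C, x⟩) (b := ⟨A, y⟩) ⟨f, χ'⟩ m) →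
      χ = χ')
    (K2 : ∀ {A : CommRingCat.{0}} (x y : X.Obj A)
      (η : evx y ⟶ evx x)
      [NatTrans.IsMonoidal η], ∃ χ : X.Hom (𝟙 A) x y, ∀ (M : QCoh X) (m : Sec M ⟨A, y⟩),
        (η.app M).hom m = res M (a := ⟨A, x⟩) (b := ⟨A, y⟩) ⟨𝟙 A, χ⟩ m)

include hX K2 in
/-- A natural monoidal family of semilinear maps comes from an arrow. -/
lemma exists_arrow {A B : CommRingCat.{0}} (f : A ⟶ B) (x : X.Obj A) (y : X.Obj B)
    (L : ∀ M : QCoh X, Sec M ⟨A, x⟩ →ₛₗ[f.hom] Sec M ⟨B, y⟩)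
    (hnat : ∀ {M N : QCoh X} (g : M ⟶ N) (m : Sec M ⟨A, x⟩),
      sec g ⟨B, y⟩ (L M m) = L N (sec g ⟨A, x⟩ m))
    (hunit : L (𝟙_ (QCoh X)) (secUnit ⟨A, x⟩ (1 : A)) = secUnit ⟨B, y⟩ (1 : B))
    (htensor : ∀ {M N : QCoh X} (m : Sec M ⟨A, x⟩) (n : Sec N ⟨A, x⟩),
      L (M ⊗ N) (tm m n) = tm (L M m) (L N n)) :
    ∃ χ : X.Hom f y x, ∀ (M : QCoh X) (m : Sec M ⟨A, x⟩),
      res M (a := ⟨B, y⟩) (b := ⟨A, x⟩) ⟨f, χ⟩ m = L M m := by
  obtain ⟨z, ⟨ψ⟩⟩ := hX.exists_pullback f x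
  have h1 : ∀ M : QCoh X, ∃ g : Sec M ⟨B, z⟩ →ₗ[B] Sec M ⟨B, y⟩, ∀ m : Sec M ⟨A, x⟩,
      g (res M (a := ⟨B, z⟩) (b := ⟨A, x⟩) ⟨f, ψ⟩ m) = L M m := by
    intro M
    exact (res_univ M (a := ⟨B, z⟩) (b := ⟨A, x⟩) ⟨f, ψ⟩ _ (L M)).exists
  choose g hg using h1
  let η : evx z ⟶ evx y :=
    { app := fun M => ModuleCat.ofHom (X := Sec M ⟨B, z⟩) (Y := Sec M ⟨B, y⟩) (g M)
      naturality := by
        intro M N k
        apply ModuleCat.hom_ext
        refine (res_univ M (a := ⟨B, z⟩) (b := ⟨A, x⟩) ⟨f, ψ⟩).eq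
          (g := (g N).comp (sec k ⟨B, z⟩)) (h := (sec k ⟨B, y⟩).comp (g M)) ?_
        intro m
        rw [LinearMap.comp_apply, LinearMap.comp_apply, sec_res]
        refine (hg N _).trans ?_
        rw [← hnat, ← hg M m] }
  have : NatTrans.IsMonoidal η := by
    constructor
    · ext
      have h2 := hg (𝟙_ (QCoh X)) (secUnit ⟨A, x⟩ (1 : A))
      rw [hunit, res_secUnit, map_one] at h2
      exact h2
    · intro M N
      apply ModuleCat.hom_ext
      have h3 : g (M ⊗ N) ∘ₗ (secTensor M N ⟨B, z⟩).toLinearMap =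
          (secTensor M N ⟨B, y⟩).toLinearMap ∘ₗ TensorProduct.map (g M) (g N) := by
        have h4 : g (M ⊗ N) = (secTensor M N ⟨B, y⟩).toLinearMap ∘ₗ
            (TensorProduct.map (g M) (g N) ∘ₗ (secTensor M N ⟨B, z⟩).symm.toLinearMap) := by
          refine (res_univ (M ⊗ N) (a := ⟨B, z⟩) (b := ⟨A, x⟩) ⟨f, ψ⟩).eq ?_
          intro m
          induction m using sec_induction with
          | zero => simp only [map_zero]
          | add a b ha hb => simp only [map_add, ha, hb]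
          | tmul m n =>
            refine (hg (M ⊗ N) (tm m n)).trans ?_
            rw [htensor, ← hg M m, ← hg N n]
            rfl
        rw [h4]
        rfl
      exact h3
  obtain ⟨χ, hχ⟩ := K2 y z η
  refine ⟨X.comp (Category.comp_id f) χ ψ, fun M m => ?_⟩
  rw [res_comp_mk, ← hχ]
  exact hg M m

include hX K1 K2 in
/-- Reconstruction of the 1-morphism. -/
lemma exists_mor (F : QCoh X ⥤ QCoh T) [F.Braided]
    (R : ∀ {A : CommRingCat.{0}} (t : T.Obj A), ∃ (x : X.Obj A) (θ : evx x ≅ F ⋙ evx t),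
      NatTrans.IsMonoidal θ.hom) :
    ∃ (G : Mor T X) (e : pull G ≅ F), NatTrans.IsMonoidal e.hom := by
  choose x θ hθ using @R
  have hθi : ∀ {A : CommRingCat.{0}} (t : T.Obj A), NatTrans.IsMonoidal (θ t).inv := by
    intro A t
    have := hθ t
    infer_instance
  -- the components of the isomorphisms
  let u : ∀ {A : CommRingCat.{0}} (t : T.Obj A) (M : QCoh X),
      Sec M ⟨A, x t⟩ →ₗ[A] Sec (F.obj M) ⟨A, t⟩ := fun t M => ((θ t).hom.app M).hom
  let v : ∀ {A : CommRingCat.{0}} (t : T.Obj A) (M : QCoh X),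
      Sec (F.obj M) ⟨A, t⟩ →ₗ[A] Sec M ⟨A, x t⟩ := fun t M => ((θ t).inv.app M).hom
  have huv : ∀ {A : CommRingCat.{0}} (t : T.Obj A) (M : QCoh X) (m : Sec (F.obj M) ⟨A, t⟩),
      u t M (v t M m) = m := by
    intro A t M m
    exact congrArg (fun τ => (τ.app M).hom m) (θ t).inv_hom_id
  have hvu : ∀ {A : CommRingCat.{0}} (t : T.Obj A) (M : QCoh X) (m : Sec M ⟨A, x t⟩),
      v t M (u t M m) = m := by
    intro A t M m
    exact congrArg (fun τ => (τ.app M).hom m) (θ t).hom_inv_id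
  have hun : ∀ {A : CommRingCat.{0}} (t : T.Obj A) {M N : QCoh X} (g : M ⟶ N)
      (m : Sec M ⟨A, x t⟩), u t N (sec g ⟨A, x t⟩ m) = sec (F.map g) ⟨A, t⟩ (u t M m) := by
    intro A t M N g m
    exact congrArg (fun τ => τ.hom m) ((θ t).hom.naturality g)
  have hvn : ∀ {A : CommRingCat.{0}} (t : T.Obj A) {M N : QCoh X} (g : M ⟶ N)
      (m : Sec (F.obj M) ⟨A, t⟩), v t N (sec (F.map g) ⟨A, t⟩ m) = sec g ⟨A, x t⟩ (v t M m) := by
    intro A t M N g m
    exact congrArg (fun τ => τ.hom m) ((θ t).inv.naturality g)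
  have hu1 : ∀ {A : CommRingCat.{0}} (t : T.Obj A),
      u t (𝟙_ (QCoh X)) (secUnit ⟨A, x t⟩ (1 : A)) =
        sec (Functor.LaxMonoidal.ε F) ⟨A, t⟩ (secUnit ⟨A, t⟩ (1 : A)) := by
    intro A t
    have := hθ t
    have h := NatTrans.IsMonoidal.unit (τ := (θ t).hom)
    exact congrArg (fun τ => τ.hom (1 : A)) h
  have hut : ∀ {A : CommRingCat.{0}} (t : T.Obj A) {M N : QCoh X} (m : Sec M ⟨A, x t⟩)
      (n : Sec N ⟨A, x t⟩), u t (M ⊗ N) (tm m n) =
        sec (Functor.LaxMonoidal.μ F M N) ⟨A, t⟩ (tm (u t M m) (u t N n)) := by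
    intro A t M N m n
    have := hθ t
    have h := NatTrans.IsMonoidal.tensor (τ := (θ t).hom) M N
    exact congrArg (fun τ => τ.hom (m ⊗ₜ[A] n)) h
  have key : ∀ {A B : CommRingCat.{0}} {f : A ⟶ B} {s : T.Obj B} {t : T.Obj A}
      (φ : T.Hom f s t), ∃ χ : X.Hom f (x s) (x t), ∀ (M : QCoh X) (m : Sec M ⟨A, x t⟩),
        u s M (res M (a := ⟨B, x s⟩) (b := ⟨A, x t⟩) ⟨f, χ⟩ m) =
          res (F.obj M) (a := ⟨B, s⟩) (b := ⟨A, t⟩) ⟨f, φ⟩ (u t M m) := by
    intro A B f s t φ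
    obtain ⟨χ, hχ⟩ := exists_arrow hX K2 f (x t) (x s)
      (fun M => (v s M).comp ((res (F.obj M) (a := ⟨B, s⟩) (b := ⟨A, t⟩) ⟨f, φ⟩).comp (u t M)))
      (fun {M N} g m => by
        simp only [LinearMap.comp_apply]
        rw [hun, ← sec_res]
        exact (hvn s g _).symm)
      (by
        simp only [LinearMap.comp_apply]
        rw [hu1, ← sec_res, res_secUnit, map_one, ← hu1, hvu])
      (fun {M N} m n => by
        simp only [LinearMap.comp_apply]
        rw [hut, ← sec_res, res_tm]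
        refine Eq.trans ?_ (hvu s (M ⊗ N) _)
        rw [hut, huv, huv])
    refine ⟨χ, fun M m => ?_⟩
    rw [hχ]
    simp only [LinearMap.comp_apply]
    rw [huv]
  choose χ hχ using @key
  have hinj : ∀ {A : CommRingCat.{0}} (t : T.Obj A) (M : QCoh X) {m m' : Sec M ⟨A, x t⟩},
      u t M m = u t M m' → m = m' := fun t M m m' h => by
    rw [← hvu t M m, h, hvu]
  let G : Mor T X :=
    { obj := x
      map := χ
      map_id := fun {A} t => by
        apply K1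
        intro M m
        apply hinj t M
        rw [hχ]
        refine (res_id (F.obj M) ⟨A, t⟩ _).trans ?_
        congr 1
        exact (res_id M ⟨A, x t⟩ m).symm
      map_comp := fun {A B C f g k} h {s t r} φ ψ => by
        apply K1
        intro M m
        apply hinj s M
        rw [hχ, res_comp_mk, res_comp_mk, hχ, hχ] }
  let e₁ : ∀ M : QCoh X, (pull G).obj M ⟶ F.obj M := fun M =>
    homMk (M := (pull G).obj M) (N := F.obj M) (fun a => u a.pt M)
      (fun {a c} φ m => hχ φ.2 M m)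
  let e₂ : ∀ M : QCoh X, F.obj M ⟶ (pull G).obj M := fun M =>
    homMk (M := F.obj M) (N := (pull G).obj M) (fun a => v a.pt M)
      (fun {a c} φ m => by
        apply hinj a.pt M
        refine (huv a.pt M _).trans ?_
        refine Eq.trans ?_ (hχ φ.2 M (v c.pt M m)).symm
        exact congrArg (fun z => res (F.obj M) φ z) (huv c.pt M m).symm)
  let e : pull G ≅ F :=
    NatIso.ofComponents (fun M =>
      { hom := e₁ M
        inv := e₂ M
        hom_inv_id := sec_ext fun a m => hvu a.pt M m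
        inv_hom_id := sec_ext fun a m => huv a.pt M m })
      (fun {M N} g => sec_ext fun a m => hun a.pt g m)
  refine ⟨G, e, ?_⟩
  constructor
  · apply sec_ext
    intro a r
    obtain ⟨r, rfl⟩ := (secUnit a).surjective r
    have h0 : r • (1 : a.ring) = r := mul_one r
    have h1 : u a.pt (𝟙_ (QCoh X)) (secUnit ⟨a.ring, x a.pt⟩ r) =
        sec (Functor.LaxMonoidal.ε F) ⟨a.ring, a.pt⟩ (secUnit ⟨a.ring, a.pt⟩ r) := by
      rw [← h0]
      refine (congrArg (u a.pt (𝟙_ (QCoh X))) ((secUnit ⟨a.ring, x a.pt⟩).map_smul r 1)).trans ?_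
      refine ((u a.pt (𝟙_ (QCoh X))).map_smul r _).trans ?_
      rw [hu1]
      refine ((sec (Functor.LaxMonoidal.ε F) ⟨a.ring, a.pt⟩).map_smul r _).symm.trans ?_
      exact congrArg (sec (Functor.LaxMonoidal.ε F) ⟨a.ring, a.pt⟩)
        ((secUnit ⟨a.ring, a.pt⟩).map_smul r 1).symm
    exact h1
  · intro M N
    apply sec_ext
    intro a m
    induction m using sec_induction with
    | zero => simp only [map_zero]
    | add a b ha hb => simp only [map_add, ha, hb]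
    | tmul m n => exact hut a.pt m n

include K1 K2 in
lemma tannaka_essSurj
    (R : ∀ {B : CommRingCat.{0}} (F : QCoh X ⥤ ModuleCat.{0} B) [F.Braided] [F.Additive]
      [PreservesColimitsOfSize.{0, 0} F],
      ∃ (x : X.Obj B) (θ : evx x ≅ F),
        NatTrans.IsMonoidal θ.hom) : (tannaka T X hX).EssSurj where
  mem_essImage Φ := by
    obtain ⟨G, e, he⟩ := exists_mor hX K1 K2 Φ.functor (fun {A} t => R (Φ.functor ⋙ evx t))
    have he' : NatTrans.IsMonoidal e.inv := inferInstance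
    refine ⟨G, ⟨{ hom := { hom := e.hom, isMonoidal := he }
                  inv := { hom := e.inv, isMonoidal := he' }
                  hom_inv_id := ?_
                  inv_hom_id := ?_ }⟩⟩
    · apply TensorFunctor.hom_ext
      exact e.hom_inv_id
    · apply TensorFunctor.hom_ext
      exact e.inv_hom_id

end essSurj

end formal

/-- FORMAL -/
theorem tannaka_isEquivalence_of_local (X : AffCat.{u', v'}) (hX : X.IsFibredInGroupoids)
    (K1 : ∀ {A C : CommRingCat.{0}} (f : A ⟶ C) (x : X.Obj C) (y : X.Obj A) (χ χ' : X.Hom f x y),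
      (∀ (M : QCoh X) (m : Sec M ⟨A, y⟩),
        res M (a := ⟨C, x⟩) (b := ⟨A, y⟩) ⟨f, χ⟩ m = res M (a := ⟨C, x⟩) (b := ⟨A, y⟩) ⟨f, χ'⟩ m) →
      χ = χ')
    (K2 : ∀ {A : CommRingCat.{0}} (x y : X.Obj A)
      (η : evx y ⟶ evx x)
      [NatTrans.IsMonoidal η], ∃ χ : X.Hom (𝟙 A) x y, ∀ (M : QCoh X) (m : Sec M ⟨A, y⟩),
        (η.app M).hom m = res M (a := ⟨A, x⟩) (b := ⟨A, y⟩) ⟨𝟙 A, χ⟩ m)
    (R : ∀ {B : CommRingCat.{0}} (F : QCoh X ⥤ ModuleCat.{0} B) [F.Braided] [F.Additive]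
      [PreservesColimitsOfSize.{0, 0} F],
      ∃ (x : X.Obj B) (θ : evx x ≅ F),
        NatTrans.IsMonoidal θ.hom)
    (T : AffCat.{u, v}) : (tannaka T X hX).IsEquivalence where
  faithful := tannaka_faithful hX K1
  full := tannaka_full hX K1 K2
  essSurj := tannaka_essSurj hX K1 K2 R

end TannakaNil

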