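import Pool.Agent.Helper10.Tannaka.MonT

/-!
# Monoidal transformations between the fibre functors
-/

open CategoryTheory Opposite Limits MonoidalCategory TensorProduct Polynomial

namespace TannakaNil

open Base Functor.LaxMonoidal

section ext

variable {B : CommRingCat.{0}} {F F' : QCoh X0 ⥤ ModuleCat.{0} B} [F.Braided] [F'.Braided]
  [F.Additive] [F'.Additive] [PreservesColimitsOfSize.{0, 0} F]

/-- Monoidal transformations are determined by their values on the generators. -/
lemma et_ext (η η' : F ⟶ F') [NatTrans.IsMonoidal η] [NatTrans.IsMonoidal η']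
    (Y : F.obj (Q 1)) (hY : fm F (lead 1) Y = f1 F) (x : ∀ n, F.obj (L n))
    (hx : ∀ n, fm F (πL n) (x n) = f1 F) (h1 : et η (Q 1) Y = et η' (Q 1) Y)
    (h2 : ∀ n, et η (L n) (x n) = et η' (L n) (x n)) : η = η' := by
  have hQ : ∀ i, et η (Q i) = et η' (Q i) := by
    intro i
    apply Q_ext F Y hY
    intro k hk
    rw [et_eI, et_eI, h1]
  have hL : ∀ n, et η (L n) = et η' (L n) := by
    intro n
    ext v
    obtain ⟨r, s, rfl⟩ := exists_decomp F (hx n) v
    rw [map_add, map_add, map_smul, map_smul, map_smul, map_smul, et_iF, et_iF, h2]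
  have hG : ∀ n r, η.app (Gn n r) = η'.app (Gn n r) := by
    intro n r
    ext v
    change et η (Gn n r) v = et η' (Gn n r) v
    induction v using ft_induction with
    | zero => rw [map_zero, map_zero]
    | tmul m p => rw [et_ft, et_ft, hL, hQ]
    | add x y hx hy => rw [map_add, map_add, hx, hy]
  have hP : ∀ M, η.app (PP M) = η'.app (PP M) := by
    intro M
    apply (isColimitOfPreserves F (colimit.isColimit (Discrete.functor (Pf M)))).hom_ext
    intro j
    change F.map (colimit.ι (Discrete.functor (Pf M)) j) ≫ η.app _ =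
      F.map (colimit.ι (Discrete.functor (Pf M)) j) ≫ η'.app _
    have e1 := η.naturality (colimit.ι (Discrete.functor (Pf M)) j)
    have e2 := η'.naturality (colimit.ι (Discrete.functor (Pf M)) j)
    have e3 : η.app ((Discrete.functor (Pf M)).obj j) = η'.app ((Discrete.functor (Pf M)).obj j) :=
      hG _ _
    rw [e3, ← e2] at e1
    exact e1
  apply NatTrans.ext
  funext M
  have hs : Function.Surjective (fm F (πP M)) :=
    (exact_of_oo F (dP M) (πP M) (exact_dP_πP M) (surjective_πP M)).2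
  have hepi : Epi (F.map (πP M)) := (ModuleCat.epi_iff_surjective _).2 hs
  rw [← cancel_epi (F.map (πP M)), η.naturality, η'.naturality, hP]

end ext

section K1

lemma smul_oneQ_eq {a : X0.Tot} {i : ℕ} (r : a.ring) :
    r • oneQ i a = sQ i a (constLT a.ring i r) := by
  have h : constLT a.ring i r = r • constLT a.ring i 1 := by
    rw [← map_smul, smul_eq_mul, mul_one]
  rw [h, map_smul, oneQ]

lemma smul_oneQ {a : X0.Tot} {i : ℕ} {r s : a.ring} (h : r • oneQ i a = s • oneQ i a) :
    r = s := by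
  rw [smul_oneQ_eq, smul_oneQ_eq] at h
  have h1 := congrArg (fun p : degreeLT a.ring (i + 1) => (p : a.ring[X]).coeff 0)
    ((sQ i a).injective h)
  have h2 : ∀ r : a.ring, ((constLT a.ring i r : degreeLT a.ring (i + 1)) :
      a.ring[X]).coeff 0 = r := fun r => coeff_C_zero
  exact (h2 r).symm.trans (h1.trans (h2 s))

lemma smul_iL {a : X0.Tot} {n : ℕ} {r s : a.ring} (h : r • iL n a = s • iL n a) :
    Ideal.Quotient.mk (tI a.pt n) r = Ideal.Quotient.mk (tI a.pt n) s := by
  have h1 : ∀ r : a.ring, r • iL n a = sL n a (Ideal.Quotient.mk _ r, 0) := by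
    intro r
    rw [sL_mk, zero_smul, add_zero]
  rw [h1, h1] at h
  exact congrArg Prod.fst ((sL n a).injective h)

lemma eq_of_res {a c : X0.Tot} {φ ψ : a ⟶ c} (hy : res (Q 1) φ (yQ c) = res (Q 1) ψ (yQ c))
    (hx : res (L 1) φ (xL 1 c) = res (L 1) ψ (xL 1 c)) : φ.2.1 = ψ.2.1 := by
  rw [res_yQ, res_yQ] at hy
  have h1 := smul_oneQ (add_left_cancel hy)
  obtain ⟨ξ, hξ⟩ := Ideal.Quotient.mk_surjective (xG a.pt 1 φ.2.1)
  obtain ⟨ζ, hζ⟩ := Ideal.Quotient.mk_surjective (xG a.pt 1 ψ.2.1)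
  rw [res_xL φ 1 ξ hξ, res_xL ψ 1 ζ hζ] at hx
  have h2 := smul_iL (add_left_cancel hx)
  rw [hξ, hζ] at h2
  rw [← sub_eq_zero]
  apply coord_injective
  · rw [map_sub, h1, sub_self]
  · rw [map_sub, h2, sub_self]

end K1

/-- The constant coefficient. -/
noncomputable def ccQ (M : QCoh X0) (a : X0.Tot) : Sec (M ⊗ Q 1) a →ₗ[a.ring] Sec M a :=
  (TensorProduct.rid a.ring (Sec M a)).toLinearMap.comp ((LinearMap.lTensor (Sec M a)
    ((lcoeff a.ring 0).comp ((Submodule.subtype _).comp (sQ 1 a).symm.toLinearMap))).comp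
      (secTensor M (Q 1) a).symm.toLinearMap)

lemma ccQ_oneQ (M : QCoh X0) (a : X0.Tot) (m : Sec M a) :
    ccQ M a (tm m (oneQ 1 a)) = m := by
  have h : ccQ M a (tm m (oneQ 1 a)) = (C (1 : a.ring)).coeff 0 • m := rfl
  rw [h, coeff_C_zero, one_smul]

section trans

variable {A : CommRingCat.{0}} (x : base₀.R ⟶ A)

/-- The object of the total category given by a point. -/
abbrev aX : X0.Tot := ⟨A, x⟩

/-- The arrow given by an element of the group. -/
noncomputable def arrG (g : Gp (b := base₀) x) : aX x ⟶ aX x := ⟨𝟙 A, ⟨g, Category.comp_id x⟩⟩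

/-- The transformation given by an element of the group. -/
noncomputable def natG (g : Gp (b := base₀) x) : evx (X := X0) x ⟶ evx (X := X0) x where
  app M := ModuleCat.ofHom (X := Sec M (aX x)) (Y := Sec M (aX x))
    { toFun := res M (arrG x g)
      map_add' := map_add _
      map_smul' := fun r m => (res M (arrG x g)).map_smulₛₗ r m }
  naturality M N f := by
    ext m
    exact (sec_res f (arrG x g) m).symm

lemma natG_app (g : Gp (b := base₀) x) (M : QCoh X0) (m : Sec M (aX x)) :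
    et (natG x g) M m = res M (arrG x g) m := rfl

instance (g : Gp (b := base₀) x) : NatTrans.IsMonoidal (natG x g) where
  unit := by
    apply ModuleCat.hom_ext
    apply LinearMap.ext_ring
    rfl
  tensor M N := by
    apply ModuleCat.MonoidalCategory.tensor_ext
    intro m n
    rfl

lemma zF_evx : zF (evx (X := X0) x) = x.hom := by
  apply RingHom.ext
  intro r
  apply f1_ext (evx (X := X0) x)
  rw [← zF_spec]
  rfl

variable (η : evx (X := X0) x ⟶ evx (X := X0) x)

/-- The action of a transformation on sections. -/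
noncomputable def ηs (M : QCoh X0) : Sec M (aX x) →ₗ[A] Sec M (aX x) := et η M

lemma ηs_sec {M N : QCoh X0} (f : M ⟶ N) (m : Sec M (aX x)) :
    ηs x η N (sec f (aX x) m) = sec f (aX x) (ηs x η M m) := et_fm η f m

variable [NatTrans.IsMonoidal η]

lemma ηs_one : ηs x η (𝟙_ (QCoh X0)) (secUnit (aX x) 1) = secUnit (aX x) 1 := et_f1 η

lemma ηs_tm {M N : QCoh X0} (m : Sec M (aX x)) (n : Sec N (aX x)) :
    ηs x η (M ⊗ N) (tm m n) = tm (ηs x η M m) (ηs x η N n) := et_ft η m n

lemma ηs_oneQ (i : ℕ) : ηs x η (Q i) (oneQ i (aX x)) = oneQ i (aX x) := by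
  rw [← sec_unitQ_one, ηs_sec, ηs_one]

lemma ηs_iL (n : ℕ) : ηs x η (L n) (iL n (aX x)) = iL n (aX x) := by
  rw [← sec_uL, ηs_sec, ηs_one]

lemma exists_ηs_y : ∃ c : A, ηs x η (Q 1) (yQ (aX x)) = yQ (aX x) + c • oneQ 1 (aX x) := by
  obtain ⟨p, hp⟩ := (sQ 1 (aX x)).surjective (ηs x η (Q 1) (yQ (aX x)))
  have h1 := congrArg (sec (lead 1) (aX x)) hp
  rw [← ηs_sec, sec_lead_y, ηs_one, sec_lead] at h1
  have h2 : (p : A[X]).coeff 1 = 1 := (secUnit (aX x)).injective h1
  refine ⟨(p : A[X]).coeff 0, ?_⟩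
  rw [← hp]
  have h3 : p = (⟨X, by
      rw [mem_degreeLT]; exact degree_X_le.trans_lt (by exact_mod_cast Nat.lt_succ_self 1)⟩ :
      degreeLT A 2) + constLT A 1 ((p : A[X]).coeff 0) := by
    apply Subtype.ext
    change (p : A[X]) = X + C ((p : A[X]).coeff 0)
    have h4 := eq_X_add_C_of_degree_le_one (mem_degreeLT_succ.1 p.2)
    rw [h2, C_1, one_mul] at h4
    exact h4
  have h5 := congrArg (sQ 1 (aX x)) h3
  rw [map_add] at h5
  refine h5.trans ?_
  have h6 := smul_oneQ_eq (a := aX x) (i := 1) ((p : A[X]).coeff 0)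
  exact congrArg (fun w => yQ (aX x) + w) h6.symm

lemma exists_ηs_x (n : ℕ) :
    ∃ r : A, ηs x η (L n) (xL n (aX x)) = xL n (aX x) + r • iL n (aX x) := by
  obtain ⟨r, s, h⟩ := exists_L (ηs x η (L n) (xL n (aX x)))
  have h1 := congrArg (sec (πL n) (aX x)) h
  rw [← ηs_sec, sec_πL_x, ηs_one, map_add, map_smul, map_smul, sec_πL_x, sec_πL_i, smul_zero,
    zero_add, ← map_smul] at h1
  have h2 : (1 : A) = s • 1 := (secUnit (aX x)).injective h1
  rw [smul_eq_mul, mul_one] at h2
  refine ⟨r, ?_⟩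
  rw [h, ← h2, one_smul, add_comm]

omit [NatTrans.IsMonoidal η] in
lemma tmii_eq_zero {n : ℕ} {r : A}
    (h : r • tm (tm (iL n (aX x)) (iL n (aX x))) (oneQ 1 (aX x)) = 0) :
    Ideal.Quotient.mk (tI x n) r = 0 := by
  have h1 : r • tm (iL n (aX x)) (iL n (aX x)) = 0 := by
    have h2 := congrArg (ccQ (L n ⊗ L n) (aX x)) h
    rw [map_smul, ccQ_oneQ, map_zero] at h2
    exact h2
  have h2 : iF (evx (X := X0) x) n = iL n (aX x) := sec_uL
  have h3 : r • ft (evx (X := X0) x) (iF (evx (X := X0) x) n) (iF (evx (X := X0) x) n) = 0 := by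
    rw [h2]
    exact h1
  obtain ⟨s, hs⟩ := smul_ii_eq_zero (evx (X := X0) x) h3
  rw [Ideal.Quotient.eq_zero_iff_mem, mem_tI]
  refine ⟨s, ?_⟩
  rw [hs, τF, zF_evx]

end trans

end TannakaNil
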