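import Pool.Agent.Helper10.Tannaka.Full

/-!
# Monoidal transformations between the fibre functors, II
-/

open CategoryTheory Opposite Limits MonoidalCategory TensorProduct Polynomial

namespace TannakaNil

open Base Functor.LaxMonoidal

lemma aux_abel {V : Type*} [AddCommGroup V] {xx iy rx rix ri rr c : V}
    (h : xx + iy + (rx + rix + ri) = xx + rx + (rix + rr) + (iy + c)) : ri = rr + c := by
  rw [← sub_eq_zero] at h ⊢
  rw [← h]
  abel

section

variable {A : CommRingCat.{0}} (x : base₀.R ⟶ A)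

lemma tmA_smul_left {M N : QCoh X0} (r : A) (m : Sec M (aX x)) (n : Sec N (aX x)) :
    tm (r • m) n = r • tm m n := tm_smul_left (a := aX x) r m n

lemma tmA_smul_right {M N : QCoh X0} (r : A) (m : Sec M (aX x)) (n : Sec N (aX x)) :
    tm m (r • n) = r • tm m n := tm_smul_right (a := aX x) r m n

variable (η : evx (X := X0) x ⟶ evx (X := X0) x) [NatTrans.IsMonoidal η]

lemma ηs_rel {c : A} (hc : ηs x η (Q 1) (yQ (aX x)) = yQ (aX x) + c • oneQ 1 (aX x)) {n : ℕ}
    {r : A} (hr : ηs x η (L n) (xL n (aX x)) = xL n (aX x) + r • iL n (aX x)) :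
    Ideal.Quotient.mk (tI x n) r ^ 2 + Ideal.Quotient.mk (tI x n) r =
      Ideal.Quotient.mk (tI x n) c := by
  have h1 := congrArg (ηs x η _) (sec_κL_x n (aX x))
  rw [ηs_sec, hr, map_add, map_smul, sec_κL_x, sec_κL_i, κp, κq, γ₀, map_add, ηs_tm, ηs_tm,
    ηs_tm, ηs_tm, hr, hc, ηs_iL, ηs_oneQ] at h1
  simp only [tm_add_left, tm_add_right, tmA_smul_left, tmA_smul_right, smul_add,
    smul_smul] at h1
  have h2 : r • tm (tm (iL n (aX x)) (iL n (aX x))) (oneQ 1 (aX x)) =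
      (r * r) • tm (tm (iL n (aX x)) (iL n (aX x))) (oneQ 1 (aX x)) +
        c • tm (tm (iL n (aX x)) (iL n (aX x))) (oneQ 1 (aX x)) := by
    rw [← sub_eq_zero] at h1 ⊢
    rw [← h1]
    abel
  have h3 : (r ^ 2 + r + c) • tm (tm (iL n (aX x)) (iL n (aX x))) (oneQ 1 (aX x)) = 0 := by
    rw [add_smul, add_smul, h2, pow_two]
    have e1 := sec_add_self ((r * r) • tm (tm (iL n (aX x)) (iL n (aX x))) (oneQ 1 (aX x)))
    have e2 := sec_add_self (c • tm (tm (iL n (aX x)) (iL n (aX x))) (oneQ 1 (aX x)))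
    calc _ = ((r * r) • tm (tm (iL n (aX x)) (iL n (aX x))) (oneQ 1 (aX x)) +
          (r * r) • tm (tm (iL n (aX x)) (iL n (aX x))) (oneQ 1 (aX x))) +
          (c • tm (tm (iL n (aX x)) (iL n (aX x))) (oneQ 1 (aX x)) +
          c • tm (tm (iL n (aX x)) (iL n (aX x))) (oneQ 1 (aX x))) := by abel
      _ = 0 := by rw [e1, e2, add_zero]
  have h4 := tmii_eq_zero x h3
  rw [map_add, map_add, map_pow] at h4
  have h5 : Ideal.Quotient.mk (tI x n) c + Ideal.Quotient.mk (tI x n) c = 0 := by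
    rw [← map_add, add_self_of x, map_zero]
  rw [← sub_eq_zero, ← h4]
  linear_combination -h5

lemma ηs_compat {n : ℕ} {r s : A}
    (hr : ηs x η (L (n + 1)) (xL (n + 1) (aX x)) = xL (n + 1) (aX x) + r • iL (n + 1) (aX x))
    (hs : ηs x η (L n) (xL n (aX x)) = xL n (aX x) + s • iL n (aX x)) :
    Ideal.Quotient.mk (tI x n) r = Ideal.Quotient.mk (tI x n) s := by
  have h1 := congrArg (sec (trL n) (aX x)) hr
  rw [← ηs_sec, map_add, map_smul, sec_trL_x, sec_trL_i, hs] at h1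
  exact (smul_iL (a := aX x) (add_left_cancel h1)).symm

/-- Every monoidal transformation is given by an element of the group. -/
lemma exists_natG : ∃ g, η = natG x g := by
  obtain ⟨c, hc⟩ := exists_ηs_y x η
  choose r hr using exists_ηs_x x η
  obtain ⟨g, hg1, hg2⟩ := coord_surjective x c (Ideal.Quotient.mk _ (r 1))
    (ηs_rel x η hc (hr 1))
  have key : ∀ n, Ideal.Quotient.mk (tI x (n + 1)) (r (n + 1)) = xG x (n + 1) g := by
    intro n
    induction n with
    | zero => exact hg2.symm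
    | succ n ih =>
      obtain ⟨d, hd⟩ := Ideal.Quotient.mk_surjective (xG x (n + 1 + 1) g)
      have e1 : Ideal.Quotient.mk (tI x (n + 1)) d = xG x (n + 1) g := by
        rw [← xG_tr, ← hd, qtr_mk]
      have e2 : Ideal.Quotient.mk (tI x (n + 1)) (r (n + 1 + 1)) =
          Ideal.Quotient.mk (tI x (n + 1)) d := by
        rw [e1, ← ih]
        exact ηs_compat x η (hr (n + 1 + 1)) (hr (n + 1))
      rw [quot_mk_eq] at e2
      obtain ⟨e, he⟩ := e2
      have e3 : Ideal.Quotient.mk (tI x (n + 1 + 1)) ((r (n + 1 + 1) - d) ^ 2) = 0 := by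
        rw [he, Ideal.Quotient.eq_zero_iff_mem, mem_tI]
        refine ⟨tz x ^ n * e ^ 2, ?_⟩
        ring
      have e4 := ηs_rel x η hc (hr (n + 1 + 1))
      have e5 := xG_sq_add x (n + 1 + 1) g
      rw [hg1, ← hd] at e5
      have e6 : ∀ z : A ⧸ tI x (n + 1 + 1), z + z = 0 := by
        intro z
        obtain ⟨z, rfl⟩ := Ideal.Quotient.mk_surjective z
        rw [← map_add, add_self_of x, map_zero]
      rw [map_pow, map_sub] at e3
      rw [← hd]
      set ρ := Ideal.Quotient.mk (tI x (n + 1 + 1)) (r (n + 1 + 1))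
      set δ := Ideal.Quotient.mk (tI x (n + 1 + 1)) d
      set γ := Ideal.Quotient.mk (tI x (n + 1 + 1)) c
      linear_combination e4 - e5 - e3 - e6 (ρ * δ) + e6 (δ ^ 2)
  have key' : ∀ n, Ideal.Quotient.mk (tI x n) (r n) = xG x n g := by
    intro n
    cases n with
    | zero =>
      rw [← xG_tr, ← key 0, qtr_mk]
      exact (ηs_compat x η (hr 1) (hr 0)).symm
    | succ n => exact key n
  refine ⟨g, et_ext η (natG x g) (yQ (aX x)) sec_lead_y (fun n => xL n (aX x))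
    (fun n => sec_πL_x) ?_ ?_⟩
  · refine hc.trans ?_
    have h := res_yQ (arrG x g)
    change yQ (aX x) + c • oneQ 1 (aX x) = res (Q 1) (arrG x g) (yQ (aX x))
    rw [h]
    congr 2
    exact hg1.symm
  · intro n
    refine (hr n).trans ?_
    exact (res_xL (arrG x g) n (r n) (key' n)).symm

end

lemma X0_K2 {A : CommRingCat.{0}} (x y : X0.Obj A) (η : evx y ⟶ evx x) [NatTrans.IsMonoidal η] :
    ∃ χ : X0.Hom (𝟙 A) x y, ∀ (M : QCoh X0) (m : Sec M ⟨A, y⟩),
        (η.app M).hom m = res M (a := ⟨A, x⟩) (b := ⟨A, y⟩) ⟨𝟙 A, χ⟩ m := by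
  have h : y = x := by
    have h1 := et_zF η
    have h2 : zF (evx y) = (show base₀.R ⟶ A from y).hom := zF_evx (A := A) y
    have h3 : zF (evx x) = (show base₀.R ⟶ A from x).hom := zF_evx (A := A) x
    rw [h2, h3] at h1
    exact CommRingCat.hom_ext h1
  subst h
  obtain ⟨g, rfl⟩ := exists_natG (A := A) y η
  exact ⟨⟨g, Category.comp_id _⟩, fun M m => rfl⟩

lemma X0_K1 {A C : CommRingCat.{0}} (f : A ⟶ C) (x : X0.Obj C) (y : X0.Obj A)
    (χ χ' : X0.Hom f x y)
    (h : ∀ (M : QCoh X0) (m : Sec M ⟨A, y⟩),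
      res M (a := ⟨C, x⟩) (b := ⟨A, y⟩) ⟨f, χ⟩ m = res M (a := ⟨C, x⟩) (b := ⟨A, y⟩) ⟨f, χ'⟩ m) :
    χ = χ' := by
  have h1 := eq_of_res (a := ⟨C, x⟩) (c := ⟨A, y⟩) (φ := ⟨f, χ⟩) (ψ := ⟨f, χ'⟩) (h (Q 1) _)
    (h (L 1) _)
  exact Subtype.ext h1

lemma X0_R {B : CommRingCat.{0}} (F : QCoh X0 ⥤ ModuleCat.{0} B) [F.Braided] [F.Additive]
    [PreservesColimitsOfSize.{0, 0} F] :
    ∃ (x : X0.Obj B) (θ : evx x ≅ F), NatTrans.IsMonoidal θ.hom := by
  obtain ⟨G⟩ := exists_gens F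
  have : IsIso G.nat := et_isIso G.nat
  exact ⟨zz F, asIso G.nat, inferInstanceAs (NatTrans.IsMonoidal G.nat)⟩

end TannakaNil
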