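import Pool.Agent.Helper10.Tannaka.Grp

/-!
# The etale algebra `A[v] / (τ v² + v + s)` in characteristic two
-/

open CategoryTheory Opposite Limits AlgebraicGeometry

namespace TannakaNil

section

variable {A : Type} [CommRing A]

/-- The polynomial `τ v² + v + s`. -/
noncomputable def qpoly (τ s : A) : Polynomial A :=
  Polynomial.C τ * Polynomial.X ^ 2 + Polynomial.X + Polynomial.C s

lemma qpoly_aeval {B : Type*} [CommRing B] [Algebra A B] (τ s : A) (x : B) :
    Polynomial.aeval x (qpoly τ s) = algebraMap A B τ * x ^ 2 + x + algebraMap A B s := by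
  simp [qpoly]

/-- The algebra `A[v] / (τ v² + v + s)`. -/
abbrev QAlg (τ s : A) : Type := AdjoinRoot (qpoly τ s)

lemma qAlg_root (τ s : A) : algebraMap A (QAlg τ s) τ * (AdjoinRoot.root (qpoly τ s)) ^ 2 +
    AdjoinRoot.root (qpoly τ s) + algebraMap A (QAlg τ s) s = 0 := by
  rw [← qpoly_aeval, AdjoinRoot.aeval_eq, AdjoinRoot.mk_self]

/-- Algebra maps out of `A[v] / (τ v² + v + s)`. -/
noncomputable def qLift {B : Type*} [CommRing B] [Algebra A B] (τ s : A) (x : B)
    (hx : algebraMap A B τ * x ^ 2 + x + algebraMap A B s = 0) : QAlg τ s →ₐ[A] B :=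
  AdjoinRoot.liftAlgHom (qpoly τ s) (Algebra.ofId A B) x (by
    have h := qpoly_aeval (B := B) τ s x
    rw [hx] at h
    exact h)

@[simp] lemma qLift_root {B : Type*} [CommRing B] [Algebra A B] (τ s : A) (x : B)
    (hx : algebraMap A B τ * x ^ 2 + x + algebraMap A B s = 0) :
    qLift τ s x hx (AdjoinRoot.root _) = x := by
  exact AdjoinRoot.liftAlgHom_root _ _ _ _

lemma qAlg_algHom_ext {B : Type*} [CommRing B] [Algebra A B] {τ s : A} {f g : QAlg τ s →ₐ[A] B}
    (h : f (AdjoinRoot.root _) = g (AdjoinRoot.root _)) : f = g :=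
  AdjoinRoot.algHom_ext h

lemma qAlg_etale (h2 : (2 : A) = 0) (τ s : A) : Algebra.Etale A (QAlg τ s) := by
  have hfe : Algebra.FormallyEtale A (QAlg τ s) := by
    refine Algebra.FormallyEtale.iff_comp_bijective.mpr fun B _ _ I hI => ?_
    have h2B : (2 : B) = 0 := by
      have := congrArg (algebraMap A B) h2
      rwa [map_zero, map_ofNat] at this
    have hII : ∀ x ∈ I, ∀ y ∈ I, x * y = 0 := by
      intro x hx y hy
      have : x * y ∈ I ^ 2 := by
        rw [pow_two]
        exact Ideal.mul_mem_mul hx hy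
      rwa [hI] at this
    constructor
    · intro f g hfg
      apply qAlg_algHom_ext
      set x := f (AdjoinRoot.root _) with hx
      set y := g (AdjoinRoot.root _) with hy
      have h1 : x - y ∈ I := by
        rw [← Ideal.Quotient.eq_zero_iff_mem, map_sub, sub_eq_zero]
        exact DFunLike.congr_fun hfg (AdjoinRoot.root _)
      have h3 := congrArg f (qAlg_root τ s)
      have h4 := congrArg g (qAlg_root τ s)
      rw [map_add, map_add, map_mul, map_pow, map_zero, AlgHom.commutes, AlgHom.commutes,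
        ← hx] at h3
      rw [map_add, map_add, map_mul, map_pow, map_zero, AlgHom.commutes, AlgHom.commutes,
        ← hy] at h4
      have h5 := hII _ h1 _ h1
      rw [← sub_eq_zero]
      linear_combination h3 - h4 - algebraMap A B τ * h5 -
        algebraMap A B τ * (x - y) * y * h2B
    · intro f
      obtain ⟨r, hr⟩ := Ideal.Quotient.mk_surjective (f (AdjoinRoot.root _))
      set d : B := algebraMap A B τ * r ^ 2 + r + algebraMap A B s with hd
      have hdI : d ∈ I := by
        rw [← Ideal.Quotient.eq_zero_iff_mem]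
        have h3 := congrArg f (qAlg_root τ s)
        rw [map_add, map_add, map_mul, map_pow, map_zero, AlgHom.commutes, AlgHom.commutes,
          ← hr] at h3
        rw [hd, map_add, map_add, map_mul, map_pow]
        exact h3
      have hroot : algebraMap A B τ * (r - d) ^ 2 + (r - d) + algebraMap A B s = 0 := by
        have h5 := hII _ hdI _ hdI
        linear_combination algebraMap A B τ * h5 - (algebraMap A B τ * r * d) * h2B - hd
      refine ⟨qLift τ s (r - d) hroot, ?_⟩
      apply qAlg_algHom_ext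
      rw [AlgHom.comp_apply, qLift_root, Ideal.Quotient.mkₐ_eq_mk, map_sub, hr,
        Ideal.Quotient.eq_zero_iff_mem.2 hdI, sub_zero]
  have hfp : Algebra.FinitePresentation A (QAlg τ s) :=
    Algebra.FinitePresentation.quotient (Submodule.fg_span_singleton _)
  exact ⟨hfe, hfp⟩

lemma qAlg_surj (τ s : A) (p : PrimeSpectrum A) :
    ∃ q : PrimeSpectrum (QAlg τ s), PrimeSpectrum.comap (algebraMap A (QAlg τ s)) q = p := by
  let K := AlgebraicClosure p.asIdeal.ResidueField
  obtain ⟨x, hx⟩ : ∃ x : K, algebraMap A K τ * x ^ 2 + x + algebraMap A K s = 0 := by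
    by_cases h : algebraMap A K τ = 0
    · exact ⟨- algebraMap A K s, by rw [h]; ring⟩
    · have hdeg : (Polynomial.C (algebraMap A K τ) * Polynomial.X ^ 2 +
          Polynomial.C (1 : K) * Polynomial.X +
          Polynomial.C (algebraMap A K s)).degree ≠ 0 := by
        rw [Polynomial.degree_quadratic h]
        decide
      obtain ⟨x, hx⟩ := IsAlgClosed.exists_root _ hdeg
      refine ⟨x, ?_⟩
      simpa [Polynomial.IsRoot] using hx
  let φ : QAlg τ s →ₐ[A] K := qLift τ s x hx
  refine ⟨PrimeSpectrum.comap φ.toRingHom ⊥, ?_⟩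
  rw [← PrimeSpectrum.comap_comp_apply]
  have h1 : φ.toRingHom.comp (algebraMap A (QAlg τ s)) = algebraMap A K := φ.comp_algebraMap
  rw [h1]
  ext a
  have h2 : a ∈ (PrimeSpectrum.comap (algebraMap A K) ⊥).asIdeal ↔ algebraMap A K a = 0 := Iff.rfl
  rw [h2,
    IsScalarTower.algebraMap_apply A p.asIdeal.ResidueField K,
    map_eq_zero_iff _ (algebraMap p.asIdeal.ResidueField K).injective,
    Ideal.algebraMap_residueField_eq_zero]

end

/-- The ring `A[v] / (τ v² + v + s)`. -/
noncomputable def quadRing {A : CommRingCat.{0}} (τ s : A) : CommRingCat.{0} :=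
  CommRingCat.of (QAlg τ s)

/-- The map `A ⟶ A[v] / (τ v² + v + s)`. -/
noncomputable def quadMap {A : CommRingCat.{0}} (τ s : A) : A ⟶ quadRing τ s :=
  CommRingCat.ofHom (algebraMap A (QAlg τ s))

lemma quadMap_etale {A : CommRingCat.{0}} (h2 : (2 : A) = 0) (τ s : A) :
    (quadMap τ s).hom.Etale := by
  have := qAlg_etale h2 τ s
  exact RingHom.etale_algebraMap.2 this

lemma quadMap_isEtaleCovering {A : CommRingCat.{0}} (h2 : (2 : A) = 0) (τ s : A) :
    IsEtaleCovering (fun _ : Unit => quadRing τ s) (fun _ => quadMap τ s) where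
  etale _ := quadMap_etale h2 τ s
  surj p := by
    obtain ⟨q, hq⟩ := qAlg_surj τ s p
    exact ⟨(), q, hq⟩

/-- The root. -/
noncomputable def quadRoot {A : CommRingCat.{0}} (τ s : A) : quadRing τ s :=
  AdjoinRoot.root (qpoly τ s)

lemma quadRoot_spec {A : CommRingCat.{0}} (τ s : A) :
    (quadMap τ s).hom τ * (quadRoot τ s) ^ 2 + quadRoot τ s + (quadMap τ s).hom s = 0 :=
  qAlg_root τ s

/-- Maps out of `A[v] / (τ v² + v + s)`. -/
noncomputable def quadLift {A B : CommRingCat.{0}} (τ s : A) (f : A ⟶ B) (x : B)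
    (hx : f.hom τ * x ^ 2 + x + f.hom s = 0) : quadRing τ s ⟶ B :=
  letI := f.hom.toAlgebra
  CommRingCat.ofHom (qLift τ s x hx).toRingHom

@[simp] lemma quadLift_root {A B : CommRingCat.{0}} (τ s : A) (f : A ⟶ B) (x : B)
    (hx : f.hom τ * x ^ 2 + x + f.hom s = 0) : (quadLift τ s f x hx).hom (quadRoot τ s) = x := by
  let _ := f.hom.toAlgebra
  exact qLift_root τ s x hx

@[reassoc (attr := simp)] lemma quadMap_quadLift {A B : CommRingCat.{0}} (τ s : A) (f : A ⟶ B)
    (x : B) (hx : f.hom τ * x ^ 2 + x + f.hom s = 0) :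
    quadMap τ s ≫ quadLift τ s f x hx = f := by
  let _ := f.hom.toAlgebra
  ext a
  exact (qLift τ s x hx).commutes a

lemma quadRing_hom_ext {A B : CommRingCat.{0}} {τ s : A} {f g : quadRing τ s ⟶ B}
    (h : quadMap τ s ≫ f = quadMap τ s ≫ g)
    (h' : f.hom (quadRoot τ s) = g.hom (quadRoot τ s)) : f = g := by
  let _ := (quadMap τ s ≫ f).hom.toAlgebra
  let f' : QAlg τ s →ₐ[A] B := { f.hom with commutes' := fun a => rfl }
  let g' : QAlg τ s →ₐ[A] B :=
    { g.hom with commutes' := fun a => (ConcreteCategory.congr_hom h a).symm }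
  have h1 : f' = g' := qAlg_algHom_ext h'
  ext a
  exact DFunLike.congr_fun h1 a

end TannakaNil
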