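import Pool.Agent.Helper10.Tannaka.Kappa
import Pool.Agent.Helper10.Tannaka.BaseCh
import Pool.Agent.Helper10.Tannaka.Quad
import Pool.Agent.Helper10.Tannaka.Cov

/-!
# Sections over the universal object give morphisms from the sheaves `L n`
-/

open CategoryTheory Opposite Limits MonoidalCategory TensorProduct Polynomial

namespace TannakaNil

open Base

section sigma

variable {A A' : Type} [CommRing A] [CommRing A'] (f : A →+* A') (h2 : ∀ a : A', a + a = 0)
  (x : A')

/-- The map `y ↦ y + x² + x`. -/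
noncomputable def shiftT (p : A[X]) : A'[X] := taylor (x ^ 2 + x) (p.map f)

lemma shiftT_add (p q : A[X]) : shiftT f x (p + q) = shiftT f x p + shiftT f x q := by
  rw [shiftT, Polynomial.map_add, map_add]; rfl

lemma shiftT_mul (p q : A[X]) : shiftT f x (p * q) = shiftT f x p * shiftT f x q := by
  rw [shiftT, Polynomial.map_mul, taylor_mul]; rfl

lemma shiftT_X : shiftT f x X = X + C (x ^ 2 + x) := by
  rw [shiftT, Polynomial.map_X, taylor_X]

lemma shiftT_C (r : A) : shiftT f x (C r) = C (f r) := by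
  rw [shiftT, Polynomial.map_C, taylor_C]

lemma shiftT_one : shiftT f x 1 = 1 := by
  rw [← C_1, shiftT_C, map_one, C_1]

lemma shiftT_zero : shiftT f x 0 = 0 := by
  rw [← C_0, shiftT_C, map_zero, C_0]

/-- The ring homomorphism `x ↦ x + x'`, `y ↦ y + x'² + x'`. -/
noncomputable def sigmaE : EAlg A →+* EAlg A' where
  toFun z := ⟨shiftT f x z.re + C x * shiftT f x z.im, shiftT f x z.im⟩
  map_one' := by
    ext : 1
    · change shiftT f x 1 + C x * shiftT f x 0 = 1
      rw [shiftT_one, shiftT_zero, mul_zero, add_zero]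
    · change shiftT f x 0 = 0
      exact shiftT_zero f x
  map_zero' := by
    ext : 1
    · change shiftT f x 0 + C x * shiftT f x 0 = 0
      rw [shiftT_zero, mul_zero, add_zero]
    · change shiftT f x 0 = 0
      exact shiftT_zero f x
  map_add' z w := by
    ext : 1
    · change shiftT f x (z.re + w.re) + C x * shiftT f x (z.im + w.im) =
        (shiftT f x z.re + C x * shiftT f x z.im) + (shiftT f x w.re + C x * shiftT f x w.im)
      rw [shiftT_add, shiftT_add]
      ring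
    · change shiftT f x (z.im + w.im) = _
      exact shiftT_add f x _ _
  map_mul' z w := by
    have h3 : ∀ p : A'[X], p + p = 0 := fun p => by
      ext n; rw [coeff_add, h2, coeff_zero]
    ext : 1
    · rw [QuadraticAlgebra.re_mul]
      change shiftT f x (z.re * w.re + X * z.im * w.im) +
        C x * shiftT f x (z.re * w.im + z.im * w.re + 1 * z.im * w.im) =
        (shiftT f x z.re + C x * shiftT f x z.im) * (shiftT f x w.re + C x * shiftT f x w.im) +
          X * shiftT f x z.im * shiftT f x w.im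
      simp only [shiftT_add, shiftT_mul, shiftT_X, shiftT_one, C_add, C_pow]
      linear_combination h3 (C x * shiftT f x z.im * shiftT f x w.im)
    · rw [QuadraticAlgebra.im_mul]
      change shiftT f x (z.re * w.im + z.im * w.re + 1 * z.im * w.im) =
        (shiftT f x z.re + C x * shiftT f x z.im) * shiftT f x w.im +
          shiftT f x z.im * (shiftT f x w.re + C x * shiftT f x w.im) +
          1 * shiftT f x z.im * shiftT f x w.im
      simp only [shiftT_add, shiftT_mul, shiftT_one]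
      linear_combination -h3 (C x * shiftT f x z.im * shiftT f x w.im)

lemma sigmaE_jE (p : A[X]) : sigmaE f h2 x (jE A p) = jE A' (shiftT f x p) := by
  ext : 1
  · change shiftT f x p + C x * shiftT f x 0 = shiftT f x p
    rw [shiftT_zero, mul_zero, add_zero]
  · change shiftT f x 0 = 0
    exact shiftT_zero f x

lemma sigmaE_inE (r : A) : sigmaE f h2 x (inE A r) = inE A' (f r) := by
  have := sigmaE_jE f h2 x (C r)
  rw [shiftT_C] at this
  exact this

lemma sigmaE_ωE : sigmaE f h2 x (ωE A) = ωE A' + inE A' x := by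
  ext : 1
  · change shiftT f x 0 + C x * shiftT f x 1 = 0 + C x
    rw [shiftT_zero, shiftT_one, mul_one]
  · change shiftT f x 1 = 1 + 0
    rw [shiftT_one, add_zero]

end sigma

/-- The object over `Spec A[y][x] / (x² + x + y)`. -/
noncomputable def aE (a : X0.Tot) : X0.Tot :=
  ⟨CommRingCat.of (EAlg a.ring), a.pt ≫ CommRingCat.ofHom (inE a.ring)⟩

noncomputable instance (M : QCoh X0) (a : X0.Tot) : Module (EAlg a.ring) (Sec M (aE a)) :=
  secModule M (aE a)

/-- The arrow given by the element `(x, 0)`. -/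
noncomputable def ξE (a : X0.Tot) : aE a ⟶ a :=
  ⟨CommRingCat.ofHom (inE a.ring), ⟨Gp.mk _ (ωE a.ring, 0), rfl⟩⟩

/-- The restriction along `ξE`. -/
noncomputable def rE (M : QCoh X0) (a : X0.Tot) : Sec M a →ₛₗ[inE a.ring] Sec M (aE a) :=
  res M (ξE a)

lemma rE_univ (M : QCoh X0) (a : X0.Tot) : Univ (rE M a) := res_univ M (ξE a)

/-- The map `m ⊗ f ↦ f • (x, 0) m`. -/
noncomputable def θE (M : QCoh X0) (a : X0.Tot) : Sec (M ⊗ O) a →ₛₗ[inE a.ring] Sec M (aE a) :=
  (thetaE (rE M a) : Sec M a ⊗[a.ring] a.ring[X] →ₛₗ[inE a.ring] Sec M (aE a))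

@[simp] lemma θE_tm (M : QCoh X0) (a : X0.Tot) (m : Sec M a) (p : a.ring[X]) :
    θE M a (tm m (sO a p)) = jE a.ring p • res M (ξE a) m := rfl

lemma θE_bijective (M : QCoh X0) (a : X0.Tot) :
    Function.Bijective (fun w : Sec (M ⊗ O) a × Sec (M ⊗ O) a =>
      θE M a w.1 + ωE a.ring • θE M a w.2) :=
  thetaE_bijective (V := Sec M a) (V' := Sec M (aE a)) (rE_univ M a)

variable {a a' : X0.Tot} (φ : a' ⟶ a) (x : a'.ring) (hx : φ.2.1 = Gp.mk _ (x, 0))

/-- The arrow `aE a' ⟶ aE a` attached to an arrow `a' ⟶ a` with group element `(x', 0)`. -/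
noncomputable def sgE : aE a' ⟶ aE a :=
  ⟨CommRingCat.ofHom (sigmaE φ.1.hom (add_self_of a'.pt) x), ⟨0, by
    have h := φ.2.2
    apply CommRingCat.hom_ext
    apply RingHom.ext
    intro r
    change sigmaE φ.1.hom (add_self_of a'.pt) x (inE a.ring (a.pt.hom r)) = inE a'.ring
      (a'.pt.hom r)
    rw [sigmaE_inE]
    congr 1
    exact congrArg (fun s => s.hom r) h⟩⟩

lemma tot_ext {b : Base} {a c : (bg b).Tot} {φ ψ : a ⟶ c} (h1 : φ.1 = ψ.1) (h2 : φ.2.1 = ψ.2.1) :
    φ = ψ := by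
  obtain ⟨f, g, hg⟩ := φ
  obtain ⟨f', g', hg'⟩ := ψ
  obtain rfl : f = f' := h1
  obtain rfl : g = g' := h2
  rfl

include hx in
lemma sgE_ξE : sgE φ x ≫ ξE a = ξE a' ≫ φ := by
  apply tot_ext
  · apply CommRingCat.hom_ext
    apply RingHom.ext
    intro r
    exact sigmaE_inE φ.1.hom (add_self_of a'.pt) x r
  · change 0 + Gp.mk _ (sigmaE φ.1.hom (add_self_of a'.pt) x (ωE a.ring),
      sigmaE φ.1.hom (add_self_of a'.pt) x 0) = Gp.mk _ (ωE a'.ring, 0) +
        Gp.map (CommRingCat.ofHom (inE a'.ring)) _ φ.2.1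
    rw [sigmaE_ωE, map_zero, zero_add, hx, Gp.map_mk, ← map_add]
    congr 1
    ext : 1
    · rfl
    · change (0 : EAlg a'.ring) = 0 + inE a'.ring 0
      rw [map_zero, add_zero]

lemma sgE_can : sgE φ x ≫ can (aE a) 0 = can (aE a') 0 := by
  rw [can_comp, map_zero, add_zero]
  rfl

lemma yG_mk_zero (z : base₀.R ⟶ a.ring) (x : a.ring) :
    yG z (Gp.mk z (x, 0)) = x ^ 2 + x := by
  rw [yG_mk, mul_zero, add_zero]

include hx in
lemma θE_natural (M : QCoh X0) (w : Sec (M ⊗ O) a) :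
    θE M a' (res (M ⊗ O) φ w) = res M (sgE φ x) (θE M a w) := by
  induction w using sec_induction with
  | zero => rw [map_zero, map_zero, map_zero, map_zero]
  | tmul m p =>
    obtain ⟨p, rfl⟩ := (sO a).surjective p
    rw [res_tm, res_sO, θE_tm, θE_tm]
    have h1 : jE a.ring p • res M (ξE a) m = (jE a.ring p : (aE a).ring) • res M (ξE a) m := rfl
    have h2 : res M (sgE φ x) (res M (ξE a) m) = res M (ξE a') (res M φ m) := by
      rw [← res_comp, sgE_ξE φ x hx, res_comp]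
    rw [h1, map_smulₛₗ, h2]
    congr 1
    change _ = sigmaE φ.1.hom (add_self_of a'.pt) x (jE a.ring p)
    rw [sigmaE_jE, polyMap_apply, hx, yG_mk_zero]
    rfl
  | add x y hx hy => rw [map_add, map_add, hx, hy, map_add, map_add]

lemma θE_ext (M : QCoh X0) (a : X0.Tot) {w₁ w₂ w₁' w₂' : Sec (M ⊗ O) a}
    (h : θE M a w₁ + ωE a.ring • θE M a w₂ = θE M a w₁' + ωE a.ring • θE M a w₂') :
    w₁ = w₁' ∧ w₂ = w₂' := by
  have h1 := (θE_bijective M a).1 (a₁ := (w₁, w₂)) (a₂ := (w₁', w₂')) h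
  exact ⟨congrArg Prod.fst h1, congrArg Prod.snd h1⟩

lemma exists_PQ (M : QCoh X0) (a : X0.Tot) (m : Sec M oo) :
    ∃ w : Sec (M ⊗ O) a × Sec (M ⊗ O) a,
      θE M a w.1 + ωE a.ring • θE M a w.2 = rz M (aE a) m :=
  (θE_bijective M a).2 _

/-- The coefficients `p_m` of a section. -/
noncomputable def Pc (M : QCoh X0) (a : X0.Tot) (m : Sec M oo) : Sec (M ⊗ O) a :=
  (exists_PQ M a m).choose.1

/-- The coefficients `q_m` of a section. -/
noncomputable def Qc (M : QCoh X0) (a : X0.Tot) (m : Sec M oo) : Sec (M ⊗ O) a :=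
  (exists_PQ M a m).choose.2

lemma PQ_spec (M : QCoh X0) (a : X0.Tot) (m : Sec M oo) :
    θE M a (Pc M a m) + ωE a.ring • θE M a (Qc M a m) = rz M (aE a) m :=
  (exists_PQ M a m).choose_spec

lemma PQ_unique (M : QCoh X0) (a : X0.Tot) (m : Sec M oo) {w₁ w₂ : Sec (M ⊗ O) a}
    (h : θE M a w₁ + ωE a.ring • θE M a w₂ = rz M (aE a) m) :
    w₁ = Pc M a m ∧ w₂ = Qc M a m :=
  θE_ext M a (h.trans (PQ_spec M a m).symm)

lemma PQ_add (M : QCoh X0) (a : X0.Tot) (m m' : Sec M oo) :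
    Pc M a (m + m') = Pc M a m + Pc M a m' ∧ Qc M a (m + m') = Qc M a m + Qc M a m' := by
  have h := PQ_unique M a (m + m') (w₁ := Pc M a m + Pc M a m') (w₂ := Qc M a m + Qc M a m') (by
    rw [map_add, map_add, map_add, smul_add, ← PQ_spec, ← PQ_spec]
    abel)
  exact ⟨h.1.symm, h.2.symm⟩

lemma PQ_smul (M : QCoh X0) (a : X0.Tot) (r : oo.ring) (m : Sec M oo) :
    Pc M a (r • m) = (a.pt.hom r) • Pc M a m ∧ Qc M a (r • m) = (a.pt.hom r) • Qc M a m := by
  have h := PQ_unique M a (r • m) (w₁ := (a.pt.hom r) • Pc M a m)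
      (w₂ := (a.pt.hom r) • Qc M a m) (by
    rw [map_smulₛₗ, map_smulₛₗ, map_smulₛₗ, ← PQ_spec, smul_comm, ← smul_add]
    rfl)
  exact ⟨h.1.symm, h.2.symm⟩

lemma PQ_res {a a' : X0.Tot} (φ : a' ⟶ a) (x : a'.ring) (hx : φ.2.1 = Gp.mk _ (x, 0))
    (M : QCoh X0) (m : Sec M oo) :
    Pc M a' m = res (M ⊗ O) φ (Pc M a m) + x • res (M ⊗ O) φ (Qc M a m) ∧
      Qc M a' m = res (M ⊗ O) φ (Qc M a m) := by
  have h := PQ_unique M a' m (w₁ := res (M ⊗ O) φ (Pc M a m) + x • res (M ⊗ O) φ (Qc M a m))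
      (w₂ := res (M ⊗ O) φ (Qc M a m)) (by
    have h1 := congrArg (res M (sgE φ x)) (PQ_spec M a m)
    have h2 : res M (sgE φ x) (rz M (aE a) m) = rz M (aE a') m := by
      rw [← res_comp, sgE_can]
    have h3 : res M (sgE φ x) (ωE a.ring • θE M a (Qc M a m)) =
        (ωE a'.ring + inE a'.ring x) • res M (sgE φ x) (θE M a (Qc M a m)) := by
      have h4 : ωE a.ring • θE M a (Qc M a m) = (ωE a.ring : (aE a).ring) •
        θE M a (Qc M a m) := rfl
      rw [h4, map_smulₛₗ]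
      congr 1
      exact sigmaE_ωE φ.1.hom (add_self_of a'.pt) x
    rw [map_add, h3, h2, ← θE_natural φ x hx, ← θE_natural φ x hx] at h1
    rw [← h1, map_add, map_smulₛₗ, add_smul]
    abel)
  exact ⟨h.1.symm, h.2.symm⟩

lemma PQ_map {M N : QCoh X0} (f : M ⟶ N) (a : X0.Tot) (m : Sec M oo) :
    Pc N a (sec f oo m) = sec (f ▷ O) a (Pc M a m) ∧
      Qc N a (sec f oo m) = sec (f ▷ O) a (Qc M a m) := by
  have hθ : ∀ w : Sec (M ⊗ O) a, θE N a (sec (f ▷ O) a w) = sec f (aE a) (θE M a w) := by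
    intro w
    induction w using sec_induction with
    | zero => rw [map_zero, map_zero, map_zero, map_zero]
    | tmul m p =>
      obtain ⟨p, rfl⟩ := (sO a).surjective p
      rw [sec_whiskerRight, θE_tm, θE_tm, ← sec_res]
      exact ((sec f (aE a)).map_smul _ _).symm
    | add x y hx hy => rw [map_add, map_add, hx, hy, map_add, map_add]
  have h := PQ_unique N a (sec f oo m) (w₁ := sec (f ▷ O) a (Pc M a m))
      (w₂ := sec (f ▷ O) a (Qc M a m)) (by
    rw [hθ, hθ, ← sec_res, ← PQ_spec, map_add]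
    congr 1
    exact ((sec f (aE a)).map_smul _ _).symm)
  exact ⟨h.1.symm, h.2.symm⟩

/-- The object over a ring over a given one. -/
noncomputable abbrev ovr (a : X0.Tot) {A' : CommRingCat.{0}} (f : a.ring ⟶ A') : X0.Tot := ⟨A', a.pt ≫ f⟩

/-- The arrow with trivial group element. -/
noncomputable abbrev ovrArr (a : X0.Tot) {A' : CommRingCat.{0}} (f : a.ring ⟶ A')  : ovr a f ⟶ a :=
  ⟨f, ⟨0, rfl⟩⟩

lemma res_injective (M : QCoh X0) {a a' : X0.Tot} (φ : a' ⟶ a)
    (hφ : @Module.FaithfullyFlat a.ring a'.ring _ _ φ.1.hom.toAlgebra.toModule) :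
    Function.Injective (res M φ) := by
  let := φ.1.hom.toAlgebra
  exact Univ.injective_of_faithfullyFlat (A := a.ring) (B := a'.ring) rfl (res_univ M φ)

/-- Locally every element of the group is of the form `(x, 0)`. -/
lemma exists_cover (a : X0.Tot) (g : Gp a.pt) : ∃ (A' : CommRingCat.{0}) (f : a.ring ⟶ A')
    (_ : @Module.FaithfullyFlat a.ring A' _ _ f.hom.toAlgebra.toModule) (x : A'),
    Gp.map f rfl g = Gp.mk (a.pt ≫ f) (x, 0) := by
  have h2 : (2 : a.ring) = 0 := two_of (b := base₀) a.pt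
  induction g using Gp.ind with
  | h v =>
    have hc := quadMap_isEtaleCovering h2 (tz a.pt) v.2
    let f := quadMap (tz a.pt) v.2
    let r := quadRoot (tz a.pt) v.2
    refine ⟨_, f, ?_, f.hom v.1 + f.hom (tz a.pt) * r, ?_⟩
    · let := f.hom.toAlgebra
      have : Algebra.Etale a.ring (quadRing (tz a.pt) v.2) := quadMap_etale h2 (tz a.pt) v.2
      have : Module.Flat a.ring (quadRing (tz a.pt) v.2) := Algebra.Smooth.flat a.ring _
      apply Module.FaithfullyFlat.of_comap_surjective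
      intro p
      obtain ⟨_, q, hq⟩ := hc.surj p
      exact ⟨q, hq⟩
    · have hr := quadRoot_spec (tz a.pt) v.2
      rw [Gp.map_mk, Gp.mk_eq_mk]
      refine ⟨r, ?_⟩
      have h3 := add_self_of (a.pt ≫ f)
      ext : 1
      · rw [rel_fst]
        change f.hom (tz a.pt) * r = f.hom v.1 - (f.hom v.1 + f.hom (tz a.pt) * r)
        linear_combination h3 (f.hom (tz a.pt) * r)
      · rw [rel_snd]
        change f.hom (tz a.pt) * r ^ 2 + r = f.hom v.2 - 0
        linear_combination hr - h3 (f.hom v.2)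

lemma PQ_ovr (M : QCoh X0) (a : X0.Tot) {A' : CommRingCat.{0}} (f : a.ring ⟶ A')
    (m : Sec M oo) :
    Pc M (ovr a f) m = res (M ⊗ O) (ovrArr a f) (Pc M a m) ∧
      Qc M (ovr a f) m = res (M ⊗ O) (ovrArr a f) (Qc M a m) := by
  have h := PQ_res (ovrArr a f) 0 (by
    change (0 : Gp (a.pt ≫ f)) = Gp.mk _ (0, 0)
    exact (map_zero (Gp.mk (a.pt ≫ f))).symm) M m
  rw [zero_smul, add_zero] at h
  exact h

lemma PQ_rz (M : QCoh X0) (a : X0.Tot) (m : Sec M oo) :
    Pc M a m = rz (M ⊗ O) a (Pc M oo m) ∧ Qc M a m = rz (M ⊗ O) a (Qc M oo m) := by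
  have h := PQ_res (can a 0) 0 (by
    change (0 : Gp a.pt) = Gp.mk _ (0, 0)
    exact (map_zero (Gp.mk a.pt)).symm) M m
  rw [zero_smul, add_zero] at h
  exact h

lemma exists_pow_of_localization (N : QCoh X0) (a : X0.Tot) [Algebra oo.ring a.ring]
    (h : algebraMap oo.ring a.ring = (can a 0).1.hom)
    (h' : IsLocalization.Away (base₀.t : oo.ring) a.ring)
    (m : Sec N oo) (hm : rz N a m = 0) : ∃ n : ℕ, base₀.t ^ n • m = 0 :=
  Univ.exists_pow_smul_eq_zero (A := oo.ring) (B := a.ring) base₀.t h (rz_univ N a) m hm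

/-- The section `q_m` is killed by a power of `t`. -/
lemma exists_pow_smul_Qc (M : QCoh X0) (m : Sec M oo) :
    ∃ n : ℕ, base₀.t ^ n • Qc M oo m = 0 := by
  let At := CommRingCat.of (Localization.Away (base₀.t : base₀.R))
  let f : base₀.R ⟶ At := CommRingCat.ofHom (algebraMap base₀.R (Localization.Away base₀.t))
  let a : X0.Tot := ⟨At, f⟩
  have hu : IsUnit (f.hom base₀.t) := IsLocalization.Away.algebraMap_isUnit base₀.t
  obtain ⟨v, hv⟩ := hu
  have h10 : Gp.mk (b := base₀) f (1, 0) = 0 := by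
    rw [Gp.mk_eq_zero]
    refine ⟨((v⁻¹ : (At)ˣ) : At), ?_⟩
    have h3 := add_self_of (b := base₀) (A := At) f
    have h4 : tz f = v := hv.symm
    ext : 1
    · rw [rel_fst, h4, Units.mul_inv]
    · rw [rel_snd, h4, pow_two, ← mul_assoc, Units.mul_inv, one_mul]
      exact h3 _
  have h1 := PQ_res (can a 0) 1 (by
    change (0 : Gp (b := base₀) f) = Gp.mk _ (1, 0)
    exact h10.symm) M m
  have h2 := PQ_rz M a m
  rw [one_smul] at h1
  have h5 : Qc M a m = 0 := by
    have h6 := h1.1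
    rw [← h1.2, ← h2.1] at h6
    exact left_eq_add.1 h6
  have h7 : rz (M ⊗ O) a (Qc M oo m) = 0 := by rw [← h2.2, h5]
  have hloc : IsLocalization.Away (base₀.t : base₀.R) (Localization.Away (base₀.t : base₀.R)) :=
    inferInstance
  exact @exists_pow_of_localization (M ⊗ O) a (inferInstanceAs
    (Algebra base₀.R (Localization.Away (base₀.t : base₀.R)))) rfl hloc _ h7

lemma res_Qc {a a' : X0.Tot} (φ : a' ⟶ a) (M : QCoh X0) (m : Sec M oo) :
    res (M ⊗ O) φ (Qc M a m) = Qc M a' m := by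
  obtain ⟨A'', f, hf, x, hx⟩ := exists_cover a' φ.2.1
  apply res_injective (M ⊗ O) (ovrArr a' f) hf
  rw [← (PQ_ovr M a' f m).2, ← res_comp]
  have h := PQ_res (ovrArr a' f ≫ φ) x (by
    change 0 + Gp.map f rfl φ.2.1 = _
    rw [zero_add, hx]) M m
  exact h.2.symm

lemma res_Pc {a a' : X0.Tot} (φ : a' ⟶ a) (M : QCoh X0) (m : Sec M oo) (n : ℕ)
    (hn : base₀.t ^ n • Qc M oo m = 0) (s : a'.ring)
    (hs : Ideal.Quotient.mk _ s = xG a'.pt n φ.2.1) :
    res (M ⊗ O) φ (Pc M a m) = Pc M a' m + s • Qc M a' m := by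
  obtain ⟨A'', f, hf, x, hx⟩ := exists_cover a' φ.2.1
  apply res_injective (M ⊗ O) (ovrArr a' f) hf
  have h := PQ_res (ovrArr a' f ≫ φ) x (by
    change 0 + Gp.map f rfl φ.2.1 = _
    rw [zero_add, hx]) M m
  rw [map_add, map_smulₛₗ, ← (PQ_ovr M a' f m).2, ← (PQ_ovr M a' f m).1, ← res_comp]
  have h1 := h.1
  rw [← h.2] at h1
  have hx' : Ideal.Quotient.mk (tI (a'.pt ≫ f) n) x = Ideal.Quotient.mk _ (f.hom s) := by
    have h3 : xG (a'.pt ≫ f) n (Gp.map f rfl φ.2.1) = Ideal.Quotient.mk _ (f.hom s) := by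
      rw [xG_map (z := a'.pt) f rfl, ← hs, qmap_mk]
    rw [← h3, hx, xG_mk]
    congr 1
    have h4 : artin n (tz (a'.pt ≫ f) * 0) = 0 := by
      rw [mul_zero, artin]
      exact Finset.sum_eq_zero fun i _ => zero_pow (by positivity)
    change x = x + artin n (tz (a'.pt ≫ f) * 0)
    rw [h4, add_zero]
  rw [quot_mk_eq] at hx'
  obtain ⟨d, hd⟩ := hx'
  have h5 : x • Qc M (ovr a' f) m = (f.hom s) • Qc M (ovr a' f) m := by
    rw [← sub_eq_zero, ← sub_smul, hd, mul_comm, mul_smul]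
    have h6 : tz (a'.pt ≫ f) ^ n • Qc M (ovr a' f) m = 0 := by
      rw [(PQ_rz M (ovr a' f) m).2]
      have h7 : tz (a'.pt ≫ f) ^ n • rz (M ⊗ O) (ovr a' f) (Qc M oo m) =
          rz (M ⊗ O) (ovr a' f) (base₀.t ^ n • Qc M oo m) := by
        rw [map_smulₛₗ, map_pow]
        rfl
      rw [h7, hn, map_zero]
    rw [h6, smul_zero]
  have h8 := sec_add_self ((f.hom s) • Qc M (ovr a' f) m)
  rw [h5] at h1
  have h9 : (ovrArr a' f).1.hom s • Qc M (ovr a' f) m = (f.hom s) • Qc M (ovr a' f) m := rfl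
  rw [h9]
  calc _ = Pc M (ovr a' f) m - (f.hom s) • Qc M (ovr a' f) m := by rw [h1]; abel
    _ = Pc M (ovr a' f) m - (f.hom s) • Qc M (ovr a' f) m +
      ((f.hom s) • Qc M (ovr a' f) m + (f.hom s) • Qc M (ovr a' f) m) := by rw [h8, add_zero]
    _ = _ := by abel

/-- The section `m` gives a morphism from `L n`. -/
lemma isL_PQ (M : QCoh X0) (m : Sec M oo) (n : ℕ) (hn : base₀.t ^ n • Qc M oo m = 0) :
    IsL (M ⊗ O) n (Pc M oo m) (Qc M oo m) where
  hq := hn
  inv_q a g := by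
    rw [res_Qc, res_Qc]
  inv_p a g s hs := by
    rw [res_Pc (can a g) M m n hn s hs, ← (PQ_rz M a m).1, ← (PQ_rz M a m).2]

end TannakaNil
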