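import Pool.Agent.Helper10.Tannaka.Cov

/-!
# The classifying stack is a stack
-/

open CategoryTheory Opposite Limits

universe u v

namespace TannakaNil

section LemmaB

variable {S : CommRingCat.{0}} {ι : Type} {B : ι → CommRingCat.{0}}

/-- The sieve generated by a family. -/
def famSieve (f : ∀ i, S ⟶ B i) : SpecSieve S where
  mem {Y} g := ∃ (i : ι) (p : B i ⟶ Y), f i ≫ p = g
  comp_mem := by
    rintro Y Z g h ⟨i, p, hp⟩
    exact ⟨i, p ≫ h, by rw [← Category.assoc, hp]⟩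

lemma famSieve_mem [Finite ι] {f : ∀ i, S ⟶ B i} (hf : IsEtaleCovering B f) :
    (famSieve f).IsCovering :=
  ⟨ι, inferInstance, B, f, hf, fun i => ⟨i, 𝟙 _, Category.comp_id _⟩⟩

lemma famSieve_le {f : ∀ i, S ⟶ B i} {R : SpecSieve S} (hR : ∀ i, R.mem (f i))
    {Y : CommRingCat.{0}} (g : S ⟶ Y) (hg : (famSieve f).mem g) : R.mem g := by
  obtain ⟨i, p, hp⟩ := hg
  rw [← hp]
  exact R.comp_mem _ _ (hR i)

variable {X : AffCat.{u, v}} (hX : X.IsFibredInGroupoids) (hglue : X.HomGlue) [Finite ι]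

include hX hglue in
/-- Effectivity can be checked on a covering family. -/
lemma effective_of_family {f : ∀ i, S ⟶ B i} (hf : IsEtaleCovering B f) {R : SpecSieve S}
    (hR : ∀ i, R.mem (f i)) (D : DescentDatum X R) (x : X.Obj S)
    (c : ∀ i, X.Hom (f i) (D.obj (f i) (hR i)) x)
    (hc : ∀ i j {C : CommRingCat.{0}} (p : B i ⟶ C) (q : B j ⟶ C) (k : S ⟶ C)
      (e₁ : f i ≫ p = k) (e₂ : f j ≫ q = k) (hk : R.mem k),
      X.comp e₁ (D.map e₁ (hR i) hk) (c i) = X.comp e₂ (D.map e₂ (hR j) hk) (c j)) :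
    ∃ (c : ∀ {B : CommRingCat.{0}} (f : S ⟶ B) (hf : R.mem f), X.Hom f (D.obj f hf) x),
      ∀ {B C : CommRingCat.{0}} {f : S ⟶ B} {g : B ⟶ C} {k : S ⟶ C} (h : f ≫ g = k)
        (hf : R.mem f) (hk : R.mem k), X.comp h (D.map h hf hk) (c f hf) = c k hk := by
  have ex : ∀ {C : CommRingCat.{0}} (k : S ⟶ C) (hk : (famSieve f).mem k),
      ∃ (i : ι) (p : B i ⟶ C), f i ≫ p = k := fun {C} k hk => hk
  choose i p hp using @ex
  refine extend_solution hX hglue (famSieve_le hR) (famSieve_mem hf) D x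
    (fun {C} k hk => X.comp (hp k hk) (D.map (hp k hk) (hR _) (famSieve_le hR _ hk)) (c (i k hk)))
    ?_
  intro C C' k g l e hk hl
  subst e
  rw [← X.assoc (h₂ := (rfl : p k hk ≫ g = p k hk ≫ g)) (h₃ := rfl)
    (h₄ := by rw [← Category.assoc, hp k hk]),
    ← D.map_comp (hp k hk) rfl rfl (by rw [← Category.assoc, hp k hk]) (hR _)]
  exact hc _ _ _ _ _ _ _ _

end LemmaB

variable (b : Base)

lemma bg_homGlue : (bg b).HomGlue := by
  intro A B f x y R hR ψ hψ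
  obtain ⟨ι, hι, Bi, c, hc, hcR⟩ := hR
  -- the elements of `G`
  let G {C : CommRingCat.{0}} (g : B ⟶ C) (hg : R.mem g) : Gp (x ≫ g) :=
    (ψ g hg (x ≫ g) ⟨0, rfl⟩).1
  have hψ2 : ∀ {C D : CommRingCat.{0}} (g : B ⟶ C) (h : C ⟶ D) (hg : R.mem g)
      (k : B ⟶ D) (e : g ≫ h = k)
      (hk : R.mem k) (w : (bg b).Obj C) (w' : (bg b).Obj D) (φ : (bg b).Hom g w x)
      (χ : (bg b).Hom h w' w),
      ψ k hk w' ((bg b).comp e χ φ) = (bg b).comp (by rw [Category.assoc, e]) χ (ψ g hg w φ) := by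
    intro C D g h hg k e hk w w' φ χ
    subst e
    exact hψ g h hg hk w w' φ χ
  have hG : ∀ {C D : CommRingCat.{0}} (g : B ⟶ C) (h : C ⟶ D) (hg : R.mem g)
      (k : B ⟶ D) (e : g ≫ h = k) (hk : R.mem k) (e' : (x ≫ g) ≫ h = x ≫ k),
      G k hk = Gp.map h e' (G g hg) := by
    intro C D g h hg k e hk e'
    have h1 := congrArg Subtype.val (hψ2 g h hg k e hk (x ≫ g) (x ≫ k) ⟨0, rfl⟩ ⟨0, e'⟩)
    have h2 : (ψ k hk (x ≫ k) ((bg b).comp e ⟨0, e'⟩ ⟨0, rfl⟩)).1 =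
        0 + Gp.map h e' (G g hg) := h1
    rw [zero_add] at h2
    rw [← h2]
    have h3 : ((bg b).comp e (⟨0, e'⟩ : (bg b).Hom h (x ≫ k) (x ≫ g)) ⟨0, rfl⟩ :
      (bg b).Hom k (x ≫ k) x) = ⟨0, rfl⟩ := by
      apply Subtype.ext
      change 0 + Gp.map h _ 0 = 0
      rw [map_zero, add_zero]
    rw [h3]
  have hψG : ∀ {C : CommRingCat.{0}} (g : B ⟶ C) (hg : R.mem g) (w : (bg b).Obj C)
      (φ : (bg b).Hom g w x),
      (ψ g hg w φ).1 = φ.1 + Gp.map (𝟙 C) ((Category.comp_id _).trans φ.2) (G g hg) := by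
    intro C g hg w φ
    have h1 := congrArg Subtype.val (hψ2 g (𝟙 C) hg g (Category.comp_id g) hg (x ≫ g) w ⟨0, rfl⟩
      ⟨φ.1, (Category.comp_id _).trans φ.2⟩)
    refine Eq.trans ?_ h1
    congr 2
    apply Subtype.ext
    change φ.1 = φ.1 + Gp.map (𝟙 C) _ 0
    rw [map_zero, add_zero]
  -- the objects
  have hyx : y ≫ f = x := by
    apply hc.hom_ext
    intro i
    rw [Category.assoc]
    exact (ψ (c i) (hcR i) (x ≫ c i) ⟨0, rfl⟩).2
  obtain ⟨g₀, hg₀⟩ := hc.gp_glue (z := x) (fun i => G (c i) (hcR i)) (by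
    intro i j C p q e z' h₁ h₂
    have hk : R.mem (c i ≫ p) := by
      exact R.comp_mem _ _ (hcR i)
    have e1 := hG (c i) p (hcR i) (c i ≫ p) rfl hk (Category.assoc _ _ _)
    have e2 := hG (c j) q (hcR j) (c i ≫ p) e.symm hk (by rw [Category.assoc, e])
    have hz' : z' = x ≫ (c i ≫ p) := by rw [← h₁, Category.assoc]
    subst hz'
    exact e1.symm.trans e2)
  have hgen : ∀ {C : CommRingCat.{0}} (g : B ⟶ C) (hg : R.mem g),
      Gp.map g rfl g₀ = G g hg := by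
    intro C g hg
    apply (hc.pushout g).gp_ext
    intro i
    have hk : R.mem (g ≫ pushout.inr (c i) g) := by
      exact R.comp_mem _ _ hg
    have e1 := hG g (pushout.inr (c i) g) hg (g ≫ pushout.inr (c i) g) rfl hk
      (Category.assoc _ _ _)
    have e2 := hG (c i) (pushout.inl (c i) g) (hcR i) (g ≫ pushout.inr (c i) g)
      pushout.condition hk (by rw [Category.assoc, pushout.condition])
    have e3 : ∀ (z' : b.R ⟶ (pushout (c i) g : CommRingCat.{0}))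
        (h₁ : (x ≫ g) ≫ pushout.inr (c i) g = z')
        (h₂ : z' = x ≫ (g ≫ pushout.inr (c i) g)),
        Gp.map (pushout.inr (c i) g) h₁ (Gp.map g rfl g₀) =
          Gp.map (pushout.inr (c i) g) h₁ (G g hg) := by
      intro z' h₁ h₂
      subst h₂
      rw [← e1, e2, ← hg₀ i, Gp.map_map (k := g ≫ pushout.inr (c i) g) (hk := rfl) (e := rfl),
        Gp.map_map (k := g ≫ pushout.inr (c i) g) (hk := rfl) (e := pushout.condition)]
    exact e3 _ rfl (Category.assoc _ _ _)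
  refine ⟨⟨g₀, hyx⟩, ?_, ?_⟩
  · intro C g hg w φ
    apply Subtype.ext
    rw [hψG]
    change φ.1 + Gp.map g _ g₀ = _
    congr 1
    rw [← hgen g hg, Gp.map_map (k := g) (hk := φ.2) (e := Category.comp_id g)]
  · rintro ⟨g₁, hg₁'⟩ hg₁
    apply Subtype.ext
    apply hc.gp_ext
    intro i
    have h1 := congrArg Subtype.val (hg₁ (c i) (hcR i) (x ≫ c i) ⟨0, rfl⟩)
    have h2 : 0 + Gp.map (c i) rfl g₁ = G (c i) (hcR i) := h1
    rw [zero_add] at h2
    exact h2.trans (hg₀ i).symm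

lemma Gp.map_one_injective {b : Base} {C : CommRingCat.{0}} {z z' : b.R ⟶ C}
    (h : z ≫ 𝟙 C = z') : Function.Injective (Gp.map (𝟙 C) h) := by
  intro g g' e
  have h2 : z' ≫ 𝟙 C = z := by rw [← h, Category.comp_id, Category.comp_id]
  have h1 := congrArg (Gp.map (𝟙 C) h2) e
  rw [Gp.map_map (k := 𝟙 C) (hk := Category.comp_id z) (e := Category.comp_id _),
    Gp.map_map (k := 𝟙 C) (hk := Category.comp_id z) (e := Category.comp_id _), Gp.map_id,
    Gp.map_id] at h1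
  exact h1

lemma bg_effective {S : CommRingCat.{0}} (R : SpecSieve S) (hR : R.IsCovering)
    (D : DescentDatum (bg b) R) : ∃ (x : (bg b).Obj S)
      (c : ∀ {B : CommRingCat.{0}} (f : S ⟶ B) (hf : R.mem f),
        (bg b).Hom f (D.obj f hf) x),
      ∀ {B C : CommRingCat.{0}} {f : S ⟶ B} {g : B ⟶ C} {k : S ⟶ C} (h : f ≫ g = k)
        (hf : R.mem f) (hk : R.mem k),
        (bg b).comp h (D.map h hf hk) (c f hf) = c k hk := by
  obtain ⟨ι, hι, Bi, c, hc, hcR⟩ := hR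
  -- the objects glue
  obtain ⟨x, hx⟩ := hc.hom_glue (R := b.R) (fun i => D.obj (c i) (hcR i)) (by
    intro i j C p q e
    have hk : R.mem (c i ≫ p) := by
      exact R.comp_mem _ _ (hcR i)
    exact (D.map rfl (hcR i) hk).2.trans (D.map e.symm (hcR j) hk).2.symm)
  have hxk : ∀ {C : CommRingCat.{0}} (i : ι) (p : Bi i ⟶ C) (k : S ⟶ C) (_ : c i ≫ p = k)
      (hk : R.mem k), D.obj k hk = x ≫ k := by
    intro C i p k e hk
    rw [← (D.map e (hcR i) hk).2, ← hx i, Category.assoc, e]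
  have hRk : ∀ {C : CommRingCat.{0}} (i : ι) (p : Bi i ⟶ C) (k : S ⟶ C) (_ : c i ≫ p = k),
      R.mem k := by
    intro C i p k e
    rw [← e]
    exact R.comp_mem _ _ (hcR i)
  -- the element attached to an arrow
  let m {C : CommRingCat.{0}} (i : ι) (p : Bi i ⟶ C) (k : S ⟶ C) (e : c i ≫ p = k) :
      Gp (x ≫ k) :=
    Gp.map (𝟙 C) ((Category.comp_id _).trans (hxk i p k e (hRk i p k e)))
      (D.map e (hcR i) (hRk i p k e)).1
  have hm1 : ∀ {C C' : CommRingCat.{0}} (i : ι) (p : Bi i ⟶ C) (k : S ⟶ C)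
      (e : c i ≫ p = k) (hk : R.mem k) (r : C ⟶ C') (k' : S ⟶ C') (hk' : R.mem k')
      (p' : Bi i ⟶ C') (_ : p ≫ r = p') (e' : c i ≫ p' = k') (ek : k ≫ r = k')
      (ez : (x ≫ k) ≫ r = x ≫ k') (e1 : D.obj k' hk' ≫ 𝟙 C' = x ≫ k'),
      m i p' k' e' = Gp.map (𝟙 C') e1 (D.map ek hk hk').1 + Gp.map r ez (m i p k e) := by
    intro C C' i p k e hk r k' hk' p' ep e' ek ez e1
    have h1 := congrArg Subtype.val (D.map_comp e ek ep e' (hcR i) hk hk')
    have h2 : (D.map e' (hcR i) hk').1 = (D.map ek hk hk').1 +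
      Gp.map r (D.map ek hk hk').2 (D.map e (hcR i) hk).1 := h1
    change Gp.map (𝟙 C') _ (D.map e' (hcR i) hk').1 = _ + Gp.map r ez (Gp.map (𝟙 C) _
      (D.map e (hcR i) hk).1)
    rw [h2, map_add]
    congr 1
    rw [Gp.map_map (k := r) (e := Category.comp_id r)
      (hk := by rw [← ez, hxk i p k e hk]),
      Gp.map_map (k := r) (e := Category.id_comp r)]
  obtain ⟨g₀, hg₀⟩ := hc.gp_coboundary (z := x)
    (fun i j {C} p q k e₁ e₂ => m i p k e₁ - m j q k e₂) (by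
      intro i j C C' p q k e₁ e₂ r k' p' q' ep eq e₁' e₂' e
      have hk := hRk i p k e₁
      have hk' := hRk i p' k' e₁'
      have ek : k ≫ r = k' := by rw [← e₁, Category.assoc, ep, e₁']
      have e1 : D.obj k' hk' ≫ 𝟙 C' = x ≫ k' :=
        (Category.comp_id _).trans (hxk i p' k' e₁' hk')
      rw [map_sub, hm1 i p k e₁ hk r k' hk' p' ep e₁' ek e e1,
        hm1 j q k e₂ hk r k' hk' q' eq e₂' ek e e1]
      abel) (by
      intro i j l C p q r k e₁ e₂ e₃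
      abel)
  refine ⟨x, effective_of_family (bg_isFibredInGroupoids b) (bg_homGlue b) hc hcR D x
    (fun i => ⟨Gp.map (𝟙 _) ((Category.comp_id _).trans (hx i)) (g₀ i), hx i⟩) ?_⟩
  intro i j C p q k e₁ e₂ hk
  apply Subtype.ext
  have ez₁ : (x ≫ c i) ≫ p = x ≫ k := by rw [Category.assoc, e₁]
  have ez₂ : (x ≫ c j) ≫ q = x ≫ k := by rw [Category.assoc, e₂]
  have h1 := hg₀ i j p q k e₁ e₂ ez₁ ez₂
  have h2 : m i p k e₁ + Gp.map p ez₁ (g₀ i) = m j q k e₂ + Gp.map q ez₂ (g₀ j) := by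
    rw [sub_eq_sub_iff_add_eq_add] at h1
    rw [add_comm (m j q k e₂), h1]
  have e1 : D.obj k hk ≫ 𝟙 C = x ≫ k := (Category.comp_id _).trans (hxk i p k e₁ hk)
  apply Gp.map_one_injective e1
  change Gp.map (𝟙 C) e1 ((D.map e₁ (hcR i) hk).1 + Gp.map p _ (Gp.map (𝟙 _) _ (g₀ i))) =
    Gp.map (𝟙 C) e1 ((D.map e₂ (hcR j) hk).1 + Gp.map q _ (Gp.map (𝟙 _) _ (g₀ j)))
  rw [map_add, map_add]
  refine Eq.trans ?_ (h2.trans ?_)
  · congr 1
    rw [Gp.map_map (k := p) (e := Category.id_comp p)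
      (hk := by rw [ez₁, ← hxk i p k e₁ hk]),
      Gp.map_map (k := p) (e := Category.comp_id p)]
  · congr 1
    rw [Gp.map_map (k := q) (e := Category.id_comp q)
      (hk := by rw [ez₂, ← hxk i p k e₁ hk]),
      Gp.map_map (k := q) (e := Category.comp_id q)]

/-- The classifying stack is a stack. -/
lemma bg_isStack : (bg b).IsStack where
  groupoids := bg_isFibredInGroupoids b
  hom_glue := bg_homGlue b
  effective := bg_effective b

end TannakaNil
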