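import Pool.Agent.Helper10.Tannaka.Quad
import Pool.Agent.Helper10.Tannaka.Stack

/-!
# The diagonal and the atlas of the classifying stack `BG`
-/

open CategoryTheory Opposite Limits AlgebraicGeometry

namespace TannakaNil.GeomBG

open Base

variable {b : Base}

section

variable {S S' : CommRingCat.{0}} {x : b.R ⟶ S} {y : b.R ⟶ S'} {A B : CommRingCat.{0}}

/-- the structure map of the apex of a span -/
def wS (s : Span (bg b) x y A) : b.R ⟶ A := s.w

/-- the difference of the two arrows of a span -/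
def aS (s : Span (bg b) x y A) : Gp (wS s) := s.α.1

/-- the difference of the two arrows of a span -/
def bS (s : Span (bg b) x y A) : Gp (wS s) := s.β.1

/-- Restriction of spans in `BG`. -/
lemma bg_isRestr_iff (h : A ⟶ B) (s : Span (bg b) x y A) (s' : Span (bg b) x y B) :
    s.IsRestr h s' ↔ ∃ (ew : wS s ≫ h = wS s'), s.f ≫ h = s'.f ∧ s.g ≫ h = s'.g ∧
      Gp.map h ew (aS s + bS s) = aS s' + bS s' := by
  constructor
  · rintro ⟨m, e₁, e₂, h₁, h₂⟩
    have hm : wS s ≫ h = wS s' := m.2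
    refine ⟨hm, e₁, e₂, ?_⟩
    let μ : Gp (wS s') := m.1
    have h₁' : μ + Gp.map h hm (aS s) = aS s' := congrArg Subtype.val h₁
    have h₂' : μ + Gp.map h hm (bS s) = bS s' := congrArg Subtype.val h₂
    rw [← h₁', ← h₂', _root_.map_add]
    have : μ + Gp.map h hm (aS s) + (μ + Gp.map h hm (bS s)) =
      (μ + μ) + (Gp.map h hm (aS s) + Gp.map h hm (bS s)) := by abel
    rw [this, Gp.add_self, zero_add]
  · rintro ⟨ew, e₁, e₂, h₁⟩
    refine ⟨⟨aS s' + Gp.map h ew (aS s), ew⟩, e₁, e₂, ?_, ?_⟩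
    · apply Subtype.ext
      change aS s' + Gp.map h ew (aS s) + Gp.map h ew (aS s) = aS s'
      rw [add_assoc, Gp.add_self, add_zero]
    · apply Subtype.ext
      change aS s' + Gp.map h ew (aS s) + Gp.map h ew (bS s) = bS s'
      rw [add_assoc, ← _root_.map_add, h₁, ← add_assoc, Gp.add_self, zero_add]

lemma isRestr_mk_iff (h : A ⟶ B) (s : Span (bg b) x y A) (s' : Span (bg b) x y B)
    {v : A × A} {v' : B × B} (hs : aS s + bS s = Gp.mk (wS s) v)
    (hs' : aS s' + bS s' = Gp.mk (wS s') v') :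
    s.IsRestr h s' ↔ ∃ (_ : wS s ≫ h = wS s'), s.f ≫ h = s'.f ∧ s.g ≫ h = s'.g ∧
      ∃ c : B, rel (wS s') c = (h.hom v.1, h.hom v.2) - v' := by
  rw [bg_isRestr_iff, hs, hs']
  constructor
  · rintro ⟨ew, e₁, e₂, h₁⟩
    exact ⟨ew, e₁, e₂, Gp.mk_eq_mk.1 h₁⟩
  · rintro ⟨ew, e₁, e₂, h₁⟩
    exact ⟨ew, e₁, e₂, Gp.mk_eq_mk.2 h₁⟩

end

section

variable {S S' : CommRingCat.{0}} (x : b.R ⟶ S) (y : b.R ⟶ S')

/-- The ring `Q[v']`, where `Q = S ⊗ S'`. -/
noncomputable def pR : CommRingCat.{0} := CommRingCat.of (Polynomial (pushout x y : CommRingCat.{0}))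

/-- `Q ⟶ Q[v']` -/
noncomputable def cP : (pushout x y : CommRingCat.{0}) ⟶ pR x y :=
  CommRingCat.ofHom Polynomial.C

/-- the variable `v'` -/
noncomputable def xP : pR x y := (Polynomial.X : Polynomial (pushout x y : CommRingCat.{0}))

/-- `S ⟶ Q[v']` -/
noncomputable def lP : S ⟶ pR x y := pushout.inl x y ≫ cP x y
/-- `S' ⟶ Q[v']` -/
noncomputable def rP : S' ⟶ pR x y := pushout.inr x y ≫ cP x y

lemma cond_P : x ≫ lP x y = y ≫ rP x y := by
  rw [lP, rP, ← Category.assoc, ← Category.assoc, pushout.condition]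

variable {x y}

lemma pR_hom_ext {A : CommRingCat.{0}} {f g : pR x y ⟶ A} (h₁ : lP x y ≫ f = lP x y ≫ g)
    (h₂ : rP x y ≫ f = rP x y ≫ g) (h₃ : f.hom (xP x y) = g.hom (xP x y)) : f = g := by
  have h : cP x y ≫ f = cP x y ≫ g := by
    apply pushout.hom_ext
    · rw [← Category.assoc, ← Category.assoc]
      exact h₁
    · rw [← Category.assoc, ← Category.assoc]
      exact h₂
  have h' : f.hom = g.hom := by
    apply Polynomial.ringHom_ext
    · intro a
      exact ConcreteCategory.congr_hom h a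
    · exact h₃
  exact CommRingCat.hom_ext h'

variable (x y) in
/-- Maps out of `Q[v']`. -/
noncomputable def pLift {A : CommRingCat.{0}} (f : S ⟶ A) (g : S' ⟶ A) (e : x ≫ f = y ≫ g)
    (a : A) : pR x y ⟶ A :=
  CommRingCat.ofHom (Polynomial.eval₂RingHom (pushout.desc f g e).hom a)

@[reassoc (attr := simp)] lemma lP_pLift {A : CommRingCat.{0}} (f : S ⟶ A) (g : S' ⟶ A)
    (e : x ≫ f = y ≫ g) (a : A) : lP x y ≫ pLift x y f g e a = f := by
  have : cP x y ≫ pLift x y f g e a = pushout.desc f g e := by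
    apply CommRingCat.hom_ext
    apply RingHom.ext
    intro c
    exact Polynomial.eval₂_C _ _
  rw [lP, Category.assoc, this, pushout.inl_desc]

@[reassoc (attr := simp)] lemma rP_pLift {A : CommRingCat.{0}} (f : S ⟶ A) (g : S' ⟶ A)
    (e : x ≫ f = y ≫ g) (a : A) : rP x y ≫ pLift x y f g e a = g := by
  have : cP x y ≫ pLift x y f g e a = pushout.desc f g e := by
    apply CommRingCat.hom_ext
    apply RingHom.ext
    intro c
    exact Polynomial.eval₂_C _ _
  rw [rP, Category.assoc, this, pushout.inr_desc]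

@[simp] lemma pLift_xP {A : CommRingCat.{0}} (f : S ⟶ A) (g : S' ⟶ A)
    (e : x ≫ f = y ≫ g) (a : A) : (pLift x y f g e a).hom (xP x y) = a :=
  Polynomial.eval₂_X _ _

variable (x y) in
/-- the structure map of `Q[v']` -/
noncomputable def zP : b.R ⟶ pR x y := x ≫ lP x y

variable (x y) in
/-- the ring `Q[v'][v] / (t v² + v)` -/
noncomputable abbrev wR : CommRingCat.{0} := quadRing ((zP x y).hom b.t) (0 : pR x y)

variable (x y) in
/-- the first projection -/
noncomputable abbrev prR : pR x y ⟶ wR x y := quadMap ((zP x y).hom b.t) (0 : pR x y)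

variable (x y) in
/-- the variable `v` -/
noncomputable abbrev vR : wR x y := quadRoot ((zP x y).hom b.t) (0 : pR x y)

lemma vR_spec : (zP x y ≫ prR x y).hom b.t * (vR x y) ^ 2 + vR x y = 0 := by
  have := quadRoot_spec ((zP x y).hom b.t) (0 : pR x y)
  rw [map_zero, add_zero] at this
  exact this

variable (x y) in
/-- the second projection -/
noncomputable def qrR : pR x y ⟶ wR x y :=
  pLift x y (lP x y ≫ prR x y) (rP x y ≫ prR x y) (by
    rw [← Category.assoc, ← Category.assoc, cond_P]) ((prR x y).hom (xP x y) +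
      ((zP x y ≫ prR x y).hom b.t + (zP x y ≫ prR x y).hom b.e) * vR x y)

lemma zP_qrR : zP x y ≫ qrR x y = zP x y ≫ prR x y := by
  rw [zP, Category.assoc, qrR, lP_pLift, Category.assoc]

lemma qrR_t : (qrR x y).hom ((zP x y).hom b.t) = (zP x y ≫ prR x y).hom b.t :=
  ConcreteCategory.congr_hom zP_qrR b.t

variable (x y) in
/-- the automorphism exchanging the two projections -/
noncomputable def swR : wR x y ⟶ wR x y :=
  quadLift _ _ (qrR x y) (vR x y) (by
    rw [map_zero, add_zero, qrR_t]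
    exact vR_spec)

lemma prR_swR : prR x y ≫ swR x y = qrR x y := quadMap_quadLift _ _ _ _ _

lemma swR_v : (swR x y).hom (vR x y) = vR x y := quadLift_root _ _ _ _ _

lemma swR_swR : swR x y ≫ swR x y = 𝟙 _ := by
  have hq : qrR x y ≫ swR x y = prR x y := by
    apply pR_hom_ext
    · rw [← Category.assoc, qrR, lP_pLift, Category.assoc, prR_swR, qrR, lP_pLift]
    · rw [← Category.assoc, qrR, rP_pLift, Category.assoc, prR_swR, qrR, rP_pLift]
    · have h1 : (qrR x y ≫ swR x y).hom (xP x y) = (swR x y).hom ((qrR x y).hom (xP x y)) := rfl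
      have h2 : (qrR x y).hom (xP x y) = (prR x y).hom (xP x y) +
          ((zP x y ≫ prR x y).hom b.t + (zP x y ≫ prR x y).hom b.e) * vR x y := pLift_xP _ _ _ _
      have h3 : ∀ a, (swR x y).hom ((prR x y).hom a) = (qrR x y).hom a := fun a =>
        ConcreteCategory.congr_hom prR_swR a
      have h4 : ∀ c, (swR x y).hom ((zP x y ≫ prR x y).hom c) = (zP x y ≫ prR x y).hom c := by
        intro c
        have : zP x y ≫ prR x y ≫ swR x y = zP x y ≫ prR x y := by rw [prR_swR, zP_qrR]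
        exact ConcreteCategory.congr_hom this c
      rw [h1, h2, map_add, map_mul, map_add, h3, h4, h4, swR_v, h2, add_assoc,
        add_self_of (zP x y ≫ prR x y), add_zero]
  apply quadRing_hom_ext
  · rw [← Category.assoc, prR_swR, hq, Category.comp_id]
  · change (swR x y).hom ((swR x y).hom (vR x y)) = vR x y
    rw [swR_v, swR_v]

instance : IsIso (swR x y) := ⟨swR x y, swR_swR, swR_swR⟩

lemma prR_etale : (prR x y).hom.Etale := quadMap_etale (two_of (zP x y)) _ _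

lemma qrR_etale : (qrR x y).hom.Etale := by
  rw [← prR_swR]
  exact RingHom.Etale.stableUnderComposition _ _ prR_etale
    (RingHom.Etale.of_bijective (ConcreteCategory.bijective_of_isIso (swR x y)))

variable (x y) in
/-- The point of `F` given by a map `Q[v'] ⟶ A`. -/
noncomputable def ptR {A : CommRingCat.{0}} (φ : pR x y ⟶ A) : Span (bg b) x y A where
  f := lP x y ≫ φ
  g := rP x y ≫ φ
  w := x ≫ lP x y ≫ φ
  α := ⟨0, rfl⟩
  β := ⟨Gp.mk _ (φ.hom (xP x y), 0), by
    rw [← Category.assoc, ← Category.assoc, cond_P]⟩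

lemma wS_ptR {A : CommRingCat.{0}} (φ : pR x y ⟶ A) : wS (ptR x y φ) = x ≫ lP x y ≫ φ := rfl

lemma dS_ptR {A : CommRingCat.{0}} (φ : pR x y ⟶ A) : aS (ptR x y φ) + bS (ptR x y φ) =
    Gp.mk (wS (ptR x y φ)) (φ.hom (xP x y), 0) := by
  have h1 : aS (ptR x y φ) = 0 := rfl
  have h2 : bS (ptR x y φ) = Gp.mk (wS (ptR x y φ)) (φ.hom (xP x y), 0) := rfl
  rw [h1, h2, zero_add]

lemma bgRel_unique {A : CommRingCat.{0}} (a b' : Spec A ⟶ Spec (pR x y))
    (h : (ptR x y (Spec.preimage a)).IsRestr (𝟙 A) (ptR x y (Spec.preimage b'))) :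
    ∃! r : Spec A ⟶ Spec (wR x y),
      r ≫ Spec.map (prR x y) = a ∧ r ≫ Spec.map (qrR x y) = b' := by
  revert h
  obtain ⟨φ, rfl⟩ : ∃ φ, a = Spec.map φ := ⟨Spec.preimage a, (Spec.map_preimage a).symm⟩
  obtain ⟨ψ, rfl⟩ : ∃ φ, b' = Spec.map φ := ⟨Spec.preimage b', (Spec.map_preimage b').symm⟩
  rw [Spec.preimage_map, Spec.preimage_map, isRestr_mk_iff _ _ _ (dS_ptR _) (dS_ptR _)]
  have h2 := add_self_of (zP x y ≫ φ)
  · rintro ⟨ew, e₁, e₂, c, hc⟩
    have e₁' : lP x y ≫ φ = lP x y ≫ ψ := by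
      have : (lP x y ≫ φ) ≫ 𝟙 A = lP x y ≫ ψ := e₁
      rwa [Category.comp_id] at this
    have e₂' : rP x y ≫ φ = rP x y ≫ ψ := by
      have : (rP x y ≫ φ) ≫ 𝟙 A = rP x y ≫ ψ := e₂
      rwa [Category.comp_id] at this
    have hw : x ≫ lP x y ≫ ψ = zP x y ≫ φ := by
      rw [← e₁', zP, Category.assoc]
    rw [wS_ptR, hw, rel_apply] at hc
    have hc1 : ((zP x y ≫ φ).hom b.t + (zP x y ≫ φ).hom b.e) * c =
        φ.hom (xP x y) - ψ.hom (xP x y) := by
      exact congrArg Prod.fst hc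
    have hc2 : (zP x y ≫ φ).hom b.t * c ^ 2 + c = 0 := by
      have := congrArg Prod.snd hc
      refine this.trans ?_
      change (𝟙 A : A ⟶ A).hom 0 - 0 = 0
      rw [map_zero, sub_zero]
    have hcr : φ.hom ((zP x y).hom b.t) * c ^ 2 + c + φ.hom (0 : pR x y) = 0 := by
      rw [map_zero, add_zero]
      exact hc2
    refine ⟨Spec.map (quadLift _ _ φ c hcr), ⟨?_, ?_⟩, ?_⟩
    · rw [← Spec.map_comp, quadMap_quadLift]
    · rw [← Spec.map_comp]
      congr 1
      apply pR_hom_ext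
      · rw [← Category.assoc, qrR, lP_pLift, Category.assoc, quadMap_quadLift, e₁']
      · rw [← Category.assoc, qrR, rP_pLift, Category.assoc, quadMap_quadLift, e₂']
      · have k1 : (qrR x y ≫ quadLift _ _ φ c hcr).hom (xP x y) =
          (quadLift _ _ φ c hcr).hom ((qrR x y).hom (xP x y)) := rfl
        have k2 : ∀ a, (quadLift _ _ φ c hcr).hom ((prR x y).hom a) = φ.hom a := fun a =>
          ConcreteCategory.congr_hom (quadMap_quadLift _ _ φ c hcr) a
        have k3 : ∀ r, (quadLift _ _ φ c hcr).hom ((zP x y ≫ prR x y).hom r) =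
          (zP x y ≫ φ).hom r := fun r => k2 _
        rw [k1, qrR, pLift_xP, map_add, map_mul, map_add, k2, k3, k3, quadLift_root, hc1]
        linear_combination h2 (φ.hom (xP x y)) - h2 (ψ.hom (xP x y))
    · rintro r ⟨hr1, hr2⟩
      obtain ⟨ρ, rfl⟩ : ∃ ρ, r = Spec.map ρ := ⟨Spec.preimage r, (Spec.map_preimage r).symm⟩
      rw [← Spec.map_comp] at hr1 hr2
      have hr1' := Spec.map_injective hr1
      have hr2' := Spec.map_injective hr2
      congr 1
      apply quadRing_hom_ext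
      · rw [hr1', quadMap_quadLift]
      · rw [quadLift_root]
        have k2 : ∀ a, ρ.hom ((prR x y).hom a) = φ.hom a := fun a =>
          ConcreteCategory.congr_hom hr1' a
        have k3 : ∀ r, ρ.hom ((zP x y ≫ prR x y).hom r) = (zP x y ≫ φ).hom r := fun r => k2 _
        have k4 := ConcreteCategory.congr_hom hr2' (xP x y)
        have k5 : (qrR x y ≫ ρ).hom (xP x y) = ρ.hom ((qrR x y).hom (xP x y)) := rfl
        have k6 : ρ.hom ((qrR x y).hom (xP x y)) = ψ.hom (xP x y) := k4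
        rw [qrR, pLift_xP, map_add, map_mul, map_add, k2, k3, k3] at k6
        have k7 := congrArg ρ.hom (vR_spec (x := x) (y := y))
        rw [map_add, map_mul, map_pow, map_zero, k3] at k7
        apply rel_injective (zP x y ≫ φ)
        rw [rel_apply, rel_apply]
        apply Prod.ext
        · change ((zP x y ≫ φ).hom b.t + (zP x y ≫ φ).hom b.e) * ρ.hom (vR x y) =
            ((zP x y ≫ φ).hom b.t + (zP x y ≫ φ).hom b.e) * c
          rw [hc1]
          linear_combination k6 + h2 (ψ.hom (xP x y)) - h2 (φ.hom (xP x y))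
        · change (zP x y ≫ φ).hom b.t * ρ.hom (vR x y) ^ 2 + ρ.hom (vR x y) =
            (zP x y ≫ φ).hom b.t * c ^ 2 + c
          rw [k7, hc2]

lemma bgRel_restr {A : CommRingCat.{0}} (a b' : Spec A ⟶ Spec (pR x y))
    (h : ∃ r : Spec A ⟶ Spec (wR x y),
      r ≫ Spec.map (prR x y) = a ∧ r ≫ Spec.map (qrR x y) = b') :
    (ptR x y (Spec.preimage a)).IsRestr (𝟙 A) (ptR x y (Spec.preimage b')) := by
  revert h
  obtain ⟨φ, rfl⟩ : ∃ φ, a = Spec.map φ := ⟨Spec.preimage a, (Spec.map_preimage a).symm⟩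
  obtain ⟨ψ, rfl⟩ : ∃ φ, b' = Spec.map φ := ⟨Spec.preimage b', (Spec.map_preimage b').symm⟩
  rw [Spec.preimage_map, Spec.preimage_map, isRestr_mk_iff _ _ _ (dS_ptR _) (dS_ptR _)]
  have h2 := add_self_of (zP x y ≫ φ)
  · rintro ⟨r, hr1, hr2⟩
    obtain ⟨ρ, rfl⟩ : ∃ ρ, r = Spec.map ρ := ⟨Spec.preimage r, (Spec.map_preimage r).symm⟩
    rw [← Spec.map_comp] at hr1 hr2
    have hr1' := Spec.map_injective hr1
    have hr2' := Spec.map_injective hr2
    subst hr1'
    subst hr2'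
    have f₁ : lP x y ≫ prR x y ≫ ρ = lP x y ≫ qrR x y ≫ ρ := by
      rw [← Category.assoc (lP x y) (qrR x y), qrR, lP_pLift, Category.assoc]
    have f₂ : rP x y ≫ prR x y ≫ ρ = rP x y ≫ qrR x y ≫ ρ := by
      rw [← Category.assoc (rP x y) (qrR x y), qrR, rP_pLift, Category.assoc]
    have ew : (x ≫ lP x y ≫ prR x y ≫ ρ) ≫ 𝟙 A = x ≫ lP x y ≫ qrR x y ≫ ρ := by
      rw [Category.comp_id, f₁]
    have hw : x ≫ lP x y ≫ qrR x y ≫ ρ = zP x y ≫ prR x y ≫ ρ := by
      rw [← f₁, zP, Category.assoc]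
    refine ⟨ew, ?_, ?_, ρ.hom (vR x y), ?_⟩
    · change (lP x y ≫ prR x y ≫ ρ) ≫ 𝟙 A = lP x y ≫ qrR x y ≫ ρ
      rw [Category.comp_id, f₁]
    · change (rP x y ≫ prR x y ≫ ρ) ≫ 𝟙 A = rP x y ≫ qrR x y ≫ ρ
      rw [Category.comp_id, f₂]
    · rw [wS_ptR, hw, rel_apply]
      have k6 : (qrR x y ≫ ρ).hom (xP x y) = (prR x y ≫ ρ).hom (xP x y) +
          ((zP x y ≫ prR x y ≫ ρ).hom b.t + (zP x y ≫ prR x y ≫ ρ).hom b.e) *
            ρ.hom (vR x y) := by
        change ρ.hom ((qrR x y).hom (xP x y)) = _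
        rw [qrR, pLift_xP, map_add, map_mul, map_add]
        rfl
      have k7 := congrArg ρ.hom (vR_spec (x := x) (y := y))
      rw [map_add, map_mul, map_pow, map_zero] at k7
      apply Prod.ext
      · change ((zP x y ≫ prR x y ≫ ρ).hom b.t + (zP x y ≫ prR x y ≫ ρ).hom b.e) *
          ρ.hom (vR x y) = (prR x y ≫ ρ).hom (xP x y) - (qrR x y ≫ ρ).hom (xP x y)
        rw [k6]
        linear_combination h2 (((zP x y ≫ prR x y ≫ ρ).hom b.t +
          (zP x y ≫ prR x y ≫ ρ).hom b.e) * ρ.hom (vR x y))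
      · change (zP x y ≫ prR x y ≫ ρ).hom b.t * ρ.hom (vR x y) ^ 2 + ρ.hom (vR x y) =
          (𝟙 A : A ⟶ A).hom 0 - 0
        rw [map_zero, sub_zero]
        exact k7

variable (x y) in
/-- The etale presentation of `Spec S ×_{BG} Spec S'`. -/
noncomputable def bgPres : EtalePresentation (bg b) x y where
  U := Spec (pR x y)
  W := Spec (wR x y)
  p := Spec.map (prR x y)
  q := Spec.map (qrR x y)
  etale_p := (HasRingHomProperty.Spec_iff (P := @Etale)).2 prR_etale
  etale_q := (HasRingHomProperty.Spec_iff (P := @Etale)).2 qrR_etale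
  pt a := ptR x y (Spec.preimage a)
  pt_restr {A B} h a := by
    obtain ⟨φ, rfl⟩ : ∃ φ, a = Spec.map φ := ⟨Spec.preimage a, (Spec.map_preimage a).symm⟩
    rw [← Spec.map_comp, Spec.preimage_map, Spec.preimage_map]
    rw [isRestr_mk_iff h _ _ (dS_ptR φ) (dS_ptR (φ ≫ h))]
    refine ⟨by simp [wS_ptR], by simp [ptR], by simp [ptR], 0, ?_⟩
    rw [map_zero, map_zero]
    exact (sub_self _).symm
  surj {A} s := by
    obtain ⟨f, g, w, ⟨α, hα⟩, ⟨β, hβ⟩⟩ := s
    change b.R ⟶ A at w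
    obtain ⟨⟨a, c⟩, hac⟩ := Gp.mk_surjective w (α + β)
    refine ⟨famSieve (fun _ : Unit => quadMap (w.hom b.t) c),
      famSieve_mem (quadMap_isEtaleCovering (two_of w) _ _), ?_⟩
    · rintro B h ⟨_, k, hk'⟩
      set v : B := k.hom (quadRoot (w.hom b.t) c) with hv
      have hvs : (w ≫ h).hom b.t * v ^ 2 + v + h.hom c = 0 := by
        have h1 := congrArg k.hom (quadRoot_spec (w.hom b.t) c)
        rw [map_add, map_add, map_mul, map_pow, map_zero, ← hv] at h1
        have h2 : ∀ z, k.hom ((quadMap (w.hom b.t) c).hom z) = h.hom z := fun z =>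
          ConcreteCategory.congr_hom hk' z
        rw [h2, h2] at h1
        exact h1
      have hfg : x ≫ f ≫ h = y ≫ g ≫ h := by
        rw [← Category.assoc, ← Category.assoc, hα, hβ]
      refine ⟨Spec.map (pLift x y (f ≫ h) (g ≫ h) hfg
        (h.hom a + ((w ≫ h).hom b.t + (w ≫ h).hom b.e) * v)), ?_⟩
      have hd : aS (⟨f, g, w, ⟨α, hα⟩, ⟨β, hβ⟩⟩ : Span (bg b) x y A) +
          bS (⟨f, g, w, ⟨α, hα⟩, ⟨β, hβ⟩⟩ : Span (bg b) x y A) = Gp.mk w (a, c) := hac.symm
      rw [Spec.preimage_map, isRestr_mk_iff _ _ _ hd (dS_ptR _)]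
      have ew : (w ≫ h : b.R ⟶ B) = wS (ptR x y (pLift x y (f ≫ h) (g ≫ h) hfg
          (h.hom a + ((w ≫ h).hom b.t + (w ≫ h).hom b.e) * v))) := by
        rw [wS_ptR, lP_pLift, ← Category.assoc, hα]
      refine ⟨ew, (lP_pLift _ _ _ _).symm, (rP_pLift _ _ _ _).symm, v, ?_⟩
      rw [← ew, pLift_xP, rel_apply]
      have h2 := add_self_of (w ≫ h)
      apply Prod.ext
      · change ((w ≫ h).hom b.t + (w ≫ h).hom b.e) * v =
          h.hom a - (h.hom a + ((w ≫ h).hom b.t + (w ≫ h).hom b.e) * v)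
        linear_combination h2 (((w ≫ h).hom b.t + (w ≫ h).hom b.e) * v)
      · change (w ≫ h).hom b.t * v ^ 2 + v = h.hom c - 0
        linear_combination hvs - h2 (h.hom c)
  mono {A} r r' h₁ h₂ :=
    (bgRel_unique (r' ≫ Spec.map (prR x y)) (r' ≫ Spec.map (qrR x y))
      (bgRel_restr _ _ ⟨r', rfl, rfl⟩)).unique ⟨h₁, h₂⟩ ⟨rfl, rfl⟩
  rel {A} a b' := ⟨fun h => (bgRel_unique a b' h).exists, bgRel_restr a b'⟩

end

theorem bg_diagonal (b : Base) {S S' : CommRingCat.{0}} (x : (bg b).Obj S) (y : (bg b).Obj S') :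
    Nonempty (EtalePresentation (bg b) x y) :=
  ⟨bgPres (b := b) x y⟩

theorem bg_diagonal_qcqs (b : Base) {S S' : CommRingCat.{0}} (x : (bg b).Obj S)
    (y : (bg b).Obj S') :
    ∃ E : EtalePresentation (bg b) x y, IsAffine E.U ∧ CompactSpace E.W :=
  ⟨bgPres (b := b) x y, inferInstanceAs (IsAffine (Spec (pR (b := b) x y))),
    inferInstanceAs (CompactSpace (Spec (wR (b := b) x y)))⟩

theorem bg_atlas_one (b : Base) {A : CommRingCat.{0}} (y : (bg b).Obj A) :
    ∃ (E : EtalePresentation (bg b) (show (bg b).Obj b.R from 𝟙 b.R) y) (π : E.U ⟶ Spec A),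
      Smooth π ∧
      (∀ {B : CommRingCat.{0}} (b' : Spec B ⟶ E.U), b' ≫ π = Spec.map (E.pt b').g) ∧
      ∀ a : Spec A, ∃ u : E.U, π u = a := by
  change b.R ⟶ A at y
  refine ⟨bgPres (𝟙 b.R) y, Spec.map (rP (𝟙 b.R) y), ?_, ?_, ?_⟩
  · refine (HasRingHomProperty.Spec_iff (P := @Smooth)).2 ?_
    have h1 : (cP (𝟙 b.R) y).hom.Smooth := by
      have : Algebra.Smooth (pushout (𝟙 b.R) y : CommRingCat.{0})
        (Polynomial (pushout (𝟙 b.R) y : CommRingCat.{0})) := {}
      exact RingHom.smooth_algebraMap.2 this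
    have h2 : (pushout.inr (𝟙 b.R) y).hom.Smooth :=
      RingHom.Smooth.of_bijective (ConcreteCategory.bijective_of_isIso (pushout.inr (𝟙 b.R) y))
    exact RingHom.Smooth.stableUnderComposition _ _ h2 h1
  · intro B b'
    obtain ⟨φ, rfl⟩ : ∃ φ, b' = Spec.map φ := ⟨Spec.preimage b', (Spec.map_preimage b').symm⟩
    change Spec.map φ ≫ Spec.map (rP (𝟙 b.R) y) =
      Spec.map (rP (𝟙 b.R) y ≫ Spec.preimage (Spec.map φ))
    rw [Spec.preimage_map, Spec.map_comp]
  · intro a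
    let φ : pR (𝟙 b.R) y ⟶ A := pLift (𝟙 b.R) y y (𝟙 A) (by simp) 0
    refine ⟨Spec.map φ a, ?_⟩
    change (Spec.map (rP (𝟙 b.R) y)) ((Spec.map φ) a) = a
    rw [← Scheme.Hom.comp_apply, ← Spec.map_comp, rP_pLift, Spec.map_id]
    rfl

theorem bg_atlas (b : Base) : ∃ (I : Type) (S : I → CommRingCat.{0})
    (u : ∀ i, (bg b).Obj (S i)),
    ∀ {A : CommRingCat.{0}} (y : (bg b).Obj A),
      ∃ (E : ∀ i, EtalePresentation (bg b) (u i) y) (π : ∀ i, (E i).U ⟶ Spec A),
      (∀ i, Smooth (π i)) ∧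
      (∀ (i : I) {B : CommRingCat.{0}} (b' : Spec B ⟶ (E i).U),
        b' ≫ π i = Spec.map ((E i).pt b').g) ∧
      ∀ a : Spec A, ∃ (i : I) (u : (E i).U), π i u = a := by
  refine ⟨Unit, fun _ => b.R, fun _ => 𝟙 b.R, ?_⟩
  intro A y
  obtain ⟨E, π, h1, h2, h3⟩ := bg_atlas_one b y
  refine ⟨fun _ => E, fun _ => π, fun _ => h1, fun _ => h2, fun a => ?_⟩
  obtain ⟨u, hu⟩ := h3 a
  exact ⟨(), u, hu⟩

end TannakaNil.GeomBG
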