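import Pool.Agent.Helper10.Tannaka.Alg

/-!
# The group sheaf `G(A) = A² / {((t + e) c, t c² + c) : c ∈ A}` and its classifying stack
-/

open CategoryTheory Opposite Limits AlgebraicGeometry

namespace TannakaNil

/-- The data on which the group sheaf `G` and its classifying stack depend: a ring `R` in which
`2 = 0`, and elements `t` and `e` with `e² = 0`. -/
structure Base where
  R : CommRingCat.{0}
  t : R
  e : R
  two : (2 : R) = 0
  sq : e * e = 0

variable {b : Base}

namespace Base

variable {A B C : CommRingCat.{0}}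

lemma two_of (z : b.R ⟶ A) : (2 : A) = 0 := by
  have h := congrArg z.hom b.two
  rw [map_zero] at h
  exact (map_ofNat z.hom 2).symm.trans h

lemma add_self_of (z : b.R ⟶ A) (a : A) : a + a = 0 := by
  rw [← two_mul, two_of z, zero_mul]

lemma sq_of (z : b.R ⟶ A) : z.hom b.e * z.hom b.e = 0 := by
  rw [← map_mul, b.sq, map_zero]

/-- The homomorphism `c ↦ ((t + e) c, t c² + c)` from `A` to `A²`. -/
def rel (z : b.R ⟶ A) : A →+ A × A where
  toFun c := ((z.hom b.t + z.hom b.e) * c, z.hom b.t * c ^ 2 + c)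
  map_zero' := by simp
  map_add' c d := by
    ext
    · simp [mul_add]
    · change z.hom b.t * (c + d) ^ 2 + (c + d) =
        (z.hom b.t * c ^ 2 + c) + (z.hom b.t * d ^ 2 + d)
      have h : (c + d) ^ 2 = c ^ 2 + d ^ 2 := by
        have : (c + d) ^ 2 = c ^ 2 + d ^ 2 + 2 * (c * d) := by ring
        rw [this, two_of z, zero_mul, add_zero]
      rw [h]; ring

lemma rel_apply (z : b.R ⟶ A) (c : A) :
    rel z c = ((z.hom b.t + z.hom b.e) * c, z.hom b.t * c ^ 2 + c) := rfl

lemma rel_injective (z : b.R ⟶ A) : Function.Injective (rel z) := by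
  rw [injective_iff_map_eq_zero]
  intro c hc
  rw [rel_apply] at hc
  have h1 : (z.hom b.t + z.hom b.e) * c = 0 := congrArg Prod.fst hc
  have h2 : z.hom b.t * c ^ 2 + c = 0 := congrArg Prod.snd hc
  have h4 := add_self_of z
  have h3 := sq_of z
  set t := z.hom b.t
  set e := z.hom b.e
  have h5 : t * c = e * c := by
    linear_combination h1 - h4 (e * c)
  have h6 : c = e * c ^ 2 := by
    linear_combination h2 - c * h5 - h4 (e * c ^ 2) + h4 0
  have h7 : e * c * c = e * c * (e * c ^ 2) := by rw [← h6]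
  calc c = e * c ^ 2 := h6
    _ = e * c * c := by ring
    _ = e * c * (e * c ^ 2) := h7
    _ = (e * e) * c ^ 3 := by ring
    _ = 0 := by rw [h3, zero_mul]

end Base

open Base

/-- The group `G(A) = A² / {((t + e) c, t c² + c) : c ∈ A}`. -/
def Gp {A : CommRingCat.{0}} (z : b.R ⟶ A) : Type := (A × A) ⧸ (rel z).range

namespace Gp

variable {A B C : CommRingCat.{0}} {z : b.R ⟶ A} {z' : b.R ⟶ B} {z'' : b.R ⟶ C}

instance : AddCommGroup (Gp z) := inferInstanceAs (AddCommGroup ((A × A) ⧸ (rel z).range))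

/-- The class of a pair. -/
def mk (z : b.R ⟶ A) : A × A →+ Gp z := QuotientAddGroup.mk' (rel z).range

lemma mk_surjective (z : b.R ⟶ A) : Function.Surjective (mk z) :=
  QuotientAddGroup.mk'_surjective _

@[elab_as_elim]
lemma ind {z : b.R ⟶ A} {p : Gp z → Prop} (h : ∀ v, p (mk z v)) (g : Gp z) : p g := by
  obtain ⟨v, rfl⟩ := mk_surjective z g
  exact h v

lemma mk_eq_zero {v : A × A} : mk z v = 0 ↔ ∃ c, rel z c = v := by
  unfold mk
  exact (QuotientAddGroup.eq_zero_iff (N := (rel z).range) v)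

lemma mk_eq_mk {v w : A × A} : mk z v = mk z w ↔ ∃ c, rel z c = v - w := by
  rw [← sub_eq_zero, ← map_sub, mk_eq_zero]

lemma mk_rel (c : A) : mk z (rel z c) = 0 := mk_eq_zero.2 ⟨c, rfl⟩

lemma add_self (g : Gp z) : g + g = 0 := by
  induction g using ind with
  | h v =>
    rw [← map_add]
    have : v + v = 0 := by
      ext
      · exact add_self_of z _
      · exact add_self_of z _
    rw [this, map_zero]

lemma neg_eq (g : Gp z) : -g = g := neg_eq_of_add_eq_zero_left (add_self g)

lemma sub_eq (g h : Gp z) : g - h = g + h := by rw [sub_eq_add_neg, neg_eq]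

/-- Functoriality of `G`. -/
def map (f : A ⟶ B) (h : z ≫ f = z') : Gp z →+ Gp z' :=
  QuotientAddGroup.map (rel z).range (rel z').range (f.hom.toAddMonoidHom.prodMap
    f.hom.toAddMonoidHom) (by
      rintro _ ⟨c, rfl⟩
      refine ⟨f.hom c, ?_⟩
      subst h
      simp [rel_apply])

@[simp] lemma map_mk (f : A ⟶ B) (h : z ≫ f = z') (v : A × A) :
    map f h (mk z v) = mk z' (f.hom v.1, f.hom v.2) := rfl

lemma map_id (h : z ≫ 𝟙 A = z) (g : Gp z) : map (𝟙 A) h g = g := by
  induction g using ind with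
  | h v => rfl

lemma map_map (f : A ⟶ B) (h : z ≫ f = z') (g : B ⟶ C) (h' : z' ≫ g = z'') (k : A ⟶ C)
    (hk : z ≫ k = z'') (e : f ≫ g = k) (x : Gp z) : map g h' (map f h x) = map k hk x := by
  subst e
  induction x using ind with
  | h v => rfl

end Gp

/-- The classifying stack `BG` over `Spec R`.  Since all `G`-torsors on affine schemes are trivial,
it has the following simple description: an object over `Spec A` is a morphism `Spec A ⟶ Spec R`,
and the arrows from `x` to `y` over `Spec B ⟶ Spec A` are the elements of `G(B)` if `x` is the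
composite of `Spec B ⟶ Spec A` and `y` (otherwise there are none). -/
def bg (b : Base) : AffCat.{0, 0} where
  Obj A := b.R ⟶ A
  Hom {A B} f x y := {_g : Gp x // y ≫ f = x}
  id {A} x := ⟨0, Category.comp_id x⟩
  comp {A B C f g k} h {x y z} χ φ :=
    ⟨χ.1 + Gp.map g χ.2 φ.1, by rw [← h, ← Category.assoc, φ.2, χ.2]⟩
  id_comp {A B f} h {x y} φ := by
    apply Subtype.ext
    change 0 + Gp.map (𝟙 B) _ φ.1 = φ.1
    rw [zero_add, Gp.map_id]
  comp_id {A B f} h {x y} φ := by
    apply Subtype.ext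
    change φ.1 + Gp.map f _ 0 = φ.1
    rw [_root_.map_zero, add_zero]
  assoc {A B C D f g h fg gh fgh} h₁ h₂ h₃ h₄ {w x y z} χ ψ φ := by
    apply Subtype.ext
    change (χ.1 + Gp.map h _ ψ.1) + Gp.map gh _ φ.1 = χ.1 + Gp.map h _ (ψ.1 + Gp.map g _ φ.1)
    rw [_root_.map_add, Gp.map_map g ψ.2 h χ.2 gh _ h₂, add_assoc]

lemma bg_isFibredInGroupoids (b : Base) : (bg b).IsFibredInGroupoids where
  exists_pullback f y := ⟨y ≫ f, ⟨⟨0, rfl⟩⟩⟩
  existsUnique_lift {A B C f g k} h {x y z} φ ψ := by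
    have hyx : y ≫ g = x := by rw [← φ.2, Category.assoc, h, ψ.2]
    refine ⟨⟨ψ.1 - Gp.map g hyx φ.1, hyx⟩, ?_, ?_⟩
    · apply Subtype.ext
      change (ψ.1 - Gp.map g hyx φ.1) + Gp.map g _ φ.1 = ψ.1
      rw [sub_add_cancel]
    · rintro χ hχ
      apply Subtype.ext
      have h1 : χ.1 + Gp.map g _ φ.1 = ψ.1 := congrArg Subtype.val hχ
      exact eq_sub_of_add_eq h1

end TannakaNil
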