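import Pool.Agent.Helper10.Tannaka.FL

/-!
# The canonical morphisms from the sheaves `L n`
-/

open CategoryTheory Opposite Limits MonoidalCategory TensorProduct Polynomial

namespace TannakaNil

open Base

lemma rz_oo (M : QCoh X0) (m : Sec M oo) : rz M oo m = m :=
  res_id M oo m

lemma sec_lHom_x {N : QCoh X0} {n : ℕ} {p q : Sec N oo} (h : IsL N n p q) :
    sec (lHom h) oo (xL n oo) = p := by
  have h1 := sec_lHom h oo 0 1
  rw [zero_smul, zero_add, one_smul, map_zero] at h1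
  exact h1.trans (rz_oo N p)

lemma sec_lHom_i {N : QCoh X0} {n : ℕ} {p q : Sec N oo} (h : IsL N n p q) :
    sec (lHom h) oo (iL n oo) = q := by
  have h1 := sec_lHom h oo 1 0
  rw [zero_smul, add_zero, one_smul, map_one] at h1
  exact h1.trans (rz_oo N q)

/-- The morphism from `L n` attached to a section. -/
noncomputable def lP (M : QCoh X0) (m : Sec M oo) (n : ℕ) (hn : base₀.t ^ n • Qc M oo m = 0) :
    L n ⟶ M ⊗ O := lHom (isL_PQ M m n hn)

section lP

variable {M : QCoh X0} {m : Sec M oo} {n : ℕ} (hn : base₀.t ^ n • Qc M oo m = 0)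

lemma lP_x : sec (lP M m n hn) oo (xL n oo) = Pc M oo m := sec_lHom_x _

lemma lP_i : sec (lP M m n hn) oo (iL n oo) = Qc M oo m := sec_lHom_i _

lemma eq_lP {f : L n ⟶ M ⊗ O} (hx : sec f oo (xL n oo) = Pc M oo m)
    (hi : sec f oo (iL n oo) = Qc M oo m) : f = lP M m n hn :=
  hom_ext_L (hx.trans (lP_x hn).symm) (hi.trans (lP_i hn).symm)

lemma lP_tr (hn' : base₀.t ^ (n + 1) • Qc M oo m = 0) :
    trL n ≫ lP M m n hn = lP M m (n + 1) hn' := by
  apply eq_lP
  · rw [sec_comp_apply, sec_trL_x, lP_x]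
  · rw [sec_comp_apply, sec_trL_i, lP_i]

lemma lP_add {m' : Sec M oo} (hn' : base₀.t ^ n • Qc M oo m' = 0)
    (h : base₀.t ^ n • Qc M oo (m + m') = 0) :
    lP M (m + m') n h = lP M m n hn + lP M m' n hn' := by
  symm
  apply eq_lP
  · rw [sec_add_apply, lP_x, lP_x, (PQ_add M oo m m').1]
  · rw [sec_add_apply, lP_i, lP_i, (PQ_add M oo m m').2]

lemma lP_smul (r : oo.ring) (h : base₀.t ^ n • Qc M oo (r • m) = 0) :
    lP M (r • m) n h = lP M m n hn ≫ sm (M ⊗ O) r := by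
  symm
  apply eq_lP
  · rw [sec_comp_apply, lP_x, sec_sm, (PQ_smul M oo r m).1]
  · rw [sec_comp_apply, lP_i, sec_sm, (PQ_smul M oo r m).2]

lemma lP_map {N : QCoh X0} (f : M ⟶ N) (h : base₀.t ^ n • Qc N oo (sec f oo m) = 0) :
    lP N (sec f oo m) n h = lP M m n hn ≫ (f ▷ O) := by
  symm
  apply eq_lP
  · rw [sec_comp_apply, lP_x, (PQ_map f oo m).1]
  · rw [sec_comp_apply, lP_i, (PQ_map f oo m).2]

end lP

lemma Qc_map {M N : QCoh X0} (f : M ⟶ N) {m : Sec M oo} {n : ℕ}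
    (hn : base₀.t ^ n • Qc M oo m = 0) : base₀.t ^ n • Qc N oo (sec f oo m) = 0 := by
  rw [(PQ_map f oo m).2, ← map_smul, hn, map_zero]

lemma Qc_add {M : QCoh X0} {m m' : Sec M oo} {n : ℕ} (hn : base₀.t ^ n • Qc M oo m = 0)
    (hn' : base₀.t ^ n • Qc M oo m' = 0) : base₀.t ^ n • Qc M oo (m + m') = 0 := by
  rw [(PQ_add M oo m m').2, smul_add, hn, hn', add_zero]

lemma Qc_smul {M : QCoh X0} {m : Sec M oo} {n : ℕ} (r : oo.ring)
    (hn : base₀.t ^ n • Qc M oo m = 0) : base₀.t ^ n • Qc M oo (r • m) = 0 := by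
  have h1 : Qc M oo (r • m) = r • Qc M oo m := (PQ_smul M oo r m).2
  rw [h1, smul_comm, hn, smul_zero]

lemma Qc_mono {M : QCoh X0} {m : Sec M oo} {n n' : ℕ} (h : n ≤ n')
    (hn : base₀.t ^ n • Qc M oo m = 0) : base₀.t ^ n' • Qc M oo m = 0 := by
  obtain ⟨k, rfl⟩ := Nat.exists_eq_add_of_le h
  rw [pow_add, mul_comm, mul_smul, hn, smul_zero]

/-- The section `1` of the unit. -/
lemma PQ_one (a : X0.Tot) :
    Pc (𝟙_ (QCoh X0)) a (secUnit oo 1) = tm (secUnit a 1) (sO a 1) ∧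
      Qc (𝟙_ (QCoh X0)) a (secUnit oo 1) = 0 := by
  have h := PQ_unique (𝟙_ (QCoh X0)) a (secUnit oo 1) (w₁ := tm (secUnit a 1) (sO a 1))
    (w₂ := 0) (by
      have h1 : res (𝟙_ (QCoh X0)) (ξE a) (secUnit a 1) =
          res (𝟙_ (QCoh X0)) (can (aE a) 0) (secUnit oo 1) := by
        rw [res_secUnit, res_secUnit]
        congr 1
        exact (map_one (ξE a).1.hom).trans (map_one (can (aE a) 0).1.hom).symm
      rw [map_zero, smul_zero, add_zero, θE_tm, map_one, one_smul, h1])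
  exact ⟨h.1.symm, h.2.symm⟩

/-- The multiplication `(M ⊗ O) ⊗ (N ⊗ O) ⟶ (M ⊗ N) ⊗ O`. -/
noncomputable def mT (M N : QCoh X0) : (M ⊗ O) ⊗ (N ⊗ O) ⟶ (M ⊗ N) ⊗ O :=
  tensorμ M O N O ≫ ((M ⊗ N) ◁ mulO)

lemma sec_mT {M N : QCoh X0} (a : X0.Tot) (m : Sec M a) (p : a.ring[X]) (n : Sec N a)
    (q : a.ring[X]) : sec (mT M N) a (tm (tm m (sO a p)) (tm n (sO a q))) =
      tm (tm m n) (sO a (p * q)) := rfl

/-- The multiplication `(M ⊗ O) ⊗ Q 1 ⟶ M ⊗ O`. -/
noncomputable def actQ (M : QCoh X0) : (M ⊗ O) ⊗ Q 1 ⟶ M ⊗ O :=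
  (α_ M O (Q 1)).hom ≫ (M ◁ ((O ◁ toO 1) ≫ mulO))

lemma sec_actQ {M : QCoh X0} (a : X0.Tot) (m : Sec M a) (p : a.ring[X])
    (q : degreeLT a.ring 2) : sec (actQ M) a (tm (tm m (sO a p)) (sQ 1 a q)) =
      tm m (sO a (p * (q : a.ring[X]))) := rfl

lemma actQ_one {M : QCoh X0} (a : X0.Tot) (w : Sec (M ⊗ O) a) :
    sec (actQ M) a (tm w (oneQ 1 a)) = w := by
  induction w using sec_induction with
  | zero => rw [tm_zero_left, map_zero]
  | tmul m p =>
    obtain ⟨p, rfl⟩ := (sO a).surjective p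
    rw [oneQ, sec_actQ]
    have : p * ((constLT a.ring 1 1 : degreeLT a.ring 2) : a.ring[X]) = p := by
      change p * C 1 = p
      rw [C_1, mul_one]
    rw [this]
  | add x y hx hy => rw [tm_add_left, map_add, hx, hy]

lemma θE_actQ_y {M : QCoh X0} (a : X0.Tot) (w : Sec (M ⊗ O) a) :
    θE M a (sec (actQ M) a (tm w (yQ a))) = jE a.ring X • θE M a w := by
  induction w using sec_induction with
  | zero => rw [tm_zero_left, map_zero, map_zero, smul_zero]
  | tmul m p =>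
    obtain ⟨p, rfl⟩ := (sO a).surjective p
    rw [yQ, sec_actQ, θE_tm, θE_tm, smul_smul, ← map_mul, mul_comm]
  | add x y hx hy => rw [tm_add_left, map_add, map_add, map_add, smul_add, hx, hy]

lemma θE_mT {M N : QCoh X0} (a : X0.Tot) (w : Sec (M ⊗ O) a) (w' : Sec (N ⊗ O) a) :
    θE (M ⊗ N) a (sec (mT M N) a (tm w w')) =
      tm (a := aE a) (θE M a w) (θE N a w') := by
  induction w using sec_induction with
  | zero => rw [tm_zero_left, map_zero, map_zero, map_zero, tm_zero_left]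
  | tmul m p =>
    obtain ⟨p, rfl⟩ := (sO a).surjective p
    induction w' using sec_induction with
    | zero => rw [tm_zero_right, map_zero, map_zero, map_zero, tm_zero_right]
    | tmul n q =>
      obtain ⟨q, rfl⟩ := (sO a).surjective q
      rw [sec_mT, θE_tm, θE_tm, θE_tm, res_tm, map_mul, mul_smul]
      have h1 : tm (a := aE a) (jE a.ring p • res M (ξE a) m) (jE a.ring q • res N (ξE a) n) =
          jE a.ring p • (jE a.ring q • tm (a := aE a) (res M (ξE a) m) (res N (ξE a) n)) := by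
        have h2 := tm_smul_right (a := aE a) (jE a.ring q)
          (jE a.ring p • res M (ξE a) m) (res N (ξE a) n)
        have h3 := tm_smul_left (a := aE a) (jE a.ring p) (res M (ξE a) m) (res N (ξE a) n)
        refine Eq.trans h2 ?_
        refine Eq.trans (congrArg _ h3) ?_
        exact smul_comm _ _ _
      exact h1.symm
    | add x y hx hy =>
      rw [tm_add_right, map_add, map_add, map_add, tm_add_right, hx, hy]
  | add x y hx hy =>
    rw [tm_add_left, map_add, map_add, map_add, tm_add_left, hx, hy]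

lemma ωE_sq (A : Type) [CommRing A] : ωE A * ωE A = ωE A + jE A X := by
  ext : 1
  · change (0 : A[X]) * 0 + X * 1 * 1 = 0 + X
    ring
  · change (0 : A[X]) * 1 + 1 * 0 + 1 * 1 * 1 = 1 + 0
    ring

lemma tm_expand {M N : QCoh X0} (a : X0.Tot) (U V : Sec M (aE a)) (U' V' : Sec N (aE a)) :
    tm (a := aE a) (U + ωE a.ring • V) (U' + ωE a.ring • V') =
      (tm (a := aE a) U U' + jE a.ring X • tm (a := aE a) V V') +
      ωE a.ring • (tm (a := aE a) U V' + tm (a := aE a) V U' + tm (a := aE a) V V') := by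
  have h1 : ∀ (W : Sec M (aE a)) (W' : Sec N (aE a)), tm (a := aE a) (ωE a.ring • W) W' =
    ωE a.ring • tm (a := aE a) W W' := fun W W' => tm_smul_left (a := aE a) (ωE a.ring) W W'
  have h2 : ∀ (W : Sec M (aE a)) (W' : Sec N (aE a)), tm (a := aE a) W (ωE a.ring • W') =
    ωE a.ring • tm (a := aE a) W W' := fun W W' => tm_smul_right (a := aE a) (ωE a.ring) W W'
  rw [tm_add_left, tm_add_right, tm_add_right, h1, h1, h2, h2, smul_smul, ωE_sq, add_smul,
    smul_add, smul_add]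
  abel

/-- The coefficients of a product. -/
lemma PQ_tensor {M N : QCoh X0} (a : X0.Tot) (m : Sec M oo) (n : Sec N oo) :
    Pc (M ⊗ N) a (tm m n) = sec (mT M N) a (tm (Pc M a m) (Pc N a n)) +
        sec (actQ (M ⊗ N)) a (tm (sec (mT M N) a (tm (Qc M a m) (Qc N a n))) (yQ a)) ∧
      Qc (M ⊗ N) a (tm m n) = sec (mT M N) a (tm (Pc M a m) (Qc N a n)) +
        sec (mT M N) a (tm (Qc M a m) (Pc N a n)) +
        sec (mT M N) a (tm (Qc M a m) (Qc N a n)) := by
  have h := PQ_unique (M ⊗ N) a (tm m n)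
    (w₁ := sec (mT M N) a (tm (Pc M a m) (Pc N a n)) +
        sec (actQ (M ⊗ N)) a (tm (sec (mT M N) a (tm (Qc M a m) (Qc N a n))) (yQ a)))
    (w₂ := sec (mT M N) a (tm (Pc M a m) (Qc N a n)) +
        sec (mT M N) a (tm (Qc M a m) (Pc N a n)) +
        sec (mT M N) a (tm (Qc M a m) (Qc N a n))) (by
      rw [map_add, map_add, map_add, θE_actQ_y, θE_mT, θE_mT, θE_mT, θE_mT, res_tm,
        ← PQ_spec M a m, ← PQ_spec N a n]
      exact (tm_expand a _ _ _ _).symm)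
  exact ⟨h.1.symm, h.2.symm⟩

lemma Qc_tensor {M N : QCoh X0} {m : Sec M oo} {n : Sec N oo} {k : ℕ}
    (hm : base₀.t ^ k • Qc M oo m = 0) (hn : base₀.t ^ k • Qc N oo n = 0) :
    base₀.t ^ k • Qc (M ⊗ N) oo (tm m n) = 0 := by
  rw [(PQ_tensor oo m n).2]
  have h1 : ∀ (w : Sec (M ⊗ O) oo) (w' : Sec (N ⊗ O) oo),
      base₀.t ^ k • sec (mT M N) oo (tm w w') = sec (mT M N) oo (tm (base₀.t ^ k • w) w') := by
    intro w w'
    rw [tm_smul_left]
    exact (map_smul _ _ _).symm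
  have h2 : ∀ (w : Sec (M ⊗ O) oo) (w' : Sec (N ⊗ O) oo),
      base₀.t ^ k • sec (mT M N) oo (tm w w') = sec (mT M N) oo (tm w (base₀.t ^ k • w')) := by
    intro w w'
    rw [tm_smul_right]
    exact (map_smul _ _ _).symm
  have h3 : base₀.t ^ k • (sec (mT M N) oo (tm (Pc M oo m) (Qc N oo n)) +
        sec (mT M N) oo (tm (Qc M oo m) (Pc N oo n)) +
        sec (mT M N) oo (tm (Qc M oo m) (Qc N oo n))) =
        base₀.t ^ k • sec (mT M N) oo (tm (Pc M oo m) (Qc N oo n)) +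
        base₀.t ^ k • sec (mT M N) oo (tm (Qc M oo m) (Pc N oo n)) +
        base₀.t ^ k • sec (mT M N) oo (tm (Qc M oo m) (Qc N oo n)) := by
    rw [smul_add, smul_add]
  rw [h3, h2, h1, h1, hm, hn, tm_zero_right, tm_zero_left, tm_zero_left, map_zero, add_zero,
    add_zero]

lemma lP_tensor {M N : QCoh X0} {m : Sec M oo} {n : Sec N oo} {k : ℕ}
    (hm : base₀.t ^ k • Qc M oo m = 0) (hn : base₀.t ^ k • Qc N oo n = 0)
    (h : base₀.t ^ k • Qc (M ⊗ N) oo (tm m n) = 0) :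
    lP (M ⊗ N) (tm m n) k h = κL k ≫ ((lP M m k hm ⊗ₘ lP N n k hn) ▷ Q 1) ≫
      (mT M N ▷ Q 1) ≫ actQ (M ⊗ N) := by
  symm
  apply eq_lP
  · rw [sec_comp_apply, sec_comp_apply, sec_comp_apply, sec_κL_x, κp, map_add, map_add, map_add,
      sec_whiskerRight, sec_whiskerRight, sec_tensorHom, sec_whiskerRight,
      sec_whiskerRight, sec_tensorHom, lP_x, lP_x, lP_i, lP_i, actQ_one, (PQ_tensor oo m n).1]
  · rw [sec_comp_apply, sec_comp_apply, sec_comp_apply, sec_κL_i, κq, γ₀,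
      sec_whiskerRight, map_add, map_add, sec_tensorHom, sec_tensorHom, sec_tensorHom,
      sec_whiskerRight, map_add, map_add, lP_x, lP_x, lP_i, lP_i, actQ_one,
      (PQ_tensor oo m n).2]

lemma lP_one {n : ℕ} (h : base₀.t ^ n • Qc (𝟙_ (QCoh X0)) oo (secUnit oo 1) = 0) :
    lP (𝟙_ (QCoh X0)) (secUnit oo 1) n h =
      πL n ≫ (λ_ _).inv ≫ (𝟙_ (QCoh X0) ◁ (unitQ 0 ≫ toO 0)) := by
  symm
  apply eq_lP
  · rw [sec_comp_apply, sec_comp_apply, sec_πL_x, sec_leftUnitor_inv, sec_whiskerLeft,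
      sec_comp_apply, sec_unitQ, sec_toO, (PQ_one oo).1]
    congr 2
  · rw [sec_comp_apply, sec_comp_apply, sec_πL_i, map_zero, map_zero, (PQ_one oo).2]

end TannakaNil
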