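import Mathlib

/-!
# Lifting monoidal functors to full monoidal subcategories
-/

open CategoryTheory MonoidalCategory

namespace TannakaNil

section Lift

variable {C D : Type*} [Category* C] [Category* D] [MonoidalCategory C] [MonoidalCategory D]
  (P : ObjectProperty D) [P.IsMonoidal] (F : C ⥤ D) (hF : ∀ X, P (F.obj X))

open Functor.LaxMonoidal Functor.Monoidal

/-- The lift of a monoidal functor to a full monoidal subcategory is monoidal. -/
@[instance_reducible]
noncomputable def liftMonoidal [F.Monoidal] : (P.lift F hF).Monoidal :=
  Functor.CoreMonoidal.toMonoidal
    { εIso := P.isoMk (Functor.Monoidal.εIso F)
      μIso X Y := P.isoMk (Functor.Monoidal.μIso F X Y)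
      μIso_hom_natural_left f X' := by
        apply ObjectProperty.hom_ext
        exact μ_natural_left (F := F) f X'
      μIso_hom_natural_right X' f := by
        apply ObjectProperty.hom_ext
        exact μ_natural_right (F := F) X' f
      associativity X Y Z := by
        apply ObjectProperty.hom_ext
        exact associativity (F := F) X Y Z
      left_unitality X := by
        apply ObjectProperty.hom_ext
        exact left_unitality (F := F) X
      right_unitality X := by
        apply ObjectProperty.hom_ext
        exact right_unitality (F := F) X }

end Lift

end TannakaNil
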