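import Pool.Agent.Helper10.Tannaka.LP
import Pool.Agent.Helper10.Tannaka.OCol

/-!
# The comparison transformation
-/

open CategoryTheory Opposite Limits MonoidalCategory TensorProduct Polynomial

namespace TannakaNil

open Base

lemma fm_tensorμ {C : Type*} [Category* C] [MonoidalCategory C] [BraidedCategory C]
    {B : CommRingCat.{0}} (F : C ⥤ ModuleCat.{0} B) [F.Braided] {M N P Q : C}
    (m : F.obj M) (p : F.obj P) (n : F.obj N) (q : F.obj Q) :
    fm F (tensorμ M P N Q) (ft F (ft F m p) (ft F n q)) = ft F (ft F m n) (ft F p q) := by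
  rw [tensorμ, fm_comp, fm_comp, fm_comp, fm_comp, fm_associator_hom, fm_whiskerLeft,
    fm_associator_inv, fm_whiskerLeft, fm_whiskerRight, fm_braiding, fm_whiskerLeft,
    fm_associator_hom, fm_associator_inv]

variable {B : CommRingCat.{0}} {F : QCoh X0 ⥤ ModuleCat.{0} B} [F.Braided] [F.Additive]
  [PreservesColimitsOfSize.{0, 0} F] (G : Gens F)

/-- The functional on `F O`. -/
noncomputable def Gens.φ : F.obj O →ₗ[B] B := φO F G.Y G.hY

lemma Gens.ctr_actQ {M : QCoh X0} (w : F.obj ((M ⊗ O) ⊗ Q 1)) :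
    ctr F G.φ M (fm F (actQ M) w) =
      ctr F G.φ M (ctr F (ΦY F G.Y G.hY).φ (M ⊗ O) w) := by
  induction w using ft_induction with
  | zero => rw [map_zero, map_zero, map_zero, map_zero]
  | tmul w q =>
    rw [ctr_ft, map_smul]
    induction w using ft_induction with
    | zero => rw [ft_zero_left, map_zero, map_zero, smul_zero]
    | tmul m p =>
      rw [actQ, fm_comp, fm_associator_hom, fm_whiskerLeft, fm_comp, fm_whiskerLeft, ctr_ft,
        ctr_ft, Gens.φ, φO_mul, φO_toO, mul_comm, mul_smul]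
      rfl
    | add x y hx hy => rw [ft_add_left, map_add, map_add, map_add, smul_add, hx, hy]
  | add x y hx hy => rw [map_add, map_add, map_add, map_add, hx, hy]

lemma Gens.ctr_mT {M N : QCoh X0} (w : F.obj (M ⊗ O)) (w' : F.obj (N ⊗ O)) :
    ctr F G.φ (M ⊗ N) (fm F (mT M N) (ft F w w')) =
      ft F (ctr F G.φ M w) (ctr F G.φ N w') := by
  induction w using ft_induction with
  | zero => rw [ft_zero_left, map_zero, map_zero, map_zero, ft_zero_left]
  | tmul m p =>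
    induction w' using ft_induction with
    | zero => rw [ft_zero_right, map_zero, map_zero, map_zero, ft_zero_right]
    | tmul n q =>
      rw [mT, fm_comp, fm_tensorμ, fm_whiskerLeft, ctr_ft, ctr_ft, ctr_ft, Gens.φ, φO_mul,
        ft_smul_left, ft_smul_right, mul_smul]
    | add x y hx hy => rw [ft_add_right, map_add, map_add, map_add, ft_add_right, hx, hy]
  | add x y hx hy => rw [ft_add_left, map_add, map_add, map_add, ft_add_left, hx, hy]

/-- The map `Ψ`, with a choice of `n`. -/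
noncomputable def Gens.ψ₀ (M : QCoh X0) (m : Sec M oo) (n : ℕ)
    (hn : base₀.t ^ n • Qc M oo m = 0) : F.obj M :=
  ctr F G.φ M (fm F (lP M m n hn) (G.x n))

lemma Gens.ψ₀_eq {M : QCoh X0} {m : Sec M oo} {n n' : ℕ} (h : n ≤ n')
    (hn : base₀.t ^ n • Qc M oo m = 0) (hn' : base₀.t ^ n' • Qc M oo m = 0) :
    G.ψ₀ M m n hn = G.ψ₀ M m n' hn' := by
  obtain ⟨k, rfl⟩ := Nat.exists_eq_add_of_le h
  induction k with
  | zero => rfl
  | succ k ih =>
    have hk := Qc_mono (Nat.le_add_right n k) hn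
    rw [ih (Nat.le_add_right n k) hk, Gens.ψ₀, Gens.ψ₀]
    have h1 : fm F (lP M m (n + (k + 1)) hn') (G.x (n + (k + 1))) =
        fm F (lP M m (n + k) hk) (G.x (n + k)) := by
      have h2 : lP M m (n + (k + 1)) hn' = trL (n + k) ≫ lP M m (n + k) hk := (lP_tr hk hn').symm
      rw [h2, ← G.tr (n + k)]
      exact fm_comp F _ _ _
    rw [h1]

/-- The map `Ψ`. -/
noncomputable def Gens.ψ (M : QCoh X0) (m : Sec M oo) : F.obj M :=
  G.ψ₀ M m (exists_pow_smul_Qc M m).choose (exists_pow_smul_Qc M m).choose_spec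

lemma Gens.ψ_eq {M : QCoh X0} {m : Sec M oo} (n : ℕ) (hn : base₀.t ^ n • Qc M oo m = 0) :
    G.ψ M m = G.ψ₀ M m n hn := by
  rcases le_total (exists_pow_smul_Qc M m).choose n with h | h
  · exact G.ψ₀_eq h _ _
  · exact (G.ψ₀_eq h _ _).symm

lemma exists_common {M N : QCoh X0} (m : Sec M oo) (m' : Sec N oo) :
    ∃ n : ℕ, base₀.t ^ n • Qc M oo m = 0 ∧ base₀.t ^ n • Qc N oo m' = 0 := by
  obtain ⟨n, hn⟩ := exists_pow_smul_Qc M m
  obtain ⟨n', hn'⟩ := exists_pow_smul_Qc N m'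
  exact ⟨max n n', Qc_mono (le_max_left _ _) hn, Qc_mono (le_max_right _ _) hn'⟩

lemma Gens.ψ_add {M : QCoh X0} (m m' : Sec M oo) : G.ψ M (m + m') = G.ψ M m + G.ψ M m' := by
  obtain ⟨n, hn, hn'⟩ := exists_common m m'
  rw [G.ψ_eq n hn, G.ψ_eq n hn', G.ψ_eq n (Qc_add hn hn'), Gens.ψ₀, Gens.ψ₀, Gens.ψ₀,
    lP_add hn hn', fm_add, map_add]

lemma Gens.ψ_smul {M : QCoh X0} (r : oo.ring) (m : Sec M oo) :
    G.ψ M (r • m) = zF F r • G.ψ M m := by
  obtain ⟨n, hn⟩ := exists_pow_smul_Qc M m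
  rw [G.ψ_eq n hn, G.ψ_eq n (Qc_smul r hn), Gens.ψ₀, Gens.ψ₀, lP_smul hn, fm_comp, fm_sm,
    map_smul]

lemma Gens.ψ_map {M N : QCoh X0} (f : M ⟶ N) (m : Sec M oo) :
    G.ψ N (sec f oo m) = fm F f (G.ψ M m) := by
  obtain ⟨n, hn⟩ := exists_pow_smul_Qc M m
  rw [G.ψ_eq n hn, G.ψ_eq n (Qc_map f hn), Gens.ψ₀, Gens.ψ₀, lP_map hn, fm_comp, ctr_natural]

lemma Gens.ψ_one : G.ψ (𝟙_ (QCoh X0)) (secUnit oo 1) = f1 F := by
  obtain ⟨n, hn⟩ := exists_pow_smul_Qc (𝟙_ (QCoh X0)) (secUnit oo 1)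
  rw [G.ψ_eq n hn, Gens.ψ₀, lP_one, fm_comp, fm_comp, (G.gr n).π, fm_leftUnitor_inv,
    fm_whiskerLeft, ctr_ft]
  have h := φO_one F G.Y G.hY
  rw [unitO] at h
  rw [Gens.φ, h, one_smul]

lemma Gens.ψ_tensor {M N : QCoh X0} (m : Sec M oo) (n : Sec N oo) :
    G.ψ (M ⊗ N) (tm m n) = ft F (G.ψ M m) (G.ψ N n) := by
  obtain ⟨k, hm, hn⟩ := exists_common m n
  have h1 := (G.gr k).u
  rw [Fun1.u_apply] at h1
  rw [G.ψ_eq k hm, G.ψ_eq k hn, G.ψ_eq k (Qc_tensor hm hn), Gens.ψ₀, Gens.ψ₀, Gens.ψ₀,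
    lP_tensor hm hn, fm_comp, fm_comp, fm_comp, G.ctr_actQ, ctr_natural, ctr_natural, h1,
    fm_tensorHom, G.ctr_mT]

/-- The map `Ψ`, as a semilinear map. -/
noncomputable def Gens.Ψ (M : QCoh X0) : Sec M oo →ₛₗ[zF F] F.obj M where
  toFun := G.ψ M
  map_add' := G.ψ_add
  map_smul' := G.ψ_smul

/-- The point of the stack over `B`. -/
noncomputable abbrev aF (F : QCoh X0 ⥤ ModuleCat.{0} B) [F.Braided] [F.Additive] : X0.Tot :=
  ⟨B, zz F⟩

lemma Gens.exists_hat (M : QCoh X0) : ∃ g : Sec M (aF F) →ₗ[B] F.obj M,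
    ∀ m, g (rz M (aF F) m) = G.ψ M m := by
  obtain ⟨g, hg, _⟩ := rz_univ M (aF F) (F.obj M) (G.Ψ M)
  exact ⟨g, hg⟩

/-- The map `Ψ`, extended linearly. -/
noncomputable def Gens.hat (M : QCoh X0) : Sec M (aF F) →ₗ[B] F.obj M := (G.exists_hat M).choose

lemma Gens.hat_rz {M : QCoh X0} (m : Sec M oo) : G.hat M (rz M (aF F) m) = G.ψ M m :=
  (G.exists_hat M).choose_spec m

/-- The comparison transformation. -/
noncomputable def Gens.nat : evx (X := X0) (zz F) ⟶ F where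
  app M := ModuleCat.ofHom (G.hat M)
  naturality M N f := by
    have h : (G.hat N).comp (sec f (aF F)) = (fm F f).comp (G.hat M) := by
      apply rz_ext M (aF F)
      intro m
      rw [LinearMap.comp_apply, LinearMap.comp_apply, sec_res, G.hat_rz, G.hat_rz, G.ψ_map]
    ext m
    exact congrArg (fun l => l m) h

lemma Gens.nat_app (M : QCoh X0) : (G.nat.app M).hom = G.hat M := rfl

lemma Gens.hat_one : G.hat (𝟙_ (QCoh X0)) (secUnit (aF F) 1) = f1 F := by
  have h : (secUnit (aF F) 1 : Sec (𝟙_ (QCoh X0)) (aF F)) =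
      rz (𝟙_ (QCoh X0)) (aF F) (secUnit oo 1) := by
    rw [res_secUnit]
    congr 1
    exact (map_one (can (aF F) 0).1.hom).symm
  rw [h, G.hat_rz, G.ψ_one]

lemma Gens.hat_tensor {M N : QCoh X0} (m : Sec M (aF F)) (n : Sec N (aF F)) :
    G.hat (M ⊗ N) (tm m n) = ft F (G.hat M m) (G.hat N n) := by
  let f : Sec M (aF F) →ₗ[B] (Sec N (aF F) →ₗ[B] F.obj (M ⊗ N)) :=
    LinearMap.mk₂ B (fun m n => G.hat (M ⊗ N) (tm m n))
      (fun x x' y => by rw [tm_add_left, map_add])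
      (fun c x y => by rw [tm_smul_left]; exact map_smul _ _ _)
      (fun x y y' => by rw [tm_add_right, map_add])
      (fun c x y => by rw [tm_smul_right]; exact map_smul _ _ _)
  let g : Sec M (aF F) →ₗ[B] (Sec N (aF F) →ₗ[B] F.obj (M ⊗ N)) :=
    LinearMap.mk₂ B (fun m n => ft F (G.hat M m) (G.hat N n))
      (fun x x' y => by rw [map_add, ft_add_left])
      (fun c x y => by rw [map_smul, ft_smul_left])
      (fun x y y' => by rw [map_add, ft_add_right])
      (fun c x y => by rw [map_smul, ft_smul_right])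
  have : f = g := by
    apply rz_ext M (aF F)
    intro m
    apply rz_ext N (aF F)
    intro n
    change G.hat (M ⊗ N) (tm (rz M (aF F) m) (rz N (aF F) n)) =
      ft F (G.hat M (rz M (aF F) m)) (G.hat N (rz N (aF F) n))
    rw [← res_tm, G.hat_rz, G.hat_rz, G.hat_rz, G.ψ_tensor]
  exact congrArg (fun l => l m n) this

open Functor.LaxMonoidal

instance Gens.nat_isMonoidal : NatTrans.IsMonoidal G.nat where
  unit := by
    apply ModuleCat.hom_ext
    apply LinearMap.ext_ring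
    exact G.hat_one
  tensor M N := by
    apply ModuleCat.MonoidalCategory.tensor_ext
    intro m n
    exact G.hat_tensor m n

end TannakaNil
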