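import Pool.Agent.Helper10.Tannaka.Pres
import Pool.Agent.Helper10.Tannaka.Psi

/-!
# Monoidal transformations of cocontinuous functors are isomorphisms
-/

open CategoryTheory Opposite Limits MonoidalCategory TensorProduct Polynomial

namespace TannakaNil

open Base Functor.LaxMonoidal

/-- The value of a transformation. -/
noncomputable abbrev et {C : Type*} [Category* C] {B : CommRingCat.{0}}
    {F F' : C ⥤ ModuleCat.{0} B} (η : F ⟶ F') (M : C) : F.obj M →ₗ[B] F'.obj M :=
  (η.app M).hom

section general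

variable {C : Type*} [Category* C] [MonoidalCategory C] [BraidedCategory C]
  {B : CommRingCat.{0}} {F F' : C ⥤ ModuleCat.{0} B} (η : F ⟶ F')

lemma et_fm {M N : C} (f : M ⟶ N) (m : F.obj M) :
    et η N (fm F f m) = fm F' f (et η M m) :=
  ConcreteCategory.congr_hom (η.naturality f) m

variable [F.Braided] [F'.Braided] [NatTrans.IsMonoidal η]

lemma et_f1 : et η (𝟙_ C) (f1 F) = f1 F' :=
  ConcreteCategory.congr_hom (NatTrans.IsMonoidal.unit (τ := η)) (1 : B)

lemma et_ft {M N : C} (m : F.obj M) (n : F.obj N) :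
    et η (M ⊗ N) (ft F m n) = ft F' (et η M m) (et η N n) :=
  ConcreteCategory.congr_hom (NatTrans.IsMonoidal.tensor (τ := η) M N) (m ⊗ₜ[B] n)

lemma et_tensor_bijective {M N : C} (hM : Function.Bijective (et η M))
    (hN : Function.Bijective (et η N)) : Function.Bijective (et η (M ⊗ N)) := by
  let eM := LinearEquiv.ofBijective (et η M) hM
  let eN := LinearEquiv.ofBijective (et η N) hN
  let e := (ftEquiv F M N).symm.trans ((TensorProduct.congr eM eN).trans (ftEquiv F' M N))
  have h : ∀ x, et η (M ⊗ N) x = e x := by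
    intro x
    obtain ⟨x, rfl⟩ := (ftEquiv F M N).surjective x
    have h1 : e ((ftEquiv F M N) x) = ftEquiv F' M N (TensorProduct.congr eM eN x) := by
      change (ftEquiv F' M N) ((TensorProduct.congr eM eN) ((ftEquiv F M N).symm
        ((ftEquiv F M N) x))) = _
      rw [LinearEquiv.symm_apply_apply]
    rw [h1]
    clear h1
    induction x with
    | zero => rw [map_zero, map_zero, map_zero, map_zero]
    | tmul m n => exact et_ft η m n
    | add x y hx hy => rw [map_add, map_add, map_add, map_add, hx, hy]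
  have h2 : (et η (M ⊗ N) : F.obj (M ⊗ N) → F'.obj (M ⊗ N)) = e := funext h
  rw [h2]
  exact e.bijective

end general

variable {B : CommRingCat.{0}} {F F' : QCoh X0 ⥤ ModuleCat.{0} B} [F.Braided] [F'.Braided]
  [F.Additive] [F'.Additive] (η : F ⟶ F') [NatTrans.IsMonoidal η]

include η in
lemma et_zF : zF F = zF F' := by
  apply RingHom.ext
  intro r
  have h := congrArg (et η _) (zF_spec F r)
  rw [et_fm, et_f1, zF_spec, map_smul, et_f1] at h
  exact (f1_ext F' h).symm

lemma et_eF (Y : F.obj (Q 1)) (k : ℕ) : et η (Q k) (eF F Y k) = eF F' (et η (Q 1) Y) k := by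
  induction k with
  | zero => rw [eF_zero, eF_zero, et_fm, et_f1]
  | succ k ih => rw [eF_succ, eF_succ, et_fm, et_ft, ih]

lemma et_eI (Y : F.obj (Q 1)) {k i : ℕ} (h : k ≤ i) :
    et η (Q i) (eI F Y h) = eI F' (et η (Q 1) Y) h := by
  rw [eI, eI, et_fm, et_eF]

lemma et_EP (Y : F.obj (Q 1)) (i : ℕ) (b : Fin (i + 1) → B) :
    et η (Q i) (EP F Y i b) = EP F' (et η (Q 1) Y) i b := by
  rw [EP_apply, EP_apply, map_sum]
  apply Finset.sum_congr rfl
  intro k _
  rw [map_smul, et_eI]

lemma et_iF (n : ℕ) : et η (L n) (iF F n) = iF F' n := by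
  rw [iF, iF, et_fm, et_f1]

variable [PreservesColimitsOfSize.{0, 0} F] [PreservesColimitsOfSize.{0, 0} F']

lemma et_Q_bijective (i : ℕ) : Function.Bijective (et η (Q i)) := by
  obtain ⟨Y, hY⟩ : ∃ Y : F.obj (Q 1), fm F (lead 1) Y = f1 F := (exact_lead F 0).2 (f1 F)
  have hY' : fm F' (lead 1) (et η (Q 1) Y) = f1 F' := by rw [← et_fm, hY, et_f1]
  constructor
  · rw [injective_iff_map_eq_zero]
    intro x hx
    obtain ⟨b, rfl⟩ := EP_surjective F Y hY i x
    rw [et_EP] at hx
    rw [(injective_iff_map_eq_zero _).1 (EP_injective F' _ hY' i) b hx, map_zero]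
  · intro x
    obtain ⟨b, rfl⟩ := EP_surjective F' _ hY' i x
    exact ⟨EP F Y i b, et_EP η Y i b⟩

lemma et_L_bijective (n : ℕ) : Function.Bijective (et η (L n)) := by
  obtain ⟨x, hx⟩ := exists_π F n
  have hx' : fm F' (πL n) (et η (L n) x) = f1 F' := by rw [← et_fm, hx, et_f1]
  constructor
  · rw [injective_iff_map_eq_zero]
    intro v hv
    obtain ⟨r, s, rfl⟩ := exists_decomp F hx v
    rw [map_add, map_smul, map_smul, et_iF] at hv
    have hs : s = 0 := by
      have h1 := congrArg (fm F' (πL n)) hv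
      rw [map_add, map_smul, map_smul, fm_πL_iF, hx', smul_zero, zero_add, map_zero] at h1
      exact f1_ext F' (h1.trans (zero_smul B _).symm)
    rw [hs, zero_smul, add_zero] at hv
    obtain ⟨c, hc⟩ := (smul_iF_eq_zero F' n r).1 hv
    have hτ : τF F' = τF F := by rw [τF, τF, et_zF η]
    rw [hτ] at hc
    rw [(smul_iF_eq_zero F n r).2 ⟨c, hc⟩, hs, zero_smul, add_zero]
  · intro v
    obtain ⟨r, s, rfl⟩ := exists_decomp F' hx' v
    exact ⟨r • iF F n + s • x, by rw [map_add, map_smul, map_smul, et_iF]⟩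

lemma isIso_of_bijective_module {M N : ModuleCat.{0} B} (f : M ⟶ N)
    (h : Function.Bijective f.hom) : IsIso f :=
  (LinearEquiv.ofBijective f.hom h).toModuleIso.isIso_hom

/-- Monoidal transformations of cocontinuous functors are isomorphisms. -/
lemma et_isIso : IsIso η := by
  have : ∀ M, IsIso (η.app M) := by
    intro M
    apply isIso_of_generators F F' η
    intro n r
    apply isIso_of_bijective_module
    exact et_tensor_bijective η (et_L_bijective η n) (et_Q_bijective η (2 ^ r - 1))
  exact NatIso.isIso_of_isIso_app η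

end TannakaNil
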