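import Pool.Agent.Helper10.Tannaka.Obj

/-!
# Morphisms between some quasi-coherent sheaves on the classifying stack of `G₀`
-/

open CategoryTheory Opposite Limits MonoidalCategory TensorProduct Polynomial

namespace TannakaNil

open Base

/-- The algebra of polynomials in `y`. -/
noncomputable def O : QCoh X0 := dataO.toQCoh
/-- Polynomials of degree at most `i`. -/
noncomputable def Q (i : ℕ) : QCoh X0 := (dataQ i).toQCoh
/-- The structure sheaf modulo `t^n`. -/
noncomputable def K (n : ℕ) : QCoh X0 := (dataK n).toQCoh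
/-- The sheaf generated by `x` and `1` with `t^n 1 = 0`. -/
noncomputable def L (n : ℕ) : QCoh X0 := (dataL n).toQCoh

/-- Sections of `O`. -/
noncomputable def sO (a : X0.Tot) : a.ring[X] ≃ₗ[a.ring] Sec O a := dataO.eq a
/-- Sections of `Q i`. -/
noncomputable def sQ (i : ℕ) (a : X0.Tot) : degreeLT a.ring (i + 1) ≃ₗ[a.ring] Sec (Q i) a :=
  (dataQ i).eq a
/-- Sections of `K n`. -/
noncomputable def sK (n : ℕ) (a : X0.Tot) : (a.ring ⧸ tI a.pt n) ≃ₗ[a.ring] Sec (K n) a :=
  (dataK n).eq a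
/-- Sections of `L n`. -/
noncomputable def sL (n : ℕ) (a : X0.Tot) :
    ((a.ring ⧸ tI a.pt n) × a.ring) ≃ₗ[a.ring] Sec (L n) a := (dataL n).eq a

section

variable {a c : X0.Tot} (φ : a ⟶ c)

lemma res_sO (p : c.ring[X]) : res O φ (sO c p) = sO a (polyMap φ p) := rfl
lemma res_sQ (i : ℕ) (p : degreeLT c.ring (i + 1)) :
    res (Q i) φ (sQ i c p) = sQ i a (polyMapLT φ i p) := rfl
lemma res_sK (n : ℕ) (x : c.ring ⧸ tI c.pt n) : res (K n) φ (sK n c x) = sK n a (kMap φ n x) := rfl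
lemma res_sL (n : ℕ) (v : (c.ring ⧸ tI c.pt n) × c.ring) :
    res (L n) φ (sL n c v) = sL n a (lMap φ n v) := rfl

end

/-- The inclusion. -/
noncomputable def inclQ {i j : ℕ} (h : i ≤ j) : Q i ⟶ Q j :=
  homMk (fun a => (sQ j a).toLinearMap.comp ((Submodule.inclusion
    (degreeLT_mono (Nat.succ_le_succ h))).comp (sQ i a).symm.toLinearMap)) (by
      intro a c φ m
      have h1 : (⟨(polyMapLT φ i m).1, degreeLT_mono (Nat.succ_le_succ h)
        (polyMapLT φ i m).2⟩ : degreeLT a.ring (j + 1)) =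
        polyMapLT φ j ⟨m.1, degreeLT_mono (Nat.succ_le_succ h) m.2⟩ := Subtype.ext rfl
      exact h1)

/-- The inclusion. -/
noncomputable def toO (i : ℕ) : Q i ⟶ O :=
  homMk (fun a => (sO a).toLinearMap.comp ((Submodule.subtype _).comp
    (sQ i a).symm.toLinearMap)) (fun _ _ => rfl)

@[simp] lemma sec_inclQ {i j : ℕ} (h : i ≤ j) (a : X0.Tot) (p : degreeLT a.ring (i + 1)) :
    sec (inclQ h) a (sQ i a p) = sQ j a ⟨p, degreeLT_mono (Nat.succ_le_succ h) p.2⟩ := rfl

@[simp] lemma sec_toO (i : ℕ) (a : X0.Tot) (p : degreeLT a.ring (i + 1)) :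
    sec (toO i) a (sQ i a p) = sO a p := rfl

lemma mul_mem_degreeLT {A : Type} [CommRing A] {i j : ℕ} {p q : A[X]}
    (hp : p ∈ degreeLT A (i + 1)) (hq : q ∈ degreeLT A (j + 1)) :
    p * q ∈ degreeLT A (i + j + 1) := by
  rw [degreeLT_succ_eq_degreeLE, mem_degreeLE] at hp hq ⊢
  refine (degree_mul_le _ _).trans ?_
  rw [Nat.cast_add]
  exact add_le_add hp hq

/-- The bilinear multiplication on polynomials of bounded degree. -/
noncomputable def mulLT (A : Type) [CommRing A] (i j : ℕ) :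
    degreeLT A (i + 1) ⊗[A] degreeLT A (j + 1) →ₗ[A] degreeLT A (i + j + 1) :=
  TensorProduct.lift (LinearMap.mk₂ A (fun p q => ⟨(p : A[X]) * q, mul_mem_degreeLT p.2 q.2⟩)
    (fun _ _ _ => Subtype.ext (add_mul _ _ _))
    (fun _ _ _ => Subtype.ext (smul_mul_assoc _ _ _))
    (fun _ _ _ => Subtype.ext (mul_add _ _ _))
    (fun _ _ _ => Subtype.ext (mul_smul_comm _ _ _)))

/-- Multiplication. -/
noncomputable def mulQ (i j : ℕ) : Q i ⊗ Q j ⟶ Q (i + j) :=
  homMk (fun a => (sQ (i + j) a).toLinearMap.comp (mulLT a.ring i j)) (by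
    intro a c φ m
    induction m using sec_induction with
    | zero => rw [map_zero, map_zero, map_zero, map_zero]
    | tmul m n => exact Subtype.ext (polyMap_mul φ _ _).symm
    | add x y hx hy => rw [map_add, map_add, hx, hy, map_add, map_add])

/-- Multiplication. -/
noncomputable def mulO : O ⊗ O ⟶ O :=
  homMk (fun a => (sO a).toLinearMap.comp (LinearMap.mul' a.ring a.ring[X])) (by
    intro a c φ m
    induction m using sec_induction with
    | zero => rw [map_zero, map_zero, map_zero, map_zero]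
    | tmul m n => exact (polyMap_mul φ _ _).symm
    | add x y hx hy => rw [map_add, map_add, hx, hy, map_add, map_add])

lemma sec_mulQ (i j : ℕ) (a : X0.Tot) (p : degreeLT a.ring (i + 1))
    (q : degreeLT a.ring (j + 1)) :
    sec (mulQ i j) a (tm (sQ i a p) (sQ j a q)) = sQ (i + j) a (mulLT a.ring i j (p ⊗ₜ q)) := rfl

lemma mulLT_val (A : Type) [CommRing A] (i j : ℕ) (p : degreeLT A (i + 1))
    (q : degreeLT A (j + 1)) : (mulLT A i j (p ⊗ₜ q) : A[X]) = p * q := rfl

section coeff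

variable {A : Type} [CommRing A]

lemma taylor_coeff_eq (i k : ℕ) (h : ∀ j, k < j → j ≤ i → ((j.choose k : ℕ) : A) = 0)
    (p : A[X]) (hp : p ∈ degreeLT A (i + 1)) (r : A) : (taylor r p).coeff k = p.coeff k := by
  rw [taylor_coeff]
  have : hasseDeriv k p = C (p.coeff k) := by
    ext n
    rw [hasseDeriv_coeff, coeff_C]
    split_ifs with hn
    · subst hn; simp
    · by_cases h1 : n + k ≤ i
      · rw [h (n + k) (by omega) h1, zero_mul]
      · have : p.coeff (n + k) = 0 := by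
          apply coeff_eq_zero_of_degree_lt
          rw [mem_degreeLT] at hp
          exact hp.trans_le (by exact_mod_cast (by omega))
        rw [this, mul_zero]
  rw [this, eval_C]

lemma choose_even (h2 : ∀ a : A, a + a = 0) (r j : ℕ) (h1 : 2 ^ r - 1 < j)
    (h3 : j ≤ 2 * (2 ^ r - 1)) : ((j.choose (2 ^ r - 1) : ℕ) : A) = 0 := by
  have hpos : 0 < 2 ^ r := by positivity
  obtain ⟨j', rfl⟩ : ∃ j', j = 2 ^ r + j' := ⟨j - 2 ^ r, by omega⟩
  have e1 : ((X : A[X]) + 1) ^ (2 ^ r + j') = X ^ 2 ^ r * (X + 1) ^ j' + (X + 1) ^ j' := by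
    have h4 : ∀ p : A[X], p + p = 0 := fun p => by
      ext n; rw [coeff_add, h2, coeff_zero]
    rw [pow_add, add_pow_char2 h4, one_pow]
    ring
  have e2 := congrArg (fun p => p.coeff (2 ^ r - 1)) e1
  simp only [coeff_add, coeff_X_add_one_pow] at e2
  rw [e2, coeff_X_pow_mul', if_neg (by omega), zero_add,
    Nat.choose_eq_zero_of_lt (by omega), Nat.cast_zero]

end coeff

lemma polyMap_coeff {a c : X0.Tot} (φ : a ⟶ c) (i k : ℕ)
    (h : ∀ j, k < j → j ≤ i → ((j.choose k : ℕ) : a.ring) = 0) (p : c.ring[X])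
    (hp : p ∈ degreeLT c.ring (i + 1)) :
    (polyMap φ p).coeff k = φ.1.hom (p.coeff k) := by
  rw [polyMap_apply, taylor_coeff_eq i k h, coeff_map]
  have h1 := (pmapLT φ.1.hom (i + 1) ⟨p, hp⟩).2
  exact h1

/-- The leading coefficient. -/
noncomputable def lead (i : ℕ) : Q i ⟶ 𝟙_ (QCoh X0) :=
  homMk (fun a => (secUnit a).toLinearMap.comp ((lcoeff a.ring i).comp
    ((Submodule.subtype _).comp (sQ i a).symm.toLinearMap))) (by
    intro a c φ m
    exact polyMap_coeff φ i i (fun j h1 h2 => absurd h1 (by omega)) _ m.2)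

/-- The middle coefficient. -/
noncomputable def midc (r : ℕ) : Q ((2 ^ r - 1) + (2 ^ r - 1)) ⟶ 𝟙_ (QCoh X0) :=
  homMk (fun a => (secUnit a).toLinearMap.comp ((lcoeff a.ring (2 ^ r - 1)).comp
    ((Submodule.subtype _).comp (sQ _ a).symm.toLinearMap))) (by
    intro a c φ m
    exact polyMap_coeff φ _ _ (fun j h1 h2 => choose_even (add_self_of a.pt) r j h1 (by omega))
      _ m.2)

@[simp] lemma sec_lead (i : ℕ) (a : X0.Tot) (p : degreeLT a.ring (i + 1)) :
    sec (lead i) a (sQ i a p) = secUnit a ((p : a.ring[X]).coeff i) := rfl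

@[simp] lemma sec_midc (r : ℕ) (a : X0.Tot) (p : degreeLT a.ring (_ + 1)) :
    sec (midc r) a (sQ _ a p) = secUnit a ((p : a.ring[X]).coeff (2 ^ r - 1)) := rfl

/-- The constant polynomials. -/
noncomputable def constLT (A : Type) [CommRing A] (i : ℕ) : A →ₗ[A] degreeLT A (i + 1) where
  toFun r := ⟨C r, by
    rw [mem_degreeLT]
    exact degree_C_le.trans_lt (by exact_mod_cast Nat.succ_pos i)⟩
  map_add' r s := Subtype.ext (map_add _ _ _)
  map_smul' r s := Subtype.ext (by simp [smul_eq_C_mul])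

/-- The unit. -/
noncomputable def unitQ (i : ℕ) : 𝟙_ (QCoh X0) ⟶ Q i :=
  homMk (fun a => (sQ i a).toLinearMap.comp ((constLT a.ring i).comp
    (secUnit a).symm.toLinearMap)) (by
    intro a c φ m
    have h1 : constLT a.ring i (φ.1.hom m) = polyMapLT φ i (constLT c.ring i m) :=
      Subtype.ext (polyMap_C φ m).symm
    exact h1)

@[simp] lemma sec_unitQ (i : ℕ) (a : X0.Tot) (r : a.ring) :
    sec (unitQ i) a (secUnit a r) = sQ i a (constLT a.ring i r) := rfl

/-- Multiplication by `t`. -/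
noncomputable def tmul (M : QCoh X0) (n : ℕ) : M ⟶ M :=
  homMk (fun a => LinearMap.lsmul a.ring (Sec M a) (tz a.pt ^ n)) (by
    intro a c φ m
    change tz a.pt ^ n • res M φ m = res M φ (tz c.pt ^ n • m)
    rw [map_smulₛₗ, map_pow]
    congr 2
    exact (congrArg (fun s => s.hom base₀.t) φ.2.2).symm)

@[simp] lemma sec_tmul (M : QCoh X0) (n : ℕ) (a : X0.Tot) (m : Sec M a) :
    sec (tmul M n) a m = tz a.pt ^ n • m := rfl

/-- The quotient map as a linear map. -/
noncomputable def mkL {A : CommRingCat.{0}} (z : base₀.R ⟶ A) (n : ℕ) : A →ₗ[A] A ⧸ tI z n where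
  toFun := Ideal.Quotient.mk _
  map_add' := map_add _
  map_smul' r x := by
    rw [smul_mk, smul_eq_mul, map_mul]; rfl

/-- The projection `𝒪 ⟶ 𝒪 / t^n`. -/
noncomputable def projK (n : ℕ) : 𝟙_ (QCoh X0) ⟶ K n :=
  homMk (fun a => (sK n a).toLinearMap.comp ((mkL a.pt n).comp (secUnit a).symm.toLinearMap)) (by
    intro a c φ m
    have h1 : mkL a.pt n (φ.1.hom m) = kMap φ n (mkL c.pt n m) := rfl
    exact h1)

@[simp] lemma sec_projK (n : ℕ) (a : X0.Tot) (r : a.ring) :
    sec (projK n) a (secUnit a r) = sK n a (Ideal.Quotient.mk _ r) := rfl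

/-- The inclusion of `𝒪 / t^n` in `L n`. -/
noncomputable def ιL (n : ℕ) : K n ⟶ L n :=
  homMk (fun a => (sL n a).toLinearMap.comp ((LinearMap.inl a.ring _ _).comp
    (sK n a).symm.toLinearMap)) (by
    intro a c φ m
    have h1 : ((kMap φ n m, 0) : (a.ring ⧸ tI a.pt n) × a.ring) = lMap φ n (m, 0) := by
      refine Prod.ext ?_ ?_
      · change _ = kMap φ n m + φ.1.hom 0 • xG a.pt n φ.2.1
        rw [map_zero, zero_smul, add_zero]
      · exact (map_zero _).symm
    exact h1)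

@[simp] lemma sec_ιL (n : ℕ) (a : X0.Tot) (x : a.ring ⧸ tI a.pt n) :
    sec (ιL n) a (sK n a x) = sL n a (x, 0) := rfl

/-- The projection of `L n`. -/
noncomputable def πL (n : ℕ) : L n ⟶ 𝟙_ (QCoh X0) :=
  homMk (fun a => (secUnit a).toLinearMap.comp ((LinearMap.snd a.ring _ _).comp
    (sL n a).symm.toLinearMap)) (by
    intro a c φ m
    have h1 : ((lMap φ n m).2 : a.ring) = φ.1.hom m.2 := rfl
    exact h1)

@[simp] lemma sec_πL (n : ℕ) (a : X0.Tot) (v : (a.ring ⧸ tI a.pt n) × a.ring) :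
    sec (πL n) a (sL n a v) = secUnit a v.2 := rfl

/-- The transition map as a linear map. -/
noncomputable def qtrL {A : CommRingCat.{0}} (z : base₀.R ⟶ A) (n : ℕ) :
    (A ⧸ tI z (n + 1)) →ₗ[A] A ⧸ tI z n where
  toFun := qtr z n
  map_add' := map_add _
  map_smul' r x := by
    rw [smul_mk, smul_mk, map_mul]; rfl

lemma qtrL_kMap {a c : X0.Tot} (φ : a ⟶ c) (n : ℕ) (x : c.ring ⧸ tI c.pt (n + 1)) :
    qtrL a.pt n (kMap φ (n + 1) x) = kMap φ n (qtrL c.pt n x) := by
  obtain ⟨x, rfl⟩ := Ideal.Quotient.mk_surjective x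
  rfl

/-- The transition map. -/
noncomputable def trK (n : ℕ) : K (n + 1) ⟶ K n :=
  homMk (fun a => (sK n a).toLinearMap.comp ((qtrL a.pt n).comp
    (sK (n + 1) a).symm.toLinearMap)) (by
    intro a c φ m
    exact qtrL_kMap φ n m)

@[simp] lemma sec_trK (n : ℕ) (a : X0.Tot) (x : a.ring ⧸ tI a.pt (n + 1)) :
    sec (trK n) a (sK (n + 1) a x) = sK n a (qtr a.pt n x) := rfl

/-- The transition map. -/
noncomputable def trL (n : ℕ) : L (n + 1) ⟶ L n :=
  homMk (fun a => (sL n a).toLinearMap.comp (((qtrL a.pt n).prodMap LinearMap.id).comp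
    (sL (n + 1) a).symm.toLinearMap)) (by
    intro a c φ m
    have h1 : ((qtrL a.pt n (lMap φ (n + 1) m).1, (lMap φ (n + 1) m).2) :
        (a.ring ⧸ tI a.pt n) × a.ring) = lMap φ n (qtrL c.pt n m.1, m.2) := by
      refine Prod.ext ?_ rfl
      change qtrL a.pt n (kMap φ (n + 1) m.1 + φ.1.hom m.2 • xG a.pt (n + 1) φ.2.1) =
        kMap φ n (qtrL c.pt n m.1) + φ.1.hom m.2 • xG a.pt n φ.2.1
      rw [map_add, qtrL_kMap, map_smul, ← xG_tr a.pt n]
      rfl
    exact h1)

@[simp] lemma sec_trL (n : ℕ) (a : X0.Tot) (v : (a.ring ⧸ tI a.pt (n + 1)) × a.ring) :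
    sec (trL n) a (sL (n + 1) a v) = sL n a (qtr a.pt n v.1, v.2) := rfl

/-- The universal object. -/
noncomputable abbrev oo : X0.Tot := ⟨base₀.R, 𝟙 base₀.R⟩

/-- The arrows to the universal object. -/
noncomputable def can (a : X0.Tot) (g : Gp a.pt) : a ⟶ oo := ⟨a.pt, ⟨g, Category.id_comp _⟩⟩

lemma can_comp {a c : X0.Tot} (φ : a ⟶ c) (g : Gp c.pt) :
    φ ≫ can c g = can a (φ.2.1 + Gp.map φ.1 φ.2.2 g) := by
  have h : ∀ (z : base₀.R ⟶ a.ring) (hz : c.pt ≫ φ.1 = z) (g' : Gp a.pt) (h1 : 𝟙 _ ≫ z = a.pt)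
      (h2 : z = a.pt), (⟨z, ⟨g', h1⟩⟩ : Σ f : base₀.R ⟶ a.ring, X0.Hom f a.pt (𝟙 base₀.R)) =
        ⟨a.pt, ⟨g', Category.id_comp _⟩⟩ := by
    intro z hz g' h1 h2
    subst h2
    rfl
  exact h _ rfl _ _ φ.2.2

/-- The canonical map from the sections over the universal object. -/
noncomputable abbrev rz (M : QCoh X0) (a : X0.Tot) := res M (can a 0)

lemma rz_univ (M : QCoh X0) (a : X0.Tot) : Univ (A := oo.ring) (B := a.ring) (rz M a) :=
  res_univ M (can a 0)

lemma res_rz (M : QCoh X0) {a c : X0.Tot} (φ : a ⟶ c) (m : Sec M oo) :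
    res M φ (rz M c m) = res M (can a φ.2.1) m := by
  rw [← res_comp, can_comp, map_zero, add_zero]

/-- Two linear maps out of the sections which agree on the canonical sections are equal. -/
lemma rz_ext (M : QCoh X0) (a : X0.Tot) {N : Type} [AddCommGroup N] [Module a.ring N]
    {f g : Sec M a →ₗ[a.ring] N} (h : ∀ m, f (rz M a m) = g (rz M a m)) : f = g :=
  (rz_univ M a).eq h

lemma hom_ext_oo {M N : QCoh X0} {f g : M ⟶ N} (h : ∀ m, sec f oo m = sec g oo m) : f = g := by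
  apply sec_ext
  intro a m
  have : sec f a = sec g a := rz_ext M a fun m => by rw [sec_res, sec_res, h]
  rw [this]

/-- Morphisms out of `𝒪 / t^n`. -/
noncomputable def kHomA {N : QCoh X0} {n : ℕ} (q : Sec N oo) (hq : base₀.t ^ n • q = 0)
    (a : X0.Tot) : (a.ring ⧸ tI a.pt n) →ₗ[a.ring] Sec N a :=
  Submodule.liftQ (tI a.pt n) (LinearMap.toSpanSingleton a.ring _ (rz N a q)) (by
    rw [Ideal.span_singleton_le_iff_mem]
    change (tz a.pt ^ n) • rz N a q = 0
    have h1 : (tz a.pt ^ n) • rz N a q = rz N a (base₀.t ^ n • q) := by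
      rw [map_smulₛₗ, map_pow]
      rfl
    rw [h1, hq, map_zero])

lemma kHomA_mk {N : QCoh X0} {n : ℕ} (q : Sec N oo) (hq : base₀.t ^ n • q = 0)
    (a : X0.Tot) (r : a.ring) : kHomA q hq a (Ideal.Quotient.mk _ r) = r • rz N a q := rfl

/-- Morphisms out of `L n`. -/
noncomputable def lHomA {N : QCoh X0} {n : ℕ} (p q : Sec N oo) (hq : base₀.t ^ n • q = 0)
    (a : X0.Tot) : ((a.ring ⧸ tI a.pt n) × a.ring) →ₗ[a.ring] Sec N a :=
  (kHomA q hq a).coprod (LinearMap.toSpanSingleton a.ring _ (rz N a p))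

lemma lHomA_apply {N : QCoh X0} {n : ℕ} (p q : Sec N oo) (hq : base₀.t ^ n • q = 0)
    (a : X0.Tot) (r s : a.ring) : lHomA p q hq a (Ideal.Quotient.mk _ r, s) =
      r • rz N a q + s • rz N a p := rfl

/-- A pair of sections over the universal object on which `G` acts as on the generators
`x` and `1` of `L n`. -/
structure IsL (N : QCoh X0) (n : ℕ) (p q : Sec N oo) : Prop where
  hq : base₀.t ^ n • q = 0
  inv_q : ∀ (a : X0.Tot) (g : Gp a.pt), res N (can a g) q = rz N a q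
  inv_p : ∀ (a : X0.Tot) (g : Gp a.pt) (s : a.ring), Ideal.Quotient.mk _ s = xG a.pt n g →
    res N (can a g) p = rz N a p + s • rz N a q

/-- Morphisms out of `L n`. -/
noncomputable def lHom {N : QCoh X0} {n : ℕ} {p q : Sec N oo} (h : IsL N n p q) : L n ⟶ N :=
  homMk (fun a => (lHomA p q h.hq a).comp (sL n a).symm.toLinearMap) (by
    rintro a c φ ⟨r, s⟩
    obtain ⟨r, rfl⟩ := Ideal.Quotient.mk_surjective r
    obtain ⟨ξ, hξ⟩ := Ideal.Quotient.mk_surjective (xG a.pt n φ.2.1)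
    have h1 : lHomA p q h.hq a (lMap φ n (Ideal.Quotient.mk _ r, s)) =
        res N φ (lHomA p q h.hq c (Ideal.Quotient.mk _ r, s)) := by
      rw [lHomA_apply, map_add, map_smulₛₗ, map_smulₛₗ, res_rz, res_rz, h.inv_q,
        h.inv_p a _ ξ hξ]
      have h2 : lMap φ n (Ideal.Quotient.mk _ r, s) =
          (Ideal.Quotient.mk _ (φ.1.hom r + φ.1.hom s * ξ), φ.1.hom s) := by
        refine Prod.ext ?_ rfl
        change kMap φ n (Ideal.Quotient.mk _ r) + φ.1.hom s • xG a.pt n φ.2.1 = _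
        rw [← hξ, map_add, map_mul, smul_mk]
        rfl
      rw [h2, lHomA_apply, add_smul, mul_smul, smul_add]
      abel
    exact h1)

lemma sec_lHom {N : QCoh X0} {n : ℕ} {p q : Sec N oo} (h : IsL N n p q) (a : X0.Tot)
    (r s : a.ring) : sec (lHom h) a (sL n a (Ideal.Quotient.mk _ r, s)) =
      r • rz N a q + s • rz N a p := rfl

/-- Morphisms out of `K n`. -/
noncomputable def kHom {N : QCoh X0} {n : ℕ} {q : Sec N oo} (hq : base₀.t ^ n • q = 0)
    (inv_q : ∀ (a : X0.Tot) (g : Gp a.pt), res N (can a g) q = rz N a q) : K n ⟶ N :=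
  homMk (fun a => (kHomA q hq a).comp (sK n a).symm.toLinearMap) (by
    intro a c φ r
    obtain ⟨r, rfl⟩ := Ideal.Quotient.mk_surjective r
    have h1 : kHomA q hq a (kMap φ n (Ideal.Quotient.mk _ r)) =
        res N φ (kHomA q hq c (Ideal.Quotient.mk _ r)) := by
      rw [kHomA_mk, map_smulₛₗ, res_rz, inv_q]
      rfl
    exact h1)

lemma sec_kHom {N : QCoh X0} {n : ℕ} {q : Sec N oo} (hq : base₀.t ^ n • q = 0)
    (inv_q : ∀ (a : X0.Tot) (g : Gp a.pt), res N (can a g) q = rz N a q) (a : X0.Tot)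
    (r : a.ring) : sec (kHom hq inv_q) a (sK n a (Ideal.Quotient.mk _ r)) = r • rz N a q := rfl

end TannakaNil
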