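import Pool.Agent.Helper10.Tannaka.Obj

/-!
# The comparison functor for `BG` is not faithful
-/

open CategoryTheory Opposite Limits MonoidalCategory TensorProduct Polynomial

namespace TannakaNil

open Base

section univ

variable {A B M M' : Type} [CommRing A] [CommRing B] [AddCommGroup M]
  [Module A M] [AddCommGroup M'] [Module B M'] {f : A →+* B}

lemma Univ.span_eq_top {u : M →ₛₗ[f] M'} (hu : Univ u) :
    Submodule.span B (Set.range u) = ⊤ := by
  have h1 : (Submodule.span B (Set.range u)).mkQ = 0 := by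
    apply hu.eq
    intro m
    rw [LinearMap.zero_apply, Submodule.mkQ_apply, Submodule.Quotient.mk_eq_zero]
    exact Submodule.subset_span ⟨m, rfl⟩
  rw [← Submodule.ker_mkQ (Submodule.span B (Set.range u)), h1, LinearMap.ker_zero]

/-- Multiplication by `δ` is injective on sections. -/
lemma Univ.delta_injective {u : M →ₛₗ[f] M'} (hu : Univ u) (l : B →+ A)
    (hl : ∀ a b, l (f a * b) = a * l b) (δ : B) (hδ : l δ = 1) {m : M} (h : δ • u m = 0) :
    m = 0 := by
  let _ : Algebra A B := f.toAlgebra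
  obtain ⟨g', hg', _⟩ := hu (B ⊗[A] M)
    { toFun := fun m => (1 : B) ⊗ₜ[A] m
      map_add' := fun x y => TensorProduct.tmul_add _ _ _
      map_smul' := fun r x => by
        rw [TensorProduct.tmul_smul, TensorProduct.smul_tmul', TensorProduct.smul_tmul']
        rfl }
  let l' : B →ₗ[A] A :=
    { toFun := l
      map_add' := l.map_add
      map_smul' := fun a b => hl a b }
  have h1 : δ ⊗ₜ[A] m = (0 : B ⊗[A] M) := by
    have h2 := congrArg g' h
    rw [map_smul, hg', map_zero] at h2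
    have h3 : δ • ((1 : B) ⊗ₜ[A] m) = δ ⊗ₜ[A] m := by
      rw [TensorProduct.smul_tmul', smul_eq_mul, mul_one]
    exact h3.symm.trans h2
  have h4 := congrArg (TensorProduct.lid A M ∘ LinearMap.rTensor M l') h1
  simp only [Function.comp_apply, LinearMap.rTensor_tmul, TensorProduct.lid_tmul, map_zero] at h4
  have h5 : l' δ = 1 := hδ
  rw [h5, one_smul] at h4
  exact h4

/-- The kernel of a localization of sections. -/
lemma Univ.localization {t : A} [Algebra A B] [IsLocalization.Away t B]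
    {u : M →ₛₗ[algebraMap A B] M'} (hu : Univ u) {m : M} (h : u m = 0) :
    ∃ k : ℕ, t ^ k • m = 0 := by
  obtain ⟨g', hg', _⟩ := hu (B ⊗[A] M)
    { toFun := fun m => (1 : B) ⊗ₜ[A] m
      map_add' := fun x y => TensorProduct.tmul_add _ _ _
      map_smul' := fun r x => by
        rw [TensorProduct.tmul_smul, TensorProduct.smul_tmul', TensorProduct.smul_tmul',
          Algebra.smul_def, smul_eq_mul] }
  have h1 : (1 : B) ⊗ₜ[A] m = (0 : B ⊗[A] M) := by
    have h2 := congrArg g' h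
    rw [hg', map_zero] at h2
    exact h2
  have h3 : IsLocalizedModule (Submonoid.powers t) (TensorProduct.mk A B M 1) :=
    (isLocalizedModule_iff_isBaseChange (Submonoid.powers t) B _).2
      (TensorProduct.isBaseChange A M B)
  obtain ⟨⟨s, k, hk⟩, hs⟩ := (IsLocalizedModule.eq_zero_iff (Submonoid.powers t)
    (TensorProduct.mk A B M 1)).1 h1
  refine ⟨k, ?_⟩
  subst hk
  exact hs

end univ

section expansion

variable {b : Base} (M : QCoh (bg b))

/-- Sections over the object given by `z`. -/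
def SA {A : CommRingCat.{0}} (z : b.R ⟶ A) : Type := Sec M (ob z)

noncomputable instance {A : CommRingCat.{0}} (z : b.R ⟶ A) : AddCommGroup (SA M z) :=
  inferInstanceAs (AddCommGroup (Sec M (ob z)))

noncomputable instance {A : CommRingCat.{0}} (z : b.R ⟶ A) : Module A (SA M z) :=
  secModule M (ob z)

/-- Restriction along an arrow. -/
noncomputable def rs {A B : CommRingCat.{0}} {x : b.R ⟶ A} {y : b.R ⟶ B} (f : B ⟶ A)
    (h : y ≫ f = x) (g : Gp x) : SA M y →ₛₗ[f.hom] SA M x := res M (arr f h g)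

lemma rs_univ {A B : CommRingCat.{0}} {x : b.R ⟶ A} {y : b.R ⟶ B} (f : B ⟶ A)
    (h : y ≫ f = x) (g : Gp x) : Univ (A := B) (B := A) (rs M f h g) :=
  res_univ M (arr f h g)

lemma rs_smul {A B : CommRingCat.{0}} {x : b.R ⟶ A} {y : b.R ⟶ B} (f : B ⟶ A)
    (h : y ≫ f = x) (g : Gp x) (r : B) (m : SA M y) :
    rs M f h g (r • m) = f.hom r • rs M f h g m := (rs M f h g).map_smulₛₗ r m

lemma rs_id {A : CommRingCat.{0}} (x : b.R ⟶ A) (h : x ≫ 𝟙 A = x) (m : SA M x) :
    rs M (𝟙 A) h 0 m = m := res_id M (ob x) m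

lemma rs_rs {A B C : CommRingCat.{0}} {x : b.R ⟶ A} {y : b.R ⟶ B} {w : b.R ⟶ C} (f : B ⟶ A)
    (h : y ≫ f = x) (g : Gp x) (f' : C ⟶ B) (h' : w ≫ f' = y) (g' : Gp y) (k : C ⟶ A)
    (hk : f' ≫ f = k) (m : SA M w) :
    rs M f h g (rs M f' h' g' m) = rs M k (by rw [← hk, ← Category.assoc, h', h])
      (g + Gp.map f h g') m := by
  subst hk
  exact (res_comp M (arr f h g) (arr f' h' g') m).symm

/-- Restriction of the sections over the base along the arrow given by the class of `(c, 0)`. -/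
noncomputable def tr {A : CommRingCat.{0}} (z : b.R ⟶ A) (c : A) :
    SA M (𝟙 b.R) →ₛₗ[z.hom] SA M z :=
  rs M z (Category.id_comp z) (Gp.mk z (c, 0))

lemma tr_univ {A : CommRingCat.{0}} (z : b.R ⟶ A) (c : A) :
    Univ (A := b.R) (B := A) (tr M z c) := rs_univ M _ _ _

lemma tr_smul {A : CommRingCat.{0}} (z : b.R ⟶ A) (c : A) (r : b.R) (m : SA M (𝟙 b.R)) :
    tr M z c (r • m) = z.hom r • tr M z c m := (tr M z c).map_smulₛₗ r m

lemma mk_zero {A : CommRingCat.{0}} (z : b.R ⟶ A) : Gp.mk z (0, 0) = 0 := map_zero (Gp.mk z)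

lemma rs_tr {A B : CommRingCat.{0}} (z : b.R ⟶ A) (f : A ⟶ B) (z' : b.R ⟶ B)
    (h : z ≫ f = z') (c' : B) (c : A) (m : SA M (𝟙 b.R)) :
    rs M f h (Gp.mk z' (c', 0)) (tr M z c m) = tr M z' (c' + f.hom c) m := by
  unfold tr
  rw [rs_rs M f h _ z _ _ z' h]
  congr 2
  rw [Gp.map_mk, ← map_add]
  congr 1
  ext <;> simp

lemma tr_base_zero (m : SA M (𝟙 b.R)) : tr M (𝟙 b.R) 0 m = m := by
  unfold tr
  rw [mk_zero]
  exact rs_id M _ _ m

lemma tr_tr {A : CommRingCat.{0}} (z : b.R ⟶ A) (c' : A) (c : b.R) (m : SA M (𝟙 b.R)) :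
    tr M z c' (tr M (𝟙 b.R) c m) = tr M z (c' + z.hom c) m :=
  rs_tr M (𝟙 b.R) z z (Category.id_comp z) c' c m

lemma exists_expansion_aux {P : CommRingCat.{0}} (zX : b.R ⟶ P) (x : P)
    (hP : ∀ p : P, ∃ q : (b.R : Type)[X], p = q.eval₂ zX.hom x) (w : SA M zX) :
    ∃ F : ℕ →₀ SA M (𝟙 b.R), w = F.sum fun i v => x ^ i • tr M zX 0 v := by
  let Φ : (ℕ →₀ SA M (𝟙 b.R)) →+ SA M zX := Finsupp.liftAddHom (fun i =>
    (DistribSMul.toAddMonoidHom (SA M zX) (x ^ i)).comp (tr M zX 0).toAddMonoidHom)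
  have hΦ : ∀ i v, Φ (Finsupp.single i v) = x ^ i • tr M zX 0 v := by
    intro i v
    exact Finsupp.liftAddHom_apply_single _ _ _
  have h0 : w ∈ Submodule.span P (Set.range (tr M zX 0)) := by
    rw [(tr_univ M zX 0).span_eq_top]
    exact Submodule.mem_top
  have h1 : ∀ (p : P) (F : ℕ →₀ SA M (𝟙 b.R)), p • Φ F ∈ Φ.range := by
    intro p F
    induction F using Finsupp.induction_linear with
    | zero => rw [map_zero, smul_zero]; exact zero_mem _
    | add f g hf hg => rw [map_add, smul_add]; exact add_mem hf hg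
    | single i v =>
      obtain ⟨q, rfl⟩ := hP p
      rw [hΦ, eval₂_eq_sum, Polynomial.sum_def, Finset.sum_smul]
      refine sum_mem fun n _ => ⟨Finsupp.single (n + i) (q.coeff n • v), ?_⟩
      rw [hΦ, tr_smul, ← mul_smul, ← mul_smul]
      congr 1
      ring
  have h2 : w ∈ Φ.range := by
    induction h0 using Submodule.span_induction with
    | mem w hw =>
      obtain ⟨v, rfl⟩ := hw
      exact ⟨Finsupp.single 0 v, by rw [hΦ, pow_zero, one_smul]⟩
    | zero => exact zero_mem _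
    | add v w _ _ hv hw => exact add_mem hv hw
    | smul p w _ hw =>
      obtain ⟨F, rfl⟩ := hw
      exact h1 p F
  obtain ⟨F, rfl⟩ := h2
  exact ⟨F, rfl⟩

lemma exists_expansion (m : SA M (𝟙 b.R)) : ∃ F : ℕ →₀ SA M (𝟙 b.R),
    ∀ {A : CommRingCat.{0}} (z : b.R ⟶ A)
    (c : A), tr M z c m = F.sum fun i v => c ^ i • tr M z 0 v := by
  let P : CommRingCat.{0} := CommRingCat.of (b.R : Type)[X]
  let zX : b.R ⟶ P := CommRingCat.ofHom (C : b.R →+* (b.R : Type)[X])
  let x : P := (X : (b.R : Type)[X])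
  obtain ⟨F, hF⟩ := exists_expansion_aux M zX x
    (fun p => ⟨p, (eval₂_C_X (p := p)).symm⟩) (tr M zX x m)
  refine ⟨F, fun {A} z c => ?_⟩
  let f : P ⟶ A := CommRingCat.ofHom (eval₂RingHom z.hom c)
  have hf : zX ≫ f = z := by
    ext r
    exact eval₂_C z.hom c
  have hx : f.hom x = c := eval₂_X z.hom c
  have h3 := rs_tr M zX f z hf 0 x m
  rw [zero_add, hx, hF] at h3
  rw [← h3, map_finsuppSum]
  apply Finsupp.sum_congr
  intro i _
  rw [rs_smul, rs_tr, map_pow, hx, map_zero, add_zero]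

lemma one_add_pow_of_sq {A : Type} [CommRing A] {c : A} (hc : c * c = 0) (i : ℕ) :
    (1 + c) ^ i = 1 + (i : A) * c := by
  induction i with
  | zero => simp
  | succ i ih =>
    rw [pow_succ, ih]
    push_cast
    linear_combination (i : A) * hc

lemma exists_expansion₂ (m : SA M (𝟙 b.R)) : ∃ m₁ κ : SA M (𝟙 b.R),
    (∀ {A : CommRingCat.{0}} (z : b.R ⟶ A) (c : A) (_ : c * c = 0),
      tr M z c m = tr M z 0 m + c • tr M z 0 m₁) ∧
    (∀ {A : CommRingCat.{0}} (z : b.R ⟶ A) (c : A) (_ : c * c = 0),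
      tr M z (1 + c) m = tr M z 1 m + c • tr M z 0 κ) := by
  obtain ⟨F, hF⟩ := exists_expansion M m
  have h0 : F 0 = m := by
    have h1 := hF (𝟙 b.R) 0
    rw [tr_base_zero] at h1
    rw [h1, Finsupp.sum, Finset.sum_eq_single 0]
    · rw [pow_zero, one_smul, tr_base_zero]
    · intro i _ hi
      rw [zero_pow hi, zero_smul]
    · intro h
      rw [Finsupp.notMem_support_iff.1 h, map_zero, smul_zero]
  refine ⟨F 1, F.sum fun i v => i • v, fun {A} z c hc => ?_, fun {A} z c hc => ?_⟩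
  · rw [hF, Finsupp.sum_of_support_subset F (s := F.support ∪ {0, 1})
      Finset.subset_union_left]
    · rw [← Finset.sum_subset (s₁ := {0, 1}) Finset.subset_union_right]
      · rw [Finset.sum_pair (by norm_num), h0, pow_zero, one_smul, pow_one]
      · intro i _ hi
        simp only [Finset.mem_insert, Finset.mem_singleton, not_or] at hi
        obtain ⟨k, rfl⟩ : ∃ k, i = k + 2 := ⟨i - 2, by omega⟩
        have : c ^ (k + 2) = 0 := by
          rw [pow_add, pow_two, hc, mul_zero]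
        rw [this, zero_smul]
    · intro i _
      rw [map_zero, smul_zero]
  · have h1 : tr M z 1 m = F.sum fun i v => tr M z 0 v := by
      rw [hF]
      apply Finsupp.sum_congr
      intro i _
      rw [one_pow, one_smul]
    rw [h1, hF, map_finsuppSum, Finsupp.smul_sum, ← Finsupp.sum_add]
    apply Finsupp.sum_congr
    intro i _
    rw [one_add_pow_of_sq hc, add_smul, one_smul, map_nsmul, mul_comm, mul_smul, Nat.cast_smul_eq_nsmul]

lemma kappa_eq_aux {m m₁ κ : SA M (𝟙 b.R)}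
    (h1 : ∀ {A : CommRingCat.{0}} (z : b.R ⟶ A) (c : A) (_ : c * c = 0),
      tr M z c m = tr M z 0 m + c • tr M z 0 m₁)
    (h2 : ∀ {A : CommRingCat.{0}} (z : b.R ⟶ A) (c : A) (_ : c * c = 0),
      tr M z (1 + c) m = tr M z 1 m + c • tr M z 0 κ)
    {D : CommRingCat.{0}} (z : b.R ⟶ D) (δ : D) (hδ : δ * δ = 0)
    (hinj : ∀ v : SA M (𝟙 b.R), δ • tr M z 0 v = 0 → v = 0) : κ = tr M (𝟙 b.R) 1 m₁ := by
  have e1 := rs_tr M z (𝟙 D) z (Category.comp_id z) 1 δ m
  rw [h1 z δ hδ, map_add, rs_smul, rs_tr, rs_tr] at e1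
  have e2 : (𝟙 D : D ⟶ D).hom δ = δ := rfl
  rw [e2, h2 z δ hδ, map_zero, add_zero] at e1
  have e3 := tr_tr M z 0 1 m₁
  rw [map_one, zero_add] at e3
  have e4 : δ • tr M z 0 (κ - tr M (𝟙 b.R) 1 m₁) = 0 := by
    rw [map_sub, smul_sub, e3, sub_eq_zero]
    exact (add_left_cancel e1).symm
  exact sub_eq_zero.1 (hinj _ e4)

lemma eq_zero_of_delta {D : CommRingCat.{0}} (z : b.R ⟶ D) (l : D →+ b.R)
    (hl : ∀ (a : b.R) (c : D), l (z.hom a * c) = a * l c) (δ : D) (hδ : l δ = 1)
    (v : SA M (𝟙 b.R)) (h : δ • tr M z 0 v = 0) : v = 0 :=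
  (tr_univ M z 0).delta_injective l hl δ hδ h

lemma eq_zero_of_localization {L : CommRingCat.{0}} (z : b.R ⟶ L)
    (hz : @IsLocalization.Away _ _ b.t L _ z.hom.toAlgebra)
    (v : SA M (𝟙 b.R)) (h : tr M z 0 v = 0) : ∃ k : ℕ, b.t ^ k • v = 0 := by
  let _ : Algebra b.R L := z.hom.toAlgebra
  exact Univ.localization (tr_univ M z 0) h

lemma kappa_eq {m m₁ κ : SA M (𝟙 b.R)}
    (h1 : ∀ {A : CommRingCat.{0}} (z : b.R ⟶ A) (c : A) (_ : c * c = 0),
      tr M z c m = tr M z 0 m + c • tr M z 0 m₁)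
    (h2 : ∀ {A : CommRingCat.{0}} (z : b.R ⟶ A) (c : A) (_ : c * c = 0),
      tr M z (1 + c) m = tr M z 1 m + c • tr M z 0 κ) : κ = tr M (𝟙 b.R) 1 m₁ := by
  refine kappa_eq_aux M h1 h2 (D := CommRingCat.of (DualNumber (b.R : Type)))
    (CommRingCat.ofHom (TrivSqZeroExt.inlHom (b.R : Type) (b.R : Type)))
    (DualNumber.eps : DualNumber (b.R : Type)) DualNumber.eps_mul_eps ?_
  intro v hv
  refine eq_zero_of_delta M _ (TrivSqZeroExt.sndHom (b.R : Type)
    (b.R : Type)).toAddMonoidHom (fun a c => ?_) _ ?_ v hv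
  · change TrivSqZeroExt.snd (TrivSqZeroExt.inl a * c) = a * TrivSqZeroExt.snd c
    simp
  · exact DualNumber.snd_eps

/-- The key relation. -/
lemma exists_relation_aux (m : SA M (𝟙 b.R)) {L : CommRingCat.{0}} (z : b.R ⟶ L) (s : L)
    (hs : z.hom b.t * s = 1)
    (hL : ∀ v : SA M (𝟙 b.R), tr M z 0 v = 0 → ∃ k : ℕ, b.t ^ k • v = 0) :
    ∃ (m₁ y : SA M (𝟙 b.R)) (k : ℕ),
    (∀ {A : CommRingCat.{0}} (z : b.R ⟶ A) (c : A) (_ : c * c = 0),
      tr M z c m = tr M z 0 m + c • tr M z 0 m₁) ∧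
    b.t ^ k • (b.e • m₁) = b.t ^ (k + 1) • y := by
  obtain ⟨m₁, κ, h1, h2⟩ := exists_expansion₂ M m
  obtain ⟨m₂, κ', h1', h2'⟩ := exists_expansion₂ M m₁
  have hκ := kappa_eq M h1 h2
  obtain ⟨c, rfl⟩ : ∃ c, c = z.hom b.e * s := ⟨_, rfl⟩
  have hc : (z.hom b.e * s) * (z.hom b.e * s) = 0 := by
    have := sq_of z
    linear_combination s ^ 2 * this
  have htc : z.hom b.t * (z.hom b.e * s) = z.hom b.e := by
    linear_combination z.hom b.e * hs
  have hec : z.hom b.e * (z.hom b.e * s) = 0 := by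
    have := sq_of z
    linear_combination s * this
  have key : ∀ v : SA M (𝟙 b.R), tr M z (1 + z.hom b.e * s) v = tr M z 0 v := by
    intro v
    unfold tr
    congr 2
    rw [Gp.mk_eq_mk]
    refine ⟨s, ?_⟩
    rw [rel_apply]
    ext
    · change (z.hom b.t + z.hom b.e) * s = 1 + z.hom b.e * s - 0
      linear_combination hs
    · change z.hom b.t * s ^ 2 + s = 0 - 0
      have := add_self_of z s
      linear_combination s * hs + this
  -- the first relation for `m` and `m₁`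
  have r1 : tr M z 0 m = tr M z 1 m + (z.hom b.e * s) • tr M z 0 κ := by rw [← h2 z _ hc, key]
  have r2 : tr M z 0 m₁ = tr M z 1 m₁ + (z.hom b.e * s) • tr M z 0 κ' := by
    rw [← h2' z _ hc, key]
  have t1 : ∀ v, tr M z 0 (tr M (𝟙 b.R) 1 v) = tr M z 1 v := fun v => by
    have e3 := tr_tr M z 0 1 v
    rw [map_one, zero_add] at e3
    exact e3
  have r3 : z.hom b.e • tr M z 0 m₁ = z.hom b.e • tr M z 0 κ := by
    rw [r2, smul_add, ← mul_smul, hec, zero_smul, add_zero, hκ, t1]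
  have r4 : tr M z 0 (b.t • (m - tr M (𝟙 b.R) 1 m) - b.e • m₁) = 0 := by
    rw [map_sub, tr_smul, tr_smul, map_sub, t1, r3, r1, add_sub_cancel_left, ← mul_smul, htc,
      sub_self]
  obtain ⟨k, hk⟩ := hL _ r4
  refine ⟨m₁, m - tr M (𝟙 b.R) 1 m, k, h1, ?_⟩
  rw [smul_sub, sub_eq_zero] at hk
  rw [← hk, ← mul_smul, pow_succ]

/-- The key relation. -/
lemma exists_relation (m : SA M (𝟙 b.R)) : ∃ (m₁ y : SA M (𝟙 b.R)) (k : ℕ),
    (∀ {A : CommRingCat.{0}} (z : b.R ⟶ A) (c : A) (_ : c * c = 0),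
      tr M z c m = tr M z 0 m + c • tr M z 0 m₁) ∧
    b.t ^ k • (b.e • m₁) = b.t ^ (k + 1) • y := by
  refine exists_relation_aux M m (L := CommRingCat.of (Localization.Away (b.t : b.R)))
    (CommRingCat.ofHom (algebraMap (b.R : Type) (Localization.Away (b.t : b.R))))
    (IsLocalization.Away.invSelf (S := Localization.Away (b.t : b.R)) (b.t : b.R))
    (IsLocalization.Away.mul_invSelf (b.t : b.R)) ?_
  intro v hv
  refine eq_zero_of_localization M _ ?_ v hv
  have i : IsLocalization.Away (b.t : b.R) (Localization.Away (b.t : b.R)) := inferInstance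
  have e : (algebraMap (b.R : Type) (Localization.Away (b.t : b.R))).toAlgebra =
      (inferInstance : Algebra (b.R : Type) (Localization.Away (b.t : b.R))) :=
    Algebra.algebra_ext _ _ (fun _ => rfl)
  exact Eq.mpr (congrArg (fun a : Algebra (b.R : Type) (Localization.Away (b.t : b.R)) =>
    @IsLocalization.Away (b.R : Type) _ (b.t : b.R) (Localization.Away (b.t : b.R)) _ a) e) i

/-- The automorphism given by the class of `(e a, 0)` acts trivially if `a` is killed by `t` and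
infinitely divisible by `t`. -/
lemma trivial_action {A : CommRingCat.{0}} (z : b.R ⟶ A) (a : A) (ha : z.hom b.t * a = 0)
    (hdiv : ∀ k : ℕ, ∃ c : A, a = z.hom b.t ^ k * c) (h : z ≫ 𝟙 A = z) (v : SA M z) :
    rs M (𝟙 A) h (Gp.mk z (z.hom b.e * a, 0)) v = v := by
  have hsq : (z.hom b.e * a) * (z.hom b.e * a) = 0 := by
    linear_combination a ^ 2 * sq_of z
  have h1 : ∀ m : SA M (𝟙 b.R), rs M (𝟙 A) h (Gp.mk z (z.hom b.e * a, 0)) (tr M z 0 m) =
      tr M z 0 m := by
    intro m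
    rw [rs_tr, map_zero, add_zero]
    obtain ⟨m₁, y, k, h1, h2⟩ := exists_relation M m
    rw [h1 z _ hsq]
    obtain ⟨c, hc⟩ := hdiv k
    have h3 : (z.hom b.e * a) • tr M z 0 m₁ = 0 := by
      have h4 : (z.hom b.e * a) • tr M z 0 m₁ = c • tr M z 0 (b.t ^ k • (b.e • m₁)) := by
        rw [tr_smul, tr_smul, ← mul_smul, ← mul_smul, map_pow]
        congr 1
        linear_combination z.hom b.e * hc
      rw [h4, h2, tr_smul, ← mul_smul, map_pow]
      have h5 : c * z.hom b.t ^ (k + 1) = 0 := by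
        linear_combination ha - z.hom b.t * hc
      rw [h5, zero_smul]
    rw [h3, add_zero]
  have h2 : (rs M (𝟙 A) h (Gp.mk z (z.hom b.e * a, 0)) : SA M z →ₗ[A] SA M z) =
      LinearMap.id := (tr_univ M z 0).eq h1
  exact congrArg (fun l => l v) h2

end expansion

section bad

/-- The ring `F₂[t, ε]`. -/
abbrev RR : Type := DualNumber (ZMod 2)[X]

/-- The element `t`. -/
noncomputable abbrev tt : RR := TrivSqZeroExt.inl X

lemma tt_pow (n : ℕ) : tt ^ n = TrivSqZeroExt.inl (X ^ n) := TrivSqZeroExt.inl_pow _ _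

/-- The module `R[1/t] / R` and the elements `1 / t ^ (k + 1)`. -/
lemma exists_module : ∃ (N : Type) (_ : AddCommGroup N) (_ : Module RR N) (n : ℕ → N),
    tt • n 0 = 0 ∧ (∀ k, tt ^ k • n k = n 0) ∧ (DualNumber.eps : RR) • n 0 ≠ 0 := by
  have h := IsLocalization.Away.mul_invSelf (S := Localization.Away tt) tt
  refine ⟨Localization.Away tt ⧸ LinearMap.range (Algebra.linearMap RR (Localization.Away tt)),
    inferInstance, inferInstance, fun k => Submodule.Quotient.mk
      ((IsLocalization.Away.invSelf (S := Localization.Away tt) tt) ^ (k + 1)), ?_, ?_, ?_⟩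
  · rw [← Submodule.Quotient.mk_smul, Submodule.Quotient.mk_eq_zero, zero_add, pow_one,
      Algebra.smul_def, h]
    exact ⟨1, (algebraMap RR (Localization.Away tt)).map_one⟩
  · intro k
    dsimp only
    rw [← Submodule.Quotient.mk_smul, zero_add, pow_one, Algebra.smul_def, pow_succ,
      ← mul_assoc, map_pow, ← mul_pow, h, one_pow, one_mul]
  · intro h0
    rw [← Submodule.Quotient.mk_smul, Submodule.Quotient.mk_eq_zero, zero_add, pow_one,
      Algebra.smul_def] at h0
    obtain ⟨r, hr⟩ := h0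
    have h1 : algebraMap RR (Localization.Away tt) (tt * r) =
        algebraMap RR (Localization.Away tt) DualNumber.eps := by
      rw [map_mul]
      rw [Algebra.linearMap_apply] at hr
      rw [hr]
      linear_combination (algebraMap RR (Localization.Away tt) DualNumber.eps) * h
    obtain ⟨⟨c, n, rfl⟩, hc⟩ := IsLocalization.exists_of_eq (M := Submonoid.powers tt)
      (S := Localization.Away tt) h1
    have h2 := congrArg TrivSqZeroExt.snd hc
    simp only [tt_pow] at h2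
    have h3 : (X : (ZMod 2)[X]) ^ n * (X * TrivSqZeroExt.snd r) = X ^ n * 1 := by
      simpa using h2
    have h4 := mul_left_cancel₀ (pow_ne_zero n X_ne_zero) h3
    have h5 := congrArg (eval 0) h4
    simp at h5

section

variable (N : Type) [AddCommGroup N] [Module RR N] [Module RRᵐᵒᵖ N] [IsCentralScalar RR N]

/-- The base of the counterexample to faithfulness. -/
noncomputable def badBase : Base where
  R := CommRingCat.of (TrivSqZeroExt RR N)
  t := (TrivSqZeroExt.inl tt : TrivSqZeroExt RR N)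
  e := (TrivSqZeroExt.inl DualNumber.eps : TrivSqZeroExt RR N)
  two := by
    have h : (2 : RR) = 0 := base₁.two
    have h2 := map_ofNat (TrivSqZeroExt.inlHom RR N) 2
    have : (2 : TrivSqZeroExt RR N) = 0 := by
      rw [← h2]
      exact (congrArg _ h).trans (map_zero _)
    exact this
  sq := by
    have : (TrivSqZeroExt.inl DualNumber.eps : TrivSqZeroExt RR N) *
        TrivSqZeroExt.inl DualNumber.eps = 0 := by
      rw [TrivSqZeroExt.inl_mul_inl, DualNumber.eps_mul_eps, TrivSqZeroExt.inl_zero]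
    exact this

/-- The morphism to the base `F₂[t, ε]`. -/
noncomputable def badHom : BaseHom base₁ (badBase N) where
  φ := CommRingCat.ofHom (TrivSqZeroExt.inlHom RR N)
  map_t := rfl
  map_e := rfl

/-- The element of the ring given by an element of the module. -/
noncomputable def aaN (x : N) : (badBase N).R := (TrivSqZeroExt.inr x : TrivSqZeroExt RR N)

variable {N} (n : ℕ → N)

lemma t_aa (h : tt • n 0 = 0) : (badBase N).t * aaN N (n 0) = 0 := by
  have : (TrivSqZeroExt.inl tt : TrivSqZeroExt RR N) * TrivSqZeroExt.inr (n 0) = 0 := by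
    rw [TrivSqZeroExt.inl_mul_inr, h, TrivSqZeroExt.inr_zero]
  exact this

lemma div_aa (k : ℕ) (h : tt ^ k • n k = n 0) : ∃ c : (badBase N).R,
    aaN N (n 0) = (badBase N).t ^ k * c := by
  refine ⟨aaN N (n k), ?_⟩
  have : (TrivSqZeroExt.inr (n 0) : TrivSqZeroExt RR N) =
      (TrivSqZeroExt.inl tt : TrivSqZeroExt RR N) ^ k * TrivSqZeroExt.inr (n k) := by
    rw [TrivSqZeroExt.inl_pow, TrivSqZeroExt.inl_mul_inr, h]
  exact this

lemma e_aa (h : (DualNumber.eps : RR) • n 0 ≠ 0) : (badBase N).e * aaN N (n 0) ≠ 0 := by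
  have : (TrivSqZeroExt.inl DualNumber.eps : TrivSqZeroExt RR N) *
      TrivSqZeroExt.inr (n 0) ≠ 0 := by
    rw [TrivSqZeroExt.inl_mul_inr]
    intro h1
    have h2 := congrArg TrivSqZeroExt.snd h1
    rw [TrivSqZeroExt.snd_inr, TrivSqZeroExt.snd_zero] at h2
    exact h h2
  exact this

end

/-- An element which is not in the image of the relations. -/
lemma class_ne_zero (b : Base) (a : b.R) (h : b.e * a ≠ 0) : Gp.mk (𝟙 b.R) (b.e * a, 0) ≠ 0 := by
  intro h0
  rw [Gp.mk_eq_zero] at h0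
  obtain ⟨c, hc⟩ := h0
  have h1 : (b.t + b.e) * c = b.e * a := congrArg Prod.fst hc
  have h2 : b.t * c ^ 2 + c = 0 := congrArg Prod.snd hc
  have h3 := b.sq
  have h4 := add_self_of (𝟙 b.R)
  have h5 : c = b.e * (a * c + c ^ 2) := by
    linear_combination h2 - c * h1 - h4 (b.e * a * c)
  have h6 : c ^ 2 = 0 := by
    calc c ^ 2 = (b.e * (a * c + c ^ 2)) ^ 2 := by rw [← h5]
      _ = (b.e * b.e) * (a * c + c ^ 2) ^ 2 := by ring
      _ = 0 := by rw [h3, zero_mul]
  have h7 : c = 0 := by linear_combination h2 - b.t * h6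
  apply h
  rw [← h1, h7, mul_zero]

/-- NON-FAITHFUL, algebra -/
theorem exists_bad : ∃ (b' : Base) (h : BaseHom base₁ b') (α : Gp (𝟙 b'.R)), α ≠ 0 ∧
    ∀ (M : QCoh (bg base₁)) (m : Sec M ⟨b'.R, h.φ⟩),
      res M (a := ⟨b'.R, h.φ⟩) (b := ⟨b'.R, h.φ⟩)
        ⟨𝟙 b'.R, ⟨h.gp (𝟙 b'.R) (Category.comp_id _) α, Category.comp_id _⟩⟩ m = m := by
  obtain ⟨N, _, _, n, h1, h2, h3⟩ := exists_module
  let _ : Module RRᵐᵒᵖ N := Module.compHom N (RingEquiv.toOpposite RR).symm.toRingHom
  have : IsCentralScalar RR N := ⟨fun _ _ => rfl⟩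
  refine ⟨badBase N, badHom N, Gp.mk (𝟙 (badBase N).R) ((badBase N).e * aaN N (n 0), 0),
    class_ne_zero _ _ (e_aa n h3), ?_⟩
  intro M m
  exact trivial_action M (badHom N).φ (aaN N (n 0))
    (t_aa n h1) (fun k => div_aa n k (h2 k)) (Category.comp_id _) m

end bad

section faithful

variable {b b' : Base} (h : BaseHom b b')

lemma BaseHom.gp_map {A B : CommRingCat.{0}} (x : b'.R ⟶ A) (f : A ⟶ B) (y : b'.R ⟶ B)
    (hy : x ≫ f = y) (hy' : (h.φ ≫ x) ≫ f = h.φ ≫ y) (g : Gp x) :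
    h.gp y rfl (Gp.map f hy g) = Gp.map f hy' (h.gp x rfl g) := by
  induction g using Gp.ind with
  | h v => rfl

lemma BaseHom.gp_map' {A B : CommRingCat.{0}} (x : b'.R ⟶ A) (f : A ⟶ B) (y : b'.R ⟶ B)
    (hy : x ≫ f = y) {x' : b.R ⟶ A} {y' : b.R ⟶ B} (hx' : h.φ ≫ x = x') (hy' : h.φ ≫ y = y')
    (hf : x' ≫ f = y') (g : Gp x) :
    h.gp y hy' (Gp.map f hy g) = Gp.map f hf (h.gp x hx' g) := by
  induction g using Gp.ind with
  | h v => rfl

lemma gpHom_aux {A B : CommRingCat.{0}} (x : b'.R ⟶ A) (f : A ⟶ B) (y : b'.R ⟶ B)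
    (hy : x ≫ f = y) (hy' : (h.φ ≫ x) ≫ f = h.φ ≫ y) (h1 : (h.φ ≫ y) ≫ 𝟙 B = h.φ ≫ y)
    (α : Gp (𝟙 b'.R)) (g : Gp y) :
    h.gp y rfl (Gp.map y (Category.id_comp y) α) + Gp.map (𝟙 B) h1 (h.gp y rfl g) =
      h.gp y rfl g + Gp.map f hy' (h.gp x rfl (Gp.map x (Category.id_comp x) α)) := by
  rw [Gp.map_id, add_comm, ← h.gp_map x f y hy]
  congr 2
  exact (Gp.map_map x (Category.id_comp x) f hy y (Category.id_comp y) hy α).symm

/-- The 2-morphism given by an element of the group. -/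
def gpHom (α : Gp (𝟙 b'.R)) : h.toMor ⟶ h.toMor where
  app {A} t := ⟨h.gp t rfl (Gp.map t (Category.id_comp t) α), Category.comp_id _⟩
  naturality {A B f s t} φ := by
    apply Subtype.ext
    exact gpHom_aux h t f s φ.2 _ _ α φ.1

/-- NON-FAITHFUL -/
theorem not_faithful : ∃ b' : Base,
    ¬ (tannaka (bg b') (bg base₁) (bg_isFibredInGroupoids base₁)).Faithful := by
  obtain ⟨b', h, α, hα, htriv⟩ := exists_bad
  refine ⟨b', fun hf => hα ?_⟩
  have h1 : pullMap (gpHom h α) = 𝟙 (pull h.toMor) := by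
    apply NatTrans.ext
    funext M
    apply sec_ext
    intro a m
    have h2 : ∀ v : SA M h.φ, rs M (𝟙 b'.R) (Category.comp_id _)
        (h.gp (𝟙 b'.R) (Category.comp_id _) α) v = v := fun v => htriv M v
    have h3 : ∀ v : SA M (h.φ ≫ a.pt), rs M (𝟙 a.ring) (Category.comp_id _)
        (h.gp a.pt rfl (Gp.map a.pt (Category.id_comp a.pt) α)) v = v := by
      intro v
      have h4 : (rs M (𝟙 a.ring) (Category.comp_id _)
        (h.gp a.pt rfl (Gp.map a.pt (Category.id_comp a.pt) α)) :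
          SA M (h.φ ≫ a.pt) →ₗ[a.ring] SA M (h.φ ≫ a.pt)) = LinearMap.id := by
        apply (rs_univ M (x := h.φ ≫ a.pt) (y := h.φ) a.pt rfl 0).eq
        intro m
        have h5 := rs_rs M (x := h.φ ≫ a.pt) (y := h.φ ≫ a.pt) (w := h.φ) (𝟙 a.ring)
          (Category.comp_id _) (h.gp a.pt rfl (Gp.map a.pt (Category.id_comp a.pt) α)) a.pt rfl 0
          a.pt (Category.comp_id _) m
        have h6 := rs_rs M (x := h.φ ≫ a.pt) (y := h.φ) (w := h.φ) a.pt rfl 0 (𝟙 b'.R)
          (Category.comp_id _) (h.gp (𝟙 b'.R) (Category.comp_id _) α) a.pt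
          (Category.id_comp _) m
        rw [h2, zero_add] at h6
        rw [map_zero, add_zero] at h5
        refine h5.trans (Eq.trans ?_ h6.symm)
        congr 1
        rw [h.gp_map' (𝟙 b'.R) a.pt a.pt (Category.id_comp _) (Category.comp_id _) rfl rfl]
      exact congrArg (fun l => l v) h4
    exact h3 m
  have := (bg_isFibredInGroupoids base₁).isIso (gpHom h α)
  have h5 : pullMap (inv (gpHom h α)) = 𝟙 (pull h.toMor) := by
    have h6 := pullMap_comp (inv (gpHom h α)) (gpHom h α)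
    rw [IsIso.hom_inv_id, pullMap_id, h1] at h6
    rw [← Category.comp_id (pullMap (inv (gpHom h α))), ← h6]
  have h7 : (tannaka (bg b') (bg base₁) (bg_isFibredInGroupoids base₁)).map (gpHom h α) =
      (tannaka (bg b') (bg base₁) (bg_isFibredInGroupoids base₁)).map (𝟙 h.toMor) := by
    rw [CategoryTheory.Functor.map_id]
    apply TensorFunctor.hom_ext
    exact h5
  have h8 := hf.map_injective h7
  have h10 : Mor.Hom.app (gpHom h α) (𝟙 b'.R) = Mor.Hom.app (𝟙 h.toMor) (𝟙 b'.R) := by rw [h8]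
  have h9 : h.gp (𝟙 b'.R) rfl (Gp.map (𝟙 b'.R) (Category.id_comp _) α) = 0 :=
    congrArg Subtype.val h10
  rw [Gp.map_id] at h9
  exact (h.gp_bijective (𝟙 b'.R) rfl).1 (h9.trans (map_zero _).symm)

end faithful

end TannakaNil

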