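import Pool.Agent.Helper10.Tannaka.Stack

/-!
# Morphisms between the classifying stacks, and the nilpotent closed immersion
-/

open CategoryTheory Opposite Limits

universe u v

namespace TannakaNil

/-- A morphism of bases. -/
structure BaseHom (b b' : Base) where
  φ : b.R ⟶ b'.R
  map_t : φ.hom b.t = b'.t
  map_e : φ.hom b.e = b'.e

variable {b b' : Base} (h : BaseHom b b')

open Base

lemma BaseHom.rel_eq {A : CommRingCat.{0}} (x : b'.R ⟶ A) (c : A) :
    rel (h.φ ≫ x) c = rel x c := by
  have h1 : (h.φ ≫ x).hom b.t = x.hom b'.t := by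
    rw [← h.map_t]; rfl
  have h2 : (h.φ ≫ x).hom b.e = x.hom b'.e := by
    rw [← h.map_e]; rfl
  rw [rel_apply, rel_apply, h1, h2]

/-- The two groups are the same. -/
def BaseHom.gp {A : CommRingCat.{0}} (x : b'.R ⟶ A) {y : b.R ⟶ A} (hy : h.φ ≫ x = y) :
    Gp x →+ Gp y :=
  QuotientAddGroup.map (rel x).range (rel y).range (AddMonoidHom.id _) (by
    rintro _ ⟨c, rfl⟩
    subst hy
    exact ⟨c, h.rel_eq x c⟩)

@[simp] lemma BaseHom.gp_mk {A : CommRingCat.{0}} (x : b'.R ⟶ A) {y : b.R ⟶ A}
    (hy : h.φ ≫ x = y) (v : A × A) : h.gp x hy (Gp.mk x v) = Gp.mk y v := rfl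

lemma BaseHom.gp_bijective {A : CommRingCat.{0}} (x : b'.R ⟶ A) {y : b.R ⟶ A}
    (hy : h.φ ≫ x = y) : Function.Bijective (h.gp x hy) := by
  constructor
  · rw [injective_iff_map_eq_zero]
    intro g hg
    induction g using Gp.ind with
    | h v =>
      rw [BaseHom.gp_mk, Gp.mk_eq_zero] at hg
      obtain ⟨c, hc⟩ := hg
      subst hy
      rw [h.rel_eq] at hc
      rw [Gp.mk_eq_zero]
      exact ⟨c, hc⟩
  · intro g
    induction g using Gp.ind with
    | h v => exact ⟨Gp.mk x v, rfl⟩

/-- The morphism of classifying stacks induced by a morphism of bases. -/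
def BaseHom.toMor : Mor (bg b') (bg b) where
  obj x := h.φ ≫ x
  map {A B f x y} g := ⟨h.gp x rfl g.1, by rw [Category.assoc, g.2]⟩
  map_id x := by
    apply Subtype.ext
    exact map_zero _
  map_comp {A B C f g k} e {x y z} φ ψ := by
    apply Subtype.ext
    change h.gp x rfl (φ.1 + Gp.map g _ ψ.1) = h.gp x rfl φ.1 + Gp.map g _ (h.gp y rfl ψ.1)
    rw [map_add]
    congr 1
    obtain ⟨ψ, hψ⟩ := ψ
    induction ψ using Gp.ind with
    | h v => rfl

/-- The base `F₂[t]` with `e = 0`. -/
noncomputable def base₀ : Base where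
  R := CommRingCat.of (Polynomial (ZMod 2))
  t := (Polynomial.X : Polynomial (ZMod 2))
  e := (0 : Polynomial (ZMod 2))
  two := by
    have : (2 : Polynomial (ZMod 2)) = 0 := by
      have := CharP.cast_eq_zero (Polynomial (ZMod 2)) 2
      exact_mod_cast this
    exact this
  sq := mul_zero (0 : Polynomial (ZMod 2))

/-- The base `F₂[t, ε]` with `e = ε`, where `ε² = 0`. -/
noncomputable def base₁ : Base where
  R := CommRingCat.of (DualNumber (Polynomial (ZMod 2)))
  t := (TrivSqZeroExt.inl Polynomial.X : DualNumber (Polynomial (ZMod 2)))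
  e := (DualNumber.eps : DualNumber (Polynomial (ZMod 2)))
  two := by
    have h : (2 : Polynomial (ZMod 2)) = 0 := by
      have := CharP.cast_eq_zero (Polynomial (ZMod 2)) 2
      exact_mod_cast this
    have : (2 : DualNumber (Polynomial (ZMod 2))) = 0 := by
      have h2 := map_ofNat (TrivSqZeroExt.inlHom (Polynomial (ZMod 2)) (Polynomial (ZMod 2))) 2
      rw [← h2]
      exact (congrArg _ h).trans (map_zero _)
    exact this
  sq := DualNumber.eps_mul_eps

/-- The projection `ε ↦ 0`. -/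
noncomputable def baseHom : BaseHom base₁ base₀ where
  φ := CommRingCat.ofHom (TrivSqZeroExt.fstHom (Polynomial (ZMod 2)) (Polynomial (ZMod 2))
    (Polynomial (ZMod 2))).toRingHom
  map_t := rfl
  map_e := rfl

/-- The inclusion. -/
noncomputable def baseIncl : base₀.R ⟶ base₁.R :=
  CommRingCat.ofHom (TrivSqZeroExt.inlHom (Polynomial (ZMod 2)) (Polynomial (ZMod 2)))

lemma baseIncl_comp : baseIncl ≫ baseHom.φ = 𝟙 _ := rfl

lemma dual_aux {B : Type} [CommRing B] (x : DualNumber (Polynomial (ZMod 2)) →+* B)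
    (hx : x DualNumber.eps = 0) (a : DualNumber (Polynomial (ZMod 2))) :
    x (TrivSqZeroExt.inl (TrivSqZeroExt.fst a)) = x a := by
  conv_rhs => rw [← TrivSqZeroExt.inl_fst_add_inr_snd_eq a]
  have h1 : (TrivSqZeroExt.inr (TrivSqZeroExt.snd a) : DualNumber (Polynomial (ZMod 2))) =
      TrivSqZeroExt.inl (TrivSqZeroExt.snd a) * DualNumber.eps := by
    rw [DualNumber.eps, TrivSqZeroExt.inl_mul_inr]
    simp
  rw [map_add, h1, map_mul, hx, mul_zero, add_zero]

lemma baseHom_comp_eq {B : CommRingCat.{0}} (x : base₁.R ⟶ B) (hx : x.hom base₁.e = 0) :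
    baseHom.φ ≫ (baseIncl ≫ x) = x := by
  apply CommRingCat.hom_ext
  apply RingHom.ext
  intro a
  exact dual_aux x.hom hx a

/-- The morphism `X₀ ⟶ X` is a nilpotent closed immersion. -/
theorem isNilpotentClosedImmersion : IsNilpotentClosedImmersion baseHom.toMor := by
  constructor
  · intro A B f x y
    constructor
    · intro φ ψ e
      apply Subtype.ext
      exact (baseHom.gp_bijective x rfl).1 (congrArg Subtype.val e)
    · rintro ⟨g, hg⟩
      obtain ⟨g', rfl⟩ := (baseHom.gp_bijective x rfl).2 g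
      refine ⟨⟨g', ?_⟩, rfl⟩
      have h1 : baseIncl ≫ ((baseHom.φ ≫ y) ≫ f) = baseIncl ≫ (baseHom.φ ≫ x) :=
        congrArg (baseIncl ≫ ·) hg
      simpa only [← Category.assoc, baseIncl_comp, Category.id_comp] using h1
  · refine ⟨2, ?_⟩
    intro S x
    refine ⟨Ideal.span {x.hom base₁.e}, ?_, ?_⟩
    · rw [Ideal.span_singleton_pow, pow_two, ← map_mul, base₁.sq, map_zero, Ideal.span_singleton_eq_bot]
    · intro B f
      rw [Ideal.span_singleton_le_iff_mem, RingHom.mem_ker]
      constructor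
      · rintro ⟨z, ⟨g, hg⟩⟩
        have h1 : (x ≫ f).hom base₁.e = (baseHom.φ ≫ z).hom base₁.e :=
          congrArg (fun s => s.hom base₁.e) hg
        have h2 : (baseHom.φ ≫ z).hom base₁.e = 0 := by
          change z.hom (baseHom.φ.hom base₁.e) = 0
          rw [baseHom.map_e]
          exact map_zero z.hom
        exact h1.trans h2
      · intro hf
        refine ⟨baseIncl ≫ (x ≫ f), ⟨⟨0, ?_⟩⟩⟩
        exact (baseHom_comp_eq (x ≫ f) hf).symm

end TannakaNil
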