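import Pool.Agent.Helper10.Tannaka.Omega

/-!
# Sections of quasi-coherent sheaves, and the evaluation functors
-/

open CategoryTheory Opposite Limits MonoidalCategory TensorProduct

universe u v u' v'

namespace TannakaNil

variable {X : AffCat.{u, v}}

/-- The module of sections of `M` over the object `a` of the total category of `X`. -/
def Sec (M : QCoh X) (a : X.Tot) : Type := M.obj.obj (op a)

noncomputable instance (M : QCoh X) (a : X.Tot) : AddCommGroup (Sec M a) :=
  inferInstanceAs (AddCommGroup (M.obj.obj (op a)))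

noncomputable instance secModule (M : QCoh X) (a : X.Tot) : Module a.ring (Sec M a) :=
  inferInstanceAs (Module ((X.𝒪 ⋙ forget₂ CommRingCat.{0} RingCat.{0}).obj (op a))
    (M.obj.obj (op a)))

noncomputable instance secModule' (M : QCoh X) {A : CommRingCat.{0}} (x : X.Obj A) :
    Module A (Sec M ⟨A, x⟩) := secModule M ⟨A, x⟩

/-- Restriction of sections. -/
noncomputable def res (M : QCoh X) {a b : X.Tot} (φ : a ⟶ b) : Sec M b →ₛₗ[φ.1.hom] Sec M a :=
  M.obj.restrictₛₗ φ.op

lemma res_univ (M : QCoh X) {a b : X.Tot} (φ : a ⟶ b) :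
    Univ (A := b.ring) (B := a.ring) (res M φ) :=
  univ_of_isCartesian M.property φ.op

lemma res_id (M : QCoh X) (a : X.Tot) (m : Sec M a) : res M (𝟙 a) m = m :=
  ConcreteCategory.congr_hom (M.obj.presheaf.map_id (op a)) m

lemma res_comp (M : QCoh X) {a b c : X.Tot} (φ : a ⟶ b) (ψ : b ⟶ c) (m : Sec M c) :
    res M (φ ≫ ψ) m = res M φ (res M ψ m) :=
  M.obj.map_comp_apply ψ.op φ.op m

/-- The map on sections induced by a morphism of sheaves. -/
noncomputable def sec {M N : QCoh X} (f : M ⟶ N) (a : X.Tot) : Sec M a →ₗ[a.ring] Sec N a :=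
  (f.hom.app (op a)).hom

lemma sec_res {M N : QCoh X} (f : M ⟶ N) {a b : X.Tot} (φ : a ⟶ b) (m : Sec M b) :
    sec f a (res M φ m) = res N φ (sec f b m) :=
  PresheafOfModules.naturality_apply f.hom φ.op m

lemma sec_id (M : QCoh X) (a : X.Tot) : sec (𝟙 M) a = LinearMap.id := rfl

lemma sec_comp {M N P : QCoh X} (f : M ⟶ N) (g : N ⟶ P) (a : X.Tot) :
    sec (f ≫ g) a = (sec g a).comp (sec f a) := rfl

lemma sec_comp_apply {M N P : QCoh X} (f : M ⟶ N) (g : N ⟶ P) (a : X.Tot) (m : Sec M a) :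
    sec (f ≫ g) a m = sec g a (sec f a m) := rfl

lemma sec_id_apply (M : QCoh X) (a : X.Tot) (m : Sec M a) : sec (𝟙 M) a m = m := rfl

lemma sec_zero_apply {M N : QCoh X} (a : X.Tot) (m : Sec M a) : sec (0 : M ⟶ N) a m = 0 := rfl

lemma sec_add_apply {M N : QCoh X} (f g : M ⟶ N) (a : X.Tot) (m : Sec M a) :
    sec (f + g) a m = sec f a m + sec g a m := rfl

lemma sec_add {M N : QCoh X} (f g : M ⟶ N) (a : X.Tot) :
    sec (f + g) a = sec f a + sec g a := rfl

lemma sec_ext {M N : QCoh X} {f g : M ⟶ N} (h : ∀ a m, sec f a m = sec g a m) : f = g := by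
  apply ObjectProperty.hom_ext
  apply PresheafOfModules.hom_ext
  intro a
  ext m
  exact h a.unop m

/-- The tensor product of sections. -/
noncomputable def secTensor (M N : QCoh X) (a : X.Tot) :
    Sec M a ⊗[a.ring] Sec N a ≃ₗ[a.ring] Sec (M ⊗ N) a := LinearEquiv.refl _ _

/-- The sections of the structure sheaf. -/
noncomputable def secUnit (a : X.Tot) : a.ring ≃ₗ[a.ring] Sec (𝟙_ (QCoh X)) a :=
  LinearEquiv.refl _ _

/-- The tensor product of sections. -/
noncomputable def tm {M N : QCoh X} {a : X.Tot} (m : Sec M a) (n : Sec N a) : Sec (M ⊗ N) a :=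
  secTensor M N a (m ⊗ₜ n)

/-- The evaluation functor. -/
noncomputable def ev (a : X.Tot) : QCoh X ⥤ ModuleCat.{0} a.ring where
  obj M := ModuleCat.of a.ring (Sec M a)
  map f := ModuleCat.ofHom (sec f a)

noncomputable instance evMonoidal (a : X.Tot) : (ev a).Monoidal :=
  Functor.CoreMonoidal.toMonoidal
    { εIso := LinearEquiv.toModuleIso (secUnit a)
      μIso M N := LinearEquiv.toModuleIso (secTensor M N a)
      μIso_hom_natural_left _ _ := ModuleCat.MonoidalCategory.tensor_ext (fun _ _ ↦ rfl)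
      μIso_hom_natural_right _ _ := ModuleCat.MonoidalCategory.tensor_ext (fun _ _ ↦ rfl)
      associativity _ _ _ := ModuleCat.MonoidalCategory.tensor_ext₃' (fun _ _ _ ↦ rfl)
      left_unitality _ := ModuleCat.MonoidalCategory.tensor_ext (fun _ _ ↦ rfl)
      right_unitality _ := ModuleCat.MonoidalCategory.tensor_ext (fun _ _ ↦ rfl) }

noncomputable instance evBraided (a : X.Tot) : (ev a).Braided where
  braided _ _ := ModuleCat.MonoidalCategory.tensor_ext (fun _ _ ↦ rfl)

instance evAdditive (a : X.Tot) : (ev a).Additive where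
  map_add := rfl

open Functor.LaxMonoidal

lemma ev_ε (a : X.Tot) : (ε (ev a)).hom = (secUnit (X := X) a).toLinearMap := rfl

lemma ev_μ (a : X.Tot) (M N : QCoh X) :
    (μ (ev a) M N).hom = (secTensor M N a).toLinearMap := rfl

noncomputable instance evPreserves (a : X.Tot) : PreservesColimitsOfSize.{0, 0} (ev a) where
  preservesColimitsOfShape := ⟨fun {_} => ⟨fun {_} hc => ⟨by
    have h1 := isColimitOfPreserves ((IsQC X).ι) hc
    exact isColimitOfPreserves (PresheafOfModules.evaluation _ (op a)) h1⟩⟩⟩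

/-- The fibre functor given by a morphism `Spec A ⟶ X`. -/
noncomputable def evx {A : CommRingCat.{0}} (x : X.Obj A) : QCoh X ⥤ ModuleCat.{0} A :=
  ev (X := X) ⟨A, x⟩

noncomputable instance {A : CommRingCat.{0}} (x : X.Obj A) : (evx x).Braided :=
  evBraided ⟨A, x⟩

instance {A : CommRingCat.{0}} (x : X.Obj A) : (evx x).Additive :=
  evAdditive ⟨A, x⟩

noncomputable instance {A : CommRingCat.{0}} (x : X.Obj A) :
    PreservesColimitsOfSize.{0, 0} (evx x) :=
  evPreserves ⟨A, x⟩

section formulas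

variable {M N P Q : QCoh X} {a c : X.Tot}

@[elab_as_elim]
lemma sec_induction {p : Sec (M ⊗ N) a → Prop} (zero : p 0)
    (tmul : ∀ (m : Sec M a) (n : Sec N a), p (tm m n)) (add : ∀ x y, p x → p y → p (x + y))
    (x : Sec (M ⊗ N) a) : p x :=
  TensorProduct.induction_on (motive := p) x zero tmul add

@[simp] lemma sec_tensorHom (f : M ⟶ P) (g : N ⟶ Q) (m : Sec M a) (n : Sec N a) :
    sec (f ⊗ₘ g) a (tm m n) = tm (sec f a m) (sec g a n) := rfl

@[simp] lemma sec_whiskerRight (f : M ⟶ P) (m : Sec M a) (n : Sec N a) :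
    sec (f ▷ N) a (tm m n) = tm (sec f a m) n := rfl

@[simp] lemma sec_whiskerLeft (g : N ⟶ Q) (m : Sec M a) (n : Sec N a) :
    sec (M ◁ g) a (tm m n) = tm m (sec g a n) := rfl

@[simp] lemma sec_associator_hom (m : Sec M a) (n : Sec N a) (p : Sec P a) :
    sec (α_ M N P).hom a (tm (tm m n) p) = tm m (tm n p) := rfl

@[simp] lemma sec_associator_inv (m : Sec M a) (n : Sec N a) (p : Sec P a) :
    sec (α_ M N P).inv a (tm m (tm n p)) = tm (tm m n) p := rfl

@[simp] lemma sec_braiding (m : Sec M a) (n : Sec N a) :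
    sec (β_ M N).hom a (tm m n) = tm n m := rfl

@[simp] lemma sec_leftUnitor_hom (r : a.ring) (m : Sec M a) :
    sec (λ_ M).hom a (tm (secUnit a r) m) = r • m := rfl

@[simp] lemma sec_rightUnitor_hom (r : a.ring) (m : Sec M a) :
    sec (ρ_ M).hom a (tm m (secUnit a r)) = r • m := rfl

@[simp] lemma sec_leftUnitor_inv (m : Sec M a) :
    sec (λ_ M).inv a m = tm (secUnit a 1) m := rfl

@[simp] lemma sec_rightUnitor_inv (m : Sec M a) :
    sec (ρ_ M).inv a m = tm m (secUnit a 1) := rfl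

@[simp] lemma res_tm (φ : a ⟶ c) (m : Sec M c) (n : Sec N c) :
    res (M ⊗ N) φ (tm m n) = tm (res M φ m) (res N φ n) := rfl

@[simp] lemma res_secUnit (φ : a ⟶ c) (r : c.ring) :
    res (𝟙_ (QCoh X)) φ (secUnit c r) = secUnit a (φ.1.hom r) := rfl

end formulas

/-- Data defining a quasi-coherent sheaf. -/
structure SecData (X : AffCat.{u, v}) where
  S : X.Tot → Type
  [grp : ∀ a, AddCommGroup (S a)]
  [mod : ∀ a, Module a.ring (S a)]
  r : ∀ {a b : X.Tot} (φ : a ⟶ b), S b →ₛₗ[φ.1.hom] S a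
  r_id : ∀ (a : X.Tot) (m : S a), r (𝟙 a) m = m
  r_comp : ∀ {a b c : X.Tot} (φ : a ⟶ b) (ψ : b ⟶ c) (m : S c), r (φ ≫ ψ) m = r φ (r ψ m)
  r_univ : ∀ {a b : X.Tot} (φ : a ⟶ b), Univ (A := b.ring) (B := a.ring) (r φ)

attribute [instance] SecData.grp SecData.mod

instance (D : SecData X) (a : X.Totᵒᵖ) :
    Module ((X.𝒪 ⋙ forget₂ CommRingCat.{0} RingCat.{0}).obj a) (D.S a.unop) :=
  inferInstanceAs (Module a.unop.ring (D.S a.unop))

/-- The presheaf of modules attached to the data. -/
noncomputable def SecData.toPMod (D : SecData X) : PMod X where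
  obj a := ModuleCat.of ((X.𝒪 ⋙ forget₂ CommRingCat.{0} RingCat.{0}).obj a) (D.S a.unop)
  map {a c} φ := ModuleCat.ofHom
    (Y := (ModuleCat.restrictScalars ((X.𝒪 ⋙ forget₂ CommRingCat.{0} RingCat.{0}).map φ).hom).obj
      (ModuleCat.of ((X.𝒪 ⋙ forget₂ CommRingCat.{0} RingCat.{0}).obj c) (D.S c.unop)))
    { toFun := D.r φ.unop
      map_add' := (D.r φ.unop).map_add
      map_smul' := (D.r φ.unop).map_smulₛₗ }
  map_id a := by
    ext m
    exact D.r_id a.unop m
  map_comp φ ψ := by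
    ext m
    exact D.r_comp ψ.unop φ.unop m

/-- The quasi-coherent sheaf attached to the data. -/
noncomputable def SecData.toQCoh (D : SecData X) : QCoh X :=
  ⟨D.toPMod, by
    change IsCartesian _ _
    rw [isCartesian_iff]
    intro a c φ Q _ iQ g
    let _ : Module c.unop.ring Q := iQ
    exact D.r_univ φ.unop Q g⟩

/-- The sections of the sheaf attached to the data. -/
noncomputable def SecData.eq (D : SecData X) (a : X.Tot) : D.S a ≃ₗ[a.ring] Sec D.toQCoh a :=
  LinearEquiv.refl _ _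

lemma SecData.res_eq (D : SecData X) {a c : X.Tot} (φ : a ⟶ c) (m : D.S c) :
    res D.toQCoh φ (D.eq c m) = D.eq a (D.r φ m) := rfl

/-- Constructor for morphisms. -/
noncomputable def homMk {M N : QCoh X} (f : ∀ a : X.Tot, Sec M a →ₗ[a.ring] Sec N a)
    (h : ∀ {a c : X.Tot} (φ : a ⟶ c) (m : Sec M c), f a (res M φ m) = res N φ (f c m)) :
    M ⟶ N :=
  ObjectProperty.homMk
    { app := fun a => ModuleCat.ofHom (R := (X.𝒪 ⋙ forget₂ CommRingCat.{0} RingCat.{0}).obj a)
        (X := M.obj.obj a) (Y := N.obj.obj a) (f a.unop)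
      naturality := fun {a c} φ => by
        ext m
        exact h φ.unop m }

@[simp] lemma sec_homMk {M N : QCoh X} (f : ∀ a : X.Tot, Sec M a →ₗ[a.ring] Sec N a)
    (h : ∀ {a c : X.Tot} (φ : a ⟶ c) (m : Sec M c), f a (res M φ m) = res N φ (f c m))
    (a : X.Tot) : sec (homMk f h) a = f a := rfl

end TannakaNil
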