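import Pool.Agent.Helper10.Tannaka.Coord
import Pool.Agent.Helper10.Tannaka.Sec

/-!
# Some quasi-coherent sheaves on the classifying stack of `G₀`
-/

open CategoryTheory Opposite Limits MonoidalCategory TensorProduct Polynomial

namespace TannakaNil

open Base

section arrows

variable {b : Base}

/-- The object over `Spec A` given by `z`. -/
abbrev ob {A : CommRingCat.{0}} (z : b.R ⟶ A) : (bg b).Tot := ⟨A, z⟩

/-- The arrow given by a ring map and an element of `G`. -/
def arr {A C : CommRingCat.{0}} {x : b.R ⟶ A} {y : b.R ⟶ C} (f : C ⟶ A) (h : y ≫ f = x)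
    (g : Gp x) : ob x ⟶ ob y := ⟨f, ⟨g, h⟩⟩

lemma arr_eta {a c : (bg b).Tot} (φ : a ⟶ c) : φ = arr φ.1 φ.2.2 φ.2.1 := rfl

lemma arr_comp {A C D : CommRingCat.{0}} {x : b.R ⟶ A} {y : b.R ⟶ C} {w : b.R ⟶ D}
    (f : C ⟶ A) (h : y ≫ f = x) (g : Gp x) (f' : D ⟶ C) (h' : w ≫ f' = y) (g' : Gp y) :
    arr f h g ≫ arr f' h' g' = arr (f' ≫ f) (by rw [← Category.assoc, h', h])
      (g + Gp.map f h g') := rfl

lemma arr_id {A : CommRingCat.{0}} (x : b.R ⟶ A) :
    𝟙 (ob x) = arr (𝟙 A) (Category.comp_id x) 0 := rfl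

end arrows

section univ

variable {A B M N M' N' : Type} [CommRing A] [CommRing B] [AddCommGroup M] [AddCommGroup N]
  [Module A M] [Module A N] [AddCommGroup M'] [AddCommGroup N'] [Module B M'] [Module B N']
  {f : A →+* B}

lemma Univ.equiv {u : M →ₛₗ[f] M'} (hu : Univ u) (e : M' ≃ₗ[B] N') (v : M →ₛₗ[f] N')
    (hv : ∀ m, v m = e (u m)) : Univ v := by
  intro Q _ _ g
  obtain ⟨g', hg', hu'⟩ := hu Q g
  refine ⟨g'.comp e.symm.toLinearMap, ?_, ?_⟩
  · intro m
    rw [hv]
    simp [hg']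
  · intro g'' hg''
    have h1 := hu' (g''.comp e.toLinearMap) (fun m => by
      rw [← hg'' m, hv]; rfl)
    rw [← h1]
    ext x
    simp

lemma Univ.prod {u : M →ₛₗ[f] M'} {v : N →ₛₗ[f] N'} (hu : Univ u) (hv : Univ v)
    (w : M × N →ₛₗ[f] M' × N') (hw : ∀ m n, w (m, n) = (u m, v n)) : Univ w := by
  intro Q _ _ g
  obtain ⟨g₁, hg₁, hu₁⟩ := hu Q
    { toFun := fun m => g (m, 0)
      map_add' := fun m m' => by rw [← map_add]; simp
      map_smul' := fun r m => by rw [← map_smulₛₗ]; simp }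
  obtain ⟨g₂, hg₂, hu₂⟩ := hv Q
    { toFun := fun n => g (0, n)
      map_add' := fun m m' => by rw [← map_add]; simp
      map_smul' := fun r m => by rw [← map_smulₛₗ]; simp }
  refine ⟨g₁.coprod g₂, ?_, ?_⟩
  · rintro ⟨m, n⟩
    rw [hw, LinearMap.coprod_apply, hg₁, hg₂]
    change g (m, 0) + g (0, n) = g (m, n)
    rw [← map_add]
    simp
  · intro g'' hg''
    have e1 := hu₁ (g''.comp (LinearMap.inl B M' N')) (fun m => by
      change g'' (u m, 0) = g (m, 0)
      rw [← hg'', hw, map_zero])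
    have e2 := hu₂ (g''.comp (LinearMap.inr B M' N')) (fun n => by
      change g'' (0, v n) = g (0, n)
      rw [← hg'', hw, map_zero])
    rw [← e1, ← e2]
    ext x <;> simp

lemma Univ.of_basis {κ : Type} (b : Module.Basis κ A M) (b' : Module.Basis κ B M')
    (u : M →ₛₗ[f] M') (h : ∀ k, u (b k) = b' k) : Univ u := by
  intro Q _ _ g
  refine ⟨b'.constr ℕ (fun k => g (b k)), ?_, ?_⟩
  · intro m
    have h1 : (b'.constr ℕ (fun k => g (b k))).comp u = g := by
      apply b.ext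
      intro k
      rw [LinearMap.comp_apply, h, b'.constr_basis]
    exact congrArg (fun l => l m) h1
  · intro g'' hg''
    apply b'.ext
    intro k
    rw [b'.constr_basis, ← h, hg'']

lemma Univ.quot {I : Ideal A} {J : Ideal B} (h' : J ≤ I.map f)
    (u : (A ⧸ I) →ₛₗ[f] (B ⧸ J)) (hu : ∀ a, u (Ideal.Quotient.mk I a) = Ideal.Quotient.mk J (f a)) :
    Univ u := by
  intro Q _ _ g
  have hJ : J ≤ LinearMap.ker (LinearMap.toSpanSingleton B Q (g 1)) := by
    refine h'.trans ?_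
    rw [Ideal.map, Ideal.span_le]
    rintro _ ⟨i, hi, rfl⟩
    have h1 : f i • g 1 = g (i • 1) := (g.map_smulₛₗ i 1).symm
    have h2 : i • (1 : A ⧸ I) = 0 := by
      have h3 : i • (1 : A ⧸ I) = Ideal.Quotient.mk I i := by
        rw [Algebra.smul_def, mul_one]; rfl
      rw [h3, Ideal.Quotient.eq_zero_iff_mem]
      exact hi
    change f i • g 1 = 0
    rw [h1, h2, map_zero]
  refine ⟨Submodule.liftQ J (LinearMap.toSpanSingleton B Q (g 1)) hJ, ?_, ?_⟩
  · intro m
    obtain ⟨a, rfl⟩ := Ideal.Quotient.mk_surjective m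
    rw [hu]
    change f a • g 1 = _
    rw [← map_smulₛₗ]
    congr 1
    rw [Algebra.smul_def, mul_one]; rfl
  · intro g'' hg''
    refine LinearMap.ext fun x => ?_
    obtain ⟨x, rfl⟩ := Ideal.Quotient.mk_surjective x
    change _ = x • g 1
    have h1 : Ideal.Quotient.mk J x = x • u 1 := by
      have h2 : u 1 = Ideal.Quotient.mk J 1 := (hu 1).trans (by rw [map_one f])
      rw [h2, Algebra.smul_def, map_one, mul_one]; rfl
    rw [h1, map_smul, hg'']

end univ

/-- The classifying stack of `G₀`. -/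
noncomputable abbrev X0 : AffCat.{0, 0} := bg base₀

section objects

/-- The map on polynomials induced by a ring homomorphism. -/
noncomputable def pmap {A B : Type} [CommRing A] [CommRing B] (f : A →+* B) :
    A[X] →ₛₗ[f] B[X] where
  toFun p := p.map f
  map_add' _ _ := Polynomial.map_add _
  map_smul' r _ := Polynomial.map_smul _ r

lemma pmap_univ {A B : Type} [CommRing A] [CommRing B] (f : A →+* B) : Univ (pmap f) :=
  Univ.of_basis (Polynomial.basisMonomials A) (Polynomial.basisMonomials B) _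
    (fun k => by simp [pmap])

/-- The map on polynomials of bounded degree induced by a ring homomorphism. -/
noncomputable def pmapLT {A B : Type} [CommRing A] [CommRing B] (f : A →+* B) (n : ℕ) :
    degreeLT A n →ₛₗ[f] degreeLT B n where
  toFun p := ⟨(p : A[X]).map f, by
    have h := p.2
    rw [mem_degreeLT] at h ⊢
    exact (degree_map_le).trans_lt h⟩
  map_add' p q := Subtype.ext (Polynomial.map_add _)
  map_smul' r p := Subtype.ext (Polynomial.map_smul _ r)

lemma pmapLT_univ {A B : Type} [CommRing A] [CommRing B] (f : A →+* B) (n : ℕ) :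
    Univ (pmapLT f n) :=
  Univ.of_basis (degreeLT.basis A n) (degreeLT.basis B n) _
    (fun k => by
      apply Subtype.ext
      change (degreeLT.basis A n k : A[X]).map f = _
      rw [degreeLT.basis_val, degreeLT.basis_val]
      simp)

/-- The action of an arrow on polynomials. -/
noncomputable def polyMap {a c : X0.Tot} (φ : a ⟶ c) : c.ring[X] →ₛₗ[φ.1.hom] a.ring[X] where
  toFun p := taylor (yG a.pt φ.2.1) (p.map φ.1.hom)
  map_add' p q := by rw [Polynomial.map_add, map_add]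
  map_smul' r p := by
    rw [Polynomial.map_smul, map_smul]

lemma polyMap_apply {a c : X0.Tot} (φ : a ⟶ c) (p : c.ring[X]) :
    polyMap φ p = taylor (yG a.pt φ.2.1) (p.map φ.1.hom) := rfl

lemma polyMap_id (a : X0.Tot) (p : a.ring[X]) : polyMap (𝟙 a) p = p := by
  rw [polyMap_apply]
  change taylor (yG a.pt 0) (p.map (RingHom.id _)) = p
  rw [map_zero, taylor_zero, Polynomial.map_id]

lemma yG_comp {a c d : X0.Tot} (φ : a ⟶ c) (ψ : c ⟶ d) :
    yG a.pt (φ ≫ ψ).2.1 = yG a.pt φ.2.1 + φ.1.hom (yG c.pt ψ.2.1) := by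
  rw [← yG_map φ.1 φ.2.2, ← map_add]
  rfl

lemma polyMap_comp {a c d : X0.Tot} (φ : a ⟶ c) (ψ : c ⟶ d) (p : d.ring[X]) :
    polyMap (φ ≫ ψ) p = polyMap φ (polyMap ψ p) := by
  rw [polyMap_apply, polyMap_apply, polyMap_apply, yG_comp, map_taylor, taylor_taylor,
    Polynomial.map_map]
  rfl

lemma polyMap_mul {a c : X0.Tot} (φ : a ⟶ c) (p q : c.ring[X]) :
    polyMap φ (p * q) = polyMap φ p * polyMap φ q := by
  rw [polyMap_apply, Polynomial.map_mul, taylor_mul]; rfl

lemma polyMap_one {a c : X0.Tot} (φ : a ⟶ c) : polyMap φ (1 : c.ring[X]) = 1 := by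
  rw [polyMap_apply, Polynomial.map_one, taylor_one, map_one]

lemma polyMap_C {a c : X0.Tot} (φ : a ⟶ c) (r : c.ring) :
    polyMap φ (C r) = C (φ.1.hom r) := by
  rw [polyMap_apply, Polynomial.map_C, taylor_C]

lemma polyMap_X {a c : X0.Tot} (φ : a ⟶ c) :
    polyMap φ (X : c.ring[X]) = X + C (yG a.pt φ.2.1) := by
  rw [polyMap_apply, Polynomial.map_X, taylor_X]

lemma polyMap_univ {a c : X0.Tot} (φ : a ⟶ c) : Univ (A := c.ring) (B := a.ring)
    (polyMap φ) :=
  (pmap_univ φ.1.hom).equiv (taylorEquiv (yG a.pt φ.2.1)).toLinearEquiv _ (fun _ => rfl)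

/-- The algebra of polynomials in `y`. -/
noncomputable def dataO : SecData X0 where
  S a := a.ring[X]
  r φ := polyMap φ
  r_id a p := polyMap_id a p
  r_comp φ ψ p := polyMap_comp φ ψ p
  r_univ φ := polyMap_univ φ

lemma polyMap_mem {a c : X0.Tot} (φ : a ⟶ c) (i : ℕ) {p : c.ring[X]}
    (hp : p ∈ degreeLT c.ring (i + 1)) : polyMap φ p ∈ degreeLT a.ring (i + 1) := by
  rw [polyMap_apply, taylor_mem_degreeLT, mem_degreeLT]
  rw [mem_degreeLT] at hp
  exact (degree_map_le).trans_lt hp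

/-- The action of an arrow on polynomials of degree at most `i`. -/
noncomputable def polyMapLT {a c : X0.Tot} (φ : a ⟶ c) (i : ℕ) :
    degreeLT c.ring (i + 1) →ₛₗ[φ.1.hom] degreeLT a.ring (i + 1) where
  toFun p := ⟨polyMap φ p, polyMap_mem φ i p.2⟩
  map_add' p q := Subtype.ext ((polyMap φ).map_add p q)
  map_smul' r p := Subtype.ext ((polyMap φ).map_smulₛₗ r p)

/-- Polynomials in `y` of degree at most `i`. -/
noncomputable def dataQ (i : ℕ) : SecData X0 where
  S a := degreeLT a.ring (i + 1)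
  r φ := polyMapLT φ i
  r_id a p := Subtype.ext (polyMap_id a p)
  r_comp φ ψ p := Subtype.ext (polyMap_comp φ ψ p)
  r_univ {a _} φ :=
    (pmapLT_univ φ.1.hom (i + 1)).equiv (taylorLinearEquiv (yG a.pt φ.2.1) (i + 1)) _
      (fun _ => rfl)

/-- A ring homomorphism as a semilinear map. -/
def smap {A B : Type} [CommRing A] [CommRing B] (f : A →+* B) : A →ₛₗ[f] B where
  toFun := f
  map_add' := f.map_add
  map_smul' := f.map_mul

lemma smap_univ {A B : Type} [CommRing A] [CommRing B] (f : A →+* B) : Univ (smap f) :=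
  Univ.of_basis (Module.Basis.singleton Unit A) (Module.Basis.singleton Unit B) _
    (fun k => by simp [smap])

lemma smul_mk {A : CommRingCat.{0}} {z : base₀.R ⟶ A} {n : ℕ} (r : A) (x : A ⧸ tI z n) :
    r • x = Ideal.Quotient.mk _ r * x := Algebra.smul_def r x

/-- The action of an arrow on `A / t^n`. -/
noncomputable def kMap {a c : X0.Tot} (φ : a ⟶ c) (n : ℕ) :
    (c.ring ⧸ tI c.pt n) →ₛₗ[φ.1.hom] (a.ring ⧸ tI a.pt n) where
  toFun := qmap φ.1 φ.2.2 n
  map_add' := (qmap φ.1 φ.2.2 n).map_add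
  map_smul' r x := by
    rw [smul_mk, smul_mk, map_mul, qmap_mk]

lemma tI_le_map {A C : CommRingCat.{0}} {z : base₀.R ⟶ C} {z' : base₀.R ⟶ A} (f : C ⟶ A)
    (h : z ≫ f = z') (n : ℕ) : tI z' n ≤ (tI z n).map f.hom := by
  subst h
  rw [Ideal.span_singleton_le_iff_mem]
  have : tz (z ≫ f) ^ n = f.hom (tz z ^ n) := (map_pow f.hom _ _).symm
  rw [this]
  exact Ideal.mem_map_of_mem _ (Ideal.mem_span_singleton_self _)

lemma kMap_univ {a c : X0.Tot} (φ : a ⟶ c) (n : ℕ) : Univ (A := c.ring) (B := a.ring)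
    (kMap φ n) :=
  Univ.quot (tI_le_map φ.1 φ.2.2 n) _ (fun _ => rfl)

lemma kMap_id (a : X0.Tot) (n : ℕ) (x : a.ring ⧸ tI a.pt n) : kMap (𝟙 a) n x = x := by
  obtain ⟨x, rfl⟩ := Ideal.Quotient.mk_surjective x
  rfl

lemma kMap_comp {a c d : X0.Tot} (φ : a ⟶ c) (ψ : c ⟶ d) (n : ℕ) (x : d.ring ⧸ tI d.pt n) :
    kMap (φ ≫ ψ) n x = kMap φ n (kMap ψ n x) := by
  obtain ⟨x, rfl⟩ := Ideal.Quotient.mk_surjective x
  rfl

/-- The sheaf `𝒪 / t^n`. -/
noncomputable def dataK (n : ℕ) : SecData X0 where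
  S a := a.ring ⧸ tI a.pt n
  r φ := kMap φ n
  r_id a x := kMap_id a n x
  r_comp φ ψ x := kMap_comp φ ψ n x
  r_univ φ := kMap_univ φ n

/-- The action of an arrow on the sections of `L_n`. -/
noncomputable def lMap {a c : X0.Tot} (φ : a ⟶ c) (n : ℕ) :
    (c.ring ⧸ tI c.pt n) × c.ring →ₛₗ[φ.1.hom] (a.ring ⧸ tI a.pt n) × a.ring where
  toFun v := (kMap φ n v.1 + φ.1.hom v.2 • xG a.pt n φ.2.1, φ.1.hom v.2)
  map_add' v w := by
    ext
    · simp only [Prod.fst_add, Prod.snd_add, map_add, add_smul]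
      abel
    · simp
  map_smul' r v := by
    ext
    · simp only [Prod.smul_fst, Prod.smul_snd, smul_eq_mul, map_mul, mul_smul, map_smulₛₗ,
        smul_add]
    · simp

/-- The shear. -/
noncomputable def shear {A M : Type} [CommRing A] [AddCommGroup M] [Module A M] (m : M) :
    (M × A) ≃ₗ[A] (M × A) where
  toFun v := (v.1 + v.2 • m, v.2)
  map_add' v w := by
    ext
    · simp only [Prod.fst_add, Prod.snd_add, add_smul]; abel
    · simp
  map_smul' r v := by
    ext
    · simp only [Prod.smul_fst, Prod.smul_snd, smul_eq_mul, mul_smul, smul_add, RingHom.id_apply]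
    · simp
  invFun v := (v.1 - v.2 • m, v.2)
  left_inv v := by simp
  right_inv v := by simp

lemma lMap_univ {a c : X0.Tot} (φ : a ⟶ c) (n : ℕ) : Univ (A := c.ring) (B := a.ring)
    (lMap φ n) := by
  have h1 : Univ (A := c.ring) (B := a.ring) (M := (c.ring ⧸ tI c.pt n) × c.ring)
      (M' := (a.ring ⧸ tI a.pt n) × a.ring)
      { toFun := fun v => (kMap φ n v.1, smap φ.1.hom v.2)
        map_add' := fun v w => by ext <;> simp
        map_smul' := fun r v => Prod.ext (map_smulₛₗ _ r v.1) (map_smulₛₗ _ r v.2) } :=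
    (kMap_univ φ n).prod (smap_univ φ.1.hom) _ (fun _ _ => rfl)
  exact h1.equiv (shear (xG a.pt n φ.2.1)) _ (fun _ => rfl)

lemma xG_comp {a c d : X0.Tot} (φ : a ⟶ c) (ψ : c ⟶ d) (n : ℕ) :
    xG a.pt n (φ ≫ ψ).2.1 = xG a.pt n φ.2.1 + kMap φ n (xG c.pt n ψ.2.1) := by
  change _ = _ + qmap φ.1 φ.2.2 n _
  rw [← xG_map φ.1 φ.2.2, ← map_add]
  rfl

/-- The sheaf `L_n`, generated by `x` and `1` with `t^n 1 = 0`. -/
noncomputable def dataL (n : ℕ) : SecData X0 where
  S a := (a.ring ⧸ tI a.pt n) × a.ring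
  r φ := lMap φ n
  r_id a v := by
    refine Prod.ext ?_ rfl
    change kMap (𝟙 a) n v.1 + v.2 • xG a.pt n 0 = v.1
    rw [map_zero, smul_zero, add_zero]
    exact kMap_id a n v.1
  r_comp {a c d} φ ψ v := by
    refine Prod.ext ?_ rfl
    change kMap (φ ≫ ψ) n v.1 + φ.1.hom (ψ.1.hom v.2) • xG a.pt n (φ ≫ ψ).2.1 =
      kMap φ n (kMap ψ n v.1 + ψ.1.hom v.2 • xG c.pt n ψ.2.1) +
        φ.1.hom (ψ.1.hom v.2) • xG a.pt n φ.2.1
    rw [xG_comp, map_add, smul_add, map_smulₛₗ, kMap_comp]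
    abel
  r_univ φ := lMap_univ φ n

end objects

end TannakaNil
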