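import Mathlib

/-!
# Cocontinuous tensor functors
-/

open CategoryTheory Limits MonoidalCategory

namespace TannakaNil

/-- A cocontinuous tensor functor between symmetric monoidal additive categories: an additive,
(strong) symmetric monoidal functor which preserves all small colimits. -/
structure TensorFunctor (C D : Type*) [Category* C] [Category* D] [Preadditive C] [Preadditive D]
    [MonoidalCategory C] [MonoidalCategory D] [SymmetricCategory C] [SymmetricCategory D] where
  functor : C ⥤ D
  [braided : functor.Braided]
  [additive : functor.Additive]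
  [cocontinuous : PreservesColimitsOfSize.{0, 0} functor]

attribute [instance] TensorFunctor.braided TensorFunctor.additive TensorFunctor.cocontinuous

namespace TensorFunctor

variable {C D : Type*} [Category* C] [Category* D] [Preadditive C] [Preadditive D]
    [MonoidalCategory C] [MonoidalCategory D] [SymmetricCategory C] [SymmetricCategory D]

/-- Morphisms of cocontinuous tensor functors: all natural transformations compatible with the
monoidal structures. -/
@[ext]
structure Hom (F G : TensorFunctor C D) where
  hom : F.functor ⟶ G.functor
  [isMonoidal : NatTrans.IsMonoidal hom]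

attribute [instance] Hom.isMonoidal

/-- The identity morphisms. -/
abbrev Hom.one (F : TensorFunctor C D) : Hom F F := { hom := 𝟙 F.functor }

/-- The composition of morphisms. -/
abbrev Hom.mul {F G H : TensorFunctor C D} (α : Hom F G) (β : Hom G H) : Hom F H :=
  { hom := α.hom ≫ β.hom }

theorem Hom.one_mul {F G : TensorFunctor C D} (α : Hom F G) : Hom.mul (Hom.one F) α = α :=
  Hom.ext (Category.id_comp α.hom)

theorem Hom.mul_one {F G : TensorFunctor C D} (α : Hom F G) : Hom.mul α (Hom.one G) = α :=
  Hom.ext (Category.comp_id α.hom)

theorem Hom.mul_assoc {F G H K : TensorFunctor C D} (α : Hom F G) (β : Hom G H)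
    (γ : Hom H K) : Hom.mul (Hom.mul α β) γ = Hom.mul α (Hom.mul β γ) :=
  Hom.ext (Category.assoc α.hom β.hom γ.hom)

instance : Category (TensorFunctor C D) where
  Hom := Hom
  id := Hom.one
  comp := Hom.mul
  id_comp := Hom.one_mul
  comp_id := Hom.mul_one
  assoc := Hom.mul_assoc

@[simp] lemma id_hom (F : TensorFunctor C D) : Hom.hom (𝟙 F) = 𝟙 F.functor := rfl

@[simp] lemma comp_hom {F G H : TensorFunctor C D} (α : F ⟶ G) (β : G ⟶ H) :
    Hom.hom (α ≫ β) = Hom.hom α ≫ Hom.hom β := rfl

@[ext] lemma hom_ext {F G : TensorFunctor C D} {α β : F ⟶ G} (h : Hom.hom α = Hom.hom β) :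
    α = β := Hom.ext h

end TensorFunctor

end TannakaNil
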