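import Pool.Agent.Helper10.Tannaka.QCoh
import Pool.Agent.Helper10.Tannaka.TFun

/-!
# The Tannaka comparison functor
-/

open CategoryTheory Opposite Limits MonoidalCategory

universe u v u' v'

namespace TannakaNil


variable {T : AffCat.{u, v}} {X : AffCat.{u', v'}}

/-- The map on the sections of a presheaf of modules over the component of a 2-morphism. -/
noncomputable def Mor.sectionMap {F G : Mor T X} (θ : G ⟶ F) (M : PMod X) (t : T.Totᵒᵖ) :
    ((pullP F).obj M).obj t ⟶ ((pullP G).obj M).obj t :=
  ModuleCat.ofHom (R := (T.𝒪 ⋙ forget₂ CommRingCat.{0} RingCat.{0}).obj t)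
    (X := ((pullP F).obj M).obj t) (Y := ((pullP G).obj M).obj t)
    { toFun := fun m => M.map (Mor.arrow θ t.unop).op m
      map_add' := fun x y => map_add (M.map (Mor.arrow θ t.unop).op).hom x y
      map_smul' := fun r x => M.map_smul (Mor.arrow θ t.unop).op r x }

/-- The natural transformation between pullback functors of presheaves of modules induced by a
2-morphism. -/
noncomputable def pullMapP {F G : Mor T X} (θ : G ⟶ F) : pullP F ⟶ pullP G where
  app M :=
    { app := fun t => Mor.sectionMap θ M t
      naturality := fun {s t} φ => by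
        ext m
        have key : (F.tot.map φ.unop).op ≫ (Mor.arrow θ t.unop).op =
            (Mor.arrow θ s.unop).op ≫ (G.tot.map φ.unop).op := by
          rw [← op_comp, ← op_comp, Mor.arrow_naturality]
        have h1 := M.congr_map_apply key m
        rw [M.map_comp_apply, M.map_comp_apply] at h1
        exact h1 }
  naturality {M N} α := by
    apply PresheafOfModules.hom_ext
    intro t
    ext m
    exact (PresheafOfModules.naturality_apply α (Mor.arrow θ t.unop).op m).symm


lemma pullMapP_app_app {F G : Mor T X} (θ : G ⟶ F) (M : PMod X) (t : T.Totᵒᵖ) (m : M.obj (F.tot.op.obj t)) :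
    (((pullMapP θ).app M).app t).hom m = M.map (Mor.arrow θ t.unop).op m := rfl

open Functor.LaxMonoidal in
instance {F G : Mor T X} (θ : G ⟶ F) : NatTrans.IsMonoidal (pullMapP θ) where
  unit := by
    apply PresheafOfModules.hom_ext
    intro t
    ext
    exact (X.𝒪.map (Mor.arrow θ t.unop).op).hom.map_one
  tensor M N := by
    apply PresheafOfModules.hom_ext
    intro t
    exact ModuleCat.MonoidalCategory.tensor_ext (fun _ _ ↦ rfl)

/-- The natural transformation between pullback functors of quasi-coherent sheaves induced by a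
2-morphism: on the sheaf `M` and the object `t` of `T` it is the map `M (F t) → M (G t)` given by
the arrow `G t ⟶ F t`. -/
noncomputable def pullMap {F G : Mor T X} (θ : G ⟶ F) : pull F ⟶ pull G where
  app M := ObjectProperty.homMk ((pullMapP θ).app M.obj)
  naturality M N α := by
    apply ObjectProperty.hom_ext
    exact (pullMapP θ).naturality α.hom

instance {F G : Mor T X} (θ : G ⟶ F) : NatTrans.IsMonoidal (pullMap θ) where
  unit := by
    apply ObjectProperty.hom_ext
    exact NatTrans.IsMonoidal.unit (τ := Functor.whiskerLeft (IsQC X).ι (pullMapP θ))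
  tensor M N := by
    apply ObjectProperty.hom_ext
    exact NatTrans.IsMonoidal.tensor (τ := Functor.whiskerLeft (IsQC X).ι (pullMapP θ)) M N

lemma pullMap_id (F : Mor T X) : pullMap (𝟙 F) = 𝟙 (pull F) := by
  apply NatTrans.ext; funext M
  apply ObjectProperty.hom_ext
  apply PresheafOfModules.hom_ext
  intro t
  ext m
  exact ConcreteCategory.congr_hom (M.obj.presheaf.map_id (op (F.tot.obj t.unop))) m

lemma pullMap_comp {F G H : Mor T X} (θ : G ⟶ F) (θ' : H ⟶ G) :
    pullMap (θ' ≫ θ) = pullMap θ ≫ pullMap θ' := by
  apply NatTrans.ext; funext M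
  apply ObjectProperty.hom_ext
  apply PresheafOfModules.hom_ext
  intro t
  ext m
  have key : Mor.arrow (θ' ≫ θ) t.unop = Mor.arrow θ' t.unop ≫ Mor.arrow θ t.unop :=
    (AffCat.Tot.comp_mk (X := X) (a := H.tot.obj t.unop) (b := G.tot.obj t.unop)
      (c := F.tot.obj t.unop) (𝟙 _) (Mor.Hom.app θ' t.unop.pt) (𝟙 _) (Mor.Hom.app θ t.unop.pt)
      (𝟙 _) (Category.comp_id _)).symm
  have h1 := M.obj.congr_map_apply (congrArg Quiver.Hom.op key) m
  rw [op_comp, M.obj.map_comp_apply] at h1
  exact h1

/-- **The Tannaka comparison functor** `ω_X(T) : Hom(T, X) ⥤ Hom_{c⊗}(QCoh X, QCoh T)`,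
`F ↦ F^*`.  A 2-morphism `η : F ⟶ G` is sent to the natural transformation `F^* ⟶ G^*` whose
value on the sheaf `M` and the object `t` of `T` is the map `M (F t) → M (G t)` induced by the
arrow `η⁻¹ : G t ⟶ F t`. -/
noncomputable def tannaka (T : AffCat.{u, v}) (X : AffCat.{u', v'}) (hX : X.IsFibredInGroupoids) :
    Mor T X ⥤ TensorFunctor (QCoh X) (QCoh T) where
  obj F := { functor := pull F }
  map {F G} η :=
    have := hX.isIso η
    { hom := pullMap (inv η) }
  map_id F := by
    apply TensorFunctor.hom_ext
    change pullMap _ = 𝟙 _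
    rw [IsIso.inv_id, pullMap_id]
  map_comp {F G H} η η' := by
    have := hX.isIso η
    have := hX.isIso η'
    apply TensorFunctor.hom_ext
    change pullMap _ = pullMap _ ≫ pullMap _
    rw [IsIso.inv_comp, pullMap_comp]

end TannakaNil
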