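import Pool.Agent.Helper10.Tannaka.Adm

/-!
# Presentations by generators
-/

open CategoryTheory Opposite Limits MonoidalCategory TensorProduct Polynomial

namespace TannakaNil

open Base

/-- The index set of the canonical cover. -/
def Idx (M : QCoh X0) : Type := {p : Sec M oo × ℕ × ℕ // Adm M p.1 p.2.1 p.2.2}

/-- The family of generators. -/
noncomputable def Pf (M : QCoh X0) (p : Idx M) : QCoh X0 := Gn p.1.2.1 p.1.2.2

/-- The canonical cover. -/
noncomputable def PP (M : QCoh X0) : QCoh X0 := ∐ (Pf M)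

/-- The inclusion of a generator in the canonical cover. -/
noncomputable def ιP {M : QCoh X0} {m : Sec M oo} {n r : ℕ} (h : Adm M m n r) :
    Gn n r ⟶ PP M := Sigma.ι (Pf M) ⟨(m, n, r), h⟩

/-- The canonical projection. -/
noncomputable def πP (M : QCoh X0) : PP M ⟶ M := Sigma.desc (fun p : Idx M => p.2.fG)

lemma ιP_πP {M : QCoh X0} {m : Sec M oo} {n r : ℕ} (h : Adm M m n r) :
    ιP h ≫ πP M = h.fG := Sigma.ι_desc _ _

/-- The relations. -/
noncomputable def dP (M : QCoh X0) : PP (PP M) ⟶ PP M :=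
  Sigma.desc (fun q : Idx (PP M) => q.2.fG - ιP (q.2.map (πP M)))

lemma ιP_dP {M : QCoh X0} {v : Sec (PP M) oo} {n r : ℕ} (h : Adm (PP M) v n r) :
    ιP h ≫ dP M = h.fG - ιP (h.map (πP M)) := Sigma.ι_desc _ _

lemma dP_πP (M : QCoh X0) : dP M ≫ πP M = 0 := by
  apply Sigma.hom_ext
  rintro ⟨⟨v, n, r⟩, h⟩
  have h1 : ιP h ≫ dP M ≫ πP M = 0 := by
    rw [← Category.assoc, ιP_dP, Preadditive.sub_comp, ιP_πP, h.fG_map, sub_self]
  exact h1.trans (Limits.comp_zero).symm

lemma sec_sub_apply {M N : QCoh X0} (f g : M ⟶ N) (a : X0.Tot) (m : Sec M a) :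
    sec (f - g) a m = sec f a m - sec g a m := rfl

lemma ιP_congr {M : QCoh X0} {m m' : Sec M oo} {n r : ℕ} (h : Adm M m n r) (h' : Adm M m' n r)
    (e : m = m') : ιP h = ιP h' := by
  subst e
  rfl

lemma exact_dP_πP (M : QCoh X0) : Function.Exact (sec (dP M) oo) (sec (πP M) oo) := by
  intro v
  constructor
  · intro hv
    obtain ⟨n, r, h⟩ := exists_adm v
    refine ⟨sec (ιP h) oo (wG n r) - sec (ιP h.zero) oo (wG n r), ?_⟩
    rw [map_sub, ← sec_comp_apply, ← sec_comp_apply, ιP_dP, ιP_dP, sec_sub_apply,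
      sec_sub_apply, h.fG_w, h.zero.fG_w]
    have e : sec (πP M) oo v = sec (πP M) oo 0 := by rw [hv, map_zero]
    rw [ιP_congr (h.map (πP M)) (h.zero.map (πP M)) e]
    abel
  · rintro ⟨w, rfl⟩
    rw [← sec_comp_apply, dP_πP, sec_zero_apply]

lemma surjective_πP (M : QCoh X0) : Function.Surjective (sec (πP M) oo) := by
  intro m
  obtain ⟨n, r, h⟩ := exists_adm m
  exact ⟨sec (ιP h) oo (wG n r), by rw [← sec_comp_apply, ιP_πP, h.fG_w]⟩

/-- Every section comes from a generator. -/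
lemma exists_gen (M : QCoh X0) (m : Sec M oo) : ∃ (n r : ℕ) (f : Gn n r ⟶ M),
    sec f oo (wG n r) = m := by
  obtain ⟨n, r, h⟩ := exists_adm m
  exact ⟨n, r, h.fG, h.fG_w⟩

section iso

variable {D : Type*} [Category* D] (F F' : QCoh X0 ⥤ D) [PreservesColimitsOfSize.{0, 0} F]
  [PreservesColimitsOfSize.{0, 0} F'] (η : F ⟶ F')

lemma isIso_app_PP (h : ∀ n r, IsIso (η.app (Gn n r))) (M : QCoh X0) :
    IsIso (η.app (PP M)) := by
  have : ∀ j : Discrete (Idx M), IsIso (η.app ((Discrete.functor (Pf M)).obj j)) :=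
    fun j => h _ _
  exact isIso_app_of_isColimit F F' η (colimit.isColimit (Discrete.functor (Pf M))) this

/-- A transformation of cocontinuous functors is an isomorphism as soon as it is one at the
generators. -/
lemma isIso_of_generators (h : ∀ n r, IsIso (η.app (Gn n r))) (M : QCoh X0) :
    IsIso (η.app M) := by
  obtain ⟨w, ⟨hc⟩⟩ := isColimit_of_exact (dP M) (πP M) (exact_dP_πP M) (surjective_πP M)
  refine isIso_app_of_isColimit F F' η hc ?_
  rintro (_ | _)
  · exact isIso_app_PP F F' η h (PP M)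
  · exact isIso_app_PP F F' η h M

end iso

end TannakaNil
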