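import Pool.Agent.Helper10.Tannaka.DispCat
import Pool.Agent.Helper10.Tannaka.Cart
import Pool.Agent.Helper10.Tannaka.Lift

/-!
# Quasi-coherent sheaves on a category fibred over affine schemes, and pullback
-/

open CategoryTheory Opposite Limits MonoidalCategory

universe u v u' v'

namespace TannakaNil


/-- Presheaves of `𝒪`-modules on the total category of `X`. -/
abbrev PMod (X : AffCat.{u, v}) := PresheafOfModules.{0} (X.𝒪 ⋙ forget₂ CommRingCat.{0} RingCat.{0})

/-- The property of being a quasi-coherent sheaf: for every arrow `x ⟶ y` of the total category,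
lying over `Spec B ⟶ Spec A`, the map `M y → M x` exhibits the `B`-module `M x` as the extension
of scalars `B ⊗[A] M y`. -/
abbrev IsQC (X : AffCat.{u, v}) : ObjectProperty (PMod X) :=
  IsCartesian (X.𝒪 ⋙ forget₂ CommRingCat.{0} RingCat.{0})

/-- The category of quasi-coherent sheaves on `X`.  It is a full subcategory of the category of
presheaves of `𝒪`-modules on the total category, closed under tensor products and small
colimits. -/
abbrev QCoh (X : AffCat.{u, v}) := (IsQC X).FullSubcategory

section

variable {T : AffCat.{u, v}} {X : AffCat.{u', v'}} (F : Mor T X)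

/-- Pullback of presheaves of modules along a 1-morphism: restriction along the functor on
total categories. -/
noncomputable def pullP : PMod X ⥤ PMod T :=
  PresheafOfModules.pushforward₀OfCommRingCat F.tot X.𝒪

noncomputable instance : (pullP F).Monoidal :=
  inferInstanceAs (PresheafOfModules.pushforward₀OfCommRingCat F.tot X.𝒪).Monoidal

noncomputable instance : (pullP F).Braided where
  braided M N := by
    apply PresheafOfModules.hom_ext
    intro a
    exact ModuleCat.MonoidalCategory.tensor_ext (fun _ _ ↦ rfl)

instance : (pullP F).Additive where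
  map_add := rfl

lemma pullP_isQC (M : PMod X) (hM : IsQC X M) : IsQC T ((pullP F).obj M) := by
  intro a b φ Q g
  exact hM (F.tot.op.map φ) Q g

/-- Pullback of quasi-coherent sheaves along a 1-morphism `F : T ⟶ X`: it sends `M` to the
quasi-coherent sheaf `t ↦ M (F t)`. -/
noncomputable def pull : QCoh X ⥤ QCoh T :=
  (IsQC T).lift ((IsQC X).ι ⋙ pullP F) (fun M => pullP_isQC F M.obj M.property)

noncomputable instance : (pull F).Monoidal :=
  liftMonoidal (IsQC T) ((IsQC X).ι ⋙ pullP F) (fun M => pullP_isQC F M.obj M.property)


lemma pull_ε_hom : (Functor.LaxMonoidal.ε (pull F)).hom =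
    Functor.LaxMonoidal.ε ((IsQC X).ι ⋙ pullP F) := rfl

lemma pull_μ_hom (M N : QCoh X) : (Functor.LaxMonoidal.μ (pull F) M N).hom =
    Functor.LaxMonoidal.μ ((IsQC X).ι ⋙ pullP F) M N := rfl

noncomputable instance : (pull F).Braided where
  braided M N := by
    apply ObjectProperty.hom_ext
    exact Functor.LaxBraided.braided (F := (IsQC X).ι ⋙ pullP F) M N

instance : (pull F).Additive where
  map_add := rfl

instance : PreservesColimitsOfSize.{0, 0} (pullP F) where
  preservesColimitsOfShape := ⟨fun {_} => ⟨fun {_} hc => ⟨
    PresheafOfModules.evaluationJointlyReflectsColimits _ _ fun t =>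
      isColimitOfPreserves (PresheafOfModules.evaluation _ (F.tot.op.obj t)) hc⟩⟩⟩

instance : PreservesColimitsOfSize.{0, 0} (pull F) where
  preservesColimitsOfShape {J} _ := by
    have : PreservesColimitsOfShape J (pull F ⋙ (IsQC T).ι) :=
      inferInstanceAs (PreservesColimitsOfShape J ((IsQC X).ι ⋙ pullP F))
    exact preservesColimitsOfShape_of_reflects_of_preserves (pull F) (IsQC T).ι

end

end TannakaNil
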