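import Pool.Agent.Helper10.Tannaka.Full2
import Pool.Agent.Helper10.Tannaka.Formal
import Pool.Agent.Helper10.Tannaka.Geom

/-!
# The stack `X₀` is tensorial
-/

open CategoryTheory Opposite Limits MonoidalCategory

universe u v

namespace TannakaNil

/-- The classifying stack, as an algebraic stack. -/
noncomputable def BG (b : Base) : AlgStack.{0, 0} where
  toAffCat := bg b
  isStack := bg_isStack b
  diagonal x y := GeomBG.bg_diagonal b x y
  atlas := GeomBG.bg_atlas b

lemma BG_isQcqs (b : Base) : (BG b).IsQcqs :=
  ⟨fun x y => GeomBG.bg_diagonal_qcqs b x y, b.R, 𝟙 b.R, fun y => GeomBG.bg_atlas_one b y⟩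

/-- The comparison functor of `X₀` is an equivalence, for every `T`. -/
theorem X0_tensorial (T : AffCat.{u, v}) (h : X0.IsFibredInGroupoids) :
    (tannaka T X0 h).IsEquivalence :=
  tannaka_isEquivalence_of_local X0 h (fun f x y χ χ' h => X0_K1 f x y χ χ' h)
    (fun x y η => X0_K2 x y η) (fun F => X0_R F) T

end TannakaNil
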